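import Mathlib

/-!
# Module FIN: a holomorphic function on a domain minus a disc which decays at the boundary vanishes

PROOF. Let `E = g '' closedBall y r` (compact: `g` continuous), `W z = V z ^ 4` for `z ∈ S` and `W z = 0` for `z ∉ S`. STEP 1: `W` is complex differentiable at every point of `Eᶜ`. At `q ∉ S` (then `q ∉ E`, as `E ⊆ S`): for `w ∈ S` near `q`: `‖W w‖ = ‖V w‖ ^ 4 ≤ C ^ 4 ‖w - q‖ ^ 2`, for `w ∉ S` `W w = 0`, so `HasDerivAt W 0 q`
(`W w = O(‖w - q‖ ^ 2)`). At `w ∈ S \ E` (open set): `W = V ^ 4` near `w`, `V` differentiable there.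
STEP 2: let `A = g '' (ball y r' \ closedBall y r)`: preconnected (the annulus is preconnected: image of `(r, r') × ℝ` under `(s, t) ↦ y + s exp (t I)`; `g` continuous), `A ∩ E = ∅` (`g` injective), `A ⊆ S`. If `A` is empty nothing to prove. Let `a0 ∈ A`, `Q = connectedComponentIn Eᶜ a0`: open (`E` closed), preconnected, `A ⊆ Q`. CLAIM: `Q` is not contained in `S`: suppose `Q ⊆ S`. Then
`Q ∪ g '' ball y r'` is open (`g '' ball y r'` is open: injective holomorphic, open mapping), and closed: it is `Q ∪ E` (`g '' ball y r' = E ∪ A`, `A ⊆ Q`), and `closure Q ⊆ Q ∪ E` (a point of `closure Q` outside `E` is in `Eᶜ`, its component is open and meets `Q`, so it is `Q`). So it is the plane (`isClopen_iff`, nonempty), contained in `S` (`g '' ball y r' ⊆ S`): `S = univ`, contradiction.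
STEP 3: let `q ∈ Q`, `q ∉ S`. By `hiso` there are points `q' ≠ q`, `q' ∉ S` in every ball around `q`: `W q' = 0`: `W` vanishes frequently in `𝓝[≠] q`, `W` is analytic on the preconnected open set `Q` (`DifferentiableOn.analyticOnNhd`): `AnalyticOnNhd.eqOn_zero_of_preconnected_of_frequently_eq_zero`: `W = 0` on `Q ⊇ A`. So `V (g x) ^ 4 = 0` for `x` in the annulus (`g x ∈ S`).
-/

set_option autoImplicit false

open Filter Topology Polynomial Metric Set MeasureTheory
open scoped ContDiff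

namespace Pool.Agent.H76.SU



private theorem fin_ann (y : ℂ) {r r' : ℝ} (hr : 0 < r) :
    IsPreconnected (ball y r' \ closedBall y r) := by
  have h1 : IsPreconnected ((fun p : ℝ × ℝ => y + (p.1 : ℂ) * Complex.exp ((p.2 : ℂ) * Complex.I)) ''
      (Ioo r r' ×ˢ univ)) := by
    refine (isPreconnected_Ioo.prod isPreconnected_univ).image _ ?_
    apply Continuous.continuousOn
    fun_prop
  have h2 : (fun p : ℝ × ℝ => y + (p.1 : ℂ) * Complex.exp ((p.2 : ℂ) * Complex.I)) ''
      (Ioo r r' ×ˢ univ) = ball y r' \ closedBall y r := by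
    ext x
    constructor
    · rintro ⟨⟨s, t⟩, ⟨hs, -⟩, rfl⟩
      have hs1 : r < s := hs.1
      have hs2 : s < r' := hs.2
      have h3 : ‖y + (s : ℂ) * Complex.exp ((t : ℂ) * Complex.I) - y‖ = s := by
        rw [add_sub_cancel_left, norm_mul, Complex.norm_exp_ofReal_mul_I, mul_one,
          Complex.norm_real, Real.norm_eq_abs, abs_of_pos (hr.trans hs1)]
      constructor
      · rw [mem_ball, dist_eq_norm]
        show ‖y + (s : ℂ) * Complex.exp ((t : ℂ) * Complex.I) - y‖ < r'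
        rw [h3]
        exact hs2
      · rw [mem_closedBall, dist_eq_norm]
        show ¬ ‖y + (s : ℂ) * Complex.exp ((t : ℂ) * Complex.I) - y‖ ≤ r
        rw [h3]
        exact not_le.2 hs1
    · rintro ⟨hx1, hx2⟩
      rw [mem_ball, dist_eq_norm] at hx1
      rw [mem_closedBall, dist_eq_norm, not_le] at hx2
      refine ⟨(‖x - y‖, Complex.arg (x - y)), ⟨⟨hx2, hx1⟩, mem_univ _⟩, ?_⟩
      show y + ((‖x - y‖ : ℝ) : ℂ) * Complex.exp ((Complex.arg (x - y) : ℂ) * Complex.I) = x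
      rw [Complex.norm_mul_exp_arg_mul_I]
      ring
  rw [← h2]
  exact h1

private theorem fin_diff {S : Set ℂ} (hS : IsOpen S) {E : Set ℂ} (hE : IsClosed E) (hES : E ⊆ S)
    {V W : ℂ → ℂ} (hV : DifferentiableOn ℂ V (S \ E))
    (hd : ∀ q, q ∉ S → ∃ C : ℝ, ∀ w ∈ S, ‖w - q‖ ≤ 1 → ‖V w‖ ≤ C * √‖w - q‖)
    (hW1 : ∀ z ∈ S, W z = V z ^ 4) (hW2 : ∀ z, z ∉ S → W z = 0) :
    DifferentiableOn ℂ W Eᶜ := by
  intro q hq
  apply DifferentiableAt.differentiableWithinAt
  by_cases hqS : q ∈ S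
  · have hO : S \ E ∈ 𝓝 q := (hS.sdiff hE).mem_nhds ⟨hqS, hq⟩
    refine ((hV.differentiableAt hO).pow 4).congr_of_eventuallyEq ?_
    filter_upwards [hO] with z hz
    exact hW1 z hz.1
  · obtain ⟨C, hC⟩ := hd q hqS
    have h1 : W =O[𝓝 q] fun x => ‖x - q‖ ^ 2 := by
      refine Asymptotics.IsBigO.of_bound (C ^ 4) ?_
      filter_upwards [ball_mem_nhds q one_pos] with x hx
      rw [norm_pow, norm_norm]
      by_cases hxS : x ∈ S
      · rw [hW1 x hxS, norm_pow]
        have h2 := hC x hxS (by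
          rw [← dist_eq_norm]
          exact (mem_ball.1 hx).le)
        calc ‖V x‖ ^ 4 ≤ (C * √‖x - q‖) ^ 4 := pow_le_pow_left₀ (norm_nonneg _) h2 4
          _ = C ^ 4 * (√‖x - q‖ ^ 2) ^ 2 := by ring
          _ = C ^ 4 * ‖x - q‖ ^ 2 := by rw [Real.sq_sqrt (norm_nonneg _)]
      · rw [hW2 x hxS, norm_zero]
        positivity
    exact (h1.hasFDerivAt (by norm_num)).differentiableAt

theorem fin {S : Set ℂ} (hS : IsOpen S) (hne : S ≠ univ)
    (hiso : ∀ q, q ∉ S → ∀ ρ : ℝ, 0 < ρ → ∃ q' ∈ ball q ρ, q' ≠ q ∧ q' ∉ S) {g : ℂ → ℂ} {y : ℂ}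
    {r r' : ℝ} (hr : 0 < r) (hrr : r < r') (hg : DifferentiableOn ℂ g (ball y r'))
    (hi : InjOn g (ball y r')) (hgS : ∀ x ∈ ball y r', g x ∈ S) {V : ℂ → ℂ}
    (hV : DifferentiableOn ℂ V (S \ g '' closedBall y r))
    (hd : ∀ q, q ∉ S → ∃ C : ℝ, ∀ w ∈ S, ‖w - q‖ ≤ 1 → ‖V w‖ ≤ C * √‖w - q‖) :
    ∀ x ∈ ball y r', x ∉ closedBall y r → V (g x) = 0 := by
  classical
  intro x hx hxr
  have hsub : closedBall y r ⊆ ball y r' := closedBall_subset_ball hrr
  obtain ⟨E, hE⟩ : ∃ E : Set ℂ, E = g '' closedBall y r := ⟨_, rfl⟩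
  have hEc : IsCompact E := by
    rw [hE]
    exact (isCompact_closedBall y r).image_of_continuousOn (hg.continuousOn.mono hsub)
  have hEcl : IsClosed E := hEc.isClosed
  have hES : E ⊆ S := by
    rw [hE]
    rintro _ ⟨z, hz, rfl⟩
    exact hgS z (hsub hz)
  rw [← hE] at hV
  obtain ⟨W, hW⟩ : ∃ W : ℂ → ℂ, W = fun z => if z ∈ S then V z ^ 4 else 0 := ⟨_, rfl⟩
  have hW1 : ∀ z ∈ S, W z = V z ^ 4 := by
    intro z hz
    rw [hW]
    exact if_pos hz
  have hW2 : ∀ z, z ∉ S → W z = 0 := by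
    intro z hz
    rw [hW]
    exact if_neg hz
  have hWd : DifferentiableOn ℂ W Eᶜ := fin_diff hS hEcl hES hV hd hW1 hW2
  -- the annulus
  obtain ⟨A, hA⟩ : ∃ A : Set ℂ, A = g '' (ball y r' \ closedBall y r) := ⟨_, rfl⟩
  have hAp : IsPreconnected A := by
    rw [hA]
    exact (fin_ann y hr).image _ (hg.continuousOn.mono diff_subset)
  have hAE : A ⊆ Eᶜ := by
    rw [hA, hE]
    rintro _ ⟨z, ⟨hz1, hz2⟩, rfl⟩ ⟨z', hz', he⟩
    rw [hi (hsub hz') hz1 he] at hz'
    exact hz2 hz'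
  have hxA : g x ∈ A := by
    rw [hA]
    exact ⟨x, ⟨hx, hxr⟩, rfl⟩
  obtain ⟨Q, hQ⟩ : ∃ Q : Set ℂ, Q = connectedComponentIn Eᶜ (g x) := ⟨_, rfl⟩
  have hQo : IsOpen Q := by
    rw [hQ]
    exact hEcl.isOpen_compl.connectedComponentIn
  have hQp : IsPreconnected Q := by
    rw [hQ]
    exact isPreconnected_connectedComponentIn
  have hAQ : A ⊆ Q := by
    rw [hQ]
    exact hAp.subset_connectedComponentIn hxA hAE
  have hQE : Q ⊆ Eᶜ := by
    rw [hQ]
    exact connectedComponentIn_subset _ _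
  have hgo : IsOpen (g '' ball y r') := by
    rcases (hg.analyticOnNhd isOpen_ball).is_constant_or_isOpen
      (convex_ball y r').isPreconnected with h1 | h1
    · obtain ⟨w, hw⟩ := h1
      exfalso
      have hy : y ∈ ball y r' := mem_ball_self (hr.trans hrr)
      have h2 : x = y := hi hx hy ((hw x hx).trans (hw y hy).symm)
      apply hxr
      rw [h2]
      exact mem_closedBall_self hr.le
    · exact h1 _ Subset.rfl isOpen_ball
  have hXX : Q ∪ g '' ball y r' = Q ∪ E := by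
    apply Subset.antisymm
    · rintro z (hz | ⟨x', hx', rfl⟩)
      · exact Or.inl hz
      · by_cases hc : x' ∈ closedBall y r
        · right
          rw [hE]
          exact ⟨x', hc, rfl⟩
        · left
          apply hAQ
          rw [hA]
          exact ⟨x', ⟨hx', hc⟩, rfl⟩
    · refine union_subset_union_right Q ?_
      rw [hE]
      exact image_mono hsub
  have hQcl : closure Q ⊆ Q ∪ E := by
    intro z hz
    by_cases hzE : z ∈ E
    · exact Or.inr hzE
    · left
      have hO : connectedComponentIn Eᶜ z ∈ 𝓝 z :=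
        hEcl.isOpen_compl.connectedComponentIn.mem_nhds (mem_connectedComponentIn hzE)
      obtain ⟨w, hw1, hw2⟩ := mem_closure_iff_nhds.1 hz _ hO
      have h1 := connectedComponentIn_eq hw1
      rw [hQ] at hw2
      have h2 := connectedComponentIn_eq hw2
      rw [hQ, h2, ← h1]
      exact mem_connectedComponentIn hzE
  obtain ⟨q, hqQ, hqS⟩ : ∃ q ∈ Q, q ∉ S := by
    by_contra hcon
    push Not at hcon
    apply hne
    have hcl : IsClopen (Q ∪ g '' ball y r') := by
      refine ⟨?_, hQo.union hgo⟩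
      rw [hXX]
      apply isClosed_of_closure_subset
      rw [closure_union, hEcl.closure_eq]
      exact union_subset hQcl subset_union_right
    have huniv := hcl.eq_univ ⟨g x, Or.inl (hAQ hxA)⟩
    apply eq_univ_of_univ_subset
    rw [← huniv]
    rintro z (hz | ⟨x', hx', rfl⟩)
    · exact hcon z hz
    · exact hgS x' hx'
  have hWa : AnalyticOnNhd ℂ W Q := (hWd.mono hQE).analyticOnNhd hQo
  have hfr : ∃ᶠ z in 𝓝[≠] q, W z = 0 := by
    rw [frequently_nhdsWithin_iff, Metric.nhds_basis_ball.frequently_iff]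
    intro ρ hρ
    obtain ⟨q', hq', hne', hqS'⟩ := hiso q hqS ρ hρ
    exact ⟨q', hq', hW2 q' hqS', hne'⟩
  have hz := hWa.eqOn_zero_of_preconnected_of_frequently_eq_zero hQp hqQ hfr (hAQ hxA)
  have h1 : V (g x) ^ 4 = 0 := by
    rw [← hW1 _ (hgS x hx)]
    exact hz
  exact pow_eq_zero_iff (by norm_num) |>.1 h1

end Pool.Agent.H76.SU
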