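import Pool.Agent.H76.SU.Defs
import Pool.Agent.H80.AJ.Distort

/-!
# Module GRO: grand orbit extension

PROOF. Write `f = gg a b`, `D = ball y r`. For `x : ℂ` call `(n, m)` admissible if `f^n x ∈ f^m '' D`. FACT 1: if `f^n x = f^m z` and `f^n' x = f^m' z'` with `z, z' ∈ D` then `z = z'`: let `n' ≤ n`; `f^n x = f^(m' + (n - n')) z'`; `f^m z ∈ U m`, `f^(m' + (n - n')) z' ∈ U (m' + (n - n'))`, so `m = m' + (n - n')` (`Wan.idx`) and `hinj m` gives `z = z'`.
Moreover then `m - n = m' - n'` (as integers). Let `Z x` be this unique `z` if there is an admissible pair, `Z x = y` otherwise, and `θ x = conj (ph (Dn m z)) * ph (Dn n x)` for an admissible pair `(n, m)`, `θ x = 0` if there is none. FACT 2: `θ x` does not depend on the pair: for `(n + k, m + k)`: `Dn (n + k) x = Dn k (f^n x) * Dn n x`, `Dn (m + k) z = Dn k (f^m z) * Dn m z` (`dn_add`),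
`f^n x = f^m z`, `ph (u w) = ph u * ph w`, `conj (ph u) * ph u = 1` for `u = Dn k (f^m z) ≠ 0` (`Wan.ne0`). `‖ph u‖ ≤ 1`. If `θ x ≠ 0` then `Dn n x ≠ 0`. For `x ∈ D`: the pair `(0, 0)`: `Z x = x`, `θ x = conj (ph 1) * ph 1 = 1`. Invariance: if `x` has an admissible pair, it has one with `n ≥ 1` (add one), `(n - 1, m)` is admissible for `f x` with the same `z`, and
`Dn n x = Dn (n - 1) (f x) * dg x` (`dn_succ'`), so `θ x = θ (f x) * ph (dg x)` and `Z (f x) = Z x`. If `x` has none then `f x` has none (`f^n (f x) = f^(n+1) x`), both sides are `0`.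
MEASURABILITY. `f^m '' D` is open and the inverse `q_m : f^m '' D → D` is continuous (`f^m` is injective and holomorphic on `D`, nonzero derivative `Wan.der`, `Wan.ne0`: open map). For a pair `k = (n, m)` the set `A_k = (f^n)⁻¹ (f^m '' D)` is measurable (`it_meas`), `Z = q_m ∘ f^n` on `A_k` and `θ = conj (ph (Dn m (q_m (f^n x)))) * ph (Dn n x)` on `A_k`:
measurable on `A_k` (extend `q_m` by `y` off the open set: measurable; `Dn m` and `ph` are measurable on the plane: quotients of polynomials, products of `dg ∘ f^k`). The plane is the countable union of the `A_k` and of the complement of their union (where `Z = y`, `θ = 0`): a function which is equal on each set of a countable measurable cover to a measurable function is measurable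
(preimage of a measurable set `T` = `⋃ k, A_k ∩ (measurable function)⁻¹ T`, countable union of measurable sets, together with the complement).
-/

set_option autoImplicit false

open Filter Topology Polynomial Metric Set MeasureTheory
open scoped ContDiff

namespace Pool.Agent.H76.SU

open Pool.Agent.H61.TT H73.BR

variable {a b : Polynomial ℂ} {U : ℕ → Set ℂ} {J : Set ℂ} {R : ℝ}

theorem gro_ph_mul (u w : ℂ) : ph (u * w) = ph u * ph w := by
  unfold ph
  rw [map_mul, mul_div_mul_comm]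

theorem gro_ph_norm {u : ℂ} (hu : u ≠ 0) : (starRingEnd ℂ) (ph u) * ph u = 1 := by
  unfold ph
  have h1 : (starRingEnd ℂ) u ≠ 0 := by
    intro h
    exact hu ((map_eq_zero _).1 h)
  rw [map_div₀, Complex.conj_conj]
  field_simp

theorem gro_ph_le (u : ℂ) : ‖ph u‖ ≤ 1 := by
  unfold ph
  rw [norm_div, Complex.norm_conj]
  exact div_self_le_one _

theorem gro_ph_meas : Measurable ph := by
  unfold ph
  exact Complex.continuous_conj.measurable.div measurable_id

theorem gro_dn_meas (n : ℕ) : Measurable (Dn a b n) := by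
  unfold Dn
  have h : Measurable (dg a b) := by
    unfold dg
    exact (ww a b).continuous.measurable.div (b.continuous.measurable.pow_const 2)
  exact Finset.measurable_prod _ fun k _ => h.comp (it_meas k)

private theorem gro_cover {g : ℂ → ℂ} (A : ℕ × ℕ → Set ℂ) (hA : ∀ p, MeasurableSet (A p))
    (G : ℕ × ℕ → ℂ → ℂ) (hG : ∀ p, Measurable (G p)) (hgA : ∀ p, ∀ x ∈ A p, g x = G p x) (c : ℂ)
    (hgc : ∀ x, (∀ p, x ∉ A p) → g x = c) : Measurable g := by
  intro T hT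
  have h1 : g ⁻¹' T = (⋃ p, (A p ∩ G p ⁻¹' T)) ∪ ((⋃ p, A p)ᶜ ∩ {_x : ℂ | c ∈ T}) := by
    ext x
    simp only [mem_preimage, mem_union, mem_iUnion, mem_inter_iff, mem_compl_iff, mem_setOf_eq,
      not_exists]
    constructor
    · intro hx
      by_cases h : ∃ p, x ∈ A p
      · obtain ⟨p, hp⟩ := h
        left
        exact ⟨p, hp, by rwa [← hgA p x hp]⟩
      · push Not at h
        right
        exact ⟨h, by rwa [← hgc x h]⟩
    · rintro (⟨p, hp, hx⟩ | ⟨h, hx⟩)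
      · rwa [hgA p x hp]
      · rwa [hgc x h]
  rw [h1]
  refine MeasurableSet.union (MeasurableSet.iUnion fun p => (hA p).inter (hG p hT))
    ((MeasurableSet.iUnion hA).compl.inter ?_)
  exact MeasurableSet.const _

/-- the inverse of `f^m` on the disc -/
private noncomputable def gq (a b : Polynomial ℂ) (y : ℂ) (r : ℝ) (m : ℕ) : ℂ → ℂ := by
  classical
  exact ((gg a b)^[m] '' ball y r).piecewise (Function.invFunOn (gg a b)^[m] (ball y r))
    (fun _ => y)

private theorem gq_spec {y : ℂ} {r : ℝ} {m : ℕ} {w : ℂ} (hw : w ∈ (gg a b)^[m] '' ball y r) :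
    gq a b y r m w ∈ ball y r ∧ (gg a b)^[m] (gq a b y r m w) = w := by
  classical
  unfold gq
  rw [Set.piecewise_eq_of_mem _ _ _ hw]
  obtain ⟨z, hz, hzw⟩ := hw
  exact ⟨Function.invFunOn_mem ⟨z, hz, hzw⟩, Function.invFunOn_eq ⟨z, hz, hzw⟩⟩

private theorem gq_strict (h : Wan a b U J R) {m : ℕ} {z : ℂ} (hz : z ∈ U 0) :
    map (gg a b)^[m] (𝓝 z) = 𝓝 ((gg a b)^[m] z) := by
  have h1 : AnalyticAt ℂ (gg a b)^[m] z :=
    (h.diff 0 m).analyticAt ((h.op 0).mem_nhds hz)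
  have h2 := h1.hasStrictDerivAt
  refine h2.map_nhds_eq ?_
  rw [(h.der m hz).deriv]
  exact h.ne0 m hz

private theorem gq_open (h : Wan a b U J R) {y : ℂ} {r : ℝ} (hU : ball y r ⊆ U 0) (m : ℕ) :
    IsOpen ((gg a b)^[m] '' ball y r) := by
  rw [isOpen_iff_mem_nhds]
  rintro _ ⟨z, hz, rfl⟩
  rw [← gq_strict h (hU hz)]
  exact image_mem_map (isOpen_ball.mem_nhds hz)

private theorem gq_meas (h : Wan a b U J R) {y : ℂ} {r : ℝ} (hU : ball y r ⊆ U 0)
    (hinj : ∀ n : ℕ, InjOn (gg a b)^[n] (ball y r)) (m : ℕ) : Measurable (gq a b y r m) := by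
  classical
  unfold gq
  refine ContinuousOn.measurable_piecewise ?_ continuousOn_const (gq_open h hU m).measurableSet
  rintro _ ⟨z, hz, rfl⟩
  refine ContinuousAt.continuousWithinAt ?_
  have h0 : ∀ z' ∈ ball y r, Function.invFunOn (gg a b)^[m] (ball y r) ((gg a b)^[m] z') = z' :=
    fun z' hz' => hinj m (Function.invFunOn_mem ⟨z', hz', rfl⟩) hz'
      (Function.invFunOn_eq ⟨z', hz', rfl⟩)
  unfold ContinuousAt
  rw [h0 z hz, ← gq_strict h (hU hz), tendsto_map'_iff]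
  refine Tendsto.congr' ?_ tendsto_id
  filter_upwards [isOpen_ball.mem_nhds hz] with z' hz'
  exact (h0 z' hz').symm

private theorem gro_uniq (h : Wan a b U J R) {y : ℂ} {r : ℝ} (hU : ball y r ⊆ U 0)
    (hinj : ∀ n : ℕ, InjOn (gg a b)^[n] (ball y r)) {x z z' : ℂ} {n m n' m' : ℕ} (hn : n' ≤ n)
    (hz : z ∈ ball y r) (hz' : z' ∈ ball y r) (h1 : (gg a b)^[n] x = (gg a b)^[m] z)
    (h2 : (gg a b)^[n'] x = (gg a b)^[m'] z') :
    z = z' ∧ (starRingEnd ℂ) (ph (Dn a b m z)) * ph (Dn a b n x) =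
      (starRingEnd ℂ) (ph (Dn a b m' z')) * ph (Dn a b n' x) := by
  obtain ⟨k, rfl⟩ : ∃ k, n = k + n' := ⟨n - n', by omega⟩
  have h3 : (gg a b)^[m] z = (gg a b)^[k + m'] z' := by
    rw [← h1, Function.iterate_add_apply, h2, ← Function.iterate_add_apply]
  have h4 : m = k + m' := h.idx (h.map0 m (hU hz)) (by
    rw [h3]
    exact h.map0 (k + m') (hU hz'))
  subst h4
  have h5 : z = z' := hinj _ hz hz' h3
  subst h5
  refine ⟨rfl, ?_⟩
  rw [dn_add k m' z, dn_add k n' x, h2, gro_ph_mul, gro_ph_mul, map_mul]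
  have h6 : Dn a b k ((gg a b)^[m'] z) ≠ 0 := h.ne0 k (h.map0 m' (hU hz))
  have h7 := gro_ph_norm h6
  linear_combination ((starRingEnd ℂ) (ph (Dn a b m' z)) * ph (Dn a b n' x)) * h7

theorem gro (h : Wan a b U J R) {y : ℂ} {r : ℝ} (hr : 0 < r) (hU : ball y r ⊆ U 0)
    (hinj : ∀ n : ℕ, InjOn (gg a b)^[n] (ball y r)) :
    ∃ Z θ : ℂ → ℂ, Measurable Z ∧ Measurable θ ∧ (∀ x, ‖θ x‖ ≤ 1) ∧
      (∀ x, θ x ≠ 0 → Z x ∈ ball y r ∧
        ∃ n m : ℕ, (gg a b)^[n] x = (gg a b)^[m] (Z x) ∧ Dn a b n x ≠ 0) ∧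
      (∀ x ∈ ball y r, θ x = 1 ∧ Z x = x) ∧ (∀ x, θ (gg a b x) * ph (dg a b x) = θ x) ∧
      ∀ x, θ x ≠ 0 → Z (gg a b x) = Z x := by
  classical
  obtain ⟨A, hA⟩ : ∃ A : ℕ × ℕ → Set ℂ, A = fun p =>
      (gg a b)^[p.1] ⁻¹' ((gg a b)^[p.2] '' ball y r) := ⟨_, rfl⟩
  have hAm : ∀ p, MeasurableSet (A p) := by
    intro p
    rw [hA]
    exact it_meas p.1 (gq_open h hU p.2).measurableSet
  obtain ⟨W, hW⟩ : ∃ W : ℕ × ℕ → ℂ → ℂ, W = fun p x => gq a b y r p.2 ((gg a b)^[p.1] x) := ⟨_, rfl⟩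
  obtain ⟨T, hT⟩ : ∃ T : ℕ × ℕ → ℂ → ℂ, T = fun p x =>
      (starRingEnd ℂ) (ph (Dn a b p.2 (W p x))) * ph (Dn a b p.1 x) := ⟨_, rfl⟩
  have hWs : ∀ p, ∀ x ∈ A p, W p x ∈ ball y r ∧ (gg a b)^[p.1] x = (gg a b)^[p.2] (W p x) := by
    intro p x hx
    rw [hA] at hx
    have h1 := gq_spec hx
    rw [hW]
    exact ⟨h1.1, h1.2.symm⟩
  have hun : ∀ p p', ∀ x ∈ A p, x ∈ A p' → W p x = W p' x ∧ T p x = T p' x := by
    intro p p' x hx hx'
    obtain ⟨h1, h2⟩ := hWs p x hx
    obtain ⟨h3, h4⟩ := hWs p' x hx'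
    rw [hT]
    rcases le_total p'.1 p.1 with hle | hle
    · exact gro_uniq h hU hinj hle h1 h3 h2 h4
    · obtain ⟨h5, h6⟩ := gro_uniq h hU hinj hle h3 h1 h4 h2
      exact ⟨h5.symm, h6.symm⟩
  have hWm : ∀ p, Measurable (W p) := by
    intro p
    rw [hW]
    exact (gq_meas h hU hinj p.2).comp (it_meas p.1)
  have hTm : ∀ p, Measurable (T p) := by
    intro p
    rw [hT]
    exact (Complex.continuous_conj.measurable.comp (gro_ph_meas.comp
      ((gro_dn_meas p.2).comp (hWm p)))).mul (gro_ph_meas.comp (gro_dn_meas p.1))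
  obtain ⟨Z, hZ⟩ : ∃ Z : ℂ → ℂ, Z = fun x => if hx : ∃ p, x ∈ A p then W hx.choose x else y :=
    ⟨_, rfl⟩
  obtain ⟨θ, hθ⟩ : ∃ θ : ℂ → ℂ, θ = fun x => if hx : ∃ p, x ∈ A p then T hx.choose x else 0 :=
    ⟨_, rfl⟩
  have hZA : ∀ p, ∀ x ∈ A p, Z x = W p x := by
    intro p x hx
    have he : ∃ p, x ∈ A p := ⟨p, hx⟩
    rw [hZ]
    simp only [dif_pos he]
    exact (hun _ _ x he.choose_spec hx).1
  have hθA : ∀ p, ∀ x ∈ A p, θ x = T p x := by
    intro p x hx
    have he : ∃ p, x ∈ A p := ⟨p, hx⟩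
    rw [hθ]
    simp only [dif_pos he]
    exact (hun _ _ x he.choose_spec hx).2
  have hZc : ∀ x, (∀ p, x ∉ A p) → Z x = y := by
    intro x hx
    rw [hZ]
    simp only
    rw [dif_neg]
    push Not
    exact hx
  have hθc : ∀ x, (∀ p, x ∉ A p) → θ x = 0 := by
    intro x hx
    rw [hθ]
    simp only
    rw [dif_neg]
    push Not
    exact hx
  have hmem : ∀ x, θ x ≠ 0 → ∃ p, x ∈ A p := by
    intro x hx
    by_contra hcon
    push Not at hcon
    exact hx (hθc x hcon)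
  -- raising the pair by one
  have hup : ∀ p, ∀ x ∈ A p, x ∈ A (p.1 + 1, p.2 + 1) ∧ gg a b x ∈ A (p.1, p.2 + 1) := by
    intro p x hx
    obtain ⟨h1, h2⟩ := hWs p x hx
    rw [hA]
    refine ⟨⟨W p x, h1, ?_⟩, ⟨W p x, h1, ?_⟩⟩
    · show (gg a b)^[p.2 + 1] (W p x) = (gg a b)^[p.1 + 1] x
      rw [Function.iterate_succ_apply', ← h2, Function.iterate_succ_apply']
    · show (gg a b)^[p.2 + 1] (W p x) = (gg a b)^[p.1] (gg a b x)
      rw [Function.iterate_succ_apply', ← h2, ← Function.iterate_succ_apply,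
        Function.iterate_succ_apply']
  have hWe : ∀ n k x, W (n, k) (gg a b x) = W (n + 1, k) x := by
    intro n k x
    rw [hW]
    rfl
  refine ⟨Z, θ, gro_cover A hAm W hWm hZA y hZc, gro_cover A hAm T hTm hθA 0 hθc, ?_, ?_, ?_, ?_, ?_⟩
  · intro x
    by_cases hx : ∃ p, x ∈ A p
    · obtain ⟨p, hp⟩ := hx
      rw [hθA p x hp, hT]
      simp only
      rw [norm_mul, Complex.norm_conj]
      exact mul_le_one₀ (gro_ph_le _) (norm_nonneg _) (gro_ph_le _)
    · push Not at hx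
      rw [hθc x hx, norm_zero]
      exact zero_le_one
  · intro x hx
    obtain ⟨p, hp⟩ := hmem x hx
    obtain ⟨h1, h2⟩ := hWs p x hp
    rw [hZA p x hp]
    refine ⟨h1, p.1, p.2, h2, ?_⟩
    intro h0
    apply hx
    rw [hθA p x hp, hT]
    simp only
    rw [h0]
    unfold ph
    simp
  · intro x hx
    have h0 : x ∈ A (0, 0) := by
      rw [hA]
      exact ⟨x, hx, rfl⟩
    have h1 : W (0, 0) x = x := by
      have h2 := (hWs (0, 0) x h0).2
      exact h2.symm
    rw [hθA _ x h0, hZA _ x h0, h1]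
    refine ⟨?_, rfl⟩
    rw [hT]
    simp only
    rw [dn_zero, dn_zero]
    exact gro_ph_norm one_ne_zero
  · intro x
    by_cases hx : ∃ p, x ∈ A p
    · obtain ⟨p, hp⟩ := hx
      obtain ⟨h1, h2⟩ := hup p x hp
      rw [hθA _ _ h2, hθA _ _ h1, hT]
      simp only
      rw [hWe, dn_succ' p.1 x, gro_ph_mul]
      ring
    · push Not at hx
      have h1 : ∀ p, gg a b x ∉ A p := by
        intro p hp
        apply hx (p.1 + 1, p.2)
        rw [hA] at hp ⊢
        exact hp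
      rw [hθc x hx, hθc _ h1, zero_mul]
  · intro x hx
    obtain ⟨p, hp⟩ := hmem x hx
    obtain ⟨h1, h2⟩ := hup p x hp
    rw [hZA _ _ h2, hZA _ _ h1, hWe]

end Pool.Agent.H76.SU
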