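import Pool.Agent.H76.SU.CTW

/-!
# Module MOM: if the Cauchy transform vanishes around the disc then the coefficient vanishes

PROOF. Choose `r < r1 < r2 < r'` and a `ContDiffBump` `χ` at `y` with radii `r1, r2` (`= 1` on `closedBall y r1`, support in `closedBall y r2`). Test function `φ x = (x - y) ^ k * χ x`, `k < N`. `ctw`: `∫ Ct m * db φ = - ∫ m * φ`. Left: `db φ x = (x - y) ^ k * db χ x` (`(x - y) ^ k` is holomorphic), `db χ = 0` on `ball y r1`
and outside `closedBall y r2`, and `Ct m = 0` on `ball y r' \ closedBall y r` (`h3`), so the integrand is `0` everywhere (for `‖x - y‖ < r1`: `db χ = 0`; for `r < ‖x - y‖ < r'`: `Ct m = 0`; else `db χ = 0`). Right: `m * φ` vanishes off `ball y r` (`h2`; off `ball y r'` `χ = 0`), and `χ = 1` on it. So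
`∫_(ball y r) (∑ j, c j * conj (x - y) ^ j) * (x - y) ^ k dx = 0` for all `k < N`. Let `P x = ∑ j, c j * conj (x - y) ^ j`; multiply by `conj (c k)` and sum: `∫_(ball y r) P x * conj (P x) = 0`, i.e. `∫_(ball y r) ‖P‖ ^ 2 = 0`. `P` is continuous, so `P = 0` on `ball y r` (`Continuous.ae_eq_iff_eq` on open sets,
or `setIntegral_eq_zero_iff_of_nonneg_ae` and density). Then the polynomial `∑ conj (c j) X ^ j` vanishes at all points `x - y`, `x ∈ ball y r` (take the conjugate), infinitely many, so all `c j = 0` (`Polynomial.eq_zero_of_infinite_isRoot`, coefficients).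
-/

set_option autoImplicit false

open Filter Topology Polynomial Metric Set MeasureTheory
open scoped ContDiff

namespace Pool.Agent.H76.SU

open Pool.Agent.H61.TT H73.BR

private theorem db_congr {F G : ℂ → ℂ} {z : ℂ} (h : F =ᶠ[𝓝 z] G) : db F z = db G z := by
  unfold db
  rw [h.fderiv_eq]

theorem mom {B R : ℝ} {m : ℂ → ℂ} (hm : Bm B R m) {N : ℕ} {c : ℕ → ℂ} {y : ℂ} {r r' : ℝ}
    (hr : 0 < r) (hrr : r < r')
    (h1 : ∀ x ∈ ball y r, m x = ∑ j ∈ Finset.range N, c j * (starRingEnd ℂ) (x - y) ^ j)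
    (h2 : ∀ x ∈ ball y r', x ∉ ball y r → m x = 0)
    (h3 : ∀ x ∈ ball y r', x ∉ closedBall y r → Ct m x = 0) : ∀ j < N, c j = 0 := by
  obtain ⟨r1, hr1, hr1'⟩ := exists_between hrr
  obtain ⟨r2, hr2, hr2'⟩ := exists_between hr1'
  obtain ⟨χ, hχ1, hχ2⟩ : ∃ χ : ContDiffBump y, χ.rIn = r1 ∧ χ.rOut = r2 :=
    ⟨⟨r1, r2, by linarith, hr2⟩, rfl, rfl⟩
  obtain ⟨P, hP⟩ : ∃ P : ℂ → ℂ, P = fun x => ∑ j ∈ Finset.range N, c j * (starRingEnd ℂ) (x - y) ^ j := ⟨_, rfl⟩
  have hPc : Continuous P := by
    rw [hP]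
    fun_prop
  have hmom : ∀ k : ℕ, ∫ x in ball y r, P x * (x - y) ^ k = 0 := by
    intro k
    obtain ⟨φ, hφ⟩ : ∃ φ : ℂ → ℂ, φ = fun x => (x - y) ^ k * ((χ x : ℝ) : ℂ) := ⟨_, rfl⟩
    have hφs : ContDiff ℝ ∞ φ := by
      rw [hφ]
      exact ((contDiff_id.sub contDiff_const).pow k).mul (Complex.ofRealCLM.contDiff.comp χ.contDiff)
    have hφc : HasCompactSupport φ := by
      rw [hφ]
      exact (χ.hasCompactSupport.comp_left (g := fun t : ℝ => (t : ℂ)) Complex.ofReal_zero).mul_left
    have h4 := ctw hm hφs hφc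
    have h5 : ∀ z, Ct m z * db φ z = 0 := by
      intro z
      rcases lt_or_ge (dist z y) r1 with hz | hz
      · have h6 : φ =ᶠ[𝓝 z] fun x => (x - y) ^ k := by
          filter_upwards [isOpen_ball.mem_nhds (mem_ball.2 hz)] with x hx
          rw [hφ]
          have h7 : χ x = 1 := χ.one_of_mem_closedBall (by rw [hχ1]; exact ball_subset_closedBall hx)
          simp only [h7, Complex.ofReal_one, mul_one]
        have h7 : HasDerivAt (fun x : ℂ => (x - y) ^ k) (deriv (fun x : ℂ => (x - y) ^ k) z) z := by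
          apply DifferentiableAt.hasDerivAt
          fun_prop
        rw [db_congr h6, (db_of_hol h7).1, mul_zero]
      · rcases lt_or_ge r2 (dist z y) with hz2 | hz2
        · have h6 : φ =ᶠ[𝓝 z] fun _ => 0 := by
            have h7 : {x : ℂ | r2 < dist x y} ∈ 𝓝 z :=
              (isOpen_lt continuous_const (continuous_id.dist continuous_const)).mem_nhds hz2
            filter_upwards [h7] with x hx
            rw [hφ]
            have h8 : χ x = 0 := χ.zero_of_le_dist (by rw [hχ2]; exact (le_of_lt hx))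
            simp only [h8, Complex.ofReal_zero, mul_zero]
          rw [db_congr h6, db_const, mul_zero]
        · rw [h3 z (mem_ball.2 (by linarith)) (by rw [mem_closedBall]; linarith), zero_mul]
    rw [integral_congr_ae (Eventually.of_forall h5), integral_zero] at h4
    have h6 : ∫ z, m z * φ z = 0 := by
      rw [← neg_eq_zero]
      exact h4.symm
    rw [← integral_indicator measurableSet_ball, ← h6]
    congr 1
    funext x
    by_cases hx : x ∈ ball y r
    · rw [indicator_of_mem hx, h1 x hx, hφ, hP]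
      have h7 : χ x = 1 := χ.one_of_mem_closedBall (by
        rw [hχ1, mem_closedBall]
        rw [mem_ball] at hx
        linarith)
      simp only [h7, Complex.ofReal_one, mul_one]
    · rw [indicator_of_notMem hx]
      by_cases hx' : x ∈ ball y r'
      · rw [h2 x hx' hx, zero_mul]
      · rw [hφ]
        have h7 : χ x = 0 := χ.zero_of_le_dist (by
          rw [hχ2]
          rw [mem_ball, not_lt] at hx'
          linarith)
        simp only [h7, Complex.ofReal_zero, mul_zero]
  have hfin : IsFiniteMeasure (volume.restrict (ball y r)) :=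
    ⟨by rw [Measure.restrict_apply_univ]; exact measure_ball_lt_top⟩
  have hint : ∀ G : ℂ → ℂ, Continuous G → IntegrableOn G (ball y r) := fun G hG =>
    (hG.continuousOn.integrableOn_compact (isCompact_closedBall y r)).mono_set ball_subset_closedBall
  have hsq : ∫ x in ball y r, ((‖P x‖ ^ 2 : ℝ) : ℂ) = 0 := by
    have h4 : ∀ x, ((‖P x‖ ^ 2 : ℝ) : ℂ) = ∑ k ∈ Finset.range N, (starRingEnd ℂ) (c k) * (P x * (x - y) ^ k) := by
      intro x
      have h5 : ((‖P x‖ ^ 2 : ℝ) : ℂ) = P x * (starRingEnd ℂ) (P x) := by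
        rw [Complex.mul_conj, Complex.normSq_eq_norm_sq]
      have h6 : (starRingEnd ℂ) (P x) = ∑ k ∈ Finset.range N, (starRingEnd ℂ) (c k) * (x - y) ^ k := by
        rw [hP]
        simp only [map_sum, map_mul, map_pow, Complex.conj_conj]
      rw [h5, h6, Finset.mul_sum]
      refine Finset.sum_congr rfl fun k _ => ?_
      ring
    simp only [h4]
    rw [integral_finset_sum]
    · refine Finset.sum_eq_zero fun k _ => ?_
      rw [integral_const_mul, hmom k, mul_zero]
    · intro k _
      apply hint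
      fun_prop
  have hsqR : ∫ x in ball y r, ‖P x‖ ^ 2 = 0 := by
    rw [integral_complex_ofReal] at hsq
    exact_mod_cast hsq
  have hintR : IntegrableOn (fun x => ‖P x‖ ^ 2) (ball y r) := by
    have h4 : Continuous (fun x => ‖P x‖ ^ 2) := by fun_prop
    exact (h4.continuousOn.integrableOn_compact (isCompact_closedBall y r)).mono_set ball_subset_closedBall
  have hae : (fun x => ‖P x‖ ^ 2) =ᵐ[volume.restrict (ball y r)] 0 := by
    rw [← integral_eq_zero_iff_of_nonneg (fun x => by positivity) hintR]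
    exact hsqR
  have heq : EqOn (fun x => ‖P x‖ ^ 2) (fun _ => (0 : ℝ)) (ball y r) :=
    Measure.eqOn_open_of_ae_eq hae isOpen_ball (by fun_prop) continuousOn_const
  obtain ⟨Q, hQ⟩ : ∃ Q : Polynomial ℂ, Q = ∑ j ∈ Finset.range N, C (c j) * X ^ j := ⟨_, rfl⟩
  have hroot : ∀ w ∈ ball (0 : ℂ) r, Q.IsRoot w := by
    intro w hw
    rw [mem_ball_zero_iff] at hw
    have h4 : y + (starRingEnd ℂ) w ∈ ball y r := by
      rw [mem_ball, dist_eq_norm, add_sub_cancel_left, Complex.norm_conj]
      exact hw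
    have h5 : ‖P (y + (starRingEnd ℂ) w)‖ ^ 2 = 0 := heq h4
    have h6 : P (y + (starRingEnd ℂ) w) = 0 := by
      rw [← norm_eq_zero]
      exact pow_eq_zero_iff (by norm_num) |>.1 h5
    rw [IsRoot.def, hQ, eval_finset_sum]
    rw [hP] at h6
    simp only [add_sub_cancel_left, Complex.conj_conj] at h6
    rw [← h6]
    refine Finset.sum_congr rfl fun j _ => ?_
    simp
  have hQ0 : Q = 0 := by
    apply Polynomial.eq_zero_of_infinite_isRoot
    exact (infinite_of_mem_nhds (0 : ℂ) (ball_mem_nhds 0 hr)).mono fun w hw => hroot w hw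
  intro j hj
  have h4 : Q.coeff j = c j := by
    rw [hQ, finset_sum_coeff]
    simp only [coeff_C_mul, coeff_X_pow, mul_ite, mul_one, mul_zero]
    rw [Finset.sum_ite_eq, if_pos (Finset.mem_range.2 hj)]
  rw [← h4, hQ0, coeff_zero]

end Pool.Agent.H76.SU
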