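import Pool.Agent.H76.SU.GLI

/-!
# Module SNE: the limit domain is not the plane and its complement has no isolated points

PROOFS. `sh_ne`: suppose `Sh = univ`, then `Jh` is empty (`sh_sub`). Let `t = 32 * (R + 1)`. `jh_cpt` for `L = closedBall 0 t`: for some `n` (indeed almost all; `UU` is `NeBot`) `ball 0 t` is disjoint from `Jn n`. `lft_gn` with `x = y` (`gn n y = 0`): `G` injective and holomorphic on `ball 0 t`, `G 0 = y`, `G w ∈ U 0`, `gn n (G w) = w`, so `deriv G 0 = 1` (`deriv (gn n) y = 1`, chain rule).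
`univ_cover`: `ball y (t / 16) ⊆ G '' ball 0 t ⊆ U 0 ⊆ ball 0 R`: but `y + t / 32` and `y - t / 32` are in the ball, and one of them has norm `≥ t / 32 > R` (their difference has norm `t / 16`, so if both have norm `< R` then `t / 16 < 2 R`). Contradiction.
`sh_iso`: suppose `ball q ρ ∩ Shᶜ = {q}` (i.e. all `q' ∈ ball q ρ`, `q' ≠ q` are in `Sh`). Then `q ∈ Jh`: otherwise `jh_not` gives a ball `ball q ρ'` (`ρ' ≤ ρ`) disjoint from `Jh` (a point `w' ∈ Jh ∩ ball q ρ'` would give points of `Jn n` in `ball q ρ'`), connected, meets `Sh`, so `q ∈ Sh` by `sh_add`: contradiction. Let `ε = ρ / 2`, `L = sphere q ε ⊆ Sh` compact. `gli`: `K` compact preconnected,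
`L ⊆ gn n '' K` for almost all `n`. `hun` and `uu_le`: `hull (f^n '' K) ⊆ U n` for almost all `n`. `q ∈ Jh`: for almost all `n` there is `w' ∈ ball q ε ∩ Jn n`. Take such an `n`: `An` maps `sphere q ε` onto the sphere `S = sphere (An q) (‖Dn n y‖ ε)`, and `S ⊆ f^n '' K` (`An (gn n x) = f^n x`). `An w' ∈ ball (An q) (‖Dn n y‖ ε) ⊆ hull S ⊆ hull (f^n '' K) ⊆ U n`
(`hul_sph`, `hul_mono`), but `An w' ∈ J`: contradiction (`Jd`).
-/

set_option autoImplicit false

open Filter Topology Polynomial Metric Set MeasureTheory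
open scoped ContDiff

namespace Pool.Agent.H76.SU

open Pool.Agent.H61.TT H73.BR

variable {a b : Polynomial ℂ} {U : ℕ → Set ℂ} {J : Set ℂ} {R : ℝ}

theorem sh_ne (h : Wan a b U J R) {y : ℂ} (hy : y ∈ U 0) : Sh a b J y ≠ univ := by
  intro huniv
  have hR := h.R_pos
  obtain ⟨t, ht⟩ : ∃ t : ℝ, t = 32 * (R + 1) := ⟨_, rfl⟩
  have ht0 : 0 < t := by
    rw [ht]
    positivity
  have hdis : Disjoint (closedBall (0 : ℂ) t) (Jh a b J y) := by
    have h1 := sh_sub a b J y
    rw [huniv] at h1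
    exact h1.mono_left (subset_univ _)
  obtain ⟨n, hn⟩ := (jh_cpt (isCompact_closedBall (0 : ℂ) t) hdis).exists
  have e0 : gn a b y n y = 0 := by
    unfold gn
    rw [sub_self, zero_div]
  have hdis2 : Disjoint (ball (gn a b y n y) t) (Jn a b J y n) := by
    rw [e0]
    exact hn.mono_left ball_subset_closedBall
  obtain ⟨G, hGd, hGi, hGx, hG⟩ := lft_gn h hy hy ht0 hdis2
  rw [e0] at hGd hGi hGx hG
  have hwb : (0 : ℂ) ∈ ball (0 : ℂ) t := mem_ball_self ht0
  have hGw : HasDerivAt G (deriv G 0) 0 :=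
    (hGd.differentiableAt (isOpen_ball.mem_nhds hwb)).hasDerivAt
  have hg : HasDerivAt (gn a b y n) (Dn a b n y / Dn a b n y) (G 0) := by
    rw [hGx]
    exact gn_der h (y := y) n hy
  have hcomp := hg.comp 0 hGw
  have hid : HasDerivAt (gn a b y n ∘ G) 1 0 := by
    refine (hasDerivAt_id (0 : ℂ)).congr_of_eventuallyEq ?_
    filter_upwards [isOpen_ball.mem_nhds hwb] with w' hw'
    exact (hG w' hw').2
  have hder : Dn a b n y / Dn a b n y * deriv G 0 = 1 := hcomp.unique hid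
  rw [div_self (h.ne0 n hy), one_mul] at hder
  have hcov := Pool.Agent.H80.AJ.univ_cover ht0 hGd hGi
  rw [hder, norm_one, mul_one, hGx] at hcov
  have hsub : ball y (t / 16) ⊆ ball 0 R := by
    intro u hu
    obtain ⟨z, hz, rfl⟩ := hcov hu
    exact h.bd 0 (hG z hz).1
  have hn1 : ‖((t / 32 : ℝ) : ℂ)‖ = t / 32 := by
    rw [Complex.norm_real, Real.norm_eq_abs, abs_of_pos (by positivity)]
  have h1 : y + ((t / 32 : ℝ) : ℂ) ∈ ball y (t / 16) := by
    rw [mem_ball, dist_eq_norm, add_sub_cancel_left, hn1]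
    linarith
  have h2 : y - ((t / 32 : ℝ) : ℂ) ∈ ball y (t / 16) := by
    rw [mem_ball, dist_eq_norm, sub_sub_cancel_left, norm_neg, hn1]
    linarith
  have h3 := hsub h1
  have h4 := hsub h2
  rw [mem_ball_zero_iff] at h3 h4
  have h5 := norm_sub_le (y + ((t / 32 : ℝ) : ℂ)) (y - ((t / 32 : ℝ) : ℂ))
  have e5 : (y + ((t / 32 : ℝ) : ℂ)) - (y - ((t / 32 : ℝ) : ℂ)) =
      ((t / 32 : ℝ) : ℂ) + ((t / 32 : ℝ) : ℂ) := by ring
  rw [e5, ← Complex.ofReal_add, Complex.norm_real, Real.norm_eq_abs,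
    abs_of_pos (by positivity)] at h5
  linarith

theorem sh_iso (h : Wan a b U J R) {y : ℂ} (hy : y ∈ U 0) {q : ℂ} (hq : q ∉ Sh a b J y) {ρ : ℝ}
    (hρ : 0 < ρ) : ∃ q' ∈ ball q ρ, q' ≠ q ∧ q' ∉ Sh a b J y := by
  by_contra hcon
  push Not at hcon
  have hex : ∀ δ : ℝ, 0 < δ → ∃ q' ∈ ball q δ, q' ≠ q := by
    intro δ hδ
    have hn1 : ‖((δ / 2 : ℝ) : ℂ)‖ = δ / 2 := by
      rw [Complex.norm_real, Real.norm_eq_abs, abs_of_pos (by positivity)]
    refine ⟨q + ((δ / 2 : ℝ) : ℂ), ?_, fun h0 => ?_⟩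
    · rw [mem_ball, dist_eq_norm, add_sub_cancel_left, hn1]
      linarith
    · have h1 : ((δ / 2 : ℝ) : ℂ) = 0 := by
        calc ((δ / 2 : ℝ) : ℂ) = (q + ((δ / 2 : ℝ) : ℂ)) - q := by ring
          _ = 0 := by rw [h0, sub_self]
      rw [h1, norm_zero] at hn1
      linarith
  have hqJ : q ∈ Jh a b J y := by
    by_contra hqJ
    obtain ⟨ρ', hρ', hb⟩ := Metric.isOpen_iff.1 (jh_closed a b J y).isOpen_compl q hqJ
    apply hq
    obtain ⟨δ, hδ⟩ : ∃ δ : ℝ, δ = min ρ ρ' := ⟨_, rfl⟩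
    have hδ0 : 0 < δ := by
      rw [hδ]
      exact lt_min hρ hρ'
    have hδ1 : δ ≤ ρ := by
      rw [hδ]
      exact min_le_left _ _
    have hδ2 : δ ≤ ρ' := by
      rw [hδ]
      exact min_le_right _ _
    obtain ⟨q', hq', hne⟩ := hex δ hδ0
    refine sh_add (convex_ball q δ).isPreconnected ?_
      ⟨q', hq', hcon q' (ball_subset_ball hδ1 hq') hne⟩ (mem_ball_self hδ0)
    rw [Set.disjoint_left]
    exact fun z hz => hb (ball_subset_ball hδ2 hz)
  obtain ⟨ε, hε⟩ : ∃ ε : ℝ, ε = ρ / 2 := ⟨_, rfl⟩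
  have hε0 : 0 < ε := by
    rw [hε]
    exact half_pos hρ
  have hερ : ε < ρ := by
    rw [hε]
    exact half_lt_self hρ
  have hLS : sphere q ε ⊆ Sh a b J y := by
    intro z hz
    refine hcon z (sphere_subset_ball hερ hz) fun h0 => ?_
    rw [h0, mem_sphere, dist_self] at hz
    exact hε0.ne hz
  obtain ⟨K, hK, hKp, hKU, hKe⟩ := gli h hy (isCompact_sphere q ε) hLS
  have hh := (hun h hK hKp hKU).filter_mono uu_le
  obtain ⟨n, hn1, hn2, w', hw', hwJ⟩ := (hKe.and (hh.and (hqJ ε hε0))).exists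
  have hD : Dn a b n y ≠ 0 := h.ne0 n hy
  have hDn : 0 < ‖Dn a b n y‖ := norm_pos_iff.2 hD
  have hsph : sphere (An a b y n q) (‖Dn a b n y‖ * ε) ⊆ (gg a b)^[n] '' K := by
    intro u hu
    have h1 : (u - (gg a b)^[n] y) / Dn a b n y ∈ sphere q ε := by
      rw [mem_sphere, dist_eq_norm]
      rw [mem_sphere, dist_eq_norm] at hu
      have e1 : (u - (gg a b)^[n] y) / Dn a b n y - q = (u - An a b y n q) / Dn a b n y := by
        unfold An
        field_simp
        ring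
      rw [e1, norm_div, hu]
      field_simp
    obtain ⟨x, hx, hxe⟩ := hn1 h1
    refine ⟨x, hx, ?_⟩
    rw [← an_gn y n x hD, hxe]
    unfold An
    field_simp
    ring
  have hball : An a b y n w' ∈ ball (An a b y n q) (‖Dn a b n y‖ * ε) := by
    rw [mem_ball, dist_eq_norm]
    have e1 : An a b y n w' - An a b y n q = Dn a b n y * (w' - q) := by
      unfold An
      ring
    rw [e1, norm_mul]
    have h2 : ‖w' - q‖ < ε := by
      rw [← dist_eq_norm]
      exact hw'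
    exact mul_lt_mul_of_pos_left h2 hDn
  exact Set.disjoint_left.1 (h.Jd n) hwJ (hn2 (hul_mono hsph (hul_sph _ _ hball)))

end Pool.Agent.H76.SU
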