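import Pool.Agent.H76.SU.SHB
import Pool.Agent.H44.DN.KOE

/-!
# Module BLW: the limit of the rescaled iterates

PROOFS. On `D' = ball y r'` the functions `gn n` are injective and holomorphic, `gn n y = 0`, `deriv (gn n) y = 1` (`gn_der`, `Wan.ne0`; `deriv (gn n) x = Dn n x / Dn n y`). `koe` (H44/DN/KOE): for `ρ < r'` there is `C` with `‖gn n x‖ ≤ C`, `1 / C ≤ ‖deriv (gn n) x‖ ≤ C` and `‖x - y‖ ≤ C ‖gn n x‖` for `x ∈ closedBall y ρ` and all `n`. Pointwise limit along the ultrafilter: for `x ∈ D'`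
the sequence `gn n x` is in a compact ball, so it converges along `UU` (`IsCompact.ultrafilter_le_nhds` for the ultrafilter `Ultrafilter.map`): `g x`. Uniform convergence on `closedBall y ρ`: `gn n` are equi-Lipschitz there (derivative bounded by `C` on a convex set), hence `g` is Lipschitz with the same constant; for `ε > 0` take a finite `ε / (3 C)`-net.
So `gn n → g` locally uniformly on `D'` along `UU`, `g` is holomorphic (`TendstoLocallyUniformlyOn.differentiableOn`, needs `NeBot UU`) and `deriv (gn n) x → deriv g x` (`TendstoLocallyUniformlyOn.deriv`), `deriv g y = 1`, so `g` is not constant; `deriv g x ≠ 0` since `‖deriv (gn n) x‖ ≥ 1 / C`. Injectivity of `g`: let `x ≠ x'` in `D'`, `g x = g x'`. Koebe for `gn n` at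
`x`: choose `ρ < r'` with `x, x' ∈ closedBall y ρ`, `s = r' - ρ`: if `‖x - x'‖ ≥ s / 2`: `gn n '' ball x (s / 2)` contains `ball (gn n x) c` (`univ_cover`, `c = (s / 2) / (16 C)`) and `gn n x' ∉ gn n '' ball x (s / 2)` by injectivity, so `‖gn n x - gn n x'‖ ≥ c`; if `‖x - x'‖ < s / 2`: the last inequality of `koe` on `ball x s`: `‖deriv (gn n) x‖ ‖x' - x‖ ≤ C' ‖gn n x' - gn n x‖`.
In both cases the difference does not tend to `0`.
`blw_sh`: for `x ∈ D'`: `jn_univ`, `jn_gn`: `ball (gn n x) c` is disjoint from `Jn n` with `c > 0` independent of `n` (`‖Dn n x / Dn n y‖ ≥ 1 / C`), and `gn n x → g x`: `ball (g x) (c / 2) ⊆ ball (gn n x) c` for almost all `n`: `g x ∉ Jh`. `g '' D'` is preconnected, contains `g y = 0 ∈ Sh` (`zero_sh`): `sh_add`.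
-/

set_option autoImplicit false

open Filter Topology Polynomial Metric Set MeasureTheory
open scoped ContDiff

namespace Pool.Agent.H76.SU

open Pool.Agent.H61.TT H73.BR

variable {a b : Polynomial ℂ} {U : ℕ → Set ℂ} {J : Set ℂ} {R : ℝ}

/-- bounded sequences converge along the ultrafilter -/
theorem uu_lim {u : ℕ → ℂ} {M : ℝ} (h : ∀ n, ‖u n‖ ≤ M) : ∃ L : ℂ, Tendsto u UU (𝓝 L) := by
  have hb : ((Filter.hyperfilter ℕ).map u : Filter ℂ) ≤ 𝓟 (closedBall 0 M) := by
    rw [le_principal_iff]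
    show u ⁻¹' closedBall 0 M ∈ (Filter.hyperfilter ℕ : Filter ℕ)
    refine Filter.univ_mem' fun n => ?_
    exact mem_closedBall_zero_iff.2 (h n)
  obtain ⟨z, -, hz⟩ := (isCompact_closedBall (0 : ℂ) M).ultrafilter_le_nhds _ hb
  exact ⟨z, hz⟩

/-- equicontinuity and pointwise convergence give uniform convergence on compact sets -/
theorem uu_unif {F : ℕ → ℂ → ℂ} {G : ℂ → ℂ} {K : Set ℂ} (hK : IsCompact K)
    (hF : ∀ ε : ℝ, 0 < ε → ∃ δ : ℝ, 0 < δ ∧ ∀ n : ℕ, ∀ x ∈ K, ∀ x' ∈ K, ‖x - x'‖ < δ →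
      ‖F n x - F n x'‖ < ε)
    (hp : ∀ x ∈ K, Tendsto (fun n => F n x) UU (𝓝 (G x))) :
    ∀ ε : ℝ, 0 < ε → ∀ᶠ n in UU, ∀ x ∈ K, ‖F n x - G x‖ < ε := by
  intro ε hε
  obtain ⟨δ, hδ, hd⟩ := hF (ε / 3) (by positivity)
  obtain ⟨t, htK, htf, htc⟩ := hK.finite_cover_balls hδ
  have h1 : ∀ᶠ n in UU, ∀ x ∈ t, ‖F n x - G x‖ < ε / 3 := by
    rw [eventually_all_finite htf]
    intro x hx
    have h2 := hp x (htK hx)
    rw [tendsto_iff_norm_sub_tendsto_zero] at h2
    exact h2.eventually_lt_const (by positivity)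
  filter_upwards [h1] with n hn z hz
  obtain ⟨x, hx, hxz⟩ := mem_iUnion₂.1 (htc hz)
  rw [mem_ball, dist_eq_norm] at hxz
  have h2 : ‖G z - G x‖ ≤ ε / 3 := by
    refine le_of_tendsto ((hp z hz).sub (hp x (htK hx))).norm ?_
    exact Eventually.of_forall fun k => (hd k z hz x (htK hx) hxz).le
  have h3 := hd n z hz x (htK hx) hxz
  have h4 := hn x hx
  calc ‖F n z - G z‖ = ‖(F n z - F n x) + (F n x - G x) - (G z - G x)‖ := by
        congr 1
        ring
    _ ≤ ‖(F n z - F n x) + (F n x - G x)‖ + ‖G z - G x‖ := norm_sub_le _ _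
    _ ≤ ‖F n z - F n x‖ + ‖F n x - G x‖ + ‖G z - G x‖ := by
        gcongr
        exact norm_add_le _ _
    _ < ε := by linarith

/-- Koebe bounds for the rescaled iterates -/
theorem gn_koe (h : Wan a b U J R) {y : ℂ} {r' : ℝ} (hr : 0 < r') (hU : ball y r' ⊆ U 0)
    (hinj : ∀ n : ℕ, InjOn (gg a b)^[n] (ball y r')) {ρ : ℝ} (h0 : 0 ≤ ρ) (hρ : ρ < r') :
    ∃ C : ℝ, 1 ≤ C ∧ ∀ n : ℕ, ∀ x ∈ closedBall y ρ, ‖gn a b y n x‖ ≤ C ∧
      ‖Dn a b n x / Dn a b n y‖ ≤ C ∧ 1 / C ≤ ‖Dn a b n x / Dn a b n y‖ := by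
  obtain ⟨C, N, hC, hk⟩ := Pool.Agent.H44.DN.koe
  have hy : y ∈ U 0 := hU (mem_ball_self hr)
  have hq : 0 < (1 - ρ / r') ^ N := by
    apply pow_pos
    rw [sub_pos, div_lt_one hr]
    exact hρ
  have hq1 : (1 - ρ / r') ^ N ≤ 1 := by
    apply pow_le_one₀
    · rw [sub_nonneg, div_le_one hr]
      exact hρ.le
    · have : 0 ≤ ρ / r' := by positivity
      linarith
  obtain ⟨C1, hC1⟩ : ∃ C1 : ℝ, C1 = C / (1 - ρ / r') ^ N := ⟨_, rfl⟩
  have hC11 : 1 ≤ C1 := by
    rw [hC1, le_div_iff₀ hq]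
    linarith
  refine ⟨C1 * (1 + ρ), by nlinarith, fun n x hx => ?_⟩
  have hxr : x ∈ ball y r' := closedBall_subset_ball hρ hx
  have hder : ∀ x ∈ ball y r', deriv (gn a b y n) x = Dn a b n x / Dn a b n y := fun x hx =>
    (gn_der h n (hU hx)).deriv
  have hdiff : DifferentiableOn ℂ (gn a b y n) (ball y r') := fun x hx =>
    (gn_der h n (hU hx)).differentiableAt.differentiableWithinAt
  have hgi : InjOn (gn a b y n) (ball y r') := by
    intro x hx x' hx' he
    unfold gn at he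
    have h1 := h.ne0 n hy
    rw [div_left_inj' h1, sub_left_inj] at he
    exact hinj n hx hx' he
  have h1 : deriv (gn a b y n) y = 1 := by
    rw [hder y (mem_ball_self hr), div_self (h.ne0 n hy)]
  have h2 : gn a b y n y = 0 := by
    unfold gn
    rw [sub_self, zero_div]
  obtain ⟨k1, k2, k3, -⟩ := hk _ y r' hr hdiff hgi ρ h0 hρ x hx
  rw [h1, hder x hxr, norm_one, mul_one] at k1
  rw [h1, hder x hxr, norm_one, one_mul] at k2
  rw [h1, h2, norm_one, one_mul, sub_zero] at k3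
  have hxρ : ‖x - y‖ ≤ ρ := by
    rw [← dist_eq_norm]
    exact hx
  refine ⟨?_, ?_, ?_⟩
  · have h3 : ‖gn a b y n x‖ ≤ C1 * ρ := by
      rw [hC1, div_mul_eq_mul_div, le_div_iff₀ hq]
      exact k3.trans (mul_le_mul_of_nonneg_left hxρ (by linarith))
    nlinarith
  · have h3 : ‖Dn a b n x / Dn a b n y‖ ≤ C1 := by
      rw [hC1, le_div_iff₀ hq]
      exact k1
    nlinarith
  · have h3 : 1 / C1 ≤ ‖Dn a b n x / Dn a b n y‖ := by
      rw [hC1, one_div, inv_div, div_le_iff₀ (by linarith)]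
      linarith
    refine le_trans ?_ h3
    apply one_div_le_one_div_of_le (by linarith)
    nlinarith

theorem blw (h : Wan a b U J R) {y : ℂ} {r' : ℝ} (hr : 0 < r') (hU : ball y r' ⊆ U 0)
    (hinj : ∀ n : ℕ, InjOn (gg a b)^[n] (ball y r')) :
    ∃ g : ℂ → ℂ, DifferentiableOn ℂ g (ball y r') ∧ InjOn g (ball y r') ∧ g y = 0 ∧
      (∀ x ∈ ball y r', Tendsto (fun n => gn a b y n x) UU (𝓝 (g x))) ∧
      (∀ x ∈ ball y r', Tendsto (fun n => Dn a b n x / Dn a b n y) UU (𝓝 (deriv g x))) ∧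
      (∀ x ∈ ball y r', deriv g x ≠ 0) ∧
      (∀ r < r', ∀ ε : ℝ, 0 < ε → ∀ᶠ n in UU, ∀ x ∈ closedBall y r, ‖gn a b y n x - g x‖ < ε) ∧
      ∀ x ∈ ball y r', g x ∈ Sh a b J y := by
  classical
  have hy : y ∈ U 0 := hU (mem_ball_self hr)
  have hder : ∀ n, ∀ x ∈ ball y r', deriv (gn a b y n) x = Dn a b n x / Dn a b n y := fun n x hx =>
    (gn_der h n (hU hx)).deriv
  have hdiff : ∀ n, DifferentiableOn ℂ (gn a b y n) (ball y r') := fun n x hx =>
    (gn_der h n (hU hx)).differentiableAt.differentiableWithinAt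
  have hgi : ∀ n, InjOn (gn a b y n) (ball y r') := by
    intro n x hx x' hx' he
    unfold gn at he
    have h1 := h.ne0 n hy
    rw [div_left_inj' h1, sub_left_inj] at he
    exact hinj n hx hx' he
  have hmid : ∀ x ∈ ball y r', 0 ≤ (‖x - y‖ + r') / 2 ∧ (‖x - y‖ + r') / 2 < r' ∧
      ‖x - y‖ < (‖x - y‖ + r') / 2 := by
    intro x hx
    rw [mem_ball, dist_eq_norm] at hx
    have := norm_nonneg (x - y)
    exact ⟨by linarith, by linarith, by linarith⟩
  have hlim : ∀ x ∈ ball y r', ∃ L : ℂ, Tendsto (fun n => gn a b y n x) UU (𝓝 L) := by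
    intro x hx
    obtain ⟨h1, h2, h3⟩ := hmid x hx
    obtain ⟨C, -, hC⟩ := gn_koe h hr hU hinj h1 h2
    refine uu_lim (M := C) fun n => (hC n x ?_).1
    rw [mem_closedBall, dist_eq_norm]
    exact h3.le
  obtain ⟨g, hg⟩ : ∃ g : ℂ → ℂ, ∀ x ∈ ball y r', Tendsto (fun n => gn a b y n x) UU (𝓝 (g x)) :=
    ⟨fun x => if hx : x ∈ ball y r' then (hlim x hx).choose else 0, fun x hx => by
      simp only [dif_pos hx]
      exact (hlim x hx).choose_spec⟩
  -- uniform convergence
  have hunif : ∀ r < r', ∀ ε : ℝ, 0 < ε → ∀ᶠ n in UU, ∀ x ∈ closedBall y r,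
      ‖gn a b y n x - g x‖ < ε := by
    intro r hrr
    rcases lt_or_ge r 0 with hr0 | hr0
    · intro ε _
      rw [closedBall_eq_empty.2 hr0]
      exact Eventually.of_forall fun n x hx => absurd hx (Set.notMem_empty x)
    have hsub : closedBall y r ⊆ ball y r' := closedBall_subset_ball hrr
    obtain ⟨C, hC1, hC⟩ := gn_koe h hr hU hinj hr0 hrr
    refine uu_unif (isCompact_closedBall y r) ?_ fun x hx => hg x (hsub hx)
    intro ε hε
    refine ⟨ε / C, by positivity, fun n x hx x' hx' hxx => ?_⟩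
    have h1 : ‖gn a b y n x - gn a b y n x'‖ ≤ C * ‖x - x'‖ := by
      refine Convex.norm_image_sub_le_of_norm_deriv_le (𝕜 := ℂ) (s := closedBall y r) ?_ ?_
        (convex_closedBall y r) hx' hx
      · intro u hu
        exact (hdiff n).differentiableAt (isOpen_ball.mem_nhds (hsub hu))
      · intro u hu
        rw [hder n u (hsub hu)]
        exact (hC n u hu).2.1
    rw [lt_div_iff₀ (by linarith)] at hxx
    linarith
  have hloc : TendstoLocallyUniformlyOn (fun n => gn a b y n) g UU (ball y r') := by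
    rw [Metric.tendstoLocallyUniformlyOn_iff]
    intro ε hε x hx
    obtain ⟨h1, h2, h3⟩ := hmid x hx
    refine ⟨closedBall y ((‖x - y‖ + r') / 2), ?_, ?_⟩
    · apply mem_nhdsWithin_of_mem_nhds
      refine mem_of_superset (isOpen_ball.mem_nhds ?_) ball_subset_closedBall
      rw [mem_ball, dist_eq_norm]
      exact h3
    · filter_upwards [hunif _ h2 ε hε] with n hn z hz
      rw [dist_comm, dist_eq_norm]
      exact hn z hz
  have hev : ∀ᶠ n in UU, DifferentiableOn ℂ (gn a b y n) (ball y r') := Eventually.of_forall hdiff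
  have hgd : DifferentiableOn ℂ g (ball y r') := hloc.differentiableOn hev isOpen_ball
  have hgd' : ∀ x ∈ ball y r', Tendsto (fun n => Dn a b n x / Dn a b n y) UU (𝓝 (deriv g x)) := by
    intro x hx
    have h1 := (hloc.deriv hev isOpen_ball).tendsto_at hx
    refine h1.congr fun n => ?_
    exact hder n x hx
  have hgy : g y = 0 := by
    have h1 := hg y (mem_ball_self hr)
    have h2 : (fun n => gn a b y n y) = fun _ => (0 : ℂ) := by
      funext n
      unfold gn
      rw [sub_self, zero_div]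
    rw [h2] at h1
    exact tendsto_nhds_unique h1 tendsto_const_nhds
  have hlow : ∀ x ∈ ball y r', ∃ c : ℝ, 0 < c ∧ ∀ n, c ≤ ‖Dn a b n x / Dn a b n y‖ := by
    intro x hx
    obtain ⟨h1, h2, h3⟩ := hmid x hx
    obtain ⟨C, hC1, hC⟩ := gn_koe h hr hU hinj h1 h2
    refine ⟨1 / C, by positivity, fun n => (hC n x ?_).2.2⟩
    rw [mem_closedBall, dist_eq_norm]
    exact h3.le
  refine ⟨g, hgd, ?_, hgy, hg, hgd', ?_, hunif, ?_⟩
  · -- injectivity
    intro x hx x' hx' he
    by_contra hne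
    obtain ⟨c, hc, hcn⟩ := hlow x hx
    obtain ⟨s, hs⟩ : ∃ s : ℝ, s = min (r' - ‖x - y‖) ‖x - x'‖ := ⟨_, rfl⟩
    have hxn : ‖x - y‖ < r' := by
      rw [← dist_eq_norm]
      exact hx
    have hs0 : 0 < s := by
      rw [hs]
      exact lt_min (by linarith) (norm_pos_iff.2 (sub_ne_zero.2 hne))
    have hs1 : s ≤ r' - ‖x - y‖ := by
      rw [hs]
      exact min_le_left _ _
    have hs2 : s ≤ ‖x - x'‖ := by
      rw [hs]
      exact min_le_right _ _
    have hsub : ball x s ⊆ ball y r' := by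
      apply ball_subset_ball'
      rw [dist_eq_norm]
      linarith
    have hfar : ∀ n, s * c / 16 ≤ ‖gn a b y n x' - gn a b y n x‖ := by
      intro n
      by_contra hcon
      push Not at hcon
      have h1 := Pool.Agent.H80.AJ.univ_cover hs0 ((hdiff n).mono hsub) ((hgi n).mono hsub)
      have h2 : gn a b y n x' ∈ ball (gn a b y n x) (s * ‖deriv (gn a b y n) x‖ / 16) := by
        rw [mem_ball, dist_eq_norm, hder n x hx]
        refine hcon.trans_le ?_
        have := hcn n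
        gcongr
      obtain ⟨z, hz, hzz⟩ := h1 h2
      have h3 := hgi n (hsub hz) hx' hzz
      rw [h3, mem_ball, dist_comm, dist_eq_norm] at hz
      linarith
    have h4 : s * c / 16 ≤ ‖g x' - g x‖ :=
      ge_of_tendsto ((hg x' hx').sub (hg x hx)).norm (Eventually.of_forall hfar)
    rw [he, sub_self, norm_zero] at h4
    have : 0 < s * c / 16 := by positivity
    linarith
  · intro x hx h0
    obtain ⟨c, hc, hcn⟩ := hlow x hx
    have h1 : c ≤ ‖deriv g x‖ := ge_of_tendsto (hgd' x hx).norm (Eventually.of_forall hcn)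
    rw [h0, norm_zero] at h1
    linarith
  · have hdis : Disjoint (g '' ball y r') (Jh a b J y) := by
      rw [Set.disjoint_left]
      rintro _ ⟨x, hx, rfl⟩ hJ
      obtain ⟨c, hc, hcn⟩ := hlow x hx
      have hxn : ‖x - y‖ < r' := by
        rw [← dist_eq_norm]
        exact hx
      have hc' : 0 < (r' - ‖x - y‖) * c / 16 := by
        have : 0 < r' - ‖x - y‖ := by linarith
        positivity
      have h1 : ∀ᶠ n in UU, ‖gn a b y n x - g x‖ < (r' - ‖x - y‖) * c / 16 / 2 := by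
        have h2 := hg x hx
        rw [tendsto_iff_norm_sub_tendsto_zero] at h2
        exact h2.eventually_lt_const (by positivity)
      obtain ⟨n, hn1, w, hw, hwJ⟩ := (h1.and (hJ _ (half_pos hc'))).exists
      have h3 : w ∈ ball (gn a b y n x) ((r' - ‖x - y‖) * ‖Dn a b n x / Dn a b n y‖ / 16) := by
        rw [mem_ball, dist_eq_norm] at hw ⊢
        calc ‖w - gn a b y n x‖ = ‖(w - g x) - (gn a b y n x - g x)‖ := by
              congr 1
              ring
          _ ≤ ‖w - g x‖ + ‖gn a b y n x - g x‖ := norm_sub_le _ _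
          _ < (r' - ‖x - y‖) * c / 16 := by linarith
          _ ≤ _ := by
            have := hcn n
            have h5 : 0 ≤ r' - ‖x - y‖ := by linarith
            gcongr
      have h4 := jn_univ h hr hU hinj hx n h3
      exact Set.disjoint_left.1 (jn_gn h hy n) (image_mono hU h4) hwJ
    have hpre : IsPreconnected (g '' ball y r') :=
      ((convex_ball y r').isPreconnected).image _ hgd.continuousOn
    have h0 : g y ∈ g '' ball y r' := mem_image_of_mem _ (mem_ball_self hr)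
    have hsub := sh_add hpre hdis ⟨g y, h0, by
      rw [hgy]
      exact zero_sh h hy⟩
    intro x hx
    exact hsub (mem_image_of_mem _ hx)

end Pool.Agent.H76.SU
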