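import Pool.Agent.H76.SU.GLI
import Pool.Agent.H76.SU.BLW

/-!
# Module SUP: the rescaled coefficient vanishes near the points of the limit domain outside the disc

PROOF. `w0 ∈ Sh` open: `closedBall w0 ρ0 ⊆ Sh`, compact; `gli`: `K1` compact, `closedBall w0 ρ0 ⊆ gn n '' K1` for almost all `n`. `ckc` in `U 0` for `K1 ∪ closedBall y r`: `K` compact preconnected. `inj_tail`: for almost all `n` (`uu_le`) `f^j` is injective on `f^n '' K` for all `j`. `g '' closedBall y r` is compact (`g` continuous on `closedBall y r ⊆ ball y r'`), does not contain `w0`: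
its distance to `w0` is `≥ 2 ε > 0`. By the uniform convergence (`hu`) for almost all `n`: `‖gn n x - g x‖ < ε` for `x ∈ closedBall y r`, so `gn n '' closedBall y r` is disjoint from `ball w0 ε`. Let `ρ = min ρ0 ε`, `w ∈ ball w0 ρ`, suppose `m (An w) ≠ 0`: `hμ`: `z ∈ ball y r`, `f^i (An w) = f^j z`. `w = gn n k`, `k ∈ K`, `An w = f^n k` (`an_gn`). So
`f^(i+n) k = f^j z`, `k, z ∈ U 0`: in `U (i + n)` and in `U j`: `j = i + n` (`Wan.idx`, `Wan.map0`). `f^i (f^n k) = f^i (f^n z)` with `f^n k, f^n z ∈ f^n '' K`: injectivity: `f^n k = f^n z`, so `w = gn n k = gn n z ∈ gn n '' closedBall y r` (`gn` depends only on `f^n`): contradiction.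
-/

set_option autoImplicit false

open Filter Topology Polynomial Metric Set MeasureTheory
open scoped ContDiff

namespace Pool.Agent.H76.SU

open Pool.Agent.H61.TT H73.BR

variable {a b : Polynomial ℂ} {U : ℕ → Set ℂ} {J : Set ℂ} {R : ℝ}

theorem sup_zero (h : Wan a b U J R) {y : ℂ} {r r' : ℝ} (hr : 0 < r) (hrr : r < r')
    (hU : ball y r' ⊆ U 0) {m : ℂ → ℂ}
    (hμ : ∀ x, m x ≠ 0 → ∃ z ∈ ball y r, ∃ i j : ℕ, (gg a b)^[i] x = (gg a b)^[j] z)
    {g : ℂ → ℂ} (hg : DifferentiableOn ℂ g (ball y r'))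
    (hu : ∀ ε : ℝ, 0 < ε → ∀ᶠ n in UU, ∀ x ∈ closedBall y r, ‖gn a b y n x - g x‖ < ε)
    {w0 : ℂ} (hw0 : w0 ∈ Sh a b J y) (hn : w0 ∉ g '' closedBall y r) :
    ∃ ρ : ℝ, 0 < ρ ∧ ∀ᶠ n in UU, ∀ w ∈ ball w0 ρ, m (An a b y n w) = 0 := by
  have hy : y ∈ U 0 := hU (mem_ball_self (hr.trans hrr))
  have hcb : closedBall y r ⊆ ball y r' := closedBall_subset_ball hrr
  obtain ⟨ρ0, hρ0, hsub⟩ := Metric.nhds_basis_closedBall.mem_iff.1
    ((sh_open a b J y).mem_nhds hw0)
  obtain ⟨K1, hK1, _, hK1U, hK1e⟩ := gli h hy (isCompact_closedBall w0 ρ0) hsub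
  obtain ⟨K, hK, hKp, hK1K, hKU⟩ := ckc (h.op 0) (h.pc 0) (hK1.union (isCompact_closedBall y r))
    (union_subset hK1U (hcb.trans hU))
  have hinj := (inj_tail h hK hKp hKU).filter_mono uu_le
  have hcomp : IsCompact (g '' closedBall y r) :=
    (isCompact_closedBall y r).image_of_continuousOn (hg.continuousOn.mono hcb)
  obtain ⟨δ, hδ, hδs⟩ := Metric.isOpen_iff.1 hcomp.isClosed.isOpen_compl w0 hn
  refine ⟨min ρ0 (δ / 2), lt_min hρ0 (half_pos hδ), ?_⟩
  filter_upwards [hK1e, hinj, hu (δ / 2) (half_pos hδ)] with n h1 h2 h3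
  intro w hw
  by_contra hm
  obtain ⟨z, hz, i, j, hij⟩ := hμ _ hm
  have hwd : dist w w0 < min ρ0 (δ / 2) := hw
  have hw1 : w ∈ closedBall w0 ρ0 := (hwd.trans_le (min_le_left _ _)).le
  obtain ⟨k, hk, hkw⟩ := h1 hw1
  have hDy := h.ne0 n hy
  have hzc : z ∈ closedBall y r := ball_subset_closedBall hz
  have hzU : z ∈ U 0 := hU (hcb hzc)
  have hAn : An a b y n w = (gg a b)^[n] k := by
    rw [← hkw]
    exact an_gn y n k hDy
  rw [hAn, ← Function.iterate_add_apply] at hij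
  have hj : i + n = j := by
    have e1 := h.map0 (i + n) (hK1U hk)
    have e2 := h.map0 j hzU
    rw [hij] at e1
    exact h.idx e1 e2
  rw [← hj, Function.iterate_add_apply, Function.iterate_add_apply] at hij
  have h4 : (gg a b)^[n] k = (gg a b)^[n] z :=
    h2 i ⟨k, hK1K (Or.inl hk), rfl⟩ ⟨z, hK1K (Or.inr hzc), rfl⟩ hij
  have h5 : gn a b y n z = w := by
    rw [← hkw]
    unfold gn
    rw [h4]
  have h6 := h3 z hzc
  rw [h5] at h6
  have h7 : g z ∈ ball w0 δ := by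
    rw [mem_ball]
    calc dist (g z) w0 ≤ dist (g z) w + dist w w0 := dist_triangle _ _ _
      _ < δ / 2 + δ / 2 := by
          refine add_lt_add ?_ (hwd.trans_le (min_le_right _ _))
          rw [dist_comm, dist_eq_norm]
          exact h6
      _ = δ := by ring
  exact hδs h7 ⟨z, hzc, rfl⟩

end Pool.Agent.H76.SU
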