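import Pool.Agent.H76.SU.Defs
import Pool.Agent.H73.BR.Mol

/-!
# Module WEY: Weyl's lemma for the Cauchy-Riemann operator

PROOF. The statement is local (`DifferentiableOn` at a point `z0 ∈ O`; choose `ρ` with `closedBall z0 (4 ρ) ⊆ O`). Let `χ` be a `ContDiffBump` at `z0` with radii `2 ρ < 3 ρ`, `F z = χ z * h z` (zero outside the ball): continuous on the plane (`h` is continuous on `O`, `tsupport χ ⊆ O`).
Mollify: `Ml j F` (H73/BR/Def, Mol: `ml_smooth`, `ml_lim`; locally uniform convergence: `ml_loc` or uniform continuity of `F`, which has compact support). For `z ∈ ball z0 ρ` and `j` so large that `(bmp j).rOut < ρ`: `Ml j F z = ∫ t, et j (z - t) * h t` (substitution; `et j (z - t) ≠ 0` only for `t ∈ ball z ρ ⊆ ball z0 (2 ρ)`,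
where `F = h`). Differentiate under the integral (convolution with the smooth compactly supported `et j`: `HasCompactSupport.hasFDerivAt_convolution_right` or `_left`, as in `Mol.lean`; or `ml_has`): `db (Ml j F) z = ∫ t, (db of z' ↦ et j (z' - t) at z) * F t = - ∫ t, h t * db (fun t => et j (z - t)) t = 0` by `hw` for the test function
`φ t = et j (z - t)` (smooth, compact support in `closedBall z ρ ⊆ O`; the derivative in `t` is minus the derivative in `z`). So the smooth function `Ml j F` satisfies the Cauchy-Riemann equation `db = 0` on `ball z0 ρ`, hence is complex differentiable there (the real derivative `L = fderiv ℝ` satisfies `L I = I * L 1` by `db = 0`, so it is complex linear: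
`HasFDerivAt.restrictScalars`/`hasFDerivAt_of_restrictScalars` or `differentiableAt_complex_iff_differentiableAt_real`), and `Ml j F → F = h` locally uniformly on `ball z0 ρ`: `TendstoLocallyUniformlyOn.differentiableOn`.
-/

set_option autoImplicit false

open Filter Topology Polynomial Metric Set MeasureTheory
open scoped ContDiff Convolution

namespace Pool.Agent.H76.SU

open Pool.Agent.H61.TT H73.BR

/-- the Cauchy-Riemann equation -/
private theorem wey_cr {F : ℂ → ℂ} {z : ℂ} (h : DifferentiableAt ℝ F z) (e : db F z = 0) :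
    DifferentiableAt ℂ F z := by
  rw [differentiableAt_complex_iff_differentiableAt_real]
  refine ⟨h, ?_⟩
  have h1 : fderiv ℝ F z 1 + Complex.I * fderiv ℝ F z Complex.I = 0 := by
    have h2 : (1 / 2 : ℂ) * (fderiv ℝ F z 1 + Complex.I * fderiv ℝ F z Complex.I) = 0 := e
    have h3 : (1 / 2 : ℂ) ≠ 0 := by norm_num
    exact (mul_eq_zero.1 h2).resolve_left h3
  rw [smul_eq_mul]
  linear_combination (-Complex.I) * h1 + fderiv ℝ F z Complex.I * Complex.I_mul_I

/-- the derivative of the mollification, the derivative on the kernel -/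
private theorem wey_der {F : ℂ → ℂ} (hF : Continuous F) (j : ℕ) (z v : ℂ) :
    fderiv ℝ (Ml j F) z v = ∫ t, ((fderiv ℝ (et j) (z - t) v : ℝ) : ℂ) * F t := by
  have h0 : Ml j F = (F ⋆[(ContinuousLinearMap.lsmul ℝ ℝ : ℝ →L[ℝ] ℂ →L[ℝ] ℂ).flip, volume] et j) := by
    rw [ml_eq, convolution_flip]
  have h1 := (et_cpt j).hasFDerivAt_convolution_right
    (ContinuousLinearMap.lsmul ℝ ℝ : ℝ →L[ℝ] ℂ →L[ℝ] ℂ).flip (μ := (volume : Measure ℂ))
    hF.locallyIntegrable ((et_smooth j).of_le (by simp)) z
  rw [h0, h1.fderiv, convolution_precompR_apply _ hF.locallyIntegrable ((et_cpt j).fderiv ℝ)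
    ((et_smooth j).continuous_fderiv (by simp))]
  refine integral_congr_ae (Filter.Eventually.of_forall fun t => ?_)
  show (fderiv ℝ (et j) (z - t) v) • F t = _
  rw [Complex.real_smul]

/-- the kernel as a test function -/
private theorem wey_ker (j : ℕ) (z t v : ℂ) :
    fderiv ℝ (fun t => ((et j (z - t) : ℝ) : ℂ)) t v = -((fderiv ℝ (et j) (z - t) v : ℝ) : ℂ) := by
  have h1 : HasFDerivAt (et j) (fderiv ℝ (et j) (z - t)) (z - t) :=
    ((et_smooth j).differentiable (by simp) _).hasFDerivAt
  have h2 : HasFDerivAt (fun t : ℂ => z - t) (-(ContinuousLinearMap.id ℝ ℂ)) t :=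
    (hasFDerivAt_id t).const_sub z
  have h3 := Complex.ofRealCLM.hasFDerivAt.comp t (h1.comp t h2)
  have h4 : HasFDerivAt (fun t => ((et j (z - t) : ℝ) : ℂ))
      (Complex.ofRealCLM.comp ((fderiv ℝ (et j) (z - t)).comp (-(ContinuousLinearMap.id ℝ ℂ)))) t := h3
  rw [h4.fderiv]
  show ((fderiv ℝ (et j) (z - t) (-v) : ℝ) : ℂ) = _
  rw [map_neg, Complex.ofReal_neg]

private theorem wey_supp (j : ℕ) {t : ℂ} (ht : (bmp j).rOut ≤ ‖t‖) : et j t = 0 := by
  have h := (bmp j).support_normed_eq (μ := (volume : Measure ℂ))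
  by_contra hne
  have h1 : t ∈ Function.support ((bmp j).normed volume) := hne
  rw [h, mem_ball_zero_iff] at h1
  linarith

private theorem wey_tsupp (j : ℕ) (z : ℂ) :
    tsupport (fun t => ((et j (z - t) : ℝ) : ℂ)) ⊆ closedBall z (bmp j).rOut := by
  refine closure_minimal (fun t ht => ?_) isClosed_closedBall
  by_contra hn
  rw [mem_closedBall, dist_eq_norm, not_le] at hn
  refine ht ?_
  show ((et j (z - t) : ℝ) : ℂ) = 0
  rw [wey_supp j (t := z - t) (by rw [norm_sub_rev]; exact hn.le), Complex.ofReal_zero]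

theorem wey {O : Set ℂ} (hO : IsOpen O) {h : ℂ → ℂ} (hc : ContinuousOn h O)
    (hw : ∀ φ : ℂ → ℂ, ContDiff ℝ ∞ φ → HasCompactSupport φ → tsupport φ ⊆ O →
      ∫ z, h z * db φ z = 0) : DifferentiableOn ℂ h O := by
  intro z0 hz0
  obtain ⟨ε, hε, hb⟩ := Metric.isOpen_iff.1 hO z0 hz0
  obtain ⟨ρ, hρ, hρε⟩ : ∃ ρ : ℝ, 0 < ρ ∧ 4 * ρ ≤ ε := ⟨ε / 4, by positivity, by linarith⟩
  let χ : ContDiffBump z0 := ⟨2 * ρ, 3 * ρ, by positivity, by linarith⟩
  have hχ1 : ∀ z ∈ closedBall z0 (2 * ρ), χ z = 1 := fun z hz => χ.one_of_mem_closedBall hz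
  have hχs : tsupport (χ : ℂ → ℝ) = closedBall z0 (3 * ρ) := χ.tsupport_eq
  set F : ℂ → ℂ := fun z => ((χ z : ℝ) : ℂ) * h z with hFd
  have hFs : tsupport F ⊆ closedBall z0 (3 * ρ) := by
    refine closure_minimal (fun t ht => ?_) isClosed_closedBall
    rw [← hχs]
    refine subset_tsupport _ fun h0 => ht ?_
    show ((χ t : ℝ) : ℂ) * h t = 0
    rw [h0, Complex.ofReal_zero, zero_mul]
  have hsub : closedBall z0 (3 * ρ) ⊆ O := (closedBall_subset_ball (by linarith)).trans hb
  have hFc : Continuous F := by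
    refine ContinuousOn.continuous_of_tsupport_subset (s := O) ?_ hO (hFs.trans hsub)
    exact (Complex.continuous_ofReal.comp χ.continuous).continuousOn.mul hc
  have hFK : HasCompactSupport F :=
    (isCompact_closedBall z0 (3 * ρ)).of_isClosed_subset (isClosed_tsupport F) hFs
  have hFh : ∀ z ∈ closedBall z0 (2 * ρ), F z = h z := by
    intro z hz
    show ((χ z : ℝ) : ℂ) * h z = h z
    rw [hχ1 z hz, Complex.ofReal_one, one_mul]
  have hev : ∀ᶠ j in atTop, (bmp j).rOut < ρ := bmp_lim.eventually (gt_mem_nhds hρ)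
  have hdb : ∀ᶠ j in atTop, DifferentiableOn ℂ (Ml j F) (ball z0 ρ) := by
    filter_upwards [hev] with j hj z hz
    refine (wey_cr ((ml_smooth hFc j).differentiable (by simp) z) ?_).differentiableWithinAt
    have hts := wey_tsupp j z
    have hin : closedBall z (bmp j).rOut ⊆ closedBall z0 (2 * ρ) := by
      refine closedBall_subset_closedBall' ?_
      rw [mem_ball] at hz
      linarith
    have hks : ContDiff ℝ ∞ (fun t => ((et j (z - t) : ℝ) : ℂ)) :=
      Complex.ofRealCLM.contDiff.comp ((et_smooth j).comp (contDiff_const.sub contDiff_id))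
    have h1 := hw (fun t => ((et j (z - t) : ℝ) : ℂ)) hks
      ((isCompact_closedBall z _).of_isClosed_subset (isClosed_tsupport _) hts)
      ((hts.trans hin).trans ((closedBall_subset_closedBall (by linarith)).trans hsub))
    have h2 : ∀ t, h t * db (fun t => ((et j (z - t) : ℝ) : ℂ)) t =
        (-(1 / 2 : ℂ)) * (((fderiv ℝ (et j) (z - t) 1 : ℝ) : ℂ) * F t) +
          (-(1 / 2 : ℂ)) * (Complex.I * (((fderiv ℝ (et j) (z - t) Complex.I : ℝ) : ℂ) * F t)) := by
      intro t
      rw [db, wey_ker, wey_ker]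
      by_cases ht : t ∈ closedBall z0 (2 * ρ)
      · rw [hFh t ht]
        ring
      · have ht2 : t ∉ tsupport (fun t => ((et j (z - t) : ℝ) : ℂ)) := fun hh => ht (hin (hts hh))
        have h3 : fderiv ℝ (fun t => ((et j (z - t) : ℝ) : ℂ)) t = 0 := by
          by_contra hne
          exact ht2 (support_fderiv_subset ℝ (f := fun t => ((et j (z - t) : ℝ) : ℂ)) hne)
        have h4 : ∀ v, ((fderiv ℝ (et j) (z - t) v : ℝ) : ℂ) = 0 := by
          intro v
          have h5 := wey_ker j z t v
          rw [h3] at h5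
          exact neg_eq_zero.1 h5.symm
        rw [h4, h4]
        ring
    have hi : ∀ v : ℂ, Integrable fun t => ((fderiv ℝ (et j) (z - t) v : ℝ) : ℂ) * F t := by
      intro v
      refine Continuous.integrable_of_hasCompactSupport ?_ hFK.mul_left
      refine Continuous.mul (Complex.continuous_ofReal.comp ?_) hFc
      exact (((et_smooth j).continuous_fderiv (by simp)).comp
        (continuous_const.sub continuous_id)).clm_apply continuous_const
    rw [integral_congr_ae (Filter.Eventually.of_forall h2), integral_add ((hi 1).const_mul _)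
      (((hi Complex.I).const_mul _).const_mul _), integral_const_mul, integral_const_mul,
      integral_const_mul, ← wey_der hFc, ← wey_der hFc] at h1
    rw [db]
    linear_combination -h1
  have hunif : TendstoUniformly (fun j => Ml j F) F atTop := by
    rw [Metric.tendstoUniformly_iff]
    intro e he
    have huc := hFc.uniformContinuous_of_tendsto_cocompact
      (x := (0 : ℂ)) hFK.is_zero_at_infty
    obtain ⟨δ, hδ, hd⟩ := Metric.uniformContinuous_iff.1 huc (e / 2) (by positivity)
    filter_upwards [bmp_lim.eventually (gt_mem_nhds hδ)] with j hj z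
    rw [ml_eq, dist_comm]
    refine lt_of_le_of_lt ((bmp j).dist_normed_convolution_le (μ := (volume : Measure ℂ)) (ε := e / 2)
      hFc.aestronglyMeasurable fun x hx => ?_) (by linarith)
    exact (hd (lt_trans (mem_ball.1 hx) hj)).le
  have hd := (hunif.tendstoUniformlyOn (s := ball z0 ρ)).tendstoLocallyUniformlyOn.differentiableOn
    hdb isOpen_ball
  have h1 : DifferentiableAt ℂ F z0 := (hd z0 (mem_ball_self hρ)).differentiableAt
    (isOpen_ball.mem_nhds (mem_ball_self hρ))
  have h2 : F =ᶠ[𝓝 z0] h := by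
    filter_upwards [ball_mem_nhds z0 (show (0 : ℝ) < 2 * ρ by positivity)] with z hz
    exact hFh z (ball_subset_closedBall hz)
  exact (h2.differentiableAt_iff.1 h1).differentiableWithinAt

end Pool.Agent.H76.SU
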