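import Pool.Agent.H76.SU.CTB
import Pool.Agent.H76.SU.WEY
import Pool.Agent.H73.BR.CtA
import Pool.Agent.H73.BR.CtB

/-!
# Module CTW: the weak derivative of the Cauchy transform

PROOFS. `ctw`: Fubini (`integral_integral_swap`): `∫ z, Ct m z * db φ z = (1/π) ∫ z, ∫ w, m w / (z - w) * db φ z = (1/π) ∫ w, m w * ∫ z, db φ z / (z - w)`. Integrability on the product: `‖m w‖ ≤ B`, both supports bounded (`φ` and `db φ` vanish outside a ball), `1 / (z - w)` locally integrable (the function is bounded by
`B * C * ‖(z - w)⁻¹‖` on a product of two balls; `integrable_prod_iff` with the uniform bound of the inner integral). For each `w`: `(1/π) ∫ z, db φ z / (w - z) = Ct (db φ) w = φ w`: `φ` satisfies `Tf R' φ` for some `R'`; `db_ct` and `fd_ct` of H73/BR/CtA say `db (Ct f) = f` and `fderiv (Ct f) v = Ct (fderiv f v)`, so `Ct (db φ) = db (Ct φ) = φ`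
(`ct_eq` of H73/BR/CtB for the form of the integral). Hence the inner integral is `- π φ w`.
`ct_off`: `wey` with `h = Ct m` (continuous by `ctb_cont`): for a test function `φ` with support in `O`: `∫ Ct m * db φ = - ∫ m φ = 0`, as `m = 0` on `O` and `φ = 0` off `O`.
-/

set_option autoImplicit false

open Filter Topology Polynomial Metric Set MeasureTheory
open scoped ContDiff

namespace Pool.Agent.H76.SU

open Pool.Agent.H61.TT H73.BR

private theorem tf_of {φ : ℂ → ℂ} (hφ : ContDiff ℝ ∞ φ) (hc : HasCompactSupport φ) :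
    ∃ R, 0 < R ∧ Tf R φ := by
  obtain ⟨R, hR⟩ := hc.isCompact.isBounded.subset_ball 0
  refine ⟨max R 1, by positivity, hφ, fun z hz => ?_⟩
  by_contra h
  have h1 : z ∈ ball (0 : ℂ) R := hR (subset_tsupport φ h)
  rw [mem_ball_zero_iff] at h1
  have := le_max_left R 1
  linarith

private theorem ct_db {R : ℝ} {f : ℂ → ℂ} (hf : Tf R f) (z : ℂ) : Ct (db f) z = f z := by
  have h1 := cta_lin hf z (1 / 2) ((1 / 2) * Complex.I)
  have h2 : (db f) = fun w => (1 / 2) * fderiv ℝ f w 1 + ((1 / 2) * Complex.I) *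
      fderiv ℝ f w Complex.I := by
    funext w
    unfold db
    ring
  rw [← h2] at h1
  rw [← db_ct hf z, h1]
  unfold db
  rw [fd_ct hf, fd_ct hf]
  ring

private theorem cf_db {R : ℝ} {f : ℂ → ℂ} (hf : Tf R f) : ∃ R', 0 < R' ∧ Cf R' (db f) := by
  obtain ⟨R1, h1⟩ := cta_fd hf 1
  obtain ⟨R2, h2⟩ := cta_fd hf Complex.I
  refine ⟨max (max R1 R2) 1, by positivity, ?_, fun z hz => ?_⟩
  · unfold db
    exact continuous_const.mul (h1.cont.add (continuous_const.mul h2.cont))
  · have h3 := le_max_left (max R1 R2) 1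
    have h4 := le_max_left R1 R2
    have h5 := le_max_right R1 R2
    have h6 := h1.supp z (by linarith)
    have h7 := h2.supp z (by linarith)
    unfold db
    rw [h6, h7]
    ring

theorem ctw {B R : ℝ} {m : ℂ → ℂ} (hm : Bm B R m) {φ : ℂ → ℂ} (hφ : ContDiff ℝ ∞ φ)
    (hc : HasCompactSupport φ) : ∫ z, Ct m z * db φ z = -∫ z, m z * φ z := by
  obtain ⟨S, hS, hf⟩ := tf_of hφ hc
  obtain ⟨S', hS', hg⟩ := cf_db hf
  have hpi : (Real.pi : ℂ) ≠ 0 := by exact_mod_cast Real.pi_pos.ne'
  -- the integrand on the product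
  set F : ℂ → ℂ → ℂ := fun z w => m w / (z - w) * db φ z with hF
  have hmint : Integrable m := by
    have h1 : IntegrableOn m (closedBall 0 (max R 0)) := by
      refine Measure.integrableOn_of_bounded (M := B)
        (isCompact_closedBall (0 : ℂ) (max R 0)).measure_lt_top.ne
        hm.meas.aestronglyMeasurable (Filter.Eventually.of_forall hm.bd)
    refine h1.integrable_of_forall_notMem_eq_zero fun z hz => hm.supp z ?_
    rw [mem_closedBall_zero_iff, not_le] at hz
    exact (le_max_left R 0).trans_lt hz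
  set K : ℝ := max R 0 + S' with hK
  set g : ℂ → ℂ := (closedBall (0 : ℂ) K).indicator fun w => w⁻¹ with hgd
  have hgint : Integrable g := by
    rw [hgd, integrable_indicator_iff measurableSet_closedBall]
    exact Pool.Agent.H71.Top.locallyIntegrable_inv.integrableOn_isCompact (isCompact_closedBall _ _)
  have hprod : Integrable (fun p : ℂ × ℂ => m p.2 * g (p.1 - p.2))
      ((volume : Measure ℂ).prod volume) :=
    hmint.convolution_integrand (ContinuousLinearMap.mul ℝ ℂ) hgint
  obtain ⟨C, hC⟩ := hg.cont.bounded_above_of_compact_support hg.cpt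
  have hprod2 : Integrable (fun p : ℂ × ℂ => (m p.2 * g (p.1 - p.2)) * db φ p.1)
      ((volume : Measure ℂ).prod volume) := by
    exact hprod.mul_bdd (hg.cont.comp continuous_fst).aestronglyMeasurable
      (Filter.Eventually.of_forall fun p => hC p.1)
  have hFe : ∀ z w, F z w = (m w * g (z - w)) * db φ z := by
    intro z w
    rw [hF]
    show m w / (z - w) * db φ z = (m w * g (z - w)) * db φ z
    by_cases h1 : S' ≤ ‖z‖
    · rw [hg.supp z h1, mul_zero, mul_zero]
    by_cases h2 : R < ‖w‖
    · rw [hm.supp w h2, zero_div, zero_mul, zero_mul, zero_mul]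
    rw [hgd, indicator_of_mem, div_eq_mul_inv]
    rw [mem_closedBall_zero_iff]
    have h3 := norm_sub_le z w
    have h4 := le_max_left R 0
    push Not at h1 h2
    rw [hK]
    linarith
  have hFint : Integrable (Function.uncurry F) ((volume : Measure ℂ).prod volume) := by
    refine hprod2.congr (Filter.Eventually.of_forall fun p => ?_)
    exact (hFe p.1 p.2).symm
  have h1 : ∀ z, Ct m z * db φ z = (1 / (Real.pi : ℂ)) * ∫ w, F z w := by
    intro z
    rw [(ctb_eq hm z).2, mul_assoc, ← integral_mul_const]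
  have h2 : ∀ w, ∫ z, F z w = -((Real.pi : ℂ) * (m w * φ w)) := by
    intro w
    have h3 : ∀ z, F z w = -(m w * (db φ z / (w - z))) := by
      intro z
      rw [hF]
      show m w / (z - w) * db φ z = -(m w * (db φ z / (w - z)))
      rw [← neg_sub w z, div_neg]
      ring
    simp_rw [h3]
    rw [integral_neg, integral_const_mul]
    have h4 := (ct_eq hg w).2
    rw [ct_db hf w] at h4
    have h5 : ∫ z, db φ z / (w - z) = (Real.pi : ℂ) * φ w := by
      rw [h4]
      field_simp
    rw [h5]
    ring
  simp_rw [h1]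
  rw [integral_const_mul, integral_integral_swap hFint]
  simp_rw [h2]
  rw [integral_neg, integral_const_mul]
  field_simp

theorem ct_off {B R : ℝ} {m : ℂ → ℂ} (hm : Bm B R m) {O : Set ℂ} (hO : IsOpen O)
    (h0 : ∀ z ∈ O, m z = 0) : DifferentiableOn ℂ (Ct m) O := by
  refine wey hO (ctb_cont hm).continuousOn fun φ hφ hc hs => ?_
  rw [ctw hm hφ hc]
  have h1 : ∀ z, m z * φ z = 0 := by
    intro z
    by_cases hz : z ∈ O
    · rw [h0 z hz, zero_mul]
    · have h2 : φ z = 0 := by
        by_contra h
        exact hz (hs (subset_tsupport φ h))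
      rw [h2, mul_zero]
  simp_rw [h1]
  simp

end Pool.Agent.H76.SU
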