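import Pool.Agent.H76.SU.VEQ
import Pool.Agent.H76.SU.BLW
import Pool.Agent.H76.SU.CTW

/-!
# Module VLM: the limit of the rescaled vector fields

PROOFS. Pointwise limit along the ultrafilter `UU` (bounded: `veq`; `IsCompact.ultrafilter_le_nhds`): `V w`. The Hölder estimate passes to the limit (`le_of_tendsto`). `V = 0` on `Jh`: `w ∈ Jh`, `ε > 0`: for almost all `n` there is `w' ∈ ball w ε ∩ Jn n`, `vn n w' = Ct m (An w') / _ = 0` since `An w' ∈ J` (`vj`, `ctb_cont`, `ctb_bd`), so `‖vn n w‖ ≤ C √ε`, hence `‖V w‖ ≤ C √ε`.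
`V (g x) = deriv g x * Ct m x`: `vn n (gn n x) = Dn n x / Dn n y * Ct m x → deriv g x * Ct m x` (`vn_gn`), and `‖vn n (gn n x) - vn n (g x)‖ ≤ C √‖gn n x - g x‖ → 0` (both points in a fixed ball for almost all `n`).
HOLOMORPHY: if `m (An n w) = 0` for all `w ∈ O`, for almost all `n`: then `m_n = 0` on `O` (`rsc`), and `vn n = Ct m_n` is holomorphic on `O` (`ct_off`); `vn n → V` locally uniformly along `UU` (pointwise convergence and equicontinuity `veq`: a finite net of a closed ball), so `V` is holomorphic on `O`: `TendstoLocallyUniformlyOn.differentiableOn` needs holomorphy for almost all `n` only.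
-/

set_option autoImplicit false

open Filter Topology Polynomial Metric Set MeasureTheory
open scoped ContDiff

namespace Pool.Agent.H76.SU

open Pool.Agent.H61.TT H73.BR

variable {a b : Polynomial ℂ} {U : ℕ → Set ℂ} {J : Set ℂ} {R : ℝ}

theorem vlm (h : Wan a b U J R) {y : ℂ} {r' : ℝ} (hr : 0 < r') (hU : ball y r' ⊆ U 0)
    (hinj : ∀ n : ℕ, InjOn (gg a b)^[n] (ball y r')) {B R0 : ℝ} {m : ℂ → ℂ} (hm : Bm B R0 m)
    (heq : ∀ z, b.eval z ≠ 0 → Ct m (gg a b z) = dg a b z * Ct m z) {g : ℂ → ℂ}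
    (hg : ∀ x ∈ ball y r', Tendsto (fun n => gn a b y n x) UU (𝓝 (g x)))
    (hg' : ∀ x ∈ ball y r', Tendsto (fun n => Dn a b n x / Dn a b n y) UU (𝓝 (deriv g x))) :
    ∃ V : ℂ → ℂ, (∀ ρ : ℝ, ∃ C : ℝ, 0 ≤ C ∧ ∀ w w' : ℂ, ‖w‖ ≤ ρ → ‖w'‖ ≤ ρ →
        ‖V w - V w'‖ ≤ C * √‖w - w'‖) ∧ (∀ w ∈ Jh a b J y, V w = 0) ∧
      (∀ x ∈ ball y r', V (g x) = deriv g x * Ct m x) ∧
      ∀ O : Set ℂ, IsOpen O → (∀ᶠ n in UU, ∀ w ∈ O, m (An a b y n w) = 0) →
        DifferentiableOn ℂ V O := by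
  have hyU : y ∈ U 0 := hU (mem_ball_self hr)
  obtain ⟨C0, hC0, hb0⟩ := ctb_bd hm
  have hJ0 := vj h (ctb_cont hm) hb0 heq
  -- the limit
  have hlim : ∀ w : ℂ, ∃ V : ℂ, Tendsto (fun n => vn a b y (Ct m) n w) UU (𝓝 V) := by
    intro w
    obtain ⟨C, hC, hv⟩ := veq h hr hU hinj hm heq ‖w‖
    obtain ⟨V, -, hV⟩ := (isCompact_closedBall (0 : ℂ) C).ultrafilter_le_nhds
      ((Filter.hyperfilter ℕ).map (fun n => vn a b y (Ct m) n w))
      (by
        rw [le_principal_iff]
        refine Filter.mem_map.2 (Filter.Eventually.of_forall fun n => ?_)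
        rw [mem_closedBall_zero_iff]
        exact (hv n w w le_rfl le_rfl).1)
    exact ⟨V, hV⟩
  choose V hV using hlim
  have hHol : ∀ ρ : ℝ, ∃ C : ℝ, 0 ≤ C ∧ (∀ (n : ℕ) (w w' : ℂ), ‖w‖ ≤ ρ → ‖w'‖ ≤ ρ →
      ‖vn a b y (Ct m) n w - vn a b y (Ct m) n w'‖ ≤ C * √‖w - w'‖) ∧
      ∀ w w' : ℂ, ‖w‖ ≤ ρ → ‖w'‖ ≤ ρ → ‖V w - V w'‖ ≤ C * √‖w - w'‖ := by
    intro ρ
    obtain ⟨C, hC, hv⟩ := veq h hr hU hinj hm heq ρ
    refine ⟨C, hC, fun n w w' hw hw' => (hv n w w' hw hw').2, fun w w' hw hw' => ?_⟩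
    exact le_of_tendsto ((hV w).sub (hV w')).norm
      (Filter.Eventually.of_forall fun n => (hv n w w' hw hw').2)
  -- small radii
  have hsm : ∀ C : ℝ, 0 ≤ C → ∀ η : ℝ, 0 < η → ∃ δ : ℝ, 0 < δ ∧ δ ≤ 1 ∧ C * √δ < η := by
    intro C hC η hη
    set q : ℝ := η / (C + 1) with hq
    have hq0 : 0 < q := by positivity
    refine ⟨min 1 (q ^ 2), by positivity, min_le_left _ _, ?_⟩
    have h1 : √(min 1 (q ^ 2)) ≤ q := by
      calc √(min 1 (q ^ 2)) ≤ √(q ^ 2) := Real.sqrt_le_sqrt (min_le_right _ _)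
        _ = q := Real.sqrt_sq hq0.le
    calc C * √(min 1 (q ^ 2)) ≤ C * q := mul_le_mul_of_nonneg_left h1 hC
      _ < (C + 1) * q := by nlinarith
      _ = η := by
        rw [hq]
        field_simp
  refine ⟨V, fun ρ => ?_, fun w hw => ?_, fun x hx => ?_, fun O hO hmO => ?_⟩
  · obtain ⟨C, hC, -, h2⟩ := hHol ρ
    exact ⟨C, hC, h2⟩
  · -- zero on the limit of the Julia sets
    by_contra hne
    have hpos : 0 < ‖V w‖ := norm_pos_iff.2 hne
    obtain ⟨C, hC, h1, -⟩ := hHol (‖w‖ + 1)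
    obtain ⟨δ, hδ, hδ1, hCδ⟩ := hsm C hC ‖V w‖ hpos
    have hev : ∀ᶠ n in UU, ‖vn a b y (Ct m) n w‖ ≤ C * √δ := by
      filter_upwards [hw δ hδ] with n hn
      obtain ⟨w', hw', hwJ⟩ := hn
      rw [mem_ball, dist_eq_norm] at hw'
      have h0 : vn a b y (Ct m) n w' = 0 := by
        unfold vn
        rw [hJ0 _ hwJ, zero_div]
      have h3 : ‖w'‖ ≤ ‖w‖ + 1 := by
        have := norm_add_le w (w' - w)
        rw [add_sub_cancel] at this
        linarith
      have h4 := h1 n w w' (by linarith [norm_nonneg w]) h3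
      rw [h0, sub_zero] at h4
      refine h4.trans (mul_le_mul_of_nonneg_left (Real.sqrt_le_sqrt ?_) hC)
      rw [norm_sub_rev]
      exact hw'.le
    have h5 : ‖V w‖ ≤ C * √δ := le_of_tendsto (hV w).norm hev
    linarith
  · -- the values on the image of `g`
    have hxU : x ∈ U 0 := hU hx
    have h1 : Tendsto (fun n => vn a b y (Ct m) n (gn a b y n x)) UU (𝓝 (deriv g x * Ct m x)) := by
      have h2 : (fun n => vn a b y (Ct m) n (gn a b y n x)) =
          fun n => Dn a b n x / Dn a b n y * Ct m x := by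
        funext n
        exact vn_gn h heq hyU hxU n
      rw [h2]
      exact (hg' x hx).mul_const _
    obtain ⟨C, hC, h3, -⟩ := hHol (‖g x‖ + 1)
    have h4 : Tendsto (fun n => vn a b y (Ct m) n (gn a b y n x) - vn a b y (Ct m) n (g x)) UU
        (𝓝 0) := by
      rw [tendsto_zero_iff_norm_tendsto_zero]
      have h5 : Tendsto (fun n => C * √‖gn a b y n x - g x‖) UU (𝓝 0) := by
        have h6 : Tendsto (fun n => ‖gn a b y n x - g x‖) UU (𝓝 0) := by
          have := ((hg x hx).sub_const (g x)).norm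
          rwa [sub_self, norm_zero] at this
        have h7 := (Real.continuous_sqrt.tendsto 0).comp h6
        rw [Real.sqrt_zero] at h7
        have h8 := h7.const_mul C
        rw [mul_zero] at h8
        exact h8
      refine squeeze_zero' (Filter.Eventually.of_forall fun n => norm_nonneg _) ?_ h5
      have h9 : ∀ᶠ n in UU, ‖gn a b y n x - g x‖ < 1 := by
        have := (hg x hx).eventually (Metric.ball_mem_nhds (g x) one_pos)
        filter_upwards [this] with n hn
        rw [dist_eq_norm] at hn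
        exact hn
      filter_upwards [h9] with n hn
      refine h3 n _ _ ?_ (by linarith [norm_nonneg (g x)])
      have := norm_add_le (g x) (gn a b y n x - g x)
      rw [add_sub_cancel] at this
      linarith
    have h10 : Tendsto (fun n => vn a b y (Ct m) n (g x)) UU (𝓝 (deriv g x * Ct m x)) := by
      have := h1.sub h4
      simp only [sub_sub_cancel, sub_zero] at this
      exact this
    exact tendsto_nhds_unique (hV (g x)) h10
  · -- holomorphy
    have hdiff : ∀ᶠ n in UU, DifferentiableOn ℂ (fun w => vn a b y (Ct m) n w) O := by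
      filter_upwards [hmO] with n hn
      have hl : Dn a b n y ≠ 0 := h.ne0 n hyU
      obtain ⟨⟨R', hR'⟩, hr2⟩ := rsc hm (c := (gg a b)^[n] y) hl
      have h1 : DifferentiableOn ℂ
          (Ct fun ξ => m ((gg a b)^[n] y + Dn a b n y * ξ) * ph (Dn a b n y)) O := by
        refine ct_off hR' hO fun w hw => ?_
        have := hn w hw
        unfold An at this
        rw [this, zero_mul]
      refine h1.congr fun w _ => ?_
      exact hr2 w
    refine TendstoLocallyUniformlyOn.differentiableOn (φ := UU)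
      (F := fun n w => vn a b y (Ct m) n w) ?_ hdiff hO
    rw [Metric.tendstoLocallyUniformlyOn_iff]
    intro ε hε w0 hw0
    obtain ⟨C, hC, h1, h2⟩ := hHol (‖w0‖ + 1)
    obtain ⟨δ, hδ, hδ1, hCδ⟩ := hsm C hC (ε / 4) (by positivity)
    refine ⟨ball w0 δ, mem_nhdsWithin_of_mem_nhds (ball_mem_nhds w0 hδ), ?_⟩
    have h3 : ∀ᶠ n in UU, ‖vn a b y (Ct m) n w0 - V w0‖ < ε / 4 := by
      have := (hV w0).eventually (Metric.ball_mem_nhds (V w0) (by positivity : 0 < ε / 4))
      filter_upwards [this] with n hn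
      rw [dist_eq_norm] at hn
      exact hn
    filter_upwards [h3] with n hn w hw
    rw [mem_ball, dist_eq_norm] at hw
    have h4 : ‖w‖ ≤ ‖w0‖ + 1 := by
      have := norm_add_le w0 (w - w0)
      rw [add_sub_cancel] at this
      linarith
    have h5 : ‖w0‖ ≤ ‖w0‖ + 1 := by linarith
    have h6 : C * √‖w - w0‖ ≤ C * √δ := mul_le_mul_of_nonneg_left (Real.sqrt_le_sqrt hw.le) hC
    have h7 := h2 w w0 h4 h5
    have h8 := h1 n w w0 h4 h5
    rw [dist_eq_norm]
    have h9 : V w - vn a b y (Ct m) n w = (V w - V w0) - (vn a b y (Ct m) n w0 - V w0) -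
        (vn a b y (Ct m) n w - vn a b y (Ct m) n w0) := by ring
    rw [h9]
    have h10 := norm_sub_le ((V w - V w0) - (vn a b y (Ct m) n w0 - V w0))
      (vn a b y (Ct m) n w - vn a b y (Ct m) n w0)
    have h11 := norm_sub_le (V w - V w0) (vn a b y (Ct m) n w0 - V w0)
    linarith

end Pool.Agent.H76.SU
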