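import Pool.Agent.H76.SU.KER
import Pool.Agent.H76.SU.GRO
import Pool.Agent.H76.SU.MOM
import Pool.Agent.H76.SU.SNE
import Pool.Agent.H76.SU.VLM
import Pool.Agent.H76.SU.SUP
import Pool.Agent.H76.SU.FIN

/-!
# Module PLA: assembly in the plane: there is no wandering sequence of Fatou components in a good chart with a disc of bounded grand orbit
-/

set_option autoImplicit false

open Filter Topology Polynomial Metric Set MeasureTheory
open scoped ContDiff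

namespace Pool.Agent.H76.SU

open Pool.Agent.H61.TT H73.BR

variable {a b : Polynomial ℂ} {U : ℕ → Set ℂ} {J : Set ℂ} {R : ℝ}

theorem planar (h : Wan a b U J R) (hD : Dom a b U) : False := by
  obtain ⟨y, r0, R1, hr0, hU0, hdom⟩ := hD
  have hy : y ∈ U 0 := hU0 (mem_ball_self hr0)
  obtain ⟨ρ, hρ, hρU, hρi⟩ := inj_disc h hy
  obtain ⟨r', hr'⟩ : ∃ r' : ℝ, r' = min ρ r0 := ⟨_, rfl⟩
  have hr'0 : 0 < r' := by
    rw [hr']
    exact lt_min hρ hr0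
  have hr'ρ : r' ≤ ρ := by
    rw [hr']
    exact min_le_left _ _
  have hr'r : r' ≤ r0 := by
    rw [hr']
    exact min_le_right _ _
  obtain ⟨r, hr⟩ : ∃ r : ℝ, r = r' / 2 := ⟨_, rfl⟩
  have hr0' : 0 < r := by
    rw [hr]
    exact half_pos hr'0
  have hrr : r < r' := by
    rw [hr]
    exact half_lt_self hr'0
  have hU' : ball y r' ⊆ U 0 := (ball_subset_ball hr'ρ).trans hρU
  have hi' : ∀ n : ℕ, InjOn (gg a b)^[n] (ball y r') := fun n =>
    (hρi n).mono (ball_subset_ball hr'ρ)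
  have hUr : ball y r ⊆ U 0 := (ball_subset_ball hrr.le).trans hU'
  have hir : ∀ n : ℕ, InjOn (gg a b)^[n] (ball y r) := fun n =>
    (hi' n).mono (ball_subset_ball hrr.le)
  obtain ⟨Z, θ, mZ, mθ, hθ1, hθ2, hθ3, hθ4, hθ5⟩ := gro h hr0' hUr hir
  have hsup : ∀ x, θ x ≠ 0 → Z x ∈ ball y r ∧ ‖x‖ ≤ R1 := by
    intro x hx
    obtain ⟨h1, n, m, h2, h3⟩ := hθ2 x hx
    exact ⟨h1, hdom x (Z x) (ball_subset_ball (hrr.le.trans hr'r) h1) n m h2 h3⟩
  obtain ⟨d, hd⟩ : ∃ d : ℕ, d = max a.natDegree b.natDegree := ⟨_, rfl⟩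
  have hda : a.natDegree ≤ d := by
    rw [hd]
    exact le_max_left _ _
  have hdb : b.natDegree ≤ d := by
    rw [hd]
    exact le_max_right _ _
  obtain ⟨c, ⟨j, hj, hcj⟩, hc⟩ := ker h.cop h.wr hda hdb (y := y) hr0' mZ mθ hθ1 hsup hθ4 hθ5
  obtain ⟨m, hmdef⟩ : ∃ m : ℂ → ℂ, m = mc y (2 * d + 2) c Z θ := ⟨_, rfl⟩
  rw [← hmdef] at hc
  obtain ⟨B, hm⟩ := mc_bm (y := y) hr0' mZ mθ hθ1 hsup (2 * d + 2) c
  rw [← hmdef] at hm
  have hmx : ∀ x, m x = (∑ j ∈ Finset.range (2 * d + 2), c j * (starRingEnd ℂ) (Z x - y) ^ j) * θ x := by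
    intro x
    rw [hmdef]
    unfold mc
    rw [Finset.sum_mul]
    refine Finset.sum_congr rfl fun i _ => ?_
    ring
  have heq : ∀ z, b.eval z ≠ 0 → Ct m (gg a b z) = dg a b z * Ct m z := by
    intro z hz
    have h1 := hc z
    have h2 : b.eval z ^ 2 ≠ 0 := pow_ne_zero 2 hz
    unfold dg
    rw [div_mul_eq_mul_div, eq_div_iff h2, mul_comm, h1]
  obtain ⟨g, hg1, hg2, hg3, hg4, hg5, hg6, hg7, hg8⟩ := blw h hr'0 hU' hi'
  obtain ⟨V, hV1, hV2, hV3, hV4⟩ := vlm h hr'0 hU' hi' hm heq hg4 hg5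
  have hμ : ∀ x, m x ≠ 0 → ∃ z ∈ ball y r, ∃ i j : ℕ, (gg a b)^[i] x = (gg a b)^[j] z := by
    intro x hx
    have hx' : θ x ≠ 0 := by
      intro h0
      apply hx
      rw [hmx, h0, mul_zero]
    obtain ⟨h1, n, k, h2, -⟩ := hθ2 x hx'
    exact ⟨Z x, h1, n, k, h2⟩
  -- `V` is holomorphic off the disc
  have hVd : DifferentiableOn ℂ V (Sh a b J y \ g '' closedBall y r) := by
    intro w hw
    obtain ⟨s, hs, hs'⟩ := sup_zero h hr0' hrr hU' hμ hg1 (hg7 r hrr) hw.1 hw.2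
    exact ((hV4 _ isOpen_ball hs').differentiableAt
      (isOpen_ball.mem_nhds (mem_ball_self hs))).differentiableWithinAt
  have hdec : ∀ q, q ∉ Sh a b J y → ∃ C : ℝ, ∀ w ∈ Sh a b J y, ‖w - q‖ ≤ 1 →
      ‖V w‖ ≤ C * √‖w - q‖ := by
    intro q hq
    obtain ⟨C, hC0, hC⟩ := hV1 (‖q‖ + 2)
    refine ⟨C, fun w hw hwq => ?_⟩
    obtain ⟨q', hq'J, hq'⟩ := sh_seg hw hq
    have h1 : ‖w‖ ≤ ‖q‖ + 1 := by
      calc ‖w‖ = ‖(w - q) + q‖ := by rw [sub_add_cancel]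
        _ ≤ ‖w - q‖ + ‖q‖ := norm_add_le _ _
        _ ≤ ‖q‖ + 1 := by linarith
    have h2 : ‖q'‖ ≤ ‖q‖ + 2 := by
      calc ‖q'‖ = ‖w - (w - q')‖ := by rw [sub_sub_cancel]
        _ ≤ ‖w‖ + ‖w - q'‖ := norm_sub_le _ _
        _ ≤ ‖q‖ + 2 := by linarith
    have h3 := hC w q' (by linarith) h2
    rw [hV2 q' hq'J, sub_zero] at h3
    exact h3.trans (mul_le_mul_of_nonneg_left (Real.sqrt_le_sqrt hq') hC0)
  have hfin := fin (sh_open a b J y) (sh_ne h hy) (fun q hq s hs => sh_iso h hy hq hs) hr0' hrr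
    hg1 hg2 hg8 hVd hdec
  have hz : ∀ x ∈ ball y r', x ∉ closedBall y r → Ct m x = 0 := by
    intro x hx hxr
    have h1 := hfin x hx hxr
    rw [hV3 x hx] at h1
    exact (mul_eq_zero.1 h1).resolve_left (hg6 x hx)
  have h1 : ∀ x ∈ ball y r, m x = ∑ j ∈ Finset.range (2 * d + 2),
      c j * (starRingEnd ℂ) (x - y) ^ j := by
    intro x hx
    obtain ⟨h1, h2⟩ := hθ3 x hx
    rw [hmx, h1, h2, mul_one]
  have h2 : ∀ x ∈ ball y r', x ∉ ball y r → m x = 0 := by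
    intro x hx hxr
    by_contra h0
    obtain ⟨z, hz, i, k, hik⟩ := hμ x h0
    have hz0 : z ∈ U 0 := hUr hz
    have hx0 : x ∈ U 0 := hU' hx
    have hi := h.idx (h.map0 i hx0) (by
      rw [hik]
      exact h.map0 k hz0)
    subst hi
    have := hi' i hx (ball_subset_ball hrr.le hz) hik
    rw [this] at hxr
    exact hxr hz
  exact hcj (mom hm hr0' hrr h1 h2 hz j hj)

end Pool.Agent.H76.SU
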