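import Pool.Agent.H76.SU.SPD
import Pool.Agent.H76.SU.PLA

/-!
# Sullivan's theorem: a rational map of degree at least two has no wandering domains
-/

set_option autoImplicit false

open Filter Topology Polynomial Metric Set MeasureTheory

namespace Pool.Agent.H76.SU

open Pool.Agent.H44.Fatou Pool.Agent.H32.BT Pool.Agent.H79.Eul Pool.Agent.H79.Par
open Pool.Agent.H35.EX Pool.Agent.H44.RR Pool.Agent.H56.HR

theorem no_wd {d : ℕ} (hd : 2 ≤ d) {v0 : E d} (hcop : IsCoprime (pol v0.1) (pol v0.2))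
    (hdeg : max (pol v0.1).natDegree (pol v0.2).natDegree = d) {x : OnePoint ℂ} :
    ¬ Wd (Rf v0) x := by
  intro hw
  have hopen : ∀ {v : E d}, IsCoprime (pol v.1) (pol v.2) →
      max (pol v.1).natDegree (pol v.2).natDegree = d → IsOpenMap (Rf v) := by
    intro v hc he
    exact rat_open hc (by rw [he]; omega)
  -- first chart
  have ho0 := hopen hcop hdeg
  obtain ⟨s1, φ1, hs1, hφs1, hφ1, hφi1, hcj1, -⟩ := chart_ex hd hcop hdeg (om_open (Rf v0) x 0)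
    ⟨_, om_mem ho0 hw.1 0⟩
  obtain ⟨hcop1, hdeg1, hconj1⟩ := hcj1 v0 hcop hdeg
  obtain ⟨L1, -, hL1⟩ := Pool.Agent.H44.RG.chord_bilip hφs1 hφ1 hφi1
  obtain ⟨hw1, hom1⟩ := wd_conj hL1 hconj1 hw
  have hk1 : OnePoint.infty ∈ Om (Rf (Lin s1 v0)) (φ1 x) 0 := by
    rw [hom1, ← hφs1]
    exact mem_image_of_mem _ hs1
  obtain ⟨R1, s0, hs0, hwan1⟩ := wan_chart hd hcop1 hdeg1 hw1 hk1
  have W1 := hwan1 s0 le_rfl
  obtain ⟨y, hy⟩ := W1.ne
  obtain ⟨ρ, hρ, hρU, hρi⟩ := inj_disc W1 hy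
  obtain ⟨K1, hK1def⟩ : ∃ K1 : Set (OnePoint ℂ), K1 = ((↑) : ℂ → OnePoint ℂ) '' ball y ρ := ⟨_, rfl⟩
  have hK1 : IsOpen K1 := by
    rw [hK1def]
    exact OnePoint.isOpenEmbedding_coe.isOpenMap _ isOpen_ball
  have hK1O : K1 ⊆ Om (Rf (Lin s1 v0)) (φ1 x) s0 := by
    rw [hK1def]
    rintro _ ⟨z, hz, rfl⟩
    have := hρU hz
    simp only [Nat.zero_add] at this
    exact this
  have hK1i : ∀ n : ℕ, InjOn (Rf (Lin s1 v0))^[n] K1 := by
    intro n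
    rw [hK1def]
    rintro _ ⟨z, hz, rfl⟩ _ ⟨z', hz', rfl⟩ he
    rw [rf_it fun k _ => W1.it k (hρU hz), rf_it fun k _ => W1.it k (hρU hz')] at he
    rw [hρi n hz hz' (OnePoint.coe_injective he)]
  have hK1n : K1.Nonempty := by
    rw [hK1def]
    exact ⟨_, mem_image_of_mem _ (mem_ball_self hρ)⟩
  -- second chart
  obtain ⟨s2, φ2, hs2, hφs2, hφ2, hφi2, hcj2, -⟩ := chart_ex hd hcop1 hdeg1 hK1 hK1n
  obtain ⟨hcop2, hdeg2, hconj2⟩ := hcj2 (Lin s1 v0) hcop1 hdeg1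
  obtain ⟨L2, -, hL2⟩ := Pool.Agent.H44.RG.chord_bilip hφs2 hφ2 hφi2
  obtain ⟨hw2, hom2⟩ := wd_conj hL2 hconj2 hw1
  have hk2 : OnePoint.infty ∈ Om (Rf (Lin s2 (Lin s1 v0))) (φ2 (φ1 x)) s0 := by
    rw [hom2, ← hφs2]
    exact mem_image_of_mem _ (hK1O hs2)
  obtain ⟨R2, t0, ht0, hwan2⟩ := wan_chart hd hcop2 hdeg2 hw2 hk2
  have hdom := dom_chart hd hcop2 hdeg2 hw2 ht0 (K := φ2 '' K1) (φ2.isOpenMap _ hK1) (by
    rw [hom2]
    exact image_mono hK1O) (by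
    intro n
    rintro _ ⟨z, hz, rfl⟩ _ ⟨z', hz', rfl⟩ he
    rw [iter_conj φ2 hconj2, iter_conj φ2 hconj2] at he
    rw [hK1i n hz hz' (φ2.injective he)]) (by
    rw [← hφs2]
    exact mem_image_of_mem _ hs2)
  exact planar (hwan2 t0 le_rfl) hdom

/-- Sullivan's theorem -/
theorem sullivan {d : ℕ} (hd : 2 ≤ d) {v0 : E d} (hcop : IsCoprime (pol v0.1) (pol v0.2))
    (hdeg : max (pol v0.1).natDegree (pol v0.2).natDegree = d) {x : OnePoint ℂ}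
    (hx : x ∈ FS (Rf v0)) : ∃ m n : ℕ, m < n ∧
      connectedComponentIn (FS (Rf v0)) ((Rf v0)^[m] x) =
        connectedComponentIn (FS (Rf v0)) ((Rf v0)^[n] x) := by
  by_contra hcon
  push Not at hcon
  refine no_wd hd hcop hdeg (x := x) ⟨hx, fun m n hmn => ?_⟩
  rcases lt_or_gt_of_ne hmn with h | h
  · exact hcon m n h
  · exact (hcon n m h).symm

end Pool.Agent.H76.SU
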