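import Pool.Agent.H76.SU.SPO

/-!
# Module SPF: the Fatou set is backward invariant, and invariant under changes of charts

PROOFS. `fs_back`: the set `f⁻¹ (FS f)` is open, contains `x`, and consists of points with `EqAt f`: let `f x' ∈ FS f` (so `EqAt f (f x')`, `interior_subset`), `ε > 0`: for `y'` near `f x'` all `chord (f^n (f x')) (f^n y') < ε`; by continuity for `y` near `x'`: `chord (f^(n+1) x') (f^(n+1) y) < ε` for all `n`, and `chord x' y < ε` for `y` near `x'`
(`chord_cont` of H44/RR/CHC, `chord x' x' = 0`). `FS f` is the interior of `{EqAt f}` (`interior_maximal`).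
`fs_conj`: `eq_conj` (H56/HR/EMN) for `φ` and for `φ.symm` (the inequalities of `chord_bilip` are symmetric, `f (φ.symm y) = φ.symm (g y)`): `EqAt f x ↔ EqAt g (φ x)`; `φ` is a homeomorphism, so `φ⁻¹ (interior S) = interior (φ⁻¹ S)` (`Homeomorph.preimage_interior`).
`wd_conj`: `φ '' connectedComponentIn (FS f) (f^n x) = connectedComponentIn (φ '' FS f) (φ (f^n x))` (`Homeomorph.image_connectedComponentIn`), `φ '' FS f = FS g` (`fs_conj`), `g^n (φ x) = φ (f^n x)` (`iter_conj`, H32/BT/Top); `φ` is injective, so the images of different sets are different.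
-/

set_option autoImplicit false

open Filter Topology Polynomial Metric Set MeasureTheory

namespace Pool.Agent.H76.SU

open Pool.Agent.H44.Fatou Pool.Agent.H32.BT Pool.Agent.H79.Eul Pool.Agent.H79.Par
open Pool.Agent.H35.EX Pool.Agent.H44.RR Pool.Agent.H56.HR

theorem fs_back {f : OnePoint ℂ → OnePoint ℂ} (hc : Continuous f) {x : OnePoint ℂ}
    (hx : f x ∈ FS f) : x ∈ FS f := by
  refine mem_interior.2 ⟨f ⁻¹' FS f, ?_, (fs_open _).preimage hc, hx⟩
  intro y hy ε hε
  have h1 : EqAt f (f y) := interior_subset hy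
  have h2 : ∀ᶠ w in 𝓝 y, chord y w < ε := by
    have h3 : Continuous (fun w : OnePoint ℂ => chord y w) :=
      chord_cont.comp (continuous_const.prodMk continuous_id)
    have h4 := h3.tendsto y
    rw [chord_zero] at h4
    exact h4.eventually_lt_const hε
  filter_upwards [(hc.tendsto y).eventually (h1 ε hε), h2] with w hw1 hw2
  intro m
  cases m with
  | zero => exact hw2
  | succ m =>
    rw [Function.iterate_succ_apply, Function.iterate_succ_apply]
    exact hw1 m

theorem fs_conj {φ : OnePoint ℂ ≃ₜ OnePoint ℂ} {L : ℝ}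
    (hL : ∀ x y, chord (φ x) (φ y) ≤ L * chord x y ∧ chord x y ≤ L * chord (φ x) (φ y))
    {f g : OnePoint ℂ → OnePoint ℂ} (hfg : ∀ x, g (φ x) = φ (f x)) (x : OnePoint ℂ) :
    φ x ∈ FS g ↔ x ∈ FS f := by
  have h1 : ∀ x, EqAt g (φ x) ↔ EqAt f x := by
    intro x
    refine ⟨eq_conj hL hfg, fun hx => ?_⟩
    have h2 : ∀ x y, chord (φ.symm x) (φ.symm y) ≤ L * chord x y ∧
        chord x y ≤ L * chord (φ.symm x) (φ.symm y) := by
      intro x y
      have h3 := hL (φ.symm x) (φ.symm y)
      rw [φ.apply_symm_apply, φ.apply_symm_apply] at h3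
      exact ⟨h3.2, h3.1⟩
    have h4 : ∀ x, f (φ.symm x) = φ.symm (g x) := by
      intro x
      have h5 := hfg (φ.symm x)
      rw [φ.apply_symm_apply] at h5
      rw [h5, φ.symm_apply_apply]
    refine eq_conj h2 h4 ?_
    rw [φ.symm_apply_apply]
    exact hx
  have h2 : φ ⁻¹' FS g = FS f := by
    unfold FS
    rw [φ.preimage_interior]
    congr 1
    ext y
    exact h1 y
  rw [← h2]
  rfl

theorem wd_conj {φ : OnePoint ℂ ≃ₜ OnePoint ℂ} {L : ℝ}
    (hL : ∀ x y, chord (φ x) (φ y) ≤ L * chord x y ∧ chord x y ≤ L * chord (φ x) (φ y))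
    {f g : OnePoint ℂ → OnePoint ℂ} (hfg : ∀ x, g (φ x) = φ (f x)) {x : OnePoint ℂ} (h : Wd f x) :
    Wd g (φ x) ∧ ∀ n : ℕ, Om g (φ x) n = φ '' Om f x n := by
  have h1 : φ '' FS f = FS g := by
    ext y
    constructor
    · rintro ⟨z, hz, rfl⟩
      exact (fs_conj hL hfg z).2 hz
    · intro hy
      refine ⟨φ.symm y, ?_, φ.apply_symm_apply y⟩
      rw [← fs_conj hL hfg, φ.apply_symm_apply]
      exact hy
  have h2 : ∀ n : ℕ, Om g (φ x) n = φ '' Om f x n := by
    intro n
    unfold Om
    rw [iter_conj φ hfg]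
    by_cases hn : f^[n] x ∈ FS f
    · rw [φ.image_connectedComponentIn hn, h1]
    · rw [connectedComponentIn_eq_empty hn, connectedComponentIn_eq_empty, image_empty]
      rwa [fs_conj hL hfg]
  refine ⟨⟨(fs_conj hL hfg x).2 h.1, fun m n hmn he => ?_⟩, h2⟩
  rw [h2, h2] at he
  exact h.2 m n hmn (φ.injective.image_injective he)

end Pool.Agent.H76.SU
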