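import Pool.Agent.H76.SU.Defs

/-!
# Module HUL: the hull of a set in the plane

PROOFS. `hul_sub`: for `x ∈ A` the component of `x` in `Aᶜ` is empty (`connectedComponentIn_eq_empty`). `hul_mono`: `connectedComponentIn Bᶜ x ⊆ connectedComponentIn Aᶜ x` (`connectedComponentIn_mono`). `hul_ball`: let `x ∉ closedBall c r`; the set `(closedBall c r)ᶜ` is preconnected (complement of a ball in a space of real dimension `2`:
`isPreconnected_compl_of...`; search `isConnected_compl_ball`/`IsPathConnected.compl_closedBall`: Mathlib has `isPathConnected_compl_of_...`; or the union over large radii of circles and rays; or image of a connected set under polar coordinates: `{z | r < ‖z - c‖}` is the image of `(r, ∞) × ℝ` under the continuous map `(s, t) ↦ c + s * exp (t I)`), contained in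
`Aᶜ`, contains `x`, unbounded: so the component of `x` in `Aᶜ` is unbounded and `x ∉ hull A`. For `r < 0`: `A` is empty, and `hull ∅ = ∅` (the component is the plane): treat separately or use the same argument.
`hul_sph`: for `x ∈ ball c r` the component of `x` in `(sphere c r)ᶜ` is preconnected, does not meet the frontier of `ball c r` (the sphere; `frontier_ball`), so it is contained in `ball c r` (as in `Wan.conn`: `IsPreconnected.subset_left_of_subset_union` with the open sets `ball c r` and `(closedBall c r)ᶜ`), bounded.
`hul_comp`: `O = connectedComponentIn Aᶜ x` with `x ∈ Aᶜ`: open (`IsOpen.connectedComponentIn`, `ℂ` locally connected), preconnected, contains `x`. `O ⊆ hull A`: for `x' ∈ O` the component of `x'` is `O` (`connectedComponentIn_eq`). Frontier: let `z ∈ closure O`, `z ∉ A`: then `z ∈ Aᶜ`, the component `O'` of `z` is an open neighbourhood of `z`, meets `O`, so `O' = O` and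
`z ∈ O`, not in the frontier (`O` open). Nonempty: `O` is nonempty and bounded, so it is not the plane: `frontier O` is nonempty (`frontier_eq_empty_iff`/`isClopen_iff`).
-/

set_option autoImplicit false

open Filter Topology Polynomial Metric Set MeasureTheory
open scoped ContDiff

namespace Pool.Agent.H76.SU

open Pool.Agent.H61.TT H73.BR

theorem hul_sub (A : Set ℂ) : A ⊆ hull A := by
  intro x hx
  have h : connectedComponentIn Aᶜ x = ∅ := connectedComponentIn_eq_empty (fun h => h hx)
  show Bornology.IsBounded (connectedComponentIn Aᶜ x)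
  rw [h]
  exact Bornology.isBounded_empty

theorem hul_mono {A B : Set ℂ} (hAB : A ⊆ B) : hull A ⊆ hull B := by
  intro x hx
  have hx' : Bornology.IsBounded (connectedComponentIn Aᶜ x) := hx
  exact hx'.subset (connectedComponentIn_mono x (Set.compl_subset_compl.2 hAB))

/-- the complement of a closed disc is preconnected -/
theorem ext_pc (c : ℂ) (r : ℝ) : IsPreconnected (closedBall c r)ᶜ := by
  rcases lt_or_ge r 0 with hr | hr
  · rw [closedBall_eq_empty.2 hr, Set.compl_empty]
    exact isPreconnected_univ
  have h1 : IsPreconnected ((Set.Ioi r) ×ˢ (Set.univ : Set ℝ)) :=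
    isPreconnected_Ioi.prod isPreconnected_univ
  have h2 : (closedBall c r)ᶜ = (fun p : ℝ × ℝ => c + (p.1 : ℂ) * Complex.exp (p.2 * Complex.I)) ''
      ((Set.Ioi r) ×ˢ (Set.univ : Set ℝ)) := by
    ext z
    constructor
    · intro hz
      rw [Set.mem_compl_iff, mem_closedBall, not_le, dist_eq_norm] at hz
      refine ⟨(‖z - c‖, Complex.arg (z - c)), ⟨hz, trivial⟩, ?_⟩
      simp only
      rw [Complex.norm_mul_exp_arg_mul_I]
      ring
    · rintro ⟨⟨s, t⟩, ⟨hs, _⟩, rfl⟩
      have hs' : r < s := hs
      rw [Set.mem_compl_iff, mem_closedBall, not_le, dist_eq_norm]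
      simp only
      rw [add_sub_cancel_left, norm_mul, Complex.norm_exp_ofReal_mul_I, mul_one, Complex.norm_real,
        Real.norm_of_nonneg (hr.trans hs'.le)]
      exact hs'
  rw [h2]
  refine h1.image _ (Continuous.continuousOn ?_)
  fun_prop

/-- the complement of a closed disc is unbounded -/
theorem ext_nb (c : ℂ) (r : ℝ) : ¬ Bornology.IsBounded (closedBall c r)ᶜ := by
  intro h
  have h1 := (isBounded_closedBall (x := c) (r := r)).union h
  rw [Set.union_compl_self] at h1
  exact NormedSpace.unbounded_univ ℝ ℂ h1

theorem hul_ball {A : Set ℂ} {c : ℂ} {r : ℝ} (h : A ⊆ closedBall c r) : hull A ⊆ closedBall c r := by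
  intro x hx
  by_contra hxc
  have h1 : (closedBall c r)ᶜ ⊆ connectedComponentIn Aᶜ x :=
    (ext_pc c r).subset_connectedComponentIn hxc (Set.compl_subset_compl.2 h)
  exact ext_nb c r (Bornology.IsBounded.subset hx h1)

theorem hul_sph (c : ℂ) (r : ℝ) : ball c r ⊆ hull (sphere c r) := by
  intro x hx
  have hxs : x ∈ (sphere c r)ᶜ := fun h => (mem_ball.1 hx).ne (mem_sphere.1 h)
  have h1 : connectedComponentIn (sphere c r)ᶜ x ⊆ ball c r := by
    refine IsPreconnected.subset_left_of_subset_union isOpen_ball
      (isClosed_closedBall (x := c) (ε := r)).isOpen_compl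
      (disjoint_compl_right_iff_subset.2 ball_subset_closedBall) ?_
      ⟨x, mem_connectedComponentIn hxs, hx⟩ isPreconnected_connectedComponentIn
    intro z hz
    have hz1 := connectedComponentIn_subset _ _ hz
    rw [Set.mem_compl_iff, mem_sphere] at hz1
    rcases lt_or_gt_of_ne hz1 with h | h
    · exact Or.inl h
    · refine Or.inr ?_
      rw [Set.mem_compl_iff, mem_closedBall, not_le]
      exact h
  exact Bornology.IsBounded.subset isBounded_ball h1

theorem hul_comp {A : Set ℂ} (hA : IsClosed A) {x : ℂ} (hx : x ∈ hull A) (hxA : x ∉ A) :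
    ∃ O : Set ℂ, O = connectedComponentIn Aᶜ x ∧ IsOpen O ∧ IsPreconnected O ∧ x ∈ O ∧
      Bornology.IsBounded O ∧ Disjoint O A ∧ O ⊆ hull A ∧ frontier O ⊆ A ∧ (frontier O).Nonempty := by
  have hO : IsOpen (connectedComponentIn Aᶜ x) := hA.isOpen_compl.connectedComponentIn
  have hxO : x ∈ connectedComponentIn Aᶜ x := mem_connectedComponentIn hxA
  refine ⟨_, rfl, hO, isPreconnected_connectedComponentIn, hxO, hx, ?_, ?_, ?_, ?_⟩
  · exact Set.disjoint_left.2 fun z hz => connectedComponentIn_subset _ _ hz
  · intro z hz
    show Bornology.IsBounded (connectedComponentIn Aᶜ z)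
    rw [← connectedComponentIn_eq hz]
    exact hx
  · intro z hz
    by_contra hzA
    rw [hO.frontier_eq] at hz
    have h1 : IsOpen (connectedComponentIn Aᶜ z) := hA.isOpen_compl.connectedComponentIn
    have h2 : z ∈ connectedComponentIn Aᶜ z := mem_connectedComponentIn hzA
    obtain ⟨w, hw1, hw2⟩ := mem_closure_iff.1 hz.1 _ h1 h2
    apply hz.2
    rw [connectedComponentIn_eq hw2, ← connectedComponentIn_eq hw1]
    exact h2
  · by_contra hne
    rw [Set.not_nonempty_iff_eq_empty, ← isClopen_iff_frontier_eq_empty, isClopen_iff] at hne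
    rcases hne with h | h
    · rw [h] at hxO
      exact hxO
    · have h3 : Bornology.IsBounded (connectedComponentIn Aᶜ x) := hx
      rw [h] at h3
      exact NormedSpace.unbounded_univ ℝ ℂ h3

/-- a point in a preconnected unbounded set without points of `A` is not in the hull -/
theorem hul_not {A S : Set ℂ} (hS : IsPreconnected S) (hb : ¬ Bornology.IsBounded S)
    (hd : Disjoint S A) {x : ℂ} (hx : x ∈ S) : x ∉ hull A := by
  intro h
  have h1 : S ⊆ connectedComponentIn Aᶜ x :=
    hS.subset_connectedComponentIn hx (fun z hz hA => Set.disjoint_left.1 hd hz hA)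
  exact hb (Bornology.IsBounded.subset h h1)

end Pool.Agent.H76.SU
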