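import Pool.Agent.H76.SU.Defs

/-!
# Module BIG: near a point of the Julia set there are large derivatives; invariant vector fields vanish on the Julia set

PROOFS. `big`: let `ε = min ρ (R / (2 * (|M| + 1)))`. `h.esc z hz ε _ (2 * R)` gives `y0 ∈ ball z ε` and `n` with `b (f^n y0) = 0` or `2 R < ‖f^n y0‖`; let `n0` be the smallest natural number `n` for which there is `y ∈ ball z ε` with `b (f^n y) = 0` or `2 R < ‖f^n y‖`. First case: `n0` comes from `2 R < ‖f^n0 y‖` or `b (f^n0 y) = 0`; consider `N = n0` in the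
first case, `N = n0 + 1` in the second case. For `k < n0` and all `y' ∈ ball z ε`: `b (f^k y') ≠ 0` and `‖f^k y'‖ ≤ 2 R`. FIRST CASE: `f^n0` is holomorphic on `ball z ε` (`it_der`), `‖f^n0 z‖ < R` (`z ∈ J`, `itJ`, `Jb`), `‖f^n0 y‖ > 2 R`: if `‖Dn n0 z'‖ < |M| + 1` on the whole ball then by the mean value inequality (convex ball) `R < ‖f^n0 y - f^n0 z‖ ≤ (|M| + 1) ε ≤ R / 2`,
contradiction. So there is `z'` with `‖Dn n0 z'‖ ≥ |M| + 1 ≥ M`. SECOND CASE (no `y'` in the ball with `‖f^n0 y'‖ > 2 R`, but `b (f^n0 y) = 0`): consider the segment `γ t = z + t (y - z)`, `t ∈ [0, 1]`, and `t0 = inf {t ∈ [0,1] | b (f^n0 (γ t)) = 0}` (closed set, `f^n0` is continuous on the ball), `t0 > 0` since `b (f^n0 z) ≠ 0` (`Jp`). As `t → t0` from below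
`‖f^(n0+1) (γ t)‖ = ‖a / b (f^n0 (γ t))‖ → ∞` (`a ≠ 0` at a zero of `b`: coprime). So there is `t1 < t0` with `‖f^(n0+1) (γ t1)‖ > 2 R`, and `f^(n0+1)` is differentiable at the points `γ t`, `t ≤ t1` (`it_der`), so the mean value inequality on the segment `[z, γ t1]` (`Convex.norm_image_sub_le_of_norm_hasDerivWithin_le` with the convex set `segment`) gives a
point `z'` of the segment with `‖Dn (n0+1) z'‖ ≥ |M| + 1`, and no poles along its orbit up to `n0`.
`vj`: `v z = 0` by continuity: for every `ρ, M` there is `z' ∈ ball z ρ` as in `big`; `v (f^n z') = Dn n z' * v z'` (induction with `heq`, `dn_succ`), so `‖v z'‖ ≤ C / M`. So `v z = lim v z' = 0` (take `ρ = 1/k`, `M = k`).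
-/

set_option autoImplicit false

open Filter Topology Polynomial Metric Set MeasureTheory
open scoped ContDiff

namespace Pool.Agent.H76.SU

open Pool.Agent.H61.TT H73.BR

variable {a b : Polynomial ℂ} {U : ℕ → Set ℂ} {J : Set ℂ} {R : ℝ}

theorem big (h : Wan a b U J R) {z : ℂ} (hz : z ∈ J) {ρ : ℝ} (hρ : 0 < ρ) (M : ℝ) :
    ∃ z' ∈ ball z ρ, ∃ n : ℕ, (∀ k < n, b.eval ((gg a b)^[k] z') ≠ 0) ∧ M ≤ ‖Dn a b n z'‖ := by
  by_contra hcon
  push Not at hcon
  have hR := h.R_pos
  have hM : 0 < M := by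
    have := hcon z (mem_ball_self hρ) 0 (by simp)
    rw [dn_zero, norm_one] at this
    linarith
  set ε : ℝ := min ρ (R / (2 * M)) with hεdef
  have hε : 0 < ε := lt_min hρ (by positivity)
  have hερ : ε ≤ ρ := min_le_left _ _
  have hMε : M * ε ≤ R / 2 := by
    have h1 : ε ≤ R / (2 * M) := min_le_right _ _
    calc M * ε ≤ M * (R / (2 * M)) := mul_le_mul_of_nonneg_left h1 hM.le
      _ = R / 2 := by field_simp
  have hsub : ball z ε ⊆ ball z ρ := ball_subset_ball hερ
  have hzn : ∀ n : ℕ, ‖(gg a b)^[n] z‖ < R := by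
    intro n
    have := h.Jb (h.itJ n hz)
    rwa [mem_ball_zero_iff] at this
  have key : ∀ n : ℕ, ∀ z' ∈ ball z ε, b.eval ((gg a b)^[n] z') ≠ 0 ∧ ‖(gg a b)^[n] z'‖ ≤ 2 * R := by
    intro n
    induction n using Nat.strong_induction_on with
    | _ n ih =>
      have hder : ∀ x ∈ ball z ε, HasDerivAt (gg a b)^[n] (Dn a b n x) x :=
        fun x hx => it_der fun k hk => (ih k hk x hx).1
      have hbd : ∀ z' ∈ ball z ε, ‖(gg a b)^[n] z'‖ ≤ 2 * R := by
        intro z' hz'
        have h1 : ‖(gg a b)^[n] z' - (gg a b)^[n] z‖ ≤ M * ‖z' - z‖ :=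
          Convex.norm_image_sub_le_of_norm_hasDerivWithin_le (s := ball z ε)
            (fun x hx => (hder x hx).hasDerivWithinAt)
            (fun x hx => (hcon x (hsub hx) n fun k hk => (ih k hk x hx).1).le)
            (convex_ball z ε) (mem_ball_self hε) hz'
        have h2 : ‖z' - z‖ ≤ ε := by
          rw [mem_ball, dist_eq_norm] at hz'
          exact hz'.le
        have h3 : M * ‖z' - z‖ ≤ R / 2 := (mul_le_mul_of_nonneg_left h2 hM.le).trans hMε
        have h4 : ‖(gg a b)^[n] z'‖ ≤ ‖(gg a b)^[n] z' - (gg a b)^[n] z‖ + ‖(gg a b)^[n] z‖ := by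
          have := norm_add_le ((gg a b)^[n] z' - (gg a b)^[n] z) ((gg a b)^[n] z)
          rwa [sub_add_cancel] at this
        have h5 := hzn n
        linarith
      intro y hy
      refine ⟨?_, hbd y hy⟩
      intro h0
      -- the segment
      set γ : ℝ → ℂ := fun t => z + (t : ℂ) * (y - z) with hγ
      have hγc : Continuous γ := by
        rw [hγ]
        fun_prop
      have hyz : ‖y - z‖ < ε := by
        rw [mem_ball, dist_eq_norm] at hy
        exact hy
      have hγb : ∀ t ∈ Icc (0 : ℝ) 1, γ t ∈ ball z ε := by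
        intro t ht
        rw [mem_ball, dist_eq_norm]
        show ‖z + (t : ℂ) * (y - z) - z‖ < ε
        rw [add_sub_cancel_left, norm_mul, Complex.norm_real, Real.norm_eq_abs, abs_of_nonneg ht.1]
        calc t * ‖y - z‖ ≤ 1 * ‖y - z‖ := mul_le_mul_of_nonneg_right ht.2 (norm_nonneg _)
          _ = ‖y - z‖ := one_mul _
          _ < ε := hyz
      have hFc : ContinuousOn (fun t => (gg a b)^[n] (γ t)) (Icc (0 : ℝ) 1) := by
        intro t ht
        have h1 : ContinuousAt (gg a b)^[n] (γ t) := (hder _ (hγb t ht)).continuousAt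
        exact (h1.comp hγc.continuousAt).continuousWithinAt
      have hTc : IsCompact (Icc (0 : ℝ) 1 ∩ (fun t => b.eval ((gg a b)^[n] (γ t))) ⁻¹' {0}) := by
        refine isCompact_Icc.of_isClosed_subset ?_ inter_subset_left
        exact (b.continuous.comp_continuousOn hFc).preimage_isClosed_of_isClosed isClosed_Icc
          isClosed_singleton
      have hTn : (Icc (0 : ℝ) 1 ∩ (fun t => b.eval ((gg a b)^[n] (γ t))) ⁻¹' {0}).Nonempty := by
        refine ⟨1, ⟨zero_le_one, le_rfl⟩, ?_⟩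
        show b.eval ((gg a b)^[n] (z + ((1 : ℝ) : ℂ) * (y - z))) ∈ ({0} : Set ℂ)
        rw [Complex.ofReal_one, one_mul, add_sub_cancel]
        exact h0
      obtain ⟨t0, ⟨ht01, ht0⟩, hleast⟩ := hTc.exists_isLeast hTn
      have ht0' : b.eval ((gg a b)^[n] (γ t0)) = 0 := ht0
      have hγ0 : γ 0 = z := by
        show z + ((0 : ℝ) : ℂ) * (y - z) = z
        rw [Complex.ofReal_zero, zero_mul, add_zero]
      have ht0pos : 0 < t0 := by
        rcases ht01.1.lt_or_eq with h' | h'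
        · exact h'
        · exfalso
          rw [← h', hγ0] at ht0'
          exact h.Jp _ (h.itJ n hz) ht0'
      have hnz : ∀ s ∈ Ico (0 : ℝ) t0, b.eval ((gg a b)^[n] (γ s)) ≠ 0 := by
        intro s hs hs0
        have : t0 ≤ s := hleast ⟨⟨hs.1, hs.2.le.trans ht01.2⟩, hs0⟩
        exact absurd hs.2 (not_lt.2 this)
      have hab : ∀ t ∈ Ico (0 : ℝ) t0, ‖a.eval ((gg a b)^[n] (γ t))‖ ≤
          2 * R * ‖b.eval ((gg a b)^[n] (γ t))‖ := by
        intro t ht
        have ht1 : t ≤ 1 := ht.2.le.trans ht01.2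
        have hseg : ∀ w ∈ segment ℝ z (γ t), ∃ s ∈ Icc (0 : ℝ) t, w = γ s := by
          intro w hw
          rw [segment_eq_image'] at hw
          obtain ⟨θ, hθ, rfl⟩ := hw
          refine ⟨θ * t, ⟨mul_nonneg hθ.1 ht.1, ?_⟩, ?_⟩
          · calc θ * t ≤ 1 * t := mul_le_mul_of_nonneg_right hθ.2 ht.1
              _ = t := one_mul t
          · show z + θ • (z + (t : ℂ) * (y - z) - z) = z + ((θ * t : ℝ) : ℂ) * (y - z)
            rw [add_sub_cancel_left, Complex.real_smul, Complex.ofReal_mul]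
            ring
        have hpole : ∀ w ∈ segment ℝ z (γ t), ∀ k < n + 1, b.eval ((gg a b)^[k] w) ≠ 0 := by
          intro w hw k hk
          obtain ⟨s, hs, rfl⟩ := hseg w hw
          rcases Nat.lt_succ_iff_lt_or_eq.1 hk with hk | hk
          · exact (ih k hk _ (hγb s ⟨hs.1, hs.2.trans ht1⟩)).1
          · rw [hk]
            exact hnz s ⟨hs.1, hs.2.trans_lt ht.2⟩
        have hball : ∀ w ∈ segment ℝ z (γ t), w ∈ ball z ε := by
          intro w hw
          obtain ⟨s, hs, rfl⟩ := hseg w hw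
          exact hγb s ⟨hs.1, hs.2.trans ht1⟩
        have h1 : ‖(gg a b)^[n + 1] (γ t) - (gg a b)^[n + 1] z‖ ≤ M * ‖γ t - z‖ :=
          Convex.norm_image_sub_le_of_norm_hasDerivWithin_le (s := segment ℝ z (γ t))
            (fun x hx => (it_der (hpole x hx)).hasDerivWithinAt)
            (fun x hx => (hcon x (hsub (hball x hx)) (n + 1) (hpole x hx)).le)
            (convex_segment z (γ t)) (left_mem_segment ℝ z (γ t)) (right_mem_segment ℝ z (γ t))
        have h2 : ‖γ t - z‖ ≤ ε := by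
          have := hγb t ⟨ht.1, ht1⟩
          rw [mem_ball, dist_eq_norm] at this
          exact this.le
        have h3 : M * ‖γ t - z‖ ≤ R / 2 := (mul_le_mul_of_nonneg_left h2 hM.le).trans hMε
        have h4 : ‖(gg a b)^[n + 1] (γ t)‖ ≤
            ‖(gg a b)^[n + 1] (γ t) - (gg a b)^[n + 1] z‖ + ‖(gg a b)^[n + 1] z‖ := by
          have := norm_add_le ((gg a b)^[n + 1] (γ t) - (gg a b)^[n + 1] z) ((gg a b)^[n + 1] z)
          rwa [sub_add_cancel] at this
        have h5 := hzn (n + 1)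
        have h6 : ‖(gg a b)^[n + 1] (γ t)‖ ≤ 2 * R := by linarith
        rw [Function.iterate_succ_apply'] at h6
        have h7 : ‖a.eval ((gg a b)^[n] (γ t))‖ / ‖b.eval ((gg a b)^[n] (γ t))‖ ≤ 2 * R := by
          rw [← norm_div]
          exact h6
        have h8 : 0 < ‖b.eval ((gg a b)^[n] (γ t))‖ := norm_pos_iff.2 (hnz t ht)
        rwa [div_le_iff₀ h8] at h7
      -- the limit
      have hne : (𝓝[Ico (0 : ℝ) t0] t0).NeBot := by
        rw [← mem_closure_iff_nhdsWithin_neBot, closure_Ico ht0pos.ne]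
        exact ⟨ht0pos.le, le_rfl⟩
      have hFt : Tendsto (fun t => (gg a b)^[n] (γ t)) (𝓝[Ico (0 : ℝ) t0] t0)
          (𝓝 ((gg a b)^[n] (γ t0))) :=
        (hFc t0 ht01).mono_left (nhdsWithin_mono _ fun s hs => ⟨hs.1, hs.2.le.trans ht01.2⟩)
      have hlim : ‖a.eval ((gg a b)^[n] (γ t0))‖ ≤ 2 * R * ‖b.eval ((gg a b)^[n] (γ t0))‖ := by
        refine le_of_tendsto_of_tendsto (((a.continuous.tendsto _).comp hFt).norm)
          ((((b.continuous.tendsto _).comp hFt).norm).const_mul (2 * R)) ?_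
        filter_upwards [self_mem_nhdsWithin] with t ht
        exact hab t ht
      rw [ht0', norm_zero, mul_zero] at hlim
      have ha0 : a.eval ((gg a b)^[n] (γ t0)) = 0 := norm_le_zero_iff.1 hlim
      obtain ⟨u, v, huv⟩ := h.cop
      have := congrArg (Polynomial.eval ((gg a b)^[n] (γ t0))) huv
      rw [eval_add, eval_mul, eval_mul, ha0, ht0', mul_zero, mul_zero, add_zero, eval_one] at this
      exact zero_ne_one this
  obtain ⟨y, hy, n, hn⟩ := h.esc z hz ε hε (2 * R)
  rcases hn with hn | hn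
  · exact (key n y hy).1 hn
  · exact absurd hn (not_lt.2 (key n y hy).2)

/-- an invariant vector field along an orbit -/
theorem vf_it {v : ℂ → ℂ} (heq : ∀ z, b.eval z ≠ 0 → v (gg a b z) = dg a b z * v z) (n : ℕ) {z : ℂ}
    (hz : ∀ k < n, b.eval ((gg a b)^[k] z) ≠ 0) : v ((gg a b)^[n] z) = Dn a b n z * v z := by
  induction n with
  | zero => rw [dn_zero, one_mul, Function.iterate_zero_apply]
  | succ n ih =>
    rw [Function.iterate_succ_apply', heq _ (hz n (Nat.lt_succ_self n)), ih fun k hk => hz k (by omega),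
      dn_succ]
    ring

theorem vj (h : Wan a b U J R) {v : ℂ → ℂ} (hv : Continuous v) {C : ℝ} (hC : ∀ z, ‖v z‖ ≤ C)
    (heq : ∀ z, b.eval z ≠ 0 → v (gg a b z) = dg a b z * v z) : ∀ z ∈ J, v z = 0 := by
  intro z hz
  by_contra hv0
  have hpos : 0 < ‖v z‖ := norm_pos_iff.2 hv0
  have hev : ∀ᶠ w in 𝓝 z, ‖v z‖ / 2 < ‖v w‖ :=
    hv.norm.continuousAt.eventually (lt_mem_nhds (half_lt_self hpos))
  obtain ⟨ρ, hρ, hb⟩ := Metric.eventually_nhds_iff_ball.1 hev
  obtain ⟨z', hz', n, hn, hM⟩ := big h hz hρ ((C + 1) / (‖v z‖ / 2))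
  have h1 := vf_it heq n hn
  have h2 := hC ((gg a b)^[n] z')
  have hC0 : 0 ≤ C := (norm_nonneg _).trans h2
  have h3 := hb z' hz'
  rw [h1, norm_mul] at h2
  have h4 : C + 1 ≤ ‖Dn a b n z'‖ * (‖v z‖ / 2) := by
    rwa [div_le_iff₀ (half_pos hpos)] at hM
  have h5 : ‖Dn a b n z'‖ * (‖v z‖ / 2) ≤ ‖Dn a b n z'‖ * ‖v z'‖ :=
    mul_le_mul_of_nonneg_left h3.le (norm_nonneg _)
  linarith

end Pool.Agent.H76.SU
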