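import Pool.Agent.H76.SU.CTW
import Pool.Agent.H80.AJ.Distort

/-!
# Module CHN: the chain rule for the weak derivative

PROOF. `F` is injective and holomorphic on `B = ball c r`, so `deriv F ≠ 0` on `B` (`Pool.Agent.H80.AJ.deriv_ne` on smaller concentric or local balls), `F '' B` is open and the inverse `G : F '' B → B` is holomorphic (`HasStrictDerivAt`/`OpenPartialHomeomorph`; or for each point use the local inverse), `G' (F z) = 1 / F' z`.
Test function `ψ ζ = G' ζ * φ (G ζ)` for `ζ ∈ F '' B`, `0` outside: smooth with compact support `F '' tsupport φ`. Since `G, G'` are holomorphic: `db ψ ζ = G' ζ * (db φ) (G ζ) * conj (G' ζ) = (db φ) (G ζ) * ‖G' ζ‖ ^ 2`. Change of variables `ζ = F z` (`integral_image_eq_integral_abs_det_fderiv_smul`, the real determinant of multiplication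
by `F' z` is `‖F' z‖ ^ 2`; `Complex.det...` or `LinearMap.det` of `restrictScalars`; the library has it: search `det` in H44, H73): `∫_(F '' B) Ct m ζ * db ψ ζ = ∫_B Ct m (F z) * db φ z * ‖G' (F z)‖ ^ 2 * ‖F' z‖ ^ 2 = ∫_B Ct m (F z) * db φ z`. By `ctw` the left side is
`- ∫_(F '' B) m ζ * ψ ζ = - ∫_B m (F z) * (F' z)⁻¹ * φ z * ‖F' z‖ ^ 2 = - ∫_B m (F z) * conj (F' z) * φ z`. All integrands vanish outside `B`.
-/

set_option autoImplicit false

open Filter Topology Polynomial Metric Set MeasureTheory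
open scoped ContDiff

namespace Pool.Agent.H76.SU

open Pool.Agent.H61.TT H73.BR

/-- the real determinant of the multiplication by `w` -/
private theorem chn_det (w : ℂ) :
    |((ContinuousLinearMap.toSpanSingleton ℂ w : ℂ →L[ℂ] ℂ).restrictScalars ℝ).det| = ‖w‖ ^ 2 := by
  have h : ((ContinuousLinearMap.toSpanSingleton ℂ w : ℂ →L[ℂ] ℂ).restrictScalars ℝ).det =
      LinearMap.det (((ContinuousLinearMap.toSpanSingleton ℂ w : ℂ →L[ℂ] ℂ) :
        ℂ →ₗ[ℂ] ℂ).restrictScalars ℝ) := rfl
  rw [h, LinearMap.det_restrictScalars, LinearMap.det_ring, Algebra.norm_complex_apply,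
    abs_of_nonneg (Complex.normSq_nonneg _), Complex.normSq_eq_norm_sq]
  simp

theorem chn {B R : ℝ} {m : ℂ → ℂ} (hm : Bm B R m) {F : ℂ → ℂ} {c : ℂ} {r : ℝ} (hr : 0 < r)
    (hF : DifferentiableOn ℂ F (ball c r)) (hi : InjOn F (ball c r)) {φ : ℂ → ℂ}
    (hφ : ContDiff ℝ ∞ φ) (hc : HasCompactSupport φ) (hs : tsupport φ ⊆ ball c r) :
    ∫ z, Ct m (F z) * db φ z = -∫ z, m (F z) * (starRingEnd ℂ) (deriv F z) * φ z := by
  have hFan : AnalyticOnNhd ℂ F (ball c r) := hF.analyticOnNhd isOpen_ball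
  have hopen : ∀ s ⊆ ball c r, IsOpen s → IsOpen (F '' s) := by
    rcases hFan.is_constant_or_isOpen (convex_ball c r).isPreconnected with ⟨w, hw⟩ | h1
    · exfalso
      have h1 : c ∈ ball c r := mem_ball_self hr
      have h2 : c + ((r / 2 : ℝ) : ℂ) ∈ ball c r := by
        rw [mem_ball_iff_norm, add_sub_cancel_left, Complex.norm_real,
          Real.norm_of_nonneg (by positivity)]
        linarith
      have h3 := hi h1 h2 ((hw _ h1).trans (hw _ h2).symm)
      have h4 : ((r / 2 : ℝ) : ℂ) = 0 := by linear_combination -h3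
      have h5 : r / 2 = 0 := by exact_mod_cast h4
      linarith
    · exact h1
  set k : ℂ → ℂ := Function.invFunOn F (ball c r) with hk
  set W : Set ℂ := F '' ball c r with hW
  have hWo : IsOpen W := hopen _ subset_rfl isOpen_ball
  have hkmem : ∀ w ∈ W, k w ∈ ball c r := fun w hw => Function.invFunOn_mem hw
  have hkeq : ∀ w ∈ W, F (k w) = w := fun w hw => Function.invFunOn_eq hw
  have hkg : ∀ y ∈ ball c r, k (F y) = y := by
    intro y hy
    have hw : F y ∈ W := mem_image_of_mem F hy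
    exact hi (hkmem _ hw) hy (hkeq _ hw)
  have hkc : ContinuousOn k W := by
    rintro w ⟨y, hy, rfl⟩
    apply ContinuousAt.continuousWithinAt
    rw [ContinuousAt, hkg y hy]
    intro N hN
    obtain ⟨N', hN'N, hN'o, hyN'⟩ := _root_.mem_nhds_iff.1 hN
    have h1 : IsOpen (F '' (N' ∩ ball c r)) :=
      hopen _ inter_subset_right (hN'o.inter isOpen_ball)
    have h2 : F y ∈ F '' (N' ∩ ball c r) := mem_image_of_mem F ⟨hyN', hy⟩
    rw [Filter.mem_map]
    filter_upwards [h1.mem_nhds h2] with v hv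
    obtain ⟨x, hx, rfl⟩ := hv
    show k (F x) ∈ N
    rw [hkg x hx.2]
    exact hN'N hx.1
  have hkd : DifferentiableOn ℂ k W := by
    intro w hw
    exact (Pool.Agent.H32.BT.diff_of_inverse (hWo.mem_nhds hw) hkc isOpen_ball
      (hkmem w hw) hF (fun v hv _ => hkeq v hv)).differentiableWithinAt
  have hka : ∀ w ∈ W, AnalyticAt ℂ k w := fun w hw => hkd.analyticAt (hWo.mem_nhds hw)
  have hk1 : ∀ z ∈ ball c r, deriv k (F z) * deriv F z = 1 := by
    intro z hz
    have h1 : HasDerivAt k (deriv k (F z)) (F z) :=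
      (hka _ (mem_image_of_mem F hz)).differentiableAt.hasDerivAt
    have h2 : HasDerivAt F (deriv F z) z := (hFan z hz).differentiableAt.hasDerivAt
    have h3 := h1.comp z h2
    have h4 : (k ∘ F) =ᶠ[𝓝 z] id := by
      filter_upwards [isOpen_ball.mem_nhds hz] with y hy
      exact hkg y hy
    exact h3.unique ((hasDerivAt_id z).congr_of_eventuallyEq h4)
  set K : Set ℂ := F '' tsupport φ with hKd
  have hK : IsCompact K := hc.isCompact.image_of_continuousOn (hF.continuousOn.mono hs)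
  have hKW : K ⊆ W := image_mono hs
  set ψ : ℂ → ℂ := W.indicator fun ζ => deriv k ζ * φ (k ζ) with hψ
  have hψ0 : ∀ ζ, ζ ∉ K → ψ ζ = 0 := by
    intro ζ hζ
    by_cases hw : ζ ∈ W
    · rw [hψ, indicator_of_mem hw]
      have h1 : k ζ ∉ tsupport φ := fun h => hζ ⟨k ζ, h, hkeq ζ hw⟩
      rw [image_eq_zero_of_notMem_tsupport h1, mul_zero]
    · rw [hψ, indicator_of_notMem hw]
  have hψe : ∀ ζ ∈ W, ψ =ᶠ[𝓝 ζ] fun ζ => deriv k ζ * φ (k ζ) := by
    intro ζ hζ
    filter_upwards [hWo.mem_nhds hζ] with y hy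
    rw [hψ, indicator_of_mem hy]
  have hψz : ∀ ζ, ζ ∉ K → ψ =ᶠ[𝓝 ζ] fun _ => 0 := by
    intro ζ hζ
    filter_upwards [hK.isClosed.isOpen_compl.mem_nhds hζ] with y hy
    exact hψ0 y hy
  have hψs : ContDiff ℝ ∞ ψ := by
    rw [contDiff_iff_contDiffAt]
    intro ζ
    by_cases hζ : ζ ∈ K
    · refine ContDiffAt.congr_of_eventuallyEq ?_ (hψe ζ (hKW hζ))
      have h1 : ContDiffAt ℝ ∞ k ζ := ((hka ζ (hKW hζ)).contDiffAt (n := ∞)).restrict_scalars ℝ
      have h2 : ContDiffAt ℝ ∞ (deriv k) ζ :=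
        ((hka ζ (hKW hζ)).deriv.contDiffAt (n := ∞)).restrict_scalars ℝ
      exact h2.mul (hφ.contDiffAt.comp ζ h1)
    · exact contDiffAt_const.congr_of_eventuallyEq (hψz ζ hζ)
  have hψc : HasCompactSupport ψ := HasCompactSupport.intro hK hψ0
  have hψF : ∀ z ∈ ball c r, ψ (F z) = deriv k (F z) * φ z := by
    intro z hz
    rw [hψ, indicator_of_mem (mem_image_of_mem F hz), hkg z hz]
  have hdb : ∀ z ∈ ball c r, db ψ (F z) =
      deriv k (F z) * (starRingEnd ℂ) (deriv k (F z)) * db φ z := by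
    intro z hz
    have hFz : F z ∈ W := mem_image_of_mem F hz
    have hka' := hka _ hFz
    have h1 : db ψ (F z) = db (fun ζ => deriv k ζ * φ (k ζ)) (F z) := by
      rw [db, db, (hψe _ hFz).fderiv_eq]
    have d1 : DifferentiableAt ℝ (deriv k) (F z) :=
      hka'.deriv.differentiableAt.restrictScalars ℝ
    have d2 : DifferentiableAt ℝ k (F z) := hka'.differentiableAt.restrictScalars ℝ
    have d3 : DifferentiableAt ℝ φ (k (F z)) := hφ.differentiable (by simp) _
    have e1 := db_of_hol hka'.deriv.differentiableAt.hasDerivAt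
    have e2 := db_of_hol hka'.differentiableAt.hasDerivAt
    rw [h1, db_mul (F := deriv k) (G := fun ζ => φ (k ζ)) d1 (d3.comp (F z) d2),
      db_comp d3 d2, e1.1, e2.1, e2.2, hkg z hz]
    ring
  have hdb0 : ∀ ζ, ζ ∉ W → db ψ ζ = 0 := by
    intro ζ hζ
    rw [db, (hψz ζ fun h => hζ (hKW h)).fderiv_eq]
    simp
  have hφ0 : ∀ z, z ∉ ball c r → φ z = 0 := fun z hz =>
    image_eq_zero_of_notMem_tsupport fun h => hz (hs h)
  have hdφ0 : ∀ z, z ∉ ball c r → db φ z = 0 := by
    intro z hz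
    have h1 : fderiv ℝ φ z = 0 := by
      by_contra hne
      exact hz (hs (support_fderiv_subset ℝ hne))
    rw [db, h1]
    simp
  have hfd : ∀ z ∈ ball c r, HasFDerivWithinAt F
      ((ContinuousLinearMap.toSpanSingleton ℂ (deriv F z) : ℂ →L[ℂ] ℂ).restrictScalars ℝ)
      (ball c r) z := by
    intro z hz
    have h1 : HasDerivAt F (deriv F z) z := (hFan z hz).differentiableAt.hasDerivAt
    exact ((hasDerivAt_iff_hasFDerivAt.1 h1).restrictScalars ℝ).hasFDerivWithinAt
  have hcv : ∀ q : ℂ → ℂ, ∫ ζ in W, q ζ = ∫ z in ball c r, (‖deriv F z‖ ^ 2) • q (F z) := by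
    intro q
    rw [hW, integral_image_eq_integral_abs_det_fderiv_smul volume measurableSet_ball hfd hi]
    refine setIntegral_congr_fun measurableSet_ball fun z _ => ?_
    show _ • _ = _ • _
    rw [chn_det]
  have main := ctw hm hψs hψc
  rw [← setIntegral_eq_integral_of_forall_compl_eq_zero (s := W)
      (f := fun ζ => Ct m ζ * db ψ ζ) (fun ζ hζ => by rw [hdb0 ζ hζ, mul_zero]),
    ← setIntegral_eq_integral_of_forall_compl_eq_zero (s := W)
      (f := fun ζ => m ζ * ψ ζ) (fun ζ hζ => by rw [hψ0 ζ fun h => hζ (hKW h), mul_zero]),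
    hcv, hcv] at main
  rw [← setIntegral_eq_integral_of_forall_compl_eq_zero (s := ball c r)
      (f := fun z => Ct m (F z) * db φ z) (fun z hz => by rw [hdφ0 z hz, mul_zero]),
    ← setIntegral_eq_integral_of_forall_compl_eq_zero (s := ball c r)
      (f := fun z => m (F z) * (starRingEnd ℂ) (deriv F z) * φ z)
      (fun z hz => by rw [hφ0 z hz, mul_zero])]
  have hns : ∀ z, ((‖deriv F z‖ ^ 2 : ℝ) : ℂ) = deriv F z * (starRingEnd ℂ) (deriv F z) := by
    intro z
    rw [Complex.mul_conj, Complex.normSq_eq_norm_sq]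
  have hstar : ∀ z ∈ ball c r,
      (starRingEnd ℂ) (deriv k (F z)) * (starRingEnd ℂ) (deriv F z) = 1 := by
    intro z hz
    rw [← map_mul, hk1 z hz, map_one]
  have a1 : ∫ z in ball c r, (‖deriv F z‖ ^ 2) • (Ct m (F z) * db ψ (F z)) =
      ∫ z in ball c r, Ct m (F z) * db φ z := by
    refine setIntegral_congr_fun measurableSet_ball fun z hz => ?_
    show (‖deriv F z‖ ^ 2) • (Ct m (F z) * db ψ (F z)) = Ct m (F z) * db φ z
    rw [hdb z hz, Complex.real_smul, hns]
    have h1 := hk1 z hz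
    have h2 := hstar z hz
    linear_combination Ct m (F z) * db φ z * ((starRingEnd ℂ) (deriv k (F z)) *
      (starRingEnd ℂ) (deriv F z)) * h1 + Ct m (F z) * db φ z * h2
  have a2 : ∫ z in ball c r, (‖deriv F z‖ ^ 2) • (m (F z) * ψ (F z)) =
      ∫ z in ball c r, m (F z) * (starRingEnd ℂ) (deriv F z) * φ z := by
    refine setIntegral_congr_fun measurableSet_ball fun z hz => ?_
    show (‖deriv F z‖ ^ 2) • (m (F z) * ψ (F z)) = m (F z) * (starRingEnd ℂ) (deriv F z) * φ z
    rw [hψF z hz, Complex.real_smul, hns]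
    have h1 := hk1 z hz
    linear_combination m (F z) * φ z * (starRingEnd ℂ) (deriv F z) * h1
  rw [a1, a2] at main
  exact main

end Pool.Agent.H76.SU
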