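import Mathlib

/-!
# Module CKC: a compact subset of a connected open set is in a compact connected subset

PROOF. If `K` is empty take `∅`. Otherwise cover `K` by finitely many open balls with centres `x i ∈ K` whose closed balls are in `O`. `O` is path connected (`IsOpen.isConnected_iff_isPathConnected`, `ℂ` is locally path connected), so there are paths in `O` from `x 0` to `x i` (`IsPathConnected.joinedIn`); `K'` = the union of the closed balls and of the images of the
paths: compact, and preconnected: each piece `closedBall ∪ path` is connected (closed balls are convex, they contain `x i`, the end point of the path) and contains `x 0` (`isPreconnected_sUnion` or `IsPreconnected.union`, `isPreconnected_iUnion`).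
-/

set_option autoImplicit false

open Filter Topology Polynomial Metric Set MeasureTheory
open scoped ContDiff

namespace Pool.Agent.H76.SU



theorem ckc {O : Set ℂ} (hO : IsOpen O) (hc : IsPreconnected O) {K : Set ℂ} (hK : IsCompact K)
    (hKO : K ⊆ O) : ∃ K' : Set ℂ, IsCompact K' ∧ IsPreconnected K' ∧ K ⊆ K' ∧ K' ⊆ O := by
  rcases K.eq_empty_or_nonempty with rfl | ⟨z0, hz0⟩
  · exact ⟨∅, isCompact_empty, isPreconnected_empty, Set.Subset.rfl, Set.empty_subset _⟩
  have hpc : IsPathConnected O :=
    (IsOpen.isConnected_iff_isPathConnected hO).1 ⟨⟨z0, hKO hz0⟩, hc⟩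
  have h1 : ∀ z : ℂ, ∃ r : ℝ, 0 < r ∧ (z ∈ K → closedBall z r ⊆ O) := by
    intro z
    by_cases hz : z ∈ K
    · obtain ⟨r, hr, h⟩ := Metric.isOpen_iff.1 hO z (hKO hz)
      exact ⟨r / 2, half_pos hr, fun _ =>
        (closedBall_subset_ball (half_lt_self hr)).trans h⟩
    · exact ⟨1, one_pos, fun h => absurd h hz⟩
  choose r hr hrO using h1
  obtain ⟨t, htK, ht⟩ := hK.elim_nhds_subcover (fun z => closedBall z (r z))
    (fun z _ => closedBall_mem_nhds z (hr z))
  have h2 : ∀ z : ℂ, ∃ P : Set ℂ, IsCompact P ∧ (z ∈ K → z0 ∈ P ∧ closedBall z (r z) ⊆ P ∧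
      P ⊆ O ∧ IsPreconnected P) := by
    intro z
    by_cases hz : z ∈ K
    · have hj : JoinedIn O z0 z := hpc.joinedIn z0 (hKO hz0) z (hKO hz)
      refine ⟨closedBall z (r z) ∪ Set.range hj.somePath,
        (isCompact_closedBall z (r z)).union (isCompact_range hj.somePath.continuous), fun _ => ?_⟩
      refine ⟨Or.inr ⟨0, hj.somePath.source⟩, Set.subset_union_left, ?_, ?_⟩
      · rintro w (hw | ⟨s, rfl⟩)
        · exact hrO z hz hw
        · exact hj.somePath_mem s
      · refine IsPreconnected.union z (mem_closedBall_self (hr z).le) ⟨1, hj.somePath.target⟩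
          (convex_closedBall z (r z)).isPreconnected (isPreconnected_range hj.somePath.continuous)
    · exact ⟨∅, isCompact_empty, fun h => absurd h hz⟩
  choose P hPc hP using h2
  refine ⟨⋃ z ∈ t, P z, t.isCompact_biUnion fun z _ => hPc z, ?_, ?_, ?_⟩
  · refine isPreconnected_of_forall z0 fun w hw => ?_
    obtain ⟨z, hz, hw⟩ := Set.mem_iUnion₂.1 hw
    exact ⟨P z, Set.subset_biUnion_of_mem hz, (hP z (htK z hz)).1, hw, (hP z (htK z hz)).2.2.2⟩
  · refine ht.trans (Set.iUnion₂_mono fun z hz => (hP z (htK z hz)).2.1)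
  · exact Set.iUnion₂_subset fun z hz => (hP z (htK z hz)).2.2.1

end Pool.Agent.H76.SU
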