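import Pool.Agent.H76.SU.Defs

/-!
# Module CTB: the Cauchy transform of a bounded measurable function with bounded support

PROOFS. `ctb_eq`: `m` is integrable and bounded with support in `closedBall 0 R`; `w ↦ w⁻¹` is locally integrable (`Pool.Agent.H71.Top.locallyIntegrable_inv`, used in H73/BR/CtB): `‖m w / (z - w)‖ ≤ B * ‖(z - w)⁻¹‖` on `closedBall 0 R`, zero outside (translate: `integrable_comp_sub_left`). The formula: substitution
`w ↦ z - w` in the definition of `Ct` (`integral_sub_left_eq_self`, as in `ct_eq`). `B` may be replaced by `max B 0`.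
`ctb_hol`: `‖Ct m z - Ct m z'‖ ≤ (B / π) ∫_(closedBall 0 R) ‖z - z'‖ / (‖z - w‖ ‖z' - w‖) dw`. With `s = ‖z - w‖`, `t = ‖z' - w‖`, `‖z - z'‖ ≤ s + t`: `‖z - z'‖ / (s t) ≤ 2 √‖z - z'‖ (s^(-3/2) + t^(-3/2))`.
`∫_(closedBall 0 R) ‖z - w‖^(-3/2) dw ≤ C(R)` uniformly in `z`: polar coordinates.
`ctb_bd`: the same with `1 / ‖z - w‖ ≤ 1 + ‖z - w‖^(-3/2)`. `ctb_cont` follows from `ctb_hol`. `ctb_sum`: linearity of the integral (`ctb_eq`).
-/

set_option autoImplicit false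

open Filter Topology Polynomial Metric Set MeasureTheory
open scoped ContDiff

namespace Pool.Agent.H76.SU

open Pool.Agent.H61.TT H73.BR

private theorem bm_B {B R : ℝ} {m : ℂ → ℂ} (hm : Bm B R m) : 0 ≤ B :=
  (norm_nonneg _).trans (hm.bd 0)

private theorem bm_int {B R : ℝ} {m : ℂ → ℂ} (hm : Bm B R m) (z : ℂ) :
    Integrable fun w : ℂ => w⁻¹ * m (z - w) := by
  have h1 : Integrable ((closedBall z R).indicator fun w : ℂ => B * ‖w⁻¹‖) := by
    rw [integrable_indicator_iff isClosed_closedBall.measurableSet]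
    exact ((Pool.Agent.H71.Top.locallyIntegrable_inv.integrableOn_isCompact
      (isCompact_closedBall z R)).norm).const_mul B
  refine h1.mono' ?_ (Filter.Eventually.of_forall fun w => ?_)
  · exact (measurable_inv.mul (hm.meas.comp (measurable_const.sub measurable_id))).aestronglyMeasurable
  · by_cases hw : ‖z - w‖ ≤ R
    · have h2 : w ∈ closedBall z R := by
        rw [mem_closedBall, dist_eq_norm, norm_sub_rev]
        exact hw
      rw [indicator_of_mem h2, norm_mul, mul_comm]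
      exact mul_le_mul_of_nonneg_right (hm.bd _) (norm_nonneg _)
    · rw [hm.supp _ (not_le.1 hw), mul_zero, norm_zero]
      exact indicator_nonneg (fun _ _ => mul_nonneg (bm_B hm) (norm_nonneg _)) _

theorem ctb_eq {B R : ℝ} {m : ℂ → ℂ} (hm : Bm B R m) (z : ℂ) :
    Integrable (fun w : ℂ => m w / (z - w)) ∧
      Ct m z = (1 / (Real.pi : ℂ)) * ∫ w : ℂ, m w / (z - w) := by
  have h1 : ∀ w : ℂ, (z - w)⁻¹ * m (z - (z - w)) = m w / (z - w) := fun w => by
    rw [sub_sub_cancel, div_eq_mul_inv, mul_comm]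
  constructor
  · have h2 := (bm_int hm z).comp_sub_left z
    simp only [h1] at h2
    exact h2
  · unfold Ct
    congr 1
    rw [← integral_sub_left_eq_self (fun w : ℂ => w⁻¹ * m (z - w)) volume z]
    exact integral_congr_ae (Filter.Eventually.of_forall fun w => h1 w)

/-- the kernel `‖w‖^(-3/2)` -/
private noncomputable def k3 (w : ℂ) : ℝ := (√‖w‖)⁻¹ ^ 3

private theorem k3_nn (w : ℂ) : 0 ≤ k3 w := pow_nonneg (inv_nonneg.2 (Real.sqrt_nonneg _)) 3

/-- the kernel cut off at `1` -/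
private noncomputable def kc (w : ℂ) : ℝ := (Iic (1 : ℝ)).indicator (fun y => (√y)⁻¹ ^ 3) ‖w‖

private theorem kc_nn (w : ℂ) : 0 ≤ kc w :=
  indicator_nonneg (fun _ _ => pow_nonneg (inv_nonneg.2 (Real.sqrt_nonneg _)) 3) _

private theorem kc_int : Integrable kc := by
  have h := (integrable_fun_norm_addHaar (volume : Measure ℂ)
    (f := (Iic (1 : ℝ)).indicator (fun y => (√y)⁻¹ ^ 3))).2 ?_
  · exact h
  rw [Complex.finrank_real_complex]
  have h1 : IntegrableOn (fun y : ℝ => y ^ (-(1 / 2) : ℝ)) (Ioc 0 1) := by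
    have h2 := intervalIntegral.intervalIntegrable_rpow' (a := 0) (b := 1)
      (show (-1 : ℝ) < -(1 / 2) by norm_num)
    rwa [intervalIntegrable_iff_integrableOn_Ioc_of_le zero_le_one] at h2
  have h2 : IntegrableOn (fun y : ℝ => y ^ (2 - 1) • (Iic (1 : ℝ)).indicator
      (fun y => (√y)⁻¹ ^ 3) y) (Ioc 0 1) := by
    refine h1.congr_fun (fun y hy => ?_) measurableSet_Ioc
    have hy0 : 0 < y := hy.1
    rw [indicator_of_mem (show y ∈ Iic (1 : ℝ) from hy.2), smul_eq_mul]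
    have hs : 0 < √y := Real.sqrt_pos.2 hy0
    have e1 : y ^ (-(1 / 2) : ℝ) = (√y)⁻¹ := by
      rw [Real.rpow_neg hy0.le, ← Real.sqrt_eq_rpow]
    have e2 : y = √y * √y := (Real.mul_self_sqrt hy0.le).symm
    beta_reduce
    rw [e1]
    have e3 : y ^ (2 - 1) = √y * √y := by
      rw [← e2]
      simp
    rw [e3]
    field_simp
  have h3 : (Ioi (0 : ℝ)) = Ioc 0 1 ∪ Ioi 1 := (Ioc_union_Ioi_eq_Ioi zero_le_one).symm
  rw [h3]
  refine h2.union ?_
  refine (integrableOn_zero).congr_fun (fun y hy => ?_) measurableSet_Ioi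
  rw [indicator_of_notMem (show y ∉ Iic (1 : ℝ) from fun h => absurd (mem_Ioi.1 hy) (not_lt.2 (mem_Iic.1 h))), smul_zero]

/-- the cut off bound -/
private theorem k3_le (w : ℂ) : k3 w ≤ kc w + 1 := by
  unfold kc
  by_cases h : ‖w‖ ≤ 1
  · rw [indicator_of_mem (show ‖w‖ ∈ Iic (1 : ℝ) from h)]
    unfold k3
    linarith
  · rw [indicator_of_notMem (show ‖w‖ ∉ Iic (1 : ℝ) from h), zero_add]
    unfold k3
    have h1 : 1 ≤ √‖w‖ := by
      rw [Real.one_le_sqrt]
      exact (not_le.1 h).le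
    exact pow_le_one₀ (inv_nonneg.2 (Real.sqrt_nonneg _)) (inv_le_one_of_one_le₀ h1)

private noncomputable def cb (R : ℝ) (w : ℂ) : ℝ := (closedBall (0 : ℂ) R).indicator (fun _ => 1) w

private theorem cb_nn (R : ℝ) (w : ℂ) : 0 ≤ cb R w := indicator_nonneg (fun _ _ => zero_le_one) _

private theorem cb_le (R : ℝ) (w : ℂ) : cb R w ≤ 1 := by
  unfold cb
  exact indicator_le_self' (fun _ _ => zero_le_one) w

private theorem cb_int (R : ℝ) : Integrable (cb R) := by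
  unfold cb
  rw [integrable_indicator_iff isClosed_closedBall.measurableSet]
  exact continuous_const.locallyIntegrable.integrableOn_isCompact (isCompact_closedBall (0 : ℂ) R)

private theorem m_le {B R : ℝ} {m : ℂ → ℂ} (hm : Bm B R m) (w : ℂ) : ‖m w‖ ≤ B * cb R w := by
  unfold cb
  by_cases hw : ‖w‖ ≤ R
  · rw [indicator_of_mem (show w ∈ closedBall (0 : ℂ) R from mem_closedBall_zero_iff.2 hw), mul_one]
    exact hm.bd w
  · rw [hm.supp _ (not_le.1 hw), norm_zero]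
    exact mul_nonneg (bm_B hm) (indicator_nonneg (fun _ _ => zero_le_one) _)

/-- the uniform constant -/
private noncomputable def CR (R : ℝ) : ℝ := (∫ w, kc w) + ∫ w, cb R w

private theorem CR_nn (R : ℝ) : 0 ≤ CR R :=
  add_nonneg (integral_nonneg kc_nn) (integral_nonneg (cb_nn R))

private theorem dom_int (R : ℝ) (z : ℂ) : Integrable fun w => kc (z - w) + cb R w :=
  (kc_int.comp_sub_left z).add (cb_int R)

private theorem dom_eq (R : ℝ) (z : ℂ) : ∫ w, (kc (z - w) + cb R w) = CR R := by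
  rw [integral_add (kc_int.comp_sub_left z) (cb_int R), integral_sub_left_eq_self kc volume z]
  rfl

private theorem cb_k3 (R : ℝ) (z w : ℂ) : cb R w * k3 (z - w) ≤ kc (z - w) + cb R w := by
  have h1 := mul_le_mul_of_nonneg_left (k3_le (z - w)) (cb_nn R w)
  have h2 := mul_le_mul_of_nonneg_right (cb_le R w) (kc_nn (z - w))
  rw [mul_add, mul_one] at h1
  linarith

/-- the algebraic inequality -/
private theorem alg (x y e : ℝ) (hx : 0 < x) (hy : 0 < y) (he : 0 ≤ e) (h : e ≤ x + y) :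
    e ^ 2 / (x ^ 2 * y ^ 2) ≤ 2 * e * (x⁻¹ ^ 3 + y⁻¹ ^ 3) := by
  have h1 : 2 * e * (x⁻¹ ^ 3 + y⁻¹ ^ 3) = e * (2 * (x ^ 3 + y ^ 3)) / (x ^ 3 * y ^ 3) := by
    field_simp
    ring
  have h2 : e ^ 2 / (x ^ 2 * y ^ 2) = e * (e * (x * y)) / (x ^ 3 * y ^ 3) := by
    field_simp
  rw [h1, h2]
  refine div_le_div_of_nonneg_right (mul_le_mul_of_nonneg_left ?_ he) (by positivity)
  have h3 : e * (x * y) ≤ (x + y) * (x * y) := mul_le_mul_of_nonneg_right h (by positivity)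
  refine h3.trans ?_
  have h4 : 2 * (x ^ 3 + y ^ 3) - (x + y) * (x * y) = (x + y) * (2 * (x - y) ^ 2 + x * y) := by
    ring
  have h5 : 0 ≤ (x + y) * (2 * (x - y) ^ 2 + x * y) := by positivity
  linarith

private theorem ker_dif (u v : ℂ) : ‖u⁻¹ - v⁻¹‖ ≤ 2 * √‖u - v‖ * (k3 u + k3 v) := by
  have hR : 0 ≤ 2 * √‖u - v‖ * (k3 u + k3 v) := by
    have h1 := k3_nn u
    have h2 := k3_nn v
    positivity
  have zz : ∀ v : ℂ, v ≠ 0 → ‖v⁻¹‖ ≤ 2 * √‖v‖ * k3 v := by
    intro v hv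
    have hv0 : 0 < ‖v‖ := norm_pos_iff.2 hv
    have hs : 0 < √‖v‖ := Real.sqrt_pos.2 hv0
    have e : √‖v‖ * √‖v‖ = ‖v‖ := Real.mul_self_sqrt hv0.le
    unfold k3
    rw [norm_inv]
    have key : ∀ s n : ℝ, 0 < s → s * s = n → 2 * s * s⁻¹ ^ 3 = 2 * n⁻¹ := by
      intro s n hs hn
      rw [← hn]
      field_simp
    rw [key _ _ hs e]
    have : 0 < ‖v‖⁻¹ := inv_pos.2 hv0
    linarith
  have k0 : k3 0 = 0 := by
    unfold k3
    simp
  by_cases hu : u = 0
  · subst hu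
    by_cases hv : v = 0
    · subst hv
      simp only [sub_self, norm_zero]
      simp
    · rw [inv_zero, zero_sub, norm_neg, zero_sub, norm_neg, k0, zero_add]
      exact zz v hv
  by_cases hv : v = 0
  · subst hv
    rw [inv_zero, sub_zero, sub_zero, k0, add_zero]
    exact zz u hu
  have hu0 : 0 < ‖u‖ := norm_pos_iff.2 hu
  have hv0 : 0 < ‖v‖ := norm_pos_iff.2 hv
  have e1 : u⁻¹ - v⁻¹ = (v - u) / (u * v) := by
    field_simp
  rw [e1, norm_div, norm_mul, norm_sub_rev v u]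
  have h1 := alg (√‖u‖) (√‖v‖) (√‖u - v‖) (Real.sqrt_pos.2 hu0) (Real.sqrt_pos.2 hv0)
    (Real.sqrt_nonneg _) (by
      have h2 : √‖u - v‖ ≤ √(‖u‖ + ‖v‖) := Real.sqrt_le_sqrt (norm_sub_le u v)
      refine h2.trans (Real.sqrt_le_iff.2 ⟨by positivity, ?_⟩)
      have h3 := Real.sq_sqrt hu0.le
      have h4 := Real.sq_sqrt hv0.le
      have h5 : 0 ≤ √‖u‖ * √‖v‖ := by positivity
      have h6 : (√‖u‖ + √‖v‖) ^ 2 = √‖u‖ ^ 2 + √‖v‖ ^ 2 + 2 * (√‖u‖ * √‖v‖) := by ring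
      rw [h6, h3, h4]
      linarith)
  rw [Real.sq_sqrt hu0.le, Real.sq_sqrt hv0.le, Real.sq_sqrt (norm_nonneg _)] at h1
  exact h1

private theorem ker_bd (u : ℂ) : ‖u⁻¹‖ ≤ 1 + k3 u := by
  by_cases hu : u = 0
  · subst hu
    rw [inv_zero, norm_zero]
    have := k3_nn 0
    linarith
  have hu0 : 0 < ‖u‖ := norm_pos_iff.2 hu
  have hs : 0 < √‖u‖ := Real.sqrt_pos.2 hu0
  have e : √‖u‖ * √‖u‖ = ‖u‖ := Real.mul_self_sqrt hu0.le
  rw [norm_inv]
  unfold k3
  rw [← e, Real.sqrt_mul_self hs.le]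
  have hi : 0 < (√‖u‖)⁻¹ := inv_pos.2 hs
  rw [mul_inv]
  obtain ⟨x, hx⟩ : ∃ x, x = (√‖u‖)⁻¹ := ⟨_, rfl⟩
  rw [← hx] at hi ⊢
  rcases le_total x 1 with h | h
  · have h1 : x * x ≤ 1 := mul_le_one₀ h hi.le h
    have h2 : 0 ≤ x ^ 3 := by positivity
    linarith
  · have h1 : x * x * 1 ≤ x * x * x := mul_le_mul_of_nonneg_left h (by positivity)
    have h2 : x ^ 3 = x * x * x := by ring
    rw [h2]
    linarith

private theorem pi_norm : ‖(1 / (Real.pi : ℂ))‖ ≤ 1 := by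
  rw [norm_div, norm_one, Complex.norm_real, Real.norm_of_nonneg Real.pi_pos.le]
  rw [div_le_one Real.pi_pos]
  linarith [Real.pi_gt_three]

theorem ctb_hol {B R : ℝ} {m : ℂ → ℂ} (hm : Bm B R m) :
    ∃ C : ℝ, 0 ≤ C ∧ ∀ z z' : ℂ, ‖Ct m z - Ct m z'‖ ≤ C * √‖z - z'‖ := by
  have hB := bm_B hm
  refine ⟨B * 2 * (CR R + CR R), mul_nonneg (by positivity) (add_nonneg (CR_nn R) (CR_nn R)),
    fun z z' => ?_⟩
  obtain ⟨hi1, he1⟩ := ctb_eq hm z
  obtain ⟨hi2, he2⟩ := ctb_eq hm z'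
  rw [he1, he2, ← mul_sub, norm_mul, ← integral_sub hi1 hi2]
  have h1 : ‖∫ w : ℂ, (m w / (z - w) - m w / (z' - w))‖ ≤
      ∫ w, B * 2 * √‖z - z'‖ * ((kc (z - w) + cb R w) + (kc (z' - w) + cb R w)) := by
    refine norm_integral_le_of_norm_le (((dom_int R z).add (dom_int R z')).const_mul _)
      (Filter.Eventually.of_forall fun w => ?_)
    have e1 : m w / (z - w) - m w / (z' - w) = m w * ((z - w)⁻¹ - (z' - w)⁻¹) := by
      rw [div_eq_mul_inv, div_eq_mul_inv, mul_sub]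
    rw [e1, norm_mul]
    have h2 := ker_dif (z - w) (z' - w)
    rw [sub_sub_sub_cancel_right] at h2
    have h3 := mul_le_mul (m_le hm w) h2 (norm_nonneg _) (mul_nonneg hB (cb_nn R w))
    refine h3.trans ?_
    have h4 := cb_k3 R z w
    have h5 := cb_k3 R z' w
    have h6 : B * cb R w * (2 * √‖z - z'‖ * (k3 (z - w) + k3 (z' - w))) =
        B * 2 * √‖z - z'‖ * (cb R w * k3 (z - w) + cb R w * k3 (z' - w)) := by ring
    rw [h6]
    exact mul_le_mul_of_nonneg_left (add_le_add h4 h5) (by positivity)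
  rw [integral_const_mul, integral_add (dom_int R z) (dom_int R z'), dom_eq, dom_eq] at h1
  calc ‖(1 / (Real.pi : ℂ))‖ * ‖∫ w : ℂ, (m w / (z - w) - m w / (z' - w))‖
      ≤ 1 * ‖∫ w : ℂ, (m w / (z - w) - m w / (z' - w))‖ :=
        mul_le_mul_of_nonneg_right pi_norm (norm_nonneg _)
    _ ≤ B * 2 * √‖z - z'‖ * (CR R + CR R) := by rw [one_mul]; exact h1
    _ = B * 2 * (CR R + CR R) * √‖z - z'‖ := by ring

theorem ctb_bd {B R : ℝ} {m : ℂ → ℂ} (hm : Bm B R m) : ∃ C : ℝ, 0 ≤ C ∧ ∀ z : ℂ, ‖Ct m z‖ ≤ C := by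
  have hB := bm_B hm
  have hc0 : 0 ≤ ∫ w, cb R w := integral_nonneg (cb_nn R)
  refine ⟨B * ((∫ w, cb R w) + CR R), mul_nonneg hB (add_nonneg hc0 (CR_nn R)), fun z => ?_⟩
  rw [(ctb_eq hm z).2, norm_mul]
  have h1 : ‖∫ w : ℂ, m w / (z - w)‖ ≤
      ∫ w, B * (cb R w + (kc (z - w) + cb R w)) := by
    refine norm_integral_le_of_norm_le (((cb_int R).add (dom_int R z)).const_mul _)
      (Filter.Eventually.of_forall fun w => ?_)
    rw [div_eq_mul_inv, norm_mul]
    have h3 := mul_le_mul (m_le hm w) (ker_bd (z - w)) (norm_nonneg _) (mul_nonneg hB (cb_nn R w))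
    refine h3.trans ?_
    have h4 := cb_k3 R z w
    have h6 : B * cb R w * (1 + k3 (z - w)) = B * (cb R w + cb R w * k3 (z - w)) := by ring
    rw [h6]
    exact mul_le_mul_of_nonneg_left (add_le_add le_rfl h4) hB
  rw [integral_const_mul, integral_add (cb_int R) (dom_int R z), dom_eq] at h1
  calc ‖(1 / (Real.pi : ℂ))‖ * ‖∫ w : ℂ, m w / (z - w)‖
      ≤ 1 * ‖∫ w : ℂ, m w / (z - w)‖ :=
        mul_le_mul_of_nonneg_right pi_norm (norm_nonneg _)
    _ ≤ _ := by rw [one_mul]; exact h1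

theorem ctb_cont {B R : ℝ} {m : ℂ → ℂ} (hm : Bm B R m) : Continuous (Ct m) := by
  obtain ⟨C, hC, h⟩ := ctb_hol hm
  rw [continuous_iff_continuousAt]
  intro z
  rw [ContinuousAt, tendsto_iff_norm_sub_tendsto_zero]
  have h1 : Tendsto (fun z' : ℂ => C * √‖z' - z‖) (𝓝 z) (𝓝 0) := by
    have h2 : Continuous fun z' : ℂ => C * √‖z' - z‖ := by fun_prop
    have h3 := h2.tendsto z
    simp only [sub_self, norm_zero, Real.sqrt_zero, mul_zero] at h3
    exact h3
  exact squeeze_zero (fun _ => norm_nonneg _) (fun z' => h z' z) h1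

theorem ctb_sum {B R : ℝ} {N : ℕ} {m : ℕ → ℂ → ℂ} (hm : ∀ j < N, Bm B R (m j)) (c : ℕ → ℂ) (z : ℂ) :
    Ct (fun w => ∑ j ∈ Finset.range N, c j * m j w) z =
      ∑ j ∈ Finset.range N, c j * Ct (m j) z := by
  unfold Ct
  have h1 : ∀ w : ℂ, w⁻¹ * ∑ j ∈ Finset.range N, c j * m j (z - w) =
      ∑ j ∈ Finset.range N, c j * (w⁻¹ * m j (z - w)) := by
    intro w
    rw [Finset.mul_sum]
    exact Finset.sum_congr rfl fun j _ => by ring
  simp only [h1]
  rw [integral_finsetSum _ fun j hj => (bm_int (hm j (Finset.mem_range.1 hj)) z).const_mul (c j),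
    Finset.mul_sum]
  refine Finset.sum_congr rfl fun j _ => ?_
  rw [integral_const_mul]
  ring

end Pool.Agent.H76.SU
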