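import Pool.Agent.H61.TT.Defs
import Pool.Agent.H73.BR.CtB
import Pool.Agent.H44.DN.KOE

/-!
# Sullivan's theorem (no wandering domains): definitions in the plane

`gg a b = a / b` and `dg a b` its derivative (H61/TT/Defs; both are `0` at a pole: junk values). `Dn a b n z`: the derivative of the `n`-th iterate, the product of `dg` along the orbit (`0` if the orbit meets a pole or a critical point).
`ph w = conj w / w` (`0` for `w = 0`). `Bm B R m`: `m` is measurable, bounded by `B`, zero for `R < ‖z‖`. `Ct` (H73/BR/Def): the Cauchy transform `Ct m z = (1/π) ∫ m w / (z - w)`; `db`: the Wirtinger derivative.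
`Wan a b U J R`: a wandering sequence of Fatou components `U 0, U 1, ...` in a chart in which the Julia set `J` and all `U n` are in a disc (`∞` is in the Fatou set), without poles, critical points and critical values in the `U n`.
`Dom a b U`: there is a disc in `U 0` whose grand orbit is bounded. `hull A`: the union of `A` and of the bounded components of the complement (`A` compact).
`UU`: a free ultrafilter on `ℕ`. Blow-up at `y`: `An n w = f^n y + (f^n)' y * w`, `gn n x = (f^n x - f^n y) / (f^n)' y` (so `An n (gn n x) = f^n x`), `vn v n w = v (An n w) / (f^n)' y`, `Jn n = An n ⁻¹ J`, `Jh`: the cluster set of the `Jn n` along `UU`,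
`Sh`: the component of the complement of `Jh` which contains `0`.
-/

set_option autoImplicit false

open Filter Topology Polynomial Metric Set MeasureTheory
open scoped ContDiff

namespace Pool.Agent.H76.SU

open Pool.Agent.H61.TT H73.BR

/-- the derivative of the `n`-th iterate -/
noncomputable def Dn (a b : Polynomial ℂ) (n : ℕ) (z : ℂ) : ℂ :=
  ∏ k ∈ Finset.range n, dg a b ((gg a b)^[k] z)

/-- `conj w / w` -/
noncomputable def ph (w : ℂ) : ℂ := (starRingEnd ℂ) w / w

/-- bounded measurable functions with bounded support -/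
structure Bm (B R : ℝ) (m : ℂ → ℂ) : Prop where
  meas : Measurable m
  bd : ∀ z, ‖m z‖ ≤ B
  supp : ∀ z, R < ‖z‖ → m z = 0

/-- a wandering sequence of Fatou components in a good chart -/
structure Wan (a b : Polynomial ℂ) (U : ℕ → Set ℂ) (J : Set ℂ) (R : ℝ) : Prop where
  cop : IsCoprime a b
  wr : ww a b ≠ 0
  op : ∀ n, IsOpen (U n)
  pc : ∀ n, IsPreconnected (U n)
  ne : (U 0).Nonempty
  dj : ∀ m n, m ≠ n → Disjoint (U m) (U n)
  bd : ∀ n, U n ⊆ ball 0 R
  np : ∀ n, ∀ z ∈ U n, b.eval z ≠ 0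
  mp : ∀ n, MapsTo (gg a b) (U n) (U (n + 1))
  nc : ∀ n, ∀ z ∈ U n, (ww a b).eval z ≠ 0
  nv : ∀ n, ∀ c, b.eval c ≠ 0 → (ww a b).eval c = 0 → gg a b c ∉ U n
  Jc : IsClosed J
  Jb : J ⊆ ball 0 R
  Jd : ∀ n, Disjoint J (U n)
  Jf : ∀ n, frontier (U n) ⊆ J
  Jp : ∀ z ∈ J, b.eval z ≠ 0
  Ji : MapsTo (gg a b) J J
  esc : ∀ z ∈ J, ∀ ρ : ℝ, 0 < ρ → ∀ M : ℝ, ∃ y ∈ ball z ρ, ∃ n : ℕ,
    b.eval ((gg a b)^[n] y) = 0 ∨ M < ‖(gg a b)^[n] y‖

/-- a disc with bounded grand orbit -/
def Dom (a b : Polynomial ℂ) (U : ℕ → Set ℂ) : Prop :=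
  ∃ (y0 : ℂ) (r0 R1 : ℝ), 0 < r0 ∧ ball y0 r0 ⊆ U 0 ∧ ∀ x : ℂ, ∀ z ∈ ball y0 r0, ∀ n m : ℕ,
    (gg a b)^[n] x = (gg a b)^[m] z → Dn a b n x ≠ 0 → ‖x‖ ≤ R1

/-- `A` with the bounded components of its complement -/
def hull (A : Set ℂ) : Set ℂ := {x | Bornology.IsBounded (connectedComponentIn Aᶜ x)}

/-- a free ultrafilter -/
noncomputable def UU : Filter ℕ := (Filter.hyperfilter ℕ : Filter ℕ)

/-- the inverse of the rescaling -/
noncomputable def An (a b : Polynomial ℂ) (y : ℂ) (n : ℕ) (w : ℂ) : ℂ :=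
  (gg a b)^[n] y + Dn a b n y * w

/-- the rescaled iterates -/
noncomputable def gn (a b : Polynomial ℂ) (y : ℂ) (n : ℕ) (x : ℂ) : ℂ :=
  ((gg a b)^[n] x - (gg a b)^[n] y) / Dn a b n y

/-- the rescaled vector fields -/
noncomputable def vn (a b : Polynomial ℂ) (y : ℂ) (v : ℂ → ℂ) (n : ℕ) (w : ℂ) : ℂ :=
  v (An a b y n w) / Dn a b n y

/-- the rescaled Julia set -/
def Jn (a b : Polynomial ℂ) (J : Set ℂ) (y : ℂ) (n : ℕ) : Set ℂ := {w | An a b y n w ∈ J}

/-- the limit of the rescaled Julia sets -/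
def Jh (a b : Polynomial ℂ) (J : Set ℂ) (y : ℂ) : Set ℂ :=
  {w | ∀ ρ : ℝ, 0 < ρ → ∀ᶠ n in UU, (ball w ρ ∩ Jn a b J y n).Nonempty}

/-- the component of `0` -/
def Sh (a b : Polynomial ℂ) (J : Set ℂ) (y : ℂ) : Set ℂ := connectedComponentIn (Jh a b J y)ᶜ 0

variable {a b : Polynomial ℂ} {U : ℕ → Set ℂ} {J : Set ℂ} {R : ℝ}

theorem uu_le : UU ≤ atTop := Nat.hyperfilter_le_atTop

instance : UU.NeBot := by
  unfold UU
  infer_instance

/-- an event which does not hold often does not hold -/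
theorem uu_not {p : ℕ → Prop} : (∀ᶠ n in UU, ¬ p n) ↔ ¬ ∀ᶠ n in UU, p n :=
  Ultrafilter.eventually_not

theorem dg_ne {z : ℂ} (hb : b.eval z ≠ 0) (hw : (ww a b).eval z ≠ 0) : dg a b z ≠ 0 :=
  div_ne_zero hw (pow_ne_zero 2 hb)

theorem gg_der {z : ℂ} (hb : b.eval z ≠ 0) : HasDerivAt (gg a b) (dg a b z) z := by
  have h := (a.hasDerivAt z).div (b.hasDerivAt z) hb
  have e : (a.derivative.eval z * b.eval z - a.eval z * b.derivative.eval z) / b.eval z ^ 2 =
      dg a b z := by
    unfold dg ww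
    rw [eval_sub, eval_mul, eval_mul]
  rw [e] at h
  exact h

theorem gg_meas : Measurable (gg a b) := by
  unfold gg
  exact a.continuous.measurable.div b.continuous.measurable

theorem it_meas (n : ℕ) : Measurable (gg a b)^[n] := gg_meas.iterate n

theorem dn_zero (z : ℂ) : Dn a b 0 z = 1 := by
  unfold Dn
  simp

theorem dn_succ (n : ℕ) (z : ℂ) : Dn a b (n + 1) z = dg a b ((gg a b)^[n] z) * Dn a b n z := by
  unfold Dn
  rw [Finset.prod_range_succ, mul_comm]

theorem dn_add (m n : ℕ) (z : ℂ) :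
    Dn a b (m + n) z = Dn a b m ((gg a b)^[n] z) * Dn a b n z := by
  induction m with
  | zero => rw [Nat.zero_add, dn_zero, one_mul]
  | succ m ih =>
    rw [show m + 1 + n = (m + n) + 1 by ring, dn_succ, ih, dn_succ, Function.iterate_add_apply]
    ring

theorem dn_succ' (n : ℕ) (z : ℂ) : Dn a b (n + 1) z = Dn a b n (gg a b z) * dg a b z := by
  have h := dn_add (a := a) (b := b) n 1 z
  rw [h, Function.iterate_one, dn_succ 0, dn_zero, mul_one, Function.iterate_zero_apply]

/-- the derivative of the iterate at a point whose orbit has no poles -/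
theorem it_der {n : ℕ} {z : ℂ} (h : ∀ k < n, b.eval ((gg a b)^[k] z) ≠ 0) :
    HasDerivAt (gg a b)^[n] (Dn a b n z) z := by
  induction n with
  | zero =>
    rw [dn_zero]
    exact hasDerivAt_id z
  | succ n ih =>
    rw [dn_succ, Function.iterate_succ']
    exact (gg_der (h n (Nat.lt_succ_self n))).comp z (ih fun k hk => h k (by omega))

/-- the orbit has no poles if the derivative of the iterate is not zero -/
theorem dn_pole {n : ℕ} {z : ℂ} (h : Dn a b n z ≠ 0) : ∀ k < n, b.eval ((gg a b)^[k] z) ≠ 0 := by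
  intro k hk h0
  apply h
  unfold Dn
  refine Finset.prod_eq_zero (Finset.mem_range.2 hk) ?_
  unfold dg
  rw [h0]
  simp

namespace Wan

theorem map (h : Wan a b U J R) (m n : ℕ) : MapsTo (gg a b)^[n] (U m) (U (m + n)) := by
  induction n with
  | zero => exact fun z hz => hz
  | succ n ih =>
    intro z hz
    rw [Function.iterate_succ_apply']
    exact h.mp (m + n) (ih hz)

theorem map0 (h : Wan a b U J R) (n : ℕ) {z : ℂ} (hz : z ∈ U 0) : (gg a b)^[n] z ∈ U n := by
  have := h.map 0 n hz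
  rwa [Nat.zero_add] at this

theorem it (h : Wan a b U J R) {m : ℕ} (n : ℕ) {z : ℂ} (hz : z ∈ U m) :
    b.eval ((gg a b)^[n] z) ≠ 0 := h.np _ _ (h.map m n hz)

theorem der (h : Wan a b U J R) {m : ℕ} (n : ℕ) {z : ℂ} (hz : z ∈ U m) :
    HasDerivAt (gg a b)^[n] (Dn a b n z) z := it_der fun k _ => h.it k hz

theorem diff (h : Wan a b U J R) (m n : ℕ) : DifferentiableOn ℂ (gg a b)^[n] (U m) :=
  fun _ hz => (h.der n hz).differentiableAt.differentiableWithinAt

theorem ne0 (h : Wan a b U J R) {m : ℕ} (n : ℕ) {z : ℂ} (hz : z ∈ U m) : Dn a b n z ≠ 0 := by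
  unfold Dn
  rw [Finset.prod_ne_zero_iff]
  intro k _
  exact dg_ne (h.it k hz) (h.nc _ _ (h.map m k hz))

theorem idx (h : Wan a b U J R) {m n : ℕ} {z : ℂ} (hm : z ∈ U m) (hn : z ∈ U n) : m = n := by
  by_contra hne
  exact Set.disjoint_left.1 (h.dj m n hne) hm hn

theorem itJ (h : Wan a b U J R) (n : ℕ) : MapsTo (gg a b)^[n] J J := h.Ji.iterate n

theorem derJ (h : Wan a b U J R) (n : ℕ) {z : ℂ} (hz : z ∈ J) :
    HasDerivAt (gg a b)^[n] (Dn a b n z) z := it_der fun k _ => h.Jp _ (h.itJ k hz)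

theorem R_pos (h : Wan a b U J R) : 0 < R := by
  obtain ⟨z, hz⟩ := h.ne
  have := h.bd 0 hz
  rw [mem_ball_zero_iff] at this
  exact (norm_nonneg z).trans_lt this

/-- easy Montel: an open set with bounded orbits without poles does not meet `J` -/
theorem nrm (h : Wan a b U J R) {O : Set ℂ} (hO : IsOpen O) {M : ℝ}
    (hM : ∀ z ∈ O, ∀ n : ℕ, b.eval ((gg a b)^[n] z) ≠ 0 ∧ ‖(gg a b)^[n] z‖ ≤ M) :
    Disjoint O J := by
  rw [Set.disjoint_left]
  intro z hz hzJ
  obtain ⟨ρ, hρ, hb⟩ := Metric.isOpen_iff.1 hO z hz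
  obtain ⟨y, hy, n, hn⟩ := h.esc z hzJ ρ hρ M
  obtain ⟨h1, h2⟩ := hM y (hb hy) n
  rcases hn with hn | hn
  · exact h1 hn
  · exact absurd hn (not_lt.2 h2)

/-- a connected set which meets `U n` and does not meet `J` is in `U n` -/
theorem conn (h : Wan a b U J R) {n : ℕ} {S : Set ℂ} (hS : IsPreconnected S)
    (hJ : Disjoint S J) (hn : (S ∩ U n).Nonempty) : S ⊆ U n := by
  refine IsPreconnected.subset_left_of_subset_union (h.op n) isClosed_closure.isOpen_compl
    (disjoint_compl_right_iff_subset.2 subset_closure) ?_ hn hS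
  intro x hx
  by_cases hc : x ∈ closure (U n)
  · left
    by_contra hxU
    have hf : x ∈ frontier (U n) := by
      rw [(h.op n).frontier_eq]
      exact ⟨hc, hxU⟩
    exact Set.disjoint_left.1 hJ hx (h.Jf n hf)
  · right
    exact hc

end Wan

theorem an_gn (y : ℂ) (n : ℕ) (x : ℂ) (hy : Dn a b n y ≠ 0) :
    An a b y n (gn a b y n x) = (gg a b)^[n] x := by
  unfold An gn
  field_simp
  ring

theorem gn_an {y : ℂ} {n : ℕ} {x w : ℂ} (hy : Dn a b n y ≠ 0) (h : An a b y n w = (gg a b)^[n] x) :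
    gn a b y n x = w := by
  unfold An at h
  unfold gn
  rw [← h]
  field_simp
  ring

theorem gn_der (h : Wan a b U J R) {y : ℂ} (n : ℕ) {x : ℂ} (hx : x ∈ U 0) :
    HasDerivAt (gn a b y n) (Dn a b n x / Dn a b n y) x := by
  unfold gn
  exact ((h.der n hx).sub_const _).div_const _

end Pool.Agent.H76.SU
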