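import Pool.Agent.H76.SU.Defs

/-!
# Module LFT: branches of the inverse of an iterate over discs

PROOFS. `lft`: let `p : U 0 → U n` be the restriction of `F = f^n` (subtypes). It is continuous, a local homeomorphism (nonzero derivative, `Wan.ne0`; `HasStrictDerivAt.toOpenPartialHomeomorph`, restricted to the open subtypes), and proper: if `K ⊆ U n` is compact then `F⁻¹ K ∩ U 0` is compact: it is bounded; let `z` be in its closure in the plane: if `z ∈ U 0` fine (`F` continuous
there); otherwise `z ∈ frontier (U 0) ⊆ J`, `F` is continuous at `z` (`Wan.derJ`) and `F z ∈ J` (`Wan.itJ`), but `F z ∈ K ⊆ U n` as a limit of points of `K`: contradiction (`Wan.Jd`). So `p` is a closed map with finite fibres (compact and discrete), hence a covering map: `IsClosedMap.isCoveringMapOn_of_isLocalHomeomorphOn` with `s = univ` (Mathlib, Topology/Covering/Basic).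
The disc `A = ball (F x) s` is simply connected (convex: contractible, `Convex.contractibleSpace`; `SimplyConnectedSpace.ofContractible`) and locally path connected (open subset of the plane). Lift the inclusion `A → U n`: `IsCoveringMap.existsUnique_continuousMap_lifts` (Topology/Homotopy/Lifting): a continuous `G : A → U 0` with `G (F x) = x`, `F ∘ G = id`. `G` is holomorphic:
continuous right inverse of a holomorphic function with nonzero derivative (`HasDerivAt.of_local_left_inverse` / `HasStrictDerivAt.of_local_left_inverse` with `f = F`: `F (G w) = w` near `w`, `G` continuous at `w`). Extend `G` by `0` outside the disc.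
`lft_gn`: `An` maps `ball w t` (convex, so connected) to a connected set without points of `J`, which contains `f^n x ∈ U n` (`an_gn`, `w = gn n x`): by `Wan.conn` it is in `U n`. It is the ball `ball (f^n x) (‖Dn n y‖ * t)`. Let `G0` be the branch of `lft` and `G w' = G0 (An w')`; `gn n (G w') = w'` by `gn_an`.
-/

set_option autoImplicit false

open Filter Topology Polynomial Metric Set MeasureTheory
open scoped ContDiff

namespace Pool.Agent.H76.SU

open Pool.Agent.H61.TT H73.BR

variable {a b : Polynomial ℂ} {U : ℕ → Set ℂ} {J : Set ℂ} {R : ℝ}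

private theorem lft_loc (h : Wan a b U J R) (n : ℕ) : IsLocalHomeomorphOn (gg a b)^[n] (U 0) := by
  intro x hx
  have h1 : AnalyticAt ℂ (gg a b)^[n] x := (h.diff 0 n).analyticAt ((h.op 0).mem_nhds hx)
  have h2 := h1.hasStrictDerivAt
  have h3 : deriv (gg a b)^[n] x ≠ 0 := by
    rw [(h.der n hx).deriv]
    exact h.ne0 n hx
  have h4 := h2.hasStrictFDerivAt_equiv h3
  exact ⟨h4.toOpenPartialHomeomorph _, h4.mem_toOpenPartialHomeomorph_source, rfl⟩

/-- the iterate as a map between the components -/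
private noncomputable def pmap (h : Wan a b U J R) (n : ℕ) : U 0 → U n :=
  fun z => ⟨(gg a b)^[n] z.1, h.map0 n z.2⟩

private theorem pmap_cont (h : Wan a b U J R) (n : ℕ) : Continuous (pmap h n) := by
  refine Continuous.subtype_mk ?_ _
  exact continuousOn_iff_continuous_restrict.1 (h.diff 0 n).continuousOn

private theorem pmap_loc (h : Wan a b U J R) (n : ℕ) : IsLocalHomeomorph (pmap h n) := by
  have h2 : IsLocalHomeomorph ((Subtype.val : U n → ℂ) ∘ pmap h n) := by
    have h1 : ((Subtype.val : U n → ℂ) ∘ pmap h n) = (gg a b)^[n] ∘ (Subtype.val : U 0 → ℂ) := rfl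
    rw [h1, isLocalHomeomorph_iff_isLocalHomeomorphOn_univ]
    refine (lft_loc h n).comp ?_ (fun z _ => z.2)
    rw [← isLocalHomeomorph_iff_isLocalHomeomorphOn_univ]
    exact (h.op 0).isOpenEmbedding_subtypeVal.isLocalHomeomorph
  exact h2.of_comp (h.op n).isOpenEmbedding_subtypeVal.isLocalHomeomorph (pmap_cont h n)

private theorem pmap_proper (h : Wan a b U J R) (n : ℕ) : IsProperMap (pmap h n) := by
  rw [isProperMap_iff_ultrafilter_of_t2]
  refine ⟨pmap_cont h n, fun 𝒰 w hw => ?_⟩
  have hb : (𝒰.map (Subtype.val : U 0 → ℂ) : Filter ℂ) ≤ 𝓟 (closedBall 0 R) := by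
    rw [le_principal_iff]
    show (Subtype.val : U 0 → ℂ) ⁻¹' closedBall 0 R ∈ (𝒰 : Filter (U 0))
    refine Filter.univ_mem' fun z => ?_
    exact ball_subset_closedBall (h.bd 0 z.2)
  obtain ⟨z, -, hz⟩ := (isCompact_closedBall (0 : ℂ) R).ultrafilter_le_nhds _ hb
  have hz' : Tendsto (Subtype.val : U 0 → ℂ) 𝒰 (𝓝 z) := hz
  have hw' : Tendsto (fun z : U 0 => (gg a b)^[n] z.1) 𝒰 (𝓝 w.1) :=
    (continuous_subtype_val.tendsto w).comp hw
  by_cases hzU : z ∈ U 0
  · refine ⟨⟨z, hzU⟩, ?_⟩
    rw [nhds_subtype]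
    exact Filter.map_le_iff_le_comap.1 hz
  · exfalso
    have hcl : z ∈ closure (U 0) := mem_closure_of_tendsto hz' (Eventually.of_forall fun z => z.2)
    have hJ : z ∈ J := h.Jf 0 (by
      rw [(h.op 0).frontier_eq]
      exact ⟨hcl, hzU⟩)
    have h1 := (h.derJ n hJ).continuousAt.tendsto.comp hz'
    have h2 := tendsto_nhds_unique h1 hw'
    have h3 := h.itJ n hJ
    rw [h2] at h3
    exact Set.disjoint_left.1 (h.Jd n) h3 w.2

private theorem pmap_cov (h : Wan a b U J R) (n : ℕ) : IsCoveringMap (pmap h n) := by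
  rw [isCoveringMap_iff_isCoveringMapOn_univ]
  have hl := pmap_loc h n
  refine (pmap_proper h n).isClosedMap.isCoveringMapOn_of_isLocalHomeomorphOn (fun w _ => ?_) ?_
  · refine ((pmap_proper h n).isCompact_preimage isCompact_singleton).finite ?_
    refine IsDiscrete.of_openPartialHomeomorph (pmap h n) subset_rfl fun e _ => ?_
    obtain ⟨φ, h1, h2⟩ := hl e
    exact ⟨φ, h1, h2.symm⟩
  · rw [preimage_univ]
    exact isLocalHomeomorph_iff_isLocalHomeomorphOn_univ.1 hl

theorem lft (h : Wan a b U J R) {x : ℂ} (hx : x ∈ U 0) {n : ℕ} {s : ℝ} (hs : 0 < s)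
    (hb : ball ((gg a b)^[n] x) s ⊆ U n) :
    ∃ G : ℂ → ℂ, DifferentiableOn ℂ G (ball ((gg a b)^[n] x) s) ∧ G ((gg a b)^[n] x) = x ∧
      ∀ w ∈ ball ((gg a b)^[n] x) s, G w ∈ U 0 ∧ (gg a b)^[n] (G w) = w := by
  have hU := hs
  have : ContractibleSpace (ball ((gg a b)^[n] x) s) := contractibleSpace_ball hs
  have : LocallyPathConnectedSpace (ball ((gg a b)^[n] x) s) :=
    isOpen_ball.locallyPathConnectedSpace
  obtain ⟨ι, hι⟩ : ∃ ι : C(ball ((gg a b)^[n] x) s, U n), ∀ w, (ι w : ℂ) = w :=
    ⟨⟨fun w => ⟨w.1, hb w.2⟩, Continuous.subtype_mk continuous_subtype_val _⟩, fun w => rfl⟩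
  have hc : (gg a b)^[n] x ∈ ball ((gg a b)^[n] x) s := mem_ball_self hs
  obtain ⟨G0, ⟨hG1, hG2⟩, -⟩ := (pmap_cov h n).existsUnique_continuousMap_lifts ι
    ⟨(gg a b)^[n] x, hc⟩ ⟨x, hx⟩ (Subtype.ext (by rw [hι]; rfl))
  classical
  obtain ⟨G, hG⟩ : ∃ G : ℂ → ℂ, ∀ w (hw : w ∈ ball ((gg a b)^[n] x) s), G w = (G0 ⟨w, hw⟩ : ℂ) :=
    ⟨fun w => if hw : w ∈ ball ((gg a b)^[n] x) s then (G0 ⟨w, hw⟩ : ℂ) else 0,
      fun w hw => dif_pos hw⟩
  have hmem : ∀ w ∈ ball ((gg a b)^[n] x) s, G w ∈ U 0 ∧ (gg a b)^[n] (G w) = w := by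
    intro w hw
    rw [hG w hw]
    refine ⟨(G0 ⟨w, hw⟩).2, ?_⟩
    have h1 := congrFun hG2 ⟨w, hw⟩
    have h2 := congrArg Subtype.val h1
    rw [hι] at h2
    exact h2
  have hcont : ContinuousOn G (ball ((gg a b)^[n] x) s) := by
    rw [continuousOn_iff_continuous_restrict]
    have h1 : (ball ((gg a b)^[n] x) s).domRestrict G = fun w => (G0 w : ℂ) := by
      funext w
      exact hG w.1 w.2
    rw [h1]
    exact continuous_subtype_val.comp G0.continuous
  refine ⟨G, ?_, ?_, hmem⟩
  · intro w hw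
    have hn : ball ((gg a b)^[n] x) s ∈ 𝓝 w := isOpen_ball.mem_nhds hw
    have h1 := HasDerivAt.of_local_left_inverse (hcont.continuousAt hn)
      (h.der n (hmem w hw).1) (h.ne0 n (hmem w hw).1) (by
        filter_upwards [hn] with w' hw'
        exact (hmem w' hw').2)
    exact h1.differentiableAt.differentiableWithinAt
  · rw [hG _ hc, hG1]

theorem lft_gn (h : Wan a b U J R) {y x : ℂ} (hy : y ∈ U 0) (hx : x ∈ U 0) {n : ℕ} {t : ℝ}
    (ht : 0 < t) (hd : Disjoint (ball (gn a b y n x) t) (Jn a b J y n)) :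
    ∃ G : ℂ → ℂ, DifferentiableOn ℂ G (ball (gn a b y n x) t) ∧
      InjOn G (ball (gn a b y n x) t) ∧ G (gn a b y n x) = x ∧
      ∀ w ∈ ball (gn a b y n x) t, G w ∈ U 0 ∧ gn a b y n (G w) = w := by
  have hy0 := h.ne0 n hy
  have hl : 0 < ‖Dn a b n y‖ := norm_pos_iff.2 hy0
  have hw0 := an_gn y n x hy0
  have hsub : ∀ w ∈ ball (gn a b y n x) t, An a b y n w ∈ U n := by
    have hcont : Continuous (An a b y n) := by
      unfold An
      exact continuous_const.add (continuous_const.mul continuous_id)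
    have h1 : An a b y n '' ball (gn a b y n x) t ⊆ U n := by
      refine h.conn (((convex_ball _ _).isPreconnected).image _ hcont.continuousOn) ?_
        ⟨_, mem_image_of_mem _ (mem_ball_self ht), ?_⟩
      · rw [Set.disjoint_left]
        rintro _ ⟨w, hw, rfl⟩ hJ
        exact Set.disjoint_left.1 hd hw hJ
      · rw [hw0]
        exact h.map0 n hx
    exact fun w hw => h1 (mem_image_of_mem _ hw)
  have hdist : ∀ w : ℂ, An a b y n w - (gg a b)^[n] x = Dn a b n y * (w - gn a b y n x) := by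
    intro w
    rw [← hw0]
    unfold An
    ring
  have hball : ball ((gg a b)^[n] x) (‖Dn a b n y‖ * t) ⊆ U n := by
    intro ζ hζ
    rw [mem_ball, dist_eq_norm] at hζ
    have h1 : An a b y n ((ζ - (gg a b)^[n] y) / Dn a b n y) = ζ := by
      unfold An
      field_simp
      ring
    rw [← h1]
    apply hsub
    rw [mem_ball, dist_eq_norm]
    have h2 := hdist ((ζ - (gg a b)^[n] y) / Dn a b n y)
    rw [h1] at h2
    rw [h2, norm_mul] at hζ
    exact lt_of_mul_lt_mul_left hζ hl.le
  obtain ⟨G0, hG1, hG2, hG3⟩ := lft h hx (mul_pos hl ht) hball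
  have hmaps : MapsTo (An a b y n) (ball (gn a b y n x) t)
      (ball ((gg a b)^[n] x) (‖Dn a b n y‖ * t)) := by
    intro w hw
    rw [mem_ball, dist_eq_norm] at hw ⊢
    rw [hdist, norm_mul]
    exact mul_lt_mul_of_pos_left hw hl
  have hdA : Differentiable ℂ (An a b y n) := by
    unfold An
    exact (differentiable_const _).add ((differentiable_const _).mul differentiable_id)
  have hinv : ∀ w ∈ ball (gn a b y n x) t, G0 (An a b y n w) ∈ U 0 ∧
      gn a b y n (G0 (An a b y n w)) = w := by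
    intro w hw
    obtain ⟨h1, h2⟩ := hG3 _ (hmaps hw)
    exact ⟨h1, gn_an hy0 h2.symm⟩
  refine ⟨fun w => G0 (An a b y n w), hG1.comp hdA.differentiableOn hmaps, ?_, ?_, hinv⟩
  · intro w hw w' hw' he
    rw [← (hinv w hw).2, ← (hinv w' hw').2]
    exact congrArg _ he
  · show G0 (An a b y n (gn a b y n x)) = x
    rw [hw0, hG2]

end Pool.Agent.H76.SU
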