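import Pool.Agent.H76.SU.SHB
import Pool.Agent.H76.SU.LFT
import Pool.Agent.H76.SU.CKC
import Pool.Agent.H44.DN.KOE

/-!
# Module GLI: lifting of compact sets

PROOFS. `gli_ball`: let `w ∈ ℂ`, `s > 0`, `K0 ⊆ U 0` compact, and assume that for `UU`-almost all `n`: `ball w (3 s)` is disjoint from `Jn n` and `w = gn n x` for some `x ∈ K0`. Then there is a compact `K ⊆ U 0` with `ball w (2 s) ⊆ gn n '' K` for `UU`-almost all `n`. Proof: let `G` be the branch of `lft_gn` on `ball w (3 s)` (`G w = x`, injective, `gn n (G w') = w'`,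
`G w' ∈ U 0`). `1 = deriv (gn n) x * deriv G w` (chain rule), so `‖deriv G w‖ = ‖Dn n y‖ / ‖Dn n x‖ ≥ 1 / C` by `har` for the compact set `K0 ∪ {y}`. `koe` (H44/DN/KOE) for `G` with radius `3 s`, `ρ = 2 s`: `‖deriv G w'‖ ≥ c > 0` for `w' ∈ closedBall w (2 s)`, `c` independent of `n`; `univ_cover` (H80/AJ/Cover) on `ball w' s`:
`ball (G w') (s c / 16) ⊆ G '' ball w' s ⊆ U 0`. So `G w' ∈ K := {z | closedBall z (s c / 32) ⊆ U 0}`, which is compact: closed (if `z_k → z`, `closedBall z_k r ⊆ U 0`: then `ball z r ⊆ U 0`; to get a closed set use `K = {z | r ≤ infDist z (U 0)ᶜ}`, closed, contained in `U 0` for `r > 0`, bounded since `U 0` is), and `w' = gn n (G w') ∈ gn n '' K`.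
`gli`: let `T` be the set of `w ∈ Sh` such that there are `s > 0` and a compact `K ⊆ U 0` with `ball w s ⊆ gn n '' K` for `UU`-almost all `n`. `T` is open. `0 ∈ T`: `jn_univ` with `x = y` on a smaller ball: `ball 0 (ρ / 32) ⊆ gn n '' ball y (ρ / 2) ⊆ gn n '' closedBall y (ρ / 2)`. `T` is relatively closed in `Sh`: let `w ∈ Sh ∩ closure T`; `jh_not`: `ball w (4 s)` is disjoint from
`Jn n` for almost all `n` (some `s > 0`); choose `w' ∈ T` with `‖w' - w‖ < s`: then `ball w' (3 s)` is disjoint from `Jn n` and `w' ∈ gn n '' K0` for almost all `n`; `gli_ball`: `ball w s ⊆ ball w' (2 s) ⊆ gn n '' K`: `w ∈ T`. `Sh` is preconnected: `T = Sh`. For `L ⊆ Sh` compact: finitely many balls, the union of the finitely many `K`, and `ckc` in `U 0`.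
-/

set_option autoImplicit false

open Filter Topology Polynomial Metric Set MeasureTheory
open scoped ContDiff

namespace Pool.Agent.H76.SU

open Pool.Agent.H61.TT H73.BR

variable {a b : Polynomial ℂ} {U : ℕ → Set ℂ} {J : Set ℂ} {R : ℝ}

theorem gli_ball (h : Wan a b U J R) {y : ℂ} (hy : y ∈ U 0) {w : ℂ} {s : ℝ} (hs : 0 < s)
    {K0 : Set ℂ} (hK0 : IsCompact K0) (hKU : K0 ⊆ U 0)
    (he : ∀ᶠ n in UU, Disjoint (ball w (3 * s)) (Jn a b J y n) ∧ w ∈ gn a b y n '' K0) :
    ∃ K : Set ℂ, IsCompact K ∧ K ⊆ U 0 ∧ ∀ᶠ n in UU, ball w (2 * s) ⊆ gn a b y n '' K := by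
  obtain ⟨C, hC1, hC⟩ := har h (hK0.union isCompact_singleton : IsCompact (K0 ∪ {y}))
    (union_subset hKU (singleton_subset_iff.2 hy))
  obtain ⟨C1, N, hC11, hkoe⟩ := Pool.Agent.H44.DN.koe
  have hC0 : 0 < C := lt_of_lt_of_le one_pos hC1
  have hC10 : 0 < C1 := lt_of_lt_of_le one_pos hC11
  obtain ⟨c, hc⟩ : ∃ c : ℝ, c = (1 / 3) ^ N / (C1 * C) := ⟨_, rfl⟩
  have hc0 : 0 < c := by
    rw [hc]
    positivity
  obtain ⟨r, hr⟩ : ∃ r : ℝ, r = s * c / 16 := ⟨_, rfl⟩
  have hr0 : 0 < r := by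
    rw [hr]
    positivity
  have hKs : {z : ℂ | ∀ u, u ∉ U 0 → r ≤ dist z u} ⊆ U 0 := by
    intro z hz
    by_contra hne
    have h1 := hz z hne
    rw [dist_self] at h1
    exact absurd h1 (not_le.2 hr0)
  refine ⟨{z : ℂ | ∀ u, u ∉ U 0 → r ≤ dist z u}, ?_, hKs, ?_⟩
  · refine Metric.isCompact_of_isClosed_isBounded ?_
      (isBounded_ball.subset (hKs.trans (h.bd 0)))
    have h1 : {z : ℂ | ∀ u, u ∉ U 0 → r ≤ dist z u} =
        ⋂ u ∈ (U 0)ᶜ, {z : ℂ | r ≤ dist z u} := by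
      ext z
      rw [mem_iInter₂]
      exact Iff.rfl
    rw [h1]
    exact isClosed_biInter fun u _ =>
      isClosed_le continuous_const (continuous_id.dist continuous_const)
  · filter_upwards [he] with n hn
    obtain ⟨hdis, x, hxK, hxw⟩ := hn
    have hx : x ∈ U 0 := hKU hxK
    rw [← hxw] at hdis
    obtain ⟨G, hGd, hGi, hGx, hG⟩ := lft_gn h hy hx (by positivity : 0 < 3 * s) hdis
    rw [hxw] at hGd hGi hGx hG
    have hs3 : 0 < 3 * s := by positivity
    have hwb : w ∈ ball w (3 * s) := mem_ball_self hs3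
    -- the derivative at the centre
    have hGw : HasDerivAt G (deriv G w) w :=
      (hGd.differentiableAt (isOpen_ball.mem_nhds hwb)).hasDerivAt
    have hg := gn_der h (y := y) n hx
    rw [← hGx] at hg
    have hcomp := hg.comp w hGw
    have hid : HasDerivAt (gn a b y n ∘ G) 1 w := by
      refine (hasDerivAt_id w).congr_of_eventuallyEq ?_
      filter_upwards [isOpen_ball.mem_nhds hwb] with w' hw'
      exact (hG w' hw').2
    have hder : Dn a b n (G w) / Dn a b n y * deriv G w = 1 := hcomp.unique hid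
    rw [hGx] at hder
    have hDy : 0 < ‖Dn a b n y‖ := norm_pos_iff.2 (h.ne0 n hy)
    have hxC := hC x (Or.inl hxK) y (Or.inr rfl) n
    have hGc : 1 ≤ C * ‖deriv G w‖ := by
      have h1 := congrArg norm hder
      rw [norm_mul, norm_div, norm_one] at h1
      have h2 : ‖Dn a b n x‖ / ‖Dn a b n y‖ ≤ C := by
        rw [div_le_iff₀ hDy]
        exact hxC
      calc (1 : ℝ) = ‖Dn a b n x‖ / ‖Dn a b n y‖ * ‖deriv G w‖ := h1.symm
        _ ≤ C * ‖deriv G w‖ := mul_le_mul_of_nonneg_right h2 (norm_nonneg _)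
    intro w' hw'
    have hw'1 : w' ∈ closedBall w (2 * s) := ball_subset_closedBall hw'
    have hw'3 : ball w' s ⊆ ball w (3 * s) := by
      apply ball_subset_ball'
      have h1 : dist w' w < 2 * s := hw'
      linarith
    have hk := (hkoe G w (3 * s) hs3 hGd hGi (2 * s) (by positivity) (by linarith) w' hw'1).2.1
    have e1 : 1 - 2 * s / (3 * s) = 1 / 3 := by
      field_simp
      norm_num
    rw [e1] at hk
    have hdw : c ≤ ‖deriv G w'‖ := by
      rw [hc, div_le_iff₀ (by positivity)]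
      have h3 : (0 : ℝ) < (1 / 3) ^ N := by positivity
      nlinarith [mul_le_mul_of_nonneg_left hGc h3.le, mul_le_mul_of_nonneg_left hk hC0.le]
    have hcov := Pool.Agent.H80.AJ.univ_cover hs (hGd.mono hw'3) (hGi.mono hw'3)
    have hw'b : w' ∈ ball w (3 * s) := hw'3 (mem_ball_self hs)
    refine ⟨G w', ?_, (hG w' hw'b).2⟩
    intro u hu
    by_contra hlt
    push Not at hlt
    apply hu
    have h4 : u ∈ ball (G w') (s * ‖deriv G w'‖ / 16) := by
      rw [mem_ball, dist_comm]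
      refine hlt.trans_le ?_
      rw [hr]
      have := mul_le_mul_of_nonneg_left hdw hs.le
      linarith
    obtain ⟨z, hz, rfl⟩ := hcov h4
    exact (hG z (hw'3 hz)).1

theorem gli (h : Wan a b U J R) {y : ℂ} (hy : y ∈ U 0) {L : Set ℂ} (hL : IsCompact L)
    (hLS : L ⊆ Sh a b J y) : ∃ K : Set ℂ, IsCompact K ∧ IsPreconnected K ∧ K ⊆ U 0 ∧
      ∀ᶠ n in UU, L ⊆ gn a b y n '' K := by
  obtain ⟨T, hT⟩ : ∃ T : Set ℂ, T = {w : ℂ | ∃ s : ℝ, 0 < s ∧ ∃ K : Set ℂ, IsCompact K ∧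
    K ⊆ U 0 ∧ ∀ᶠ n in UU, ball w s ⊆ gn a b y n '' K} := ⟨_, rfl⟩
  have hTo : IsOpen T := by
    rw [Metric.isOpen_iff]
    intro w hw
    rw [hT] at hw
    obtain ⟨s, hs, K, hK, hKU, he⟩ := hw
    refine ⟨s / 2, half_pos hs, fun w' hw' => ?_⟩
    rw [hT]
    refine ⟨s / 2, half_pos hs, K, hK, hKU, ?_⟩
    filter_upwards [he] with n hn
    refine Subset.trans (ball_subset_ball' ?_) hn
    have h1 : dist w' w < s / 2 := hw'
    linarith
  have hT0 : (0 : ℂ) ∈ T := by
    obtain ⟨ρ, hρ, hρU, hρi⟩ := inj_disc h hy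
    rw [hT]
    refine ⟨ρ / 32, by positivity, closedBall y (ρ / 2), isCompact_closedBall y _,
      (closedBall_subset_ball (half_lt_self hρ)).trans hρU, Eventually.of_forall fun n => ?_⟩
    have hsub : ball y (ρ / 2) ⊆ ball y ρ := ball_subset_ball (half_le_self hρ.le)
    have h1 := jn_univ h (half_pos hρ) (hsub.trans hρU) (fun n => (hρi n).mono hsub)
      (mem_ball_self (half_pos hρ)) n
    have e0 : gn a b y n y = 0 := by
      unfold gn
      rw [sub_self, zero_div]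
    rw [e0, sub_self, norm_zero, sub_zero, div_self (h.ne0 n hy), norm_one, mul_one] at h1
    have e1 : ρ / 2 / 16 = ρ / 32 := by ring
    rw [e1] at h1
    exact h1.trans (image_mono ball_subset_closedBall)
  have hSp : IsPreconnected (Sh a b J y) := isPreconnected_connectedComponentIn
  have hST : Sh a b J y ⊆ T := by
    refine hSp.subset_of_closure_inter_subset hTo ⟨0, zero_sh h hy, hT0⟩ ?_
    rintro w ⟨hwc, hwS⟩
    obtain ⟨ρ, hρ, hdis⟩ := jh_not (Set.disjoint_left.1 (sh_sub a b J y) hwS)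
    obtain ⟨w', hw', hd⟩ := Metric.mem_closure_iff.1 hwc (ρ / 4) (by positivity)
    rw [hT] at hw'
    obtain ⟨s', hs', K0, hK0, hK0U, he⟩ := hw'
    have hd' : dist w' w < ρ / 4 := by
      rw [dist_comm]
      exact hd
    obtain ⟨K, hK, hKU, hKe⟩ := gli_ball h hy (w := w') (s := ρ / 4) (by positivity) hK0 hK0U (by
      filter_upwards [hdis, he] with n hn1 hn2
      refine ⟨hn1.mono_left (ball_subset_ball' ?_), hn2 (mem_ball_self hs')⟩
      linarith)
    rw [hT]
    refine ⟨ρ / 4, by positivity, K, hK, hKU, ?_⟩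
    filter_upwards [hKe] with n hn
    refine Subset.trans (ball_subset_ball' ?_) hn
    linarith
  obtain ⟨K, hK, hKU, hKe⟩ : ∃ K : Set ℂ, IsCompact K ∧ K ⊆ U 0 ∧
      ∀ᶠ n in UU, L ⊆ gn a b y n '' K := by
    refine hL.induction_on (p := fun L => ∃ K : Set ℂ, IsCompact K ∧ K ⊆ U 0 ∧
      ∀ᶠ n in UU, L ⊆ gn a b y n '' K) ?_ ?_ ?_ ?_
    · exact ⟨∅, isCompact_empty, empty_subset _, Eventually.of_forall fun n => empty_subset _⟩
    · rintro A B hAB ⟨K, hK, hKU, he⟩
      exact ⟨K, hK, hKU, he.mono fun n hn => hAB.trans hn⟩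
    · rintro A B ⟨K, hK, hKU, he⟩ ⟨K', hK', hKU', he'⟩
      refine ⟨K ∪ K', hK.union hK', union_subset hKU hKU', ?_⟩
      filter_upwards [he, he'] with n hn hn'
      rw [image_union]
      exact union_subset_union hn hn'
    · intro w hw
      have h1 := hST (hLS hw)
      rw [hT] at h1
      obtain ⟨s, hs, K, hK, hKU, he⟩ := h1
      exact ⟨ball w s, mem_nhdsWithin_of_mem_nhds (ball_mem_nhds w hs), K, hK, hKU, he⟩
  obtain ⟨K', hK', hKp, hKK, hKU'⟩ := ckc (h.op 0) (h.pc 0) hK hKU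
  exact ⟨K', hK', hKp, hKU', hKe.mono fun n hn => hn.trans (image_mono hKK)⟩

end Pool.Agent.H76.SU
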