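import Pool.Agent.H76.SU.INJ
import Pool.Agent.H80.AJ.Distort

/-!
# Module HAR: the derivatives of the iterates are comparable on compact sets

PROOF. For `x ∈ U 0` and `ρ` from `inj_disc`: `distort` (H80/AJ/Distort) for `f^n` on `ball x ρ` (`Wan.diff`, `deriv = Dn` by `Wan.der`): `‖Dn n w‖ ≤ KK * ‖Dn n w'‖` for `w, w' ∈ closedBall x (ρ / 2)`, all `n`. `P x y := ∃ C ≥ 1, ∀ n, ‖Dn n x‖ ≤ C ‖Dn n y‖ ∧ ‖Dn n y‖ ≤ C ‖Dn n x‖` is symmetric, transitive and holds locally: `IsPreconnected.induction₂` on `U 0` gives it for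
all pairs. Compact `K`: cover by finitely many balls `ball (x i) (ρ i / 2)`; for `x, y ∈ K` in the balls `i, j`: `‖Dn n x‖ ≤ KK ‖Dn n (x i)‖ ≤ KK * C i j * ‖Dn n (x j)‖ ≤ KK ^ 2 * C i j * ‖Dn n y‖`; take the maximum over `i, j`.
-/

set_option autoImplicit false

open Filter Topology Polynomial Metric Set MeasureTheory
open scoped ContDiff

namespace Pool.Agent.H76.SU

open Pool.Agent.H61.TT H73.BR

variable {a b : Polynomial ℂ} {U : ℕ → Set ℂ} {J : Set ℂ} {R : ℝ}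

theorem har_loc : ∃ KK : ℝ, 1 ≤ KK ∧ ∀ {a b : Polynomial ℂ} {U : ℕ → Set ℂ} {J : Set ℂ} {R : ℝ},
    Wan a b U J R → ∀ x ∈ U 0, ∃ ρ : ℝ, 0 < ρ ∧ closedBall x ρ ⊆ U 0 ∧
      ∀ w ∈ closedBall x ρ, ∀ w' ∈ closedBall x ρ, ∀ n : ℕ,
        ‖Dn a b n w‖ ≤ KK * ‖Dn a b n w'‖ := by
  obtain ⟨KK, hKK, hd⟩ := Pool.Agent.H80.AJ.distortion
  refine ⟨KK, hKK, fun {a b U J R} h x hx => ?_⟩
  obtain ⟨ρ, hρ, hU, hinj⟩ := inj_disc h hx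
  have hs : closedBall x (ρ / 2) ⊆ U 0 := (closedBall_subset_ball (half_lt_self hρ)).trans hU
  refine ⟨ρ / 2, half_pos hρ, hs, fun w hw w' hw' n => ?_⟩
  have h1 := hd (gg a b)^[n] x ρ hρ ((h.diff 0 n).mono hU) (hinj n) w hw w' hw'
  rwa [(h.der n (hs hw)).deriv, (h.der n (hs hw')).deriv] at h1

theorem har (h : Wan a b U J R) {K : Set ℂ} (hK : IsCompact K) (hKU : K ⊆ U 0) :
    ∃ C : ℝ, 1 ≤ C ∧ ∀ x ∈ K, ∀ y ∈ K, ∀ n : ℕ, ‖Dn a b n x‖ ≤ C * ‖Dn a b n y‖ := by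
  rcases K.eq_empty_or_nonempty with rfl | ⟨z0, hz0⟩
  · exact ⟨1, le_rfl, fun x hx => absurd hx (Set.notMem_empty x)⟩
  obtain ⟨KK, hKK, hl⟩ := har_loc
  have hKK0 : 0 ≤ KK := zero_le_one.trans hKK
  have hP : ∀ x ∈ U 0, ∀ y ∈ U 0, ∃ C : ℝ, 1 ≤ C ∧ ∀ n : ℕ, ‖Dn a b n x‖ ≤ C * ‖Dn a b n y‖ := by
    intro x hx y hy
    refine (h.pc 0).induction₂' (fun x y => ∃ C : ℝ, 1 ≤ C ∧
      ∀ n : ℕ, ‖Dn a b n x‖ ≤ C * ‖Dn a b n y‖) ?_ ?_ hx hy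
    · intro x hx
      obtain ⟨ρ, hρ, -, h2⟩ := hl h x hx
      filter_upwards [mem_nhdsWithin_of_mem_nhds (closedBall_mem_nhds x hρ)] with y hy
      have hxx := mem_closedBall_self (x := x) hρ.le
      exact ⟨⟨KK, hKK, h2 x hxx y hy⟩, ⟨KK, hKK, h2 y hy x hxx⟩⟩
    · rintro x y z - - - ⟨C1, h1, h2⟩ ⟨C2, h3, h4⟩
      refine ⟨C1 * C2, by nlinarith, fun n => ?_⟩
      calc ‖Dn a b n x‖ ≤ C1 * ‖Dn a b n y‖ := h2 n
        _ ≤ C1 * (C2 * ‖Dn a b n z‖) :=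
            mul_le_mul_of_nonneg_left (h4 n) (zero_le_one.trans h1)
        _ = C1 * C2 * ‖Dn a b n z‖ := by ring
  have h1 : ∀ x : ℂ, ∃ ρ : ℝ, 0 < ρ ∧ (x ∈ K → ∀ w ∈ closedBall x ρ, ∀ n : ℕ,
      ‖Dn a b n w‖ ≤ KK * ‖Dn a b n x‖ ∧ ‖Dn a b n x‖ ≤ KK * ‖Dn a b n w‖) := by
    intro x
    by_cases hx : x ∈ K
    · obtain ⟨ρ, hρ, -, h2⟩ := hl h x (hKU hx)
      have hxx := mem_closedBall_self (x := x) hρ.le
      exact ⟨ρ, hρ, fun _ w hw n => ⟨h2 w hw x hxx n, h2 x hxx w hw n⟩⟩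
    · exact ⟨1, one_pos, fun h => absurd h hx⟩
  choose ρ hρ hb using h1
  have h2 : ∀ x : ℂ, ∃ C : ℝ, 1 ≤ C ∧ (x ∈ K → ∀ n : ℕ,
      ‖Dn a b n x‖ ≤ C * ‖Dn a b n z0‖ ∧ ‖Dn a b n z0‖ ≤ C * ‖Dn a b n x‖) := by
    intro x
    by_cases hx : x ∈ K
    · obtain ⟨C1, h3, h4⟩ := hP x (hKU hx) z0 (hKU hz0)
      obtain ⟨C2, h5, h6⟩ := hP z0 (hKU hz0) x (hKU hx)
      refine ⟨max C1 C2, h3.trans (le_max_left _ _), fun _ n => ⟨(h4 n).trans ?_, (h6 n).trans ?_⟩⟩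
      · exact mul_le_mul_of_nonneg_right (le_max_left _ _) (norm_nonneg _)
      · exact mul_le_mul_of_nonneg_right (le_max_right _ _) (norm_nonneg _)
    · exact ⟨1, le_rfl, fun h => absurd h hx⟩
  choose C hC1 hC using h2
  obtain ⟨t, htK, ht⟩ := hK.elim_nhds_subcover (fun x => closedBall x (ρ x))
    (fun x _ => closedBall_mem_nhds x (hρ x))
  set M : ℝ := 1 + ∑ x ∈ t, C x with hM
  have hM0 : ∀ x ∈ t, C x ≤ M := by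
    intro x hx
    have h3 : C x ≤ ∑ x ∈ t, C x :=
      Finset.single_le_sum (f := C) (fun i _ => zero_le_one.trans (hC1 i)) hx
    linarith
  have hM1 : 1 ≤ M := by
    have h3 : 0 ≤ ∑ x ∈ t, C x := Finset.sum_nonneg fun i _ => zero_le_one.trans (hC1 i)
    linarith
  have h3 : ∀ x ∈ K, ∀ n : ℕ, ‖Dn a b n x‖ ≤ KK * M * ‖Dn a b n z0‖ ∧
      ‖Dn a b n z0‖ ≤ KK * M * ‖Dn a b n x‖ := by
    intro x hx n
    obtain ⟨i, hi, hxi⟩ := Set.mem_iUnion₂.1 (ht hx)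
    obtain ⟨h4, h5⟩ := hb i (htK i hi) x hxi n
    obtain ⟨h6, h7⟩ := hC i (htK i hi) n
    have hMi := hM0 i hi
    constructor
    · calc ‖Dn a b n x‖ ≤ KK * ‖Dn a b n i‖ := h4
        _ ≤ KK * (C i * ‖Dn a b n z0‖) := mul_le_mul_of_nonneg_left h6 hKK0
        _ ≤ KK * (M * ‖Dn a b n z0‖) := by gcongr
        _ = KK * M * ‖Dn a b n z0‖ := by ring
    · calc ‖Dn a b n z0‖ ≤ C i * ‖Dn a b n i‖ := h7
        _ ≤ M * (KK * ‖Dn a b n x‖) := by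
            apply mul_le_mul hMi h5 (norm_nonneg _) (zero_le_one.trans hM1)
        _ = KK * M * ‖Dn a b n x‖ := by ring
  have hKM : 1 ≤ KK * M := by nlinarith
  refine ⟨(KK * M) * (KK * M), by nlinarith, fun x hx y hy n => ?_⟩
  calc ‖Dn a b n x‖ ≤ KK * M * ‖Dn a b n z0‖ := (h3 x hx n).1
    _ ≤ KK * M * (KK * M * ‖Dn a b n y‖) :=
        mul_le_mul_of_nonneg_left (h3 y hy n).2 (zero_le_one.trans hKM)
    _ = (KK * M) * (KK * M) * ‖Dn a b n y‖ := by ring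

end Pool.Agent.H76.SU
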