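import Pool.Agent.H76.SU.HUL

/-!
# Module HMP: the image of the hull is in the hull of the image

PROOF. Let `f = gg a b`, `x ∈ hull A`. If `x ∈ A` then `f x ∈ f '' A ⊆ hull`. Otherwise let `O` be as in `hul_comp`: `closure O = O ∪ frontier O ⊆ hull A`, so `b ≠ 0` on it. `f` is holomorphic on the open set `{b ≠ 0}` and open on it: `f` is not constant near any point (`ww a b ≠ 0` has finitely many zeros, so `f' = dg ≠ 0` at points arbitrarily near; `AnalyticAt.eventually_constant_or_nhds_le_map_nhds`),
so `f '' O` is open. `f '' closure O` is compact (`closure O` is compact, `f` continuous on it), so `closure (f '' O) ⊆ f '' closure O ⊆ f '' O ∪ f '' A`. Let `Y = connectedComponentIn (f '' A)ᶜ (f x)` (if `f x ∈ f '' A` we are done). `Y ∩ f '' O` is nonempty (`f x`), relatively open and relatively closed in `Y` (a point of `Y ∩ closure (f '' O)` is in `f '' O`),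
`Y` is preconnected: `Y ⊆ f '' O` (`IsPreconnected.subset_left_of_subset_union` with the open sets `f '' O` and `(closure (f '' O))ᶜ`), which is bounded. So `f x ∈ hull (f '' A)`.
-/

set_option autoImplicit false

open Filter Topology Polynomial Metric Set MeasureTheory
open scoped ContDiff

namespace Pool.Agent.H76.SU

open Pool.Agent.H61.TT H73.BR

variable {a b : Polynomial ℂ} {U : ℕ → Set ℂ} {J : Set ℂ} {R : ℝ}

/-- `gg a b` is open on open sets without poles -/
theorem gg_open (hw : ww a b ≠ 0) {O : Set ℂ} (hO : IsOpen O) (hp : ∀ z ∈ O, b.eval z ≠ 0) :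
    IsOpen (gg a b '' O) := by
  rw [isOpen_iff_mem_nhds]
  rintro _ ⟨z, hz, rfl⟩
  have hd : DifferentiableOn ℂ (gg a b) O :=
    fun w hwO => (gg_der (hp w hwO)).differentiableAt.differentiableWithinAt
  have hOz : O ∈ 𝓝 z := hO.mem_nhds hz
  rcases (hd.analyticAt hOz).eventually_constant_or_nhds_le_map_nhds with h | h
  · exfalso
    have h1 : ∀ᶠ w in 𝓝 z, (ww a b).IsRoot w := by
      filter_upwards [h.eventually_nhds, hOz] with w hw1 hw2
      have hc : HasDerivAt (gg a b) 0 w :=
        (hasDerivAt_const w (gg a b z)).congr_of_eventuallyEq hw1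
      by_contra h0
      exact dg_ne (hp w hw2) h0 ((gg_der (hp w hw2)).unique hc)
    exact hw (Polynomial.eq_zero_of_infinite_isRoot _ (infinite_of_mem_nhds z h1))
  · exact h (Filter.image_mem_map hOz)

theorem hul_map (hw : ww a b ≠ 0) {A : Set ℂ} (hA : IsCompact A)
    (hp : ∀ z ∈ hull A, b.eval z ≠ 0) : gg a b '' hull A ⊆ hull (gg a b '' A) := by
  rintro _ ⟨x, hx, rfl⟩
  by_cases hxA : gg a b x ∈ gg a b '' A
  · exact hul_sub _ hxA
  have hxA' : x ∉ A := fun h => hxA ⟨x, h, rfl⟩
  obtain ⟨O, -, hO, -, hxO, hOb, -, hOh, hOf, -⟩ := hul_comp hA.isClosed hx hxA'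
  have hcl : closure O ⊆ hull A := by
    intro z hz
    by_cases hzO : z ∈ O
    · exact hOh hzO
    · exact hul_sub A (hOf (by rw [hO.frontier_eq]; exact ⟨hz, hzO⟩))
  have hco : IsCompact (closure O) :=
    Metric.isCompact_of_isClosed_isBounded isClosed_closure hOb.closure
  have hcf : ContinuousOn (gg a b) (closure O) :=
    fun z hz => (gg_der (hp z (hcl hz))).continuousAt.continuousWithinAt
  have him : IsCompact (gg a b '' closure O) := hco.image_of_continuousOn hcf
  have h1 : connectedComponentIn (gg a b '' A)ᶜ (gg a b x) ⊆ gg a b '' O := by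
    refine IsPreconnected.subset_left_of_subset_union
      (gg_open hw hO fun z hz => hp z (hOh hz)) him.isClosed.isOpen_compl
      (disjoint_compl_right_iff_subset.2 (Set.image_mono subset_closure)) ?_
      ⟨gg a b x, mem_connectedComponentIn hxA, ⟨x, hxO, rfl⟩⟩ isPreconnected_connectedComponentIn
    intro z hz
    have hzA := connectedComponentIn_subset _ _ hz
    by_cases hzc : z ∈ gg a b '' closure O
    · obtain ⟨w, hw1, rfl⟩ := hzc
      by_cases hwO : w ∈ O
      · exact Or.inl ⟨w, hwO, rfl⟩
      · exact absurd ⟨w, hOf (by rw [hO.frontier_eq]; exact ⟨hw1, hwO⟩), rfl⟩ hzA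
    · exact Or.inr hzc
  exact (him.isBounded.subset (Set.image_mono subset_closure)).subset h1

end Pool.Agent.H76.SU
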