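import Pool.Agent.H76.SU.Defs

/-!
# Module LIM: the diameters of the images of a compact set tend to zero

PROOFS. `lim_disc` (only finitely many `U n` contain discs of radius `c`): the `U n` are disjoint subsets of `ball 0 R`, a disc of radius `c` has area `π c ^ 2`: if infinitely many `U n` contain one then `volume (ball 0 R) = ∞` (`tsum_measure_le_measure_univ` or: choose `N` of them, `N * π * c ^ 2 ≤ π * R ^ 2`).
`lim_der`: let `δ > 0` with `closedBall x (2 δ) ⊆ U 0` for all `x ∈ K` (`K` compact, `IsCompact.exists_cthickening_subset_open`). Let `x ∈ K`, `‖Dn n x‖ ≥ ε`, `F = f^n`, bounded by `R` on `ball x (2 δ)` (`U n ⊆ ball 0 R`). Cauchy: `‖F z - F x - F' x * (z - x)‖ ≤ (2 R / δ ^ 2) ‖z - x‖ ^ 2` for `‖z - x‖ ≤ δ / 2` (Taylor/Schwarz; e.g. `‖F' z - F' x‖ ≤ C ‖z - x‖` by a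
Cauchy estimate of `F'` and the mean value inequality; any constant `C = C(R, δ)`). So on the sphere `‖z - x‖ = t`, `t = min (δ / 2) (ε / (2 C))`: `‖F z - F x‖ ≥ ε t - C t ^ 2 ≥ ε t / 2`. `DiffContOnCl.ball_subset_image_closedBall` (Mathlib, open mapping): `ball (F x) (ε t / 4) ⊆ F '' closedBall x t ⊆ U n`. The radius depends on `ε, δ, R` only: by `lim_disc`
only finitely many `n`.
`lim`: first for two points `x, y ∈ U 0`: `‖f^n x - f^n y‖ → 0`: `IsPreconnected.induction₂` on `U 0` with `P x y := Tendsto (fun n => f^n x - f^n y) atTop (𝓝 0)` (symmetric, transitive; locally: on a closed ball `closedBall x ρ ⊆ U 0` the mean value inequality and `lim_der` with `K = closedBall x ρ`). For a compact set: finitely many closed balls in `U 0` cover `K`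
(interiors), on each the oscillation tends to `0` uniformly (`lim_der`, mean value inequality on the ball), and the centres by the first part.
-/

set_option autoImplicit false

open Filter Topology Polynomial Metric Set MeasureTheory
open scoped ContDiff

namespace Pool.Agent.H76.SU

open Pool.Agent.H61.TT H73.BR

variable {a b : Polynomial ℂ} {U : ℕ → Set ℂ} {J : Set ℂ} {R : ℝ}

theorem lim_disc (h : Wan a b U J R) {c : ℝ} (hc : 0 < c) :
    ∀ᶠ n in atTop, ¬ ∃ x : ℂ, ball x c ⊆ U n := by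
  by_contra hcon
  have hf : ∃ᶠ n in atTop, ∃ x : ℂ, ball x c ⊆ U n := by
    intro h1
    exact hcon h1
  obtain ⟨φ, hφ, hx⟩ := extraction_of_frequently_atTop hf
  choose x hx using hx
  have hmem : ∀ n, x n ∈ closedBall (0 : ℂ) R := fun n =>
    ball_subset_closedBall (h.bd _ (hx n (mem_ball_self hc)))
  obtain ⟨y, -, θ, hθ, ht⟩ := (isCompact_closedBall (0 : ℂ) R).tendsto_subseq hmem
  have h1 := (Metric.tendsto_atTop.1 ht) (c / 2) (half_pos hc)
  obtain ⟨N, hN⟩ := h1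
  have h2 := hN N le_rfl
  have h3 := hN (N + 1) (Nat.le_succ N)
  have h4 : x (θ N) ∈ ball (x (θ (N + 1))) c := by
    rw [mem_ball]
    calc dist (x (θ N)) (x (θ (N + 1))) ≤ dist (x (θ N)) y + dist y (x (θ (N + 1))) :=
          dist_triangle _ _ _
      _ = dist ((x ∘ θ) N) y + dist ((x ∘ θ) (N + 1)) y := by rw [dist_comm y]; rfl
      _ < c / 2 + c / 2 := add_lt_add h2 h3
      _ = c := add_halves c
  have h5 : x (θ N) ∈ U (φ (θ N)) := hx _ (mem_ball_self hc)
  have h6 : x (θ N) ∈ U (φ (θ (N + 1))) := hx _ h4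
  have h7 := h.idx h5 h6
  have h8 : θ N < θ (N + 1) := hθ (Nat.lt_succ_self N)
  have h9 : φ (θ N) < φ (θ (N + 1)) := hφ h8
  omega

/-- a quantitative open mapping theorem -/
theorem lim_open {F : ℂ → ℂ} {x D : ℂ} {δ R ε : ℝ} (hδ : 0 < δ) (hR : 0 < R) (hε : 0 < ε)
    (hF : DifferentiableOn ℂ F (closedBall x δ)) (hb : ∀ z ∈ closedBall x δ, ‖F z‖ ≤ R)
    (hD : HasDerivAt F D x) (hDε : ε ≤ ‖D‖) :
    ball (F x) (min (δ / 2) (ε / (2 * (5 * R / δ / δ))) * (ε / 2) / 2) ⊆ F '' closedBall x δ := by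
  obtain ⟨C, hC⟩ : ∃ C, C = 5 * R / δ / δ := ⟨_, rfl⟩
  obtain ⟨t, ht⟩ : ∃ t, t = min (δ / 2) (ε / (2 * C)) := ⟨_, rfl⟩
  have hC0 : 0 < C := by rw [hC]; positivity
  have ht0 : 0 < t := by
    rw [ht]
    exact lt_min (by positivity) (by positivity)
  have ht1 : t ≤ δ / 2 := by rw [ht]; exact min_le_left _ _
  have ht2 : t ≤ ε / (2 * C) := by rw [ht]; exact min_le_right _ _
  have ht3 : C * t ≤ ε / 2 := by
    rw [le_div_iff₀ (by positivity)] at ht2
    linarith
  rw [← hC, ← ht]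
  have hFb : DifferentiableOn ℂ F (ball x δ) := hF.mono ball_subset_closedBall
  have hxm : x ∈ closedBall x δ := mem_closedBall_self hδ.le
  obtain ⟨g, hg⟩ : ∃ g, g = dslope F x := ⟨_, rfl⟩
  have hm1 : MapsTo F (ball x δ) (closedBall (F x) (2 * R)) := by
    intro z hz
    rw [mem_closedBall, dist_eq_norm]
    calc ‖F z - F x‖ ≤ ‖F z‖ + ‖F x‖ := norm_sub_le _ _
      _ ≤ R + R := add_le_add (hb z (ball_subset_closedBall hz)) (hb x hxm)
      _ = 2 * R := by ring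
  have hg1 : ∀ z ∈ ball x δ, ‖g z‖ ≤ 2 * R / δ := by
    intro z hz
    rw [hg]
    exact Complex.norm_dslope_le_div_of_mapsTo_ball hFb hm1 hz
  have hgd : DifferentiableOn ℂ g (ball x δ) := by
    rw [hg]
    exact (Complex.differentiableOn_dslope (isOpen_ball.mem_nhds (mem_ball_self hδ))).2 hFb
  have hgx : g x = D := by
    rw [hg, dslope_same, hD.deriv]
  have hm2 : MapsTo g (ball x δ) (closedBall (g x) (5 * R / δ)) := by
    intro z hz
    rw [mem_closedBall, dist_eq_norm]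
    calc ‖g z - g x‖ ≤ ‖g z‖ + ‖g x‖ := norm_sub_le _ _
      _ ≤ 2 * R / δ + 2 * R / δ := add_le_add (hg1 z hz) (hg1 x (mem_ball_self hδ))
      _ ≤ 5 * R / δ := by
        rw [← add_div]
        exact div_le_div_of_nonneg_right (by linarith) hδ.le
  have hg2 : ∀ z ∈ ball x δ, ‖g z - g x‖ ≤ C * ‖z - x‖ := by
    intro z hz
    have h1 := Complex.norm_dslope_le_div_of_mapsTo_ball hgd hm2 hz
    have h2 : g z - g x = (z - x) * dslope g x z := by
      have := sub_smul_dslope g x z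
      rw [smul_eq_mul] at this
      exact this.symm
    rw [h2, norm_mul, mul_comm, hC]
    exact mul_le_mul_of_nonneg_right h1 (norm_nonneg _)
  have hlow : ∀ z ∈ sphere x t, t * (ε / 2) ≤ ‖F z - F x‖ := by
    intro z hz
    have hzt : ‖z - x‖ = t := by
      rw [mem_sphere, dist_eq_norm] at hz
      exact hz
    have hzb : z ∈ ball x δ := by
      rw [mem_ball, dist_eq_norm, hzt]
      linarith
    have h2 : F z - F x = (z - x) * g z := by
      have := sub_smul_dslope F x z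
      rw [smul_eq_mul] at this
      rw [hg]
      exact this.symm
    rw [h2, norm_mul, hzt]
    apply mul_le_mul_of_nonneg_left _ ht0.le
    have h3 := hg2 z hzb
    rw [hzt] at h3
    have h4 : ‖g x‖ ≤ ‖g z‖ + ‖g z - g x‖ := by
      have := norm_sub_le (g z) (g z - g x)
      rwa [sub_sub_cancel] at this
    rw [hgx] at h4 h3
    linarith
  have hcl : closedBall x t ⊆ closedBall x δ := closedBall_subset_closedBall (by linarith)
  have hdc : DiffContOnCl ℂ F (ball x t) := by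
    apply DifferentiableOn.diffContOnCl
    exact hF.mono (closure_ball_subset_closedBall.trans hcl)
  have hne : ∃ᶠ z in 𝓝 x, F z ≠ F x := by
    have hD0 : D ≠ 0 := by
      intro h0
      rw [h0, norm_zero] at hDε
      linarith
    have h1 := hD.eventually_ne (c := F x) hD0
    exact h1.frequently.filter_mono nhdsWithin_le_nhds
  exact (hdc.ball_subset_image_closedBall ht0 hlow hne).trans (image_mono hcl)

theorem lim_der (h : Wan a b U J R) {K : Set ℂ} (hK : IsCompact K) (hKU : K ⊆ U 0) {ε : ℝ}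
    (hε : 0 < ε) : ∀ᶠ n in atTop, ∀ x ∈ K, ‖Dn a b n x‖ ≤ ε := by
  obtain ⟨δ, hδ, hδU⟩ := hK.exists_cthickening_subset_open (h.op 0) hKU
  have hR := h.R_pos
  have hcb : ∀ x ∈ K, closedBall x δ ⊆ U 0 := by
    intro x hx
    exact (closedBall_subset_cthickening hx δ).trans hδU
  have hc : 0 < min (δ / 2) (ε / (2 * (5 * R / δ / δ))) * (ε / 2) / 2 := by
    have : 0 < min (δ / 2) (ε / (2 * (5 * R / δ / δ))) := lt_min (by positivity) (by positivity)
    positivity
  filter_upwards [lim_disc h hc] with n hn x hx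
  by_contra hlt
  push Not at hlt
  apply hn
  refine ⟨(gg a b)^[n] x, ?_⟩
  refine (lim_open (F := (gg a b)^[n]) hδ hR hε ((h.diff 0 n).mono (hcb x hx)) ?_
    (h.der n (hKU hx)) hlt.le).trans ?_
  · intro z hz
    have := h.bd n (h.map0 n (hcb x hx hz))
    rw [mem_ball_zero_iff] at this
    exact this.le
  · rintro _ ⟨z, hz, rfl⟩
    exact h.map0 n (hcb x hx hz)

theorem lim_loc (h : Wan a b U J R) {x : ℂ} (hx : x ∈ U 0) :
    ∃ V ∈ 𝓝 x, ∀ ε : ℝ, 0 < ε → ∀ᶠ n in atTop, ∀ y ∈ V, ‖(gg a b)^[n] y - (gg a b)^[n] x‖ ≤ ε := by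
  obtain ⟨ρ, hρ, hb⟩ := nhds_basis_closedBall.mem_iff.1 ((h.op 0).mem_nhds hx)
  refine ⟨closedBall x ρ, closedBall_mem_nhds x hρ, fun ε hε => ?_⟩
  filter_upwards [lim_der h (isCompact_closedBall x ρ) hb (div_pos hε hρ)] with n hn y hy
  have h1 := (convex_closedBall x ρ).norm_image_sub_le_of_norm_hasDerivWithin_le
    (fun z hz => (h.der n (hb hz)).hasDerivWithinAt) hn (mem_closedBall_self hρ.le) hy
  refine h1.trans ?_
  rw [mem_closedBall, dist_eq_norm] at hy
  calc ε / ρ * ‖y - x‖ ≤ ε / ρ * ρ := mul_le_mul_of_nonneg_left hy (by positivity)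
    _ = ε := div_mul_cancel₀ _ hρ.ne'

theorem lim_pt (h : Wan a b U J R) {x y : ℂ} (hx : x ∈ U 0) (hy : y ∈ U 0) {ε : ℝ} (hε : 0 < ε) :
    ∀ᶠ n in atTop, ‖(gg a b)^[n] x - (gg a b)^[n] y‖ ≤ ε := by
  have key : ∀ ε : ℝ, 0 < ε → ∀ᶠ n in atTop, ‖(gg a b)^[n] x - (gg a b)^[n] y‖ ≤ ε := by
    refine (h.pc 0).induction₂' (fun x y => ∀ ε : ℝ, 0 < ε →
      ∀ᶠ n in atTop, ‖(gg a b)^[n] x - (gg a b)^[n] y‖ ≤ ε) ?_ ?_ hx hy
    · intro x hx
      obtain ⟨V, hV, hl⟩ := lim_loc h hx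
      filter_upwards [nhdsWithin_le_nhds hV] with y hyV
      refine ⟨fun ε hε => ?_, fun ε hε => ?_⟩
      · filter_upwards [hl ε hε] with n hn
        rw [norm_sub_rev]
        exact hn y hyV
      · filter_upwards [hl ε hε] with n hn
        exact hn y hyV
    · intro x y z _ _ _ h1 h2 ε hε
      filter_upwards [h1 (ε / 2) (half_pos hε), h2 (ε / 2) (half_pos hε)] with n k1 k2
      calc ‖(gg a b)^[n] x - (gg a b)^[n] z‖ =
            ‖((gg a b)^[n] x - (gg a b)^[n] y) + ((gg a b)^[n] y - (gg a b)^[n] z)‖ := by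
            congr 1; ring
        _ ≤ ε / 2 + ε / 2 := (norm_add_le _ _).trans (add_le_add k1 k2)
        _ = ε := add_halves ε
  exact key ε hε

theorem lim (h : Wan a b U J R) {K : Set ℂ} (hK : IsCompact K) (hKU : K ⊆ U 0) {ε : ℝ}
    (hε : 0 < ε) : ∀ᶠ n in atTop, ∀ x ∈ K, ∀ y ∈ K, ‖(gg a b)^[n] x - (gg a b)^[n] y‖ ≤ ε := by
  have hl : ∀ x : ℂ, ∃ V : Set ℂ, x ∈ K → V ∈ 𝓝 x ∧ ∀ ε : ℝ, 0 < ε →
      ∀ᶠ n in atTop, ∀ y ∈ V, ‖(gg a b)^[n] y - (gg a b)^[n] x‖ ≤ ε := by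
    intro x
    by_cases hx : x ∈ K
    · obtain ⟨V, hV, hl⟩ := lim_loc h (hKU hx)
      exact ⟨V, fun _ => ⟨hV, hl⟩⟩
    · exact ⟨∅, fun h1 => absurd h1 hx⟩
  choose V hV using hl
  obtain ⟨t, htK, htc⟩ := hK.elim_nhds_subcover V fun x hx => (hV x hx).1
  have e1 : ∀ᶠ n in atTop, ∀ x ∈ t, ∀ y ∈ V x, ‖(gg a b)^[n] y - (gg a b)^[n] x‖ ≤ ε / 3 :=
    (Filter.eventually_all_finset t).2 fun x hx => (hV x (htK x hx)).2 (ε / 3) (by positivity)
  have e2 : ∀ᶠ n in atTop, ∀ x ∈ t, ∀ y ∈ t, ‖(gg a b)^[n] x - (gg a b)^[n] y‖ ≤ ε / 3 :=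
    (Filter.eventually_all_finset t).2 fun x hx => (Filter.eventually_all_finset t).2 fun y hy =>
      lim_pt h (hKU (htK x hx)) (hKU (htK y hy)) (by positivity)
  filter_upwards [e1, e2] with n h1 h2 x hx y hy
  obtain ⟨x', hx't, hx'⟩ := mem_iUnion₂.1 (htc hx)
  obtain ⟨y', hy't, hy'⟩ := mem_iUnion₂.1 (htc hy)
  have k1 := h1 x' hx't x hx'
  have k2 := h1 y' hy't y hy'
  have k3 := h2 x' hx't y' hy't
  calc ‖(gg a b)^[n] x - (gg a b)^[n] y‖ = ‖((gg a b)^[n] x - (gg a b)^[n] x') +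
        ((gg a b)^[n] x' - (gg a b)^[n] y') - ((gg a b)^[n] y - (gg a b)^[n] y')‖ := by
        congr 1; ring
    _ ≤ ‖((gg a b)^[n] x - (gg a b)^[n] x') + ((gg a b)^[n] x' - (gg a b)^[n] y')‖ +
        ‖(gg a b)^[n] y - (gg a b)^[n] y'‖ := norm_sub_le _ _
    _ ≤ ε / 3 + ε / 3 + ε / 3 := add_le_add ((norm_add_le _ _).trans (add_le_add k1 k3)) k2
    _ = ε := by ring

end Pool.Agent.H76.SU
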