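import Pool.Agent.H76.SU.HMP
import Pool.Agent.H76.SU.LIM

/-!
# Module HUN: the hull of the image of a compact connected set is in the Fatou component

PROOFS. Let `f = gg a b`, `K n = f^n '' K`, compact, preconnected, `K n ⊆ U n`. If `K` is empty: `hull ∅ = ∅` (`hul_ball` with radius `-1`). `hun_pole`: near a zero `p` of `b`: `‖gg z‖ → ∞` (`a p ≠ 0`, coprime); finitely many zeros; so there is `δ > 0` with: `b p = 0`, `0 < ‖z - p‖ < δ` imply `‖gg z‖ > R`. Take this: if `‖w‖ < R`, `b w ≠ 0`, `‖gg w‖ < R` then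
`‖w - p‖ ≥ δ` for all zeros `p`, so `b ≠ 0` on `closedBall w (δ / 2)`. `hun_no`: for large `n` (`lim` with `ε = δ / 2`) `K n ⊆ closedBall w (δ / 2)` for a point `w ∈ K n`, so `hull (K n) ⊆ closedBall w (δ / 2)` (`hul_ball`) has no zero of `b` and is in `ball 0 (R + δ)`.
`hun_map`: for `n ≥ n0`: `f '' hull (K n) ⊆ hull (f '' K n) = hull (K (n + 1))` (`hul_map`), so `f^j '' hull (K n) ⊆ hull (K (n + j))` for all `j`.
`hun`: let `n ≥ n0`, `x ∈ hull (K n)`. If `x ∈ K n` then `x ∈ U n`. Otherwise let `O` be the component of `hul_comp`: open, `O ⊆ hull (K n)`: for `z ∈ O` all iterates `f^j z ∈ hull (K (n + j))` are bounded by `R + δ` and not zeros of `b`: `Wan.nrm` gives `Disjoint O J`. The set `O ∪ frontier O = closure O` is preconnected (`IsPreconnected.closure`), does not meet `J`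
(`frontier O ⊆ K n ⊆ U n`, disjoint from `J`), and meets `U n` (`frontier O` is nonempty): `Wan.conn` gives `closure O ⊆ U n`.
-/

set_option autoImplicit false

open Filter Topology Polynomial Metric Set MeasureTheory
open scoped ContDiff

namespace Pool.Agent.H76.SU

open Pool.Agent.H61.TT H73.BR

variable {a b : Polynomial ℂ} {U : ℕ → Set ℂ} {J : Set ℂ} {R : ℝ}

private theorem hun_one (hcop : IsCoprime a b) (R : ℝ) {p : ℂ} (hp : b.eval p = 0) :
    ∃ δ : ℝ, 0 < δ ∧ ∀ w : ℂ, dist w p < δ → b.eval w ≠ 0 → R < ‖gg a b w‖ := by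
  have hap : a.eval p ≠ 0 := by
    intro h0
    obtain ⟨u, v, huv⟩ := hcop
    have h1 := congrArg (Polynomial.eval p) huv
    rw [eval_add, eval_mul, eval_mul, h0, hp, eval_one, mul_zero, mul_zero, add_zero] at h1
    exact zero_ne_one h1
  have hA : 0 < ‖a.eval p‖ := norm_pos_iff.2 hap
  have hR1 : 0 < |R| + 1 := by positivity
  have h1 : ∀ᶠ w in 𝓝 p, ‖a.eval p‖ / 2 < ‖a.eval w‖ :=
    (a.continuous.norm.tendsto p).eventually (lt_mem_nhds (by linarith))
  have h2 : ∀ᶠ w in 𝓝 p, ‖b.eval w‖ < ‖a.eval p‖ / 2 / (|R| + 1) := by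
    refine (b.continuous.norm.tendsto p).eventually (gt_mem_nhds ?_)
    rw [hp, norm_zero]
    positivity
  obtain ⟨δ, hδ, h3⟩ := Metric.eventually_nhds_iff.1 (h1.and h2)
  refine ⟨δ, hδ, fun w hw hb => ?_⟩
  obtain ⟨h4, h5⟩ := h3 hw
  have hb0 : 0 < ‖b.eval w‖ := norm_pos_iff.2 hb
  unfold gg
  rw [norm_div, lt_div_iff₀ hb0]
  rw [lt_div_iff₀ hR1] at h5
  calc R * ‖b.eval w‖ ≤ (|R| + 1) * ‖b.eval w‖ := by
        have := le_abs_self R
        gcongr
        linarith
    _ < ‖a.eval p‖ / 2 := by linarith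
    _ < ‖a.eval w‖ := h4

theorem hun_pole (hcop : IsCoprime a b) (hw : ww a b ≠ 0) (R : ℝ) : ∃ δ : ℝ, 0 < δ ∧
    ∀ w : ℂ, b.eval w ≠ 0 → ‖gg a b w‖ ≤ R → ∀ z ∈ closedBall w δ, b.eval z ≠ 0 := by
  have hb0 : b ≠ 0 := by
    rintro rfl
    apply hw
    unfold ww
    simp
  classical
  have key : ∀ s : Finset ℂ, (∀ p ∈ s, b.eval p = 0) → ∃ δ : ℝ, 0 < δ ∧
      ∀ p ∈ s, ∀ w : ℂ, dist w p < δ → b.eval w ≠ 0 → R < ‖gg a b w‖ := by
    intro s
    induction s using Finset.induction_on with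
    | empty => exact fun _ => ⟨1, one_pos, fun p hp => absurd hp (Finset.notMem_empty p)⟩
    | insert p s hps ih =>
      intro hs
      obtain ⟨δ1, hδ1, h1⟩ := ih fun q hq => hs q (Finset.mem_insert_of_mem hq)
      obtain ⟨δ2, hδ2, h2⟩ := hun_one hcop R (hs p (Finset.mem_insert_self p s))
      refine ⟨min δ1 δ2, lt_min hδ1 hδ2, fun q hq w hw' hb => ?_⟩
      rcases Finset.mem_insert.1 hq with rfl | hq
      · exact h2 w (hw'.trans_le (min_le_right _ _)) hb
      · exact h1 q hq w (hw'.trans_le (min_le_left _ _)) hb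
  obtain ⟨δ, hδ, h1⟩ := key b.roots.toFinset (by
    intro p hp
    rw [Multiset.mem_toFinset, Polynomial.mem_roots hb0] at hp
    exact hp)
  refine ⟨δ / 2, by positivity, fun w hbw hgw z hz hbz => ?_⟩
  have h2 : z ∈ b.roots.toFinset := by
    rw [Multiset.mem_toFinset, Polynomial.mem_roots hb0]
    exact hbz
  rw [mem_closedBall, dist_comm] at hz
  exact absurd (h1 z h2 w (by linarith) hbw) (not_lt.2 hgw)

theorem hun (h : Wan a b U J R) {K : Set ℂ} (hK : IsCompact K) (hc : IsPreconnected K)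
    (hKU : K ⊆ U 0) : ∀ᶠ n in atTop, hull ((gg a b)^[n] '' K) ⊆ U n := by
  rcases K.eq_empty_or_nonempty with hKe | ⟨x0, hx0⟩
  · refine Filter.Eventually.of_forall fun n => ?_
    rw [hKe, Set.image_empty]
    have h1 : hull (∅ : Set ℂ) ⊆ closedBall 0 (-1) := hul_ball (Set.empty_subset _)
    rw [closedBall_eq_empty.2 (by norm_num)] at h1
    exact h1.trans (Set.empty_subset _)
  obtain ⟨δ, hδ, hpole⟩ := hun_pole h.cop h.wr R
  have hcpt : ∀ n, IsCompact ((gg a b)^[n] '' K) := fun n =>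
    hK.image_of_continuousOn ((h.diff 0 n).continuousOn.mono hKU)
  have hKn : ∀ n, (gg a b)^[n] '' K ⊆ U n := by
    rintro n _ ⟨x, hx, rfl⟩
    exact h.map0 n (hKU hx)
  obtain ⟨n0, hn0⟩ := eventually_atTop.1 (lim h hK hKU hδ)
  have hP : ∀ n, n0 ≤ n → ∀ z ∈ hull ((gg a b)^[n] '' K), b.eval z ≠ 0 ∧ ‖z‖ ≤ R + δ := by
    intro n hn z hz
    have hw := h.map0 n (hKU hx0)
    have h1 : (gg a b)^[n] '' K ⊆ closedBall ((gg a b)^[n] x0) δ := by
      rintro _ ⟨x, hx, rfl⟩
      rw [mem_closedBall, dist_eq_norm]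
      exact hn0 n hn x hx x0 hx0
    have h2 := hul_ball h1 hz
    have h3 : ‖gg a b ((gg a b)^[n] x0)‖ ≤ R := by
      have h4 := h.bd _ (h.mp n hw)
      rw [mem_ball_zero_iff] at h4
      exact h4.le
    refine ⟨hpole _ (h.np n _ hw) h3 z h2, ?_⟩
    have h5 := h.bd _ hw
    rw [mem_ball_zero_iff] at h5
    rw [mem_closedBall, dist_eq_norm] at h2
    have h6 := norm_add_le (z - (gg a b)^[n] x0) ((gg a b)^[n] x0)
    rw [sub_add_cancel] at h6
    linarith
  have hstep : ∀ n, n0 ≤ n → ∀ z ∈ hull ((gg a b)^[n] '' K),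
      gg a b z ∈ hull ((gg a b)^[n + 1] '' K) := by
    intro n hn z hz
    have h1 := hul_map h.wr (hcpt n) (fun z hz => (hP n hn z hz).1) ⟨z, hz, rfl⟩
    rw [← Set.image_comp, ← Function.iterate_succ'] at h1
    exact h1
  have hit : ∀ n, n0 ≤ n → ∀ z ∈ hull ((gg a b)^[n] '' K), ∀ j : ℕ,
      (gg a b)^[j] z ∈ hull ((gg a b)^[n + j] '' K) := by
    intro n hn z hz j
    induction j with
    | zero => exact hz
    | succ j ih =>
      rw [Function.iterate_succ_apply']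
      exact hstep (n + j) (by omega) _ ih
  filter_upwards [eventually_ge_atTop n0] with n hn x hx
  by_cases hxK : x ∈ (gg a b)^[n] '' K
  · exact hKn n hxK
  obtain ⟨O, -, hO, hOp, hxO, -, -, hOh, hOf, hfn⟩ := hul_comp (hcpt n).isClosed hx hxK
  have hOJ : Disjoint O J := h.nrm hO (M := R + δ) fun z hz j =>
    hP (n + j) (by omega) _ (hit n hn z (hOh hz) j)
  have hcl : closure O ⊆ U n := by
    refine h.conn hOp.closure ?_ ?_
    · rw [Set.disjoint_left]
      intro z hz hzJ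
      by_cases hzO : z ∈ O
      · exact Set.disjoint_left.1 hOJ hzO hzJ
      · have h1 : z ∈ frontier O := by
          rw [hO.frontier_eq]
          exact ⟨hz, hzO⟩
        exact Set.disjoint_left.1 (h.Jd n) hzJ (hKn n (hOf h1))
    · obtain ⟨z, hz⟩ := hfn
      exact ⟨z, frontier_subset_closure hz, hKn n (hOf hz)⟩
  exact hcl (subset_closure hxO)

end Pool.Agent.H76.SU
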