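import Pool.Agent.H76.SU.ROO
import Pool.Agent.H76.SU.HUN

/-!
# Module INJ: injectivity of all iterates

PROOFS. `inj_tail`: let `δ` be the number of `roo` for `R`. For `n ≥ n0`: `hull (f^n '' K) ⊆ U n` (`hun`) and the diameter of `f^n '' K` is `≤ δ` (`lim`). So for `m ≥ n0`: `f` is injective on `f^m '' K`: `roo` applies (`f^m '' K ⊆ U m ⊆ ball 0 R`, no poles, `f '' (f^m '' K) = f^(m+1) '' K ⊆ U (m+1)`; a critical value `f c` is not in `U (m+1) ⊇ hull (f^(m+1) '' K)`: `Wan.nv`).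
By induction on `j`: `f^j` is injective on `f^n '' K` for `n ≥ n0` (`f^(j+1) = f ∘ f^j`, `f^j '' (f^n '' K) = f^(n+j) '' K`).
`inj_disc`: let `K = closedBall x ρ0 ⊆ U 0`, `n0` from `inj_tail`. `f^n0` has nonzero derivative at `x` (`Wan.der`, `Wan.ne0`; it is holomorphic near `x`, so the derivative is strict), so it is injective on `ball x ρ` for some `ρ ≤ ρ0`. For `n ≥ n0`: `f^n = f^(n - n0) ∘ f^n0` is injective on `ball x ρ`; for `n < n0`: `f^n0 = f^(n0 - n) ∘ f^n`, so `f^n` is injective.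
-/

set_option autoImplicit false

open Filter Topology Polynomial Metric Set MeasureTheory
open scoped ContDiff

namespace Pool.Agent.H76.SU

open Pool.Agent.H61.TT H73.BR

variable {a b : Polynomial ℂ} {U : ℕ → Set ℂ} {J : Set ℂ} {R : ℝ}

theorem inj_tail (h : Wan a b U J R) {K : Set ℂ} (hK : IsCompact K) (hc : IsPreconnected K)
    (hKU : K ⊆ U 0) : ∀ᶠ n in atTop, ∀ j : ℕ, InjOn (gg a b)^[j] ((gg a b)^[n] '' K) := by
  obtain ⟨δ, hδ, hroo⟩ := roo h.cop h.wr R
  obtain ⟨n0, hn0⟩ := eventually_atTop.1 ((hun h hK hc hKU).and (lim h hK hKU hδ))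
  have hcont : ∀ n, ContinuousOn (gg a b)^[n] K := fun n => (h.diff 0 n).continuousOn.mono hKU
  have hone : ∀ m, n0 ≤ m → InjOn (gg a b) ((gg a b)^[m] '' K) := by
    intro m hm
    apply hroo _ (hK.image_of_continuousOn (hcont m)) (hc.image _ (hcont m))
    · rintro _ ⟨x, hx, rfl⟩
      have h1 := h.map0 m (hKU hx)
      have h2 := h.bd _ h1
      have h3 := h.bd _ (h.mp m h1)
      rw [mem_ball_zero_iff] at h2 h3
      exact ⟨h2.le, h.np m _ h1, h3.le⟩
    · rintro _ ⟨x, hx, rfl⟩ _ ⟨y, hy, rfl⟩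
      exact (hn0 m hm).2 x hx y hy
    · intro c hbc hwc hmem
      rw [← Set.image_comp, ← Function.iterate_succ'] at hmem
      exact h.nv (m + 1) c hbc hwc ((hn0 (m + 1) (by omega)).1 hmem)
  filter_upwards [eventually_ge_atTop n0] with n hn j
  induction j with
  | zero => exact injOn_id _
  | succ j ih =>
    rw [Function.iterate_succ']
    refine (hone (j + n) (by omega)).comp ih ?_
    rintro _ ⟨x, hx, rfl⟩
    exact ⟨x, hx, Function.iterate_add_apply _ _ _ _⟩

theorem inj_disc (h : Wan a b U J R) {x : ℂ} (hx : x ∈ U 0) : ∃ ρ : ℝ, 0 < ρ ∧ ball x ρ ⊆ U 0 ∧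
    ∀ n : ℕ, InjOn (gg a b)^[n] (ball x ρ) := by
  obtain ⟨ρ1, hρ1, hb⟩ := Metric.isOpen_iff.1 (h.op 0) x hx
  have hcb : closedBall x (ρ1 / 2) ⊆ U 0 := (closedBall_subset_ball (by linarith)).trans hb
  obtain ⟨n0, hn0⟩ := eventually_atTop.1 (inj_tail h (isCompact_closedBall x (ρ1 / 2))
    (convex_closedBall x (ρ1 / 2)).isPreconnected hcb)
  have han : AnalyticAt ℂ (gg a b)^[n0] x := (h.diff 0 n0).analyticAt ((h.op 0).mem_nhds hx)
  have hs : HasStrictDerivAt (gg a b)^[n0] (Dn a b n0 x) x := by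
    have h1 := han.hasStrictDerivAt
    rwa [(h.der n0 hx).deriv] at h1
  have hd := h.ne0 n0 hx
  obtain ⟨e, he⟩ : ∃ e : OpenPartialHomeomorph ℂ ℂ,
      e = (hs.hasStrictFDerivAt_equiv hd).toOpenPartialHomeomorph (gg a b)^[n0] := ⟨_, rfl⟩
  have hes : x ∈ e.source := by
    rw [he]
    exact (hs.hasStrictFDerivAt_equiv hd).mem_toOpenPartialHomeomorph_source
  have hef : ∀ z, e z = (gg a b)^[n0] z := by
    intro z
    rw [he]
    rfl
  obtain ⟨ρ2, hρ2, hb2⟩ := Metric.isOpen_iff.1 e.open_source x hes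
  refine ⟨min (ρ1 / 2) ρ2, lt_min (by linarith) hρ2, ?_, fun n => ?_⟩
  · exact (ball_subset_ball (min_le_left _ _)).trans (ball_subset_closedBall.trans hcb)
  have hinj0 : InjOn (gg a b)^[n0] (ball x (min (ρ1 / 2) ρ2)) := by
    intro y hy z hz hyz
    apply e.injOn (hb2 (ball_subset_ball (min_le_right _ _) hy)) (hb2 (ball_subset_ball (min_le_right _ _) hz))
    rw [hef, hef]
    exact hyz
  rcases le_or_gt n0 n with hn | hn
  · obtain ⟨j, rfl⟩ := Nat.exists_eq_add_of_le hn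
    rw [add_comm, Function.iterate_add]
    refine (hn0 n0 le_rfl j).comp hinj0 ?_
    intro y hy
    exact ⟨y, ball_subset_closedBall (ball_subset_ball (min_le_left _ _) hy), rfl⟩
  · obtain ⟨j, hj⟩ := Nat.exists_eq_add_of_lt hn
    intro y hy z hz hyz
    apply hinj0 hy hz
    have e1 : n0 = (j + 1) + n := by omega
    rw [e1, Function.iterate_add_apply _ (j + 1) n y, Function.iterate_add_apply _ (j + 1) n z, hyz]

end Pool.Agent.H76.SU
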