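import Pool.Agent.H76.SU.POL

/-!
# Module KER: among `2 d + 2` parameters there is a nontrivial invariant vector field

PROOF. Let `m_j x = conj (Z x - y) ^ j * θ x` for `j < N = 2 d + 2`. `Bm B R1 (m_j)` with `B = (max r 1) ^ N` (if `θ x ≠ 0` then `‖Z x - y‖ < r`; if `θ x = 0` then `m_j x = 0`; the support: `hsup`). Invariance: `m_j (gg x) * ph (dg x) = m_j x`: if `θ x ≠ 0` then `Z (gg x) = Z x` (`hZ`) and `hθ`; if `θ x = 0` then `θ (gg x) * ph (dg x) = 0`.
By `pol_eq` there are polynomials `p_j` of degree `≤ 2 d` with `b ^ 2 * Ct m_j (gg) - ww * Ct m_j = p_j`. The `2 d + 2` vectors `p_j` of the space `degreeLT ℂ (2 d + 1)` of dimension `2 d + 1` are linearly dependent: `c j` not all zero with `∑ c j * p_j = 0` (`exists_nontrivial_relation_of_finrank_lt_card` or `not_linearIndependent`...).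
By `ctb_sum` the function `m = ∑ c j m_j` satisfies `b ^ 2 * Ct m (gg z) - ww z * Ct m z = ∑ c j p_j (z) = 0`.
-/

set_option autoImplicit false

open Filter Topology Polynomial Metric Set MeasureTheory
open scoped ContDiff

namespace Pool.Agent.H76.SU

open Pool.Agent.H61.TT H73.BR

variable {a b : Polynomial ℂ} {U : ℕ → Set ℂ} {J : Set ℂ} {R : ℝ}

/-- the invariant coefficient with parameters `c` -/
noncomputable def mc (y : ℂ) (N : ℕ) (c : ℕ → ℂ) (Z θ : ℂ → ℂ) (x : ℂ) : ℂ :=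
  ∑ j ∈ Finset.range N, c j * ((starRingEnd ℂ) (Z x - y) ^ j * θ x)

theorem mc_bm {y : ℂ} {r R1 : ℝ} {Z θ : ℂ → ℂ} (hr : 0 < r) (mZ : Measurable Z) (mθ : Measurable θ)
    (h1 : ∀ x, ‖θ x‖ ≤ 1) (hsup : ∀ x, θ x ≠ 0 → Z x ∈ ball y r ∧ ‖x‖ ≤ R1) (N : ℕ) (c : ℕ → ℂ) :
    ∃ B : ℝ, Bm B R1 (mc y N c Z θ) := by
  refine ⟨∑ j ∈ Finset.range N, ‖c j‖ * r ^ j, ⟨?_, ?_, ?_⟩⟩
  · unfold mc
    refine Finset.measurable_sum _ fun j _ => ?_
    exact measurable_const.mul ((((Complex.continuous_conj.measurable).comp (mZ.sub_const y)).pow_const j).mul mθ)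
  · intro x
    unfold mc
    refine (norm_sum_le _ _).trans (Finset.sum_le_sum fun j _ => ?_)
    rw [norm_mul, norm_mul, norm_pow, Complex.norm_conj]
    refine mul_le_mul_of_nonneg_left ?_ (norm_nonneg _)
    by_cases h0 : θ x = 0
    · rw [h0, norm_zero, mul_zero]
      positivity
    · have h2 := (hsup x h0).1
      rw [mem_ball, dist_eq_norm] at h2
      calc ‖Z x - y‖ ^ j * ‖θ x‖ ≤ r ^ j * 1 :=
            mul_le_mul (pow_le_pow_left₀ (norm_nonneg _) h2.le j) (h1 x) (norm_nonneg _) (by positivity)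
        _ = r ^ j := mul_one _
  · intro x hx
    have h0 : θ x = 0 := by
      by_contra h
      exact absurd (hsup x h).2 (not_le.2 hx)
    unfold mc
    refine Finset.sum_eq_zero fun j _ => ?_
    rw [h0, mul_zero, mul_zero]

theorem mc_inv {y : ℂ} {Z θ : ℂ → ℂ} (hθ : ∀ x, θ (gg a b x) * ph (dg a b x) = θ x)
    (hZ : ∀ x, θ x ≠ 0 → Z (gg a b x) = Z x) (N : ℕ) (c : ℕ → ℂ) (x : ℂ) :
    mc y N c Z θ (gg a b x) * ph (dg a b x) = mc y N c Z θ x := by
  unfold mc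
  rw [Finset.sum_mul]
  refine Finset.sum_congr rfl fun j _ => ?_
  by_cases h0 : θ x = 0
  · have h1 := hθ x
    rw [h0] at h1
    rw [h0, mul_zero, mul_zero, mul_assoc, mul_assoc, h1, mul_zero, mul_zero]
  · rw [hZ x h0, mul_assoc, mul_assoc, hθ x]

theorem ker (hcop : IsCoprime a b) (hw : ww a b ≠ 0) {d : ℕ} (ha : a.natDegree ≤ d)
    (hb : b.natDegree ≤ d) {y : ℂ} {r R1 : ℝ} {Z θ : ℂ → ℂ} (hr : 0 < r) (mZ : Measurable Z)
    (mθ : Measurable θ) (h1 : ∀ x, ‖θ x‖ ≤ 1) (hsup : ∀ x, θ x ≠ 0 → Z x ∈ ball y r ∧ ‖x‖ ≤ R1)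
    (hθ : ∀ x, θ (gg a b x) * ph (dg a b x) = θ x) (hZ : ∀ x, θ x ≠ 0 → Z (gg a b x) = Z x) :
    ∃ c : ℕ → ℂ, (∃ j < 2 * d + 2, c j ≠ 0) ∧ ∀ z,
      b.eval z ^ 2 * Ct (mc y (2 * d + 2) c Z θ) (gg a b z) =
        (ww a b).eval z * Ct (mc y (2 * d + 2) c Z θ) z := by
  obtain ⟨N, hN⟩ : ∃ N : ℕ, N = 2 * d + 2 := ⟨_, rfl⟩
  rw [← hN]
  obtain ⟨m, hm⟩ : ∃ m : ℕ → ℂ → ℂ, m = fun j => mc y N (fun i => if i = j then 1 else 0) Z θ := ⟨_, rfl⟩
  have hmj : ∀ j < N, ∀ x, m j x = (starRingEnd ℂ) (Z x - y) ^ j * θ x := by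
    intro j hj x
    rw [hm]
    unfold mc
    simp only [ite_mul, one_mul, zero_mul]
    rw [Finset.sum_ite_eq', if_pos (Finset.mem_range.2 hj)]
  have hbm : ∀ j, ∃ B : ℝ, Bm B R1 (m j) := by
    intro j
    rw [hm]
    exact mc_bm hr mZ mθ h1 hsup N _
  choose B hB using hbm
  have hinv : ∀ j x, m j (gg a b x) * ph (dg a b x) = m j x := by
    intro j x
    rw [hm]
    exact mc_inv hθ hZ N _ x
  have hpol : ∀ j, ∃ p : Polynomial ℂ, p.natDegree ≤ 2 * d ∧
      ∀ z, b.eval z ^ 2 * Ct (m j) (gg a b z) - (ww a b).eval z * Ct (m j) z = p.eval z :=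
    fun j => pol_eq hcop hw (hB j) (hinv j) ha hb
  choose p hp1 hp2 using hpol
  have hdep : ¬ LinearIndependent ℂ (fun j : Fin N => (fun i : Fin (2 * d + 1) => (p j).coeff i)) := by
    intro hli
    have h2 := hli.fintype_card_le_finrank
    rw [Fintype.card_fin, Module.finrank_fin_fun] at h2
    omega
  rw [Fintype.not_linearIndependent_iff] at hdep
  obtain ⟨g, hg, i0, hi0⟩ := hdep
  have hgz : ∀ z, ∑ j : Fin N, g j * (p j).eval z = 0 := by
    intro z
    have h2 : ∀ j : Fin N, g j * (p j).eval z = ∑ i : Fin (2 * d + 1), g j * (p j).coeff i * z ^ (i : ℕ) := by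
      intro j
      rw [Polynomial.eval_eq_sum_range' (Nat.lt_succ_of_le (hp1 j)), Finset.mul_sum, Finset.sum_range]
      refine Finset.sum_congr rfl fun i _ => ?_
      ring
    rw [Finset.sum_congr rfl fun j _ => h2 j, Finset.sum_comm]
    refine Finset.sum_eq_zero fun i _ => ?_
    rw [← Finset.sum_mul]
    have h3 := congrFun hg i
    rw [Finset.sum_apply] at h3
    simp only [Pi.smul_apply, smul_eq_mul, Pi.zero_apply] at h3
    rw [h3, zero_mul]
  obtain ⟨c, hc⟩ : ∃ c : ℕ → ℂ, c = fun j => if h : j < N then g ⟨j, h⟩ else 0 := ⟨_, rfl⟩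
  have hcg : ∀ j : Fin N, c j = g j := by
    intro j
    rw [hc]
    simp only [j.2, dif_pos]
  refine ⟨c, ⟨i0, i0.2, ?_⟩, ?_⟩
  · rw [hcg]
    exact hi0
  · have hmc : mc y N c Z θ = fun x => ∑ j ∈ Finset.range N, c j * m j x := by
      funext x
      unfold mc
      refine Finset.sum_congr rfl fun j hj => ?_
      rw [hmj j (Finset.mem_range.1 hj)]
    obtain ⟨B', hB'⟩ : ∃ B' : ℝ, B' = ∑ j ∈ Finset.range N, |B j| := ⟨_, rfl⟩
    have hBm : ∀ j < N, Bm B' R1 (m j) := by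
      intro j hj
      refine ⟨(hB j).meas, fun z => ((hB j).bd z).trans ?_, (hB j).supp⟩
      rw [hB']
      exact (le_abs_self _).trans (Finset.single_le_sum (f := fun j => |B j|)
        (fun i _ => abs_nonneg _) (Finset.mem_range.2 hj))
    intro z
    rw [hmc, ctb_sum hBm c, ctb_sum hBm c, ← sub_eq_zero, Finset.mul_sum, Finset.mul_sum,
      ← Finset.sum_sub_distrib]
    have h2 : ∀ j ∈ Finset.range N, b.eval z ^ 2 * (c j * Ct (m j) (gg a b z)) -
        (ww a b).eval z * (c j * Ct (m j) z) = c j * (p j).eval z := by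
      intro j _
      rw [← hp2 j z]
      ring
    rw [Finset.sum_congr rfl h2, Finset.sum_range]
    rw [← hgz z]
    refine Finset.sum_congr rfl fun j _ => ?_
    rw [hcg]

end Pool.Agent.H76.SU
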