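import Pool.Agent.H76.SU.HUL

/-!
# Module LOG: a continuous logarithm on a compact set

PROOF. Let `p ∉ hull A`: `p ∉ A` and the component `Y` of `p` in `Aᶜ` is unbounded, preconnected and open. Let `T` be the set of `q ∈ Aᶜ` for which there is a function `l`, continuous on `A`, with `exp (l w) = w - q` for `w ∈ A`. LOCALLY CONSTANT: for `q ∈ Aᶜ` let `δ = dist (q, A) > 0` (`A` closed; if `A` is empty everything is trivial); for `‖q' - q‖ < δ / 2` and `w ∈ A`:
`(w - q') / (w - q) = 1 - (q' - q) / (w - q)` is in `ball 1 (1/2)`, in the slit plane, so `Complex.log ((w - q') / (w - q))` is continuous on `A`: adding it to a logarithm of `w - q` gives one of `w - q'`. So if `q ∈ T` then `q' ∈ T` for `q'` near `q`, and conversely (the same estimate: `q' ∈ T` implies `q ∈ T`). `T` and its complement in `Aᶜ` are open.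
FAR: `A ⊆ closedBall 0 M`; `Y` is unbounded, so there is `q ∈ Y` with `‖q‖ > M`: `w - q = - q (1 - w / q)`, `1 - w / q ∈ ball 1 1` is in the slit plane: `l w = log (-q) + log (1 - w / q)`. So `q ∈ T`. `Y` is preconnected: `Y ⊆ T` (`IsPreconnected.subset_left_of_subset_union`), so `p ∈ T`.
-/

set_option autoImplicit false

open Filter Topology Polynomial Metric Set MeasureTheory
open scoped ContDiff

namespace Pool.Agent.H76.SU

open Pool.Agent.H61.TT H73.BR

private theorem slit_one_sub {u : ℂ} (h : ‖u‖ < 1) : 1 - u ∈ Complex.slitPlane := by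
  rw [Complex.mem_slitPlane_iff]
  left
  rw [Complex.sub_re, Complex.one_re]
  have := Complex.re_le_norm u
  linarith

private theorem log_step {A : Set ℂ} {q q' : ℂ} (hq : ∀ w ∈ A, ‖q' - q‖ < ‖w - q‖)
    (h : ∃ l : ℂ → ℂ, ContinuousOn l A ∧ ∀ w ∈ A, Complex.exp (l w) = w - q) :
    ∃ l : ℂ → ℂ, ContinuousOn l A ∧ ∀ w ∈ A, Complex.exp (l w) = w - q' := by
  obtain ⟨l, hl, he⟩ := h
  have hne : ∀ w ∈ A, w - q ≠ 0 := fun w hw h0 => by
    have := hq w hw
    rw [h0, norm_zero] at this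
    exact absurd this (not_lt.2 (norm_nonneg _))
  have hs : ∀ w ∈ A, 1 - (q' - q) / (w - q) ∈ Complex.slitPlane := fun w hw => by
    apply slit_one_sub
    rw [norm_div, div_lt_one (norm_pos_iff.2 (hne w hw))]
    exact hq w hw
  refine ⟨fun w => l w + Complex.log (1 - (q' - q) / (w - q)), hl.add ?_, fun w hw => ?_⟩
  · refine ContinuousOn.clog ?_ hs
    exact continuousOn_const.sub
      (continuousOn_const.div (continuousOn_id.sub continuousOn_const) hne)
  · rw [Complex.exp_add, he w hw, Complex.exp_log (Complex.slitPlane_ne_zero (hs w hw))]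
    have := hne w hw
    field_simp
    ring

private theorem log_far {A : Set ℂ} {q : ℂ} (hq0 : q ≠ 0) (hq : ∀ w ∈ A, ‖w‖ < ‖q‖) :
    ∃ l : ℂ → ℂ, ContinuousOn l A ∧ ∀ w ∈ A, Complex.exp (l w) = w - q := by
  have hs : ∀ w ∈ A, 1 - w / q ∈ Complex.slitPlane := fun w hw => by
    apply slit_one_sub
    rw [norm_div, div_lt_one (norm_pos_iff.2 hq0)]
    exact hq w hw
  refine ⟨fun w => Complex.log (-q) + Complex.log (1 - w / q), continuousOn_const.add ?_,
    fun w hw => ?_⟩
  · exact ContinuousOn.clog (continuousOn_const.sub (continuousOn_id.div_const _)) hs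
  · rw [Complex.exp_add, Complex.exp_log (neg_ne_zero.2 hq0),
      Complex.exp_log (Complex.slitPlane_ne_zero (hs w hw))]
    field_simp
    ring

theorem log_ex {A : Set ℂ} (hA : IsCompact A) {p : ℂ} (hp : p ∉ hull A) :
    ∃ l : ℂ → ℂ, ContinuousOn l A ∧ ∀ w ∈ A, Complex.exp (l w) = w - p := by
  have hpA : p ∈ Aᶜ := fun h => hp (hul_sub A h)
  set T : ℂ → Prop := fun q => ∃ l : ℂ → ℂ, ContinuousOn l A ∧ ∀ w ∈ A, Complex.exp (l w) = w - q
    with hT
  have hloc : ∀ q ∈ Aᶜ, ∃ δ : ℝ, 0 < δ ∧ ∀ q' ∈ ball q δ, q' ∈ Aᶜ ∧ (T q ↔ T q') := by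
    intro q hq
    obtain ⟨δ, hδ, hb⟩ := Metric.isOpen_iff.1 hA.isClosed.isOpen_compl q hq
    have hd : ∀ w ∈ A, δ ≤ ‖w - q‖ := fun w hw => by
      by_contra hc
      push Not at hc
      exact hb (mem_ball_iff_norm.2 hc) hw
    refine ⟨δ / 2, by linarith, fun q' hq' => ⟨hb (ball_subset_ball (by linarith) hq'), ?_⟩⟩
    rw [mem_ball_iff_norm] at hq'
    constructor
    · intro h
      exact log_step (fun w hw => by linarith [hd w hw]) h
    · intro h
      refine log_step (fun w hw => ?_) h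
      rw [norm_sub_rev q q']
      have h1 : ‖w - q‖ ≤ ‖w - q'‖ + ‖q' - q‖ := by
        calc ‖w - q‖ = ‖(w - q') + (q' - q)‖ := by ring_nf
          _ ≤ _ := norm_add_le _ _
      linarith [hd w hw]
  have ho1 : IsOpen {q | q ∈ Aᶜ ∧ T q} := by
    rw [Metric.isOpen_iff]
    rintro q ⟨hq, hTq⟩
    obtain ⟨δ, hδ, h⟩ := hloc q hq
    exact ⟨δ, hδ, fun q' hq' => ⟨(h q' hq').1, (h q' hq').2.1 hTq⟩⟩
  have ho2 : IsOpen {q | q ∈ Aᶜ ∧ ¬ T q} := by
    rw [Metric.isOpen_iff]
    rintro q ⟨hq, hTq⟩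
    obtain ⟨δ, hδ, h⟩ := hloc q hq
    exact ⟨δ, hδ, fun q' hq' => ⟨(h q' hq').1, fun hc => hTq ((h q' hq').2.2 hc)⟩⟩
  have hY : ¬ Bornology.IsBounded (connectedComponentIn Aᶜ p) := hp
  obtain ⟨M, hM⟩ := hA.isBounded.subset_closedBall (0 : ℂ)
  obtain ⟨q, hqY, hqM⟩ : ∃ q ∈ connectedComponentIn Aᶜ p, max M 0 < ‖q‖ := by
    by_contra hc
    push Not at hc
    apply hY
    refine (Metric.isBounded_closedBall (x := (0 : ℂ)) (r := max M 0)).subset fun q hq => ?_
    rw [mem_closedBall_zero_iff]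
    exact hc q hq
  have hTq : T q := by
    apply log_far
    · intro h0
      rw [h0, norm_zero] at hqM
      exact absurd hqM (not_lt.2 (le_max_right _ _))
    · intro w hw
      have := hM hw
      rw [mem_closedBall_zero_iff] at this
      exact (this.trans (le_max_left _ _)).trans_lt hqM
  have hsub : connectedComponentIn Aᶜ p ⊆ {q | q ∈ Aᶜ ∧ T q} := by
    refine IsPreconnected.subset_left_of_subset_union ho1 ho2 ?_ ?_ ?_
      isPreconnected_connectedComponentIn
    · rw [Set.disjoint_left]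
      rintro x ⟨_, h1⟩ ⟨_, h2⟩
      exact h2 h1
    · intro x hx
      have hxA : x ∈ Aᶜ := connectedComponentIn_subset _ _ hx
      by_cases h : T x
      · exact Or.inl ⟨hxA, h⟩
      · exact Or.inr ⟨hxA, h⟩
    · exact ⟨q, hqY, connectedComponentIn_subset _ _ hqY, hTq⟩
  exact (hsub (mem_connectedComponentIn hpA)).2

end Pool.Agent.H76.SU
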