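import Pool.Agent.H76.SU.CTB

/-!
# Module MOD: bounds of normalised Cauchy transforms which do not depend on the support

PROOFS. Put `E z = Ct m z - ((1 - z / s) * Ct m 0 + z / s * Ct m s)`. By `ctb_eq`: `E z = (1/π) ∫ m ξ * k z ξ dξ` with `k z ξ = 1 / (z - ξ) + (1 - z / s) / ξ - (z / s) / (s - ξ)`, and for `ξ ≠ 0, s, z`: `k z ξ = z (s - z) / (ξ (z - ξ) (s - ξ))`. Let `Q = 2 * (ρ + ‖s‖ + 1)`. Split the integral at `‖ξ‖ = Q`.
For `‖ξ‖ > Q`, `‖z‖ ≤ ρ`: `‖z - ξ‖ ≥ ‖ξ‖ / 2`, `‖s - ξ‖ ≥ ‖ξ‖ / 2`, so `‖k z ξ‖ ≤ 4 ρ (ρ + ‖s‖) / ‖ξ‖ ^ 3`, integrable over `‖ξ‖ > Q` (polar coordinates or layers, or `integrable_one_add_norm`: `1 / ‖ξ‖ ^ 3 ≤ 8 (1 + ‖ξ‖) ^ (-3)`). For `‖ξ‖ ≤ Q`: the three terms separately, `∫_(‖ξ‖ ≤ Q) 1 / ‖z - ξ‖ ≤ C`.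
(In fact apply `ctb_bd` and `ctb_hol` to `m` restricted to `closedBall 0 Q`, `Bm B Q`; but their constants depend on `m`: state and prove here, or in CTB, the uniform versions: the constant is `B * C(Q)`; see the proof of `ctb_hol`.) Difference: for `‖ξ‖ > Q`, `‖z‖, ‖z'‖ ≤ ρ`: `k z ξ - k z' ξ` is `(z - z') * (polynomial in z, z', s, ξ) / (...)`; simpler:
`∂ k / ∂ z` is bounded by `C / ‖ξ‖ ^ 3` for `‖z‖ ≤ ρ` (`k z ξ = (1 / (ξ (s - ξ))) * (z (s - z) / (z - ξ))` and the derivative of `z (s - z) / (z - ξ)` is `(s - 2 z) / (z - ξ) - z (s - z) / (z - ξ) ^ 2`), mean value inequality on the convex ball, and `‖z - z'‖ ≤ √(2 ρ) √‖z - z'‖`. For `‖ξ‖ ≤ Q`: `1 / (z - ξ) - 1 / (z' - ξ)` as in `ctb_hol`, and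
`(z - z') / s * (1 / ξ + 1 / (s - ξ))`.
-/

set_option autoImplicit false

open Filter Topology Polynomial Metric Set MeasureTheory
open scoped ContDiff

namespace Pool.Agent.H76.SU

open Pool.Agent.H61.TT H73.BR

private theorem bm_B {B R : ℝ} {m : ℂ → ℂ} (hm : Bm B R m) : 0 ≤ B :=
  (norm_nonneg _).trans (hm.bd 0)

/-- the kernel `‖w‖^(-3/2)` -/
private noncomputable def k3 (w : ℂ) : ℝ := (√‖w‖)⁻¹ ^ 3

private theorem k3_nn (w : ℂ) : 0 ≤ k3 w := pow_nonneg (inv_nonneg.2 (Real.sqrt_nonneg _)) 3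

/-- the kernel cut off at `1` -/
private noncomputable def kc (w : ℂ) : ℝ := (Iic (1 : ℝ)).indicator (fun y => (√y)⁻¹ ^ 3) ‖w‖

private theorem kc_nn (w : ℂ) : 0 ≤ kc w :=
  indicator_nonneg (fun _ _ => pow_nonneg (inv_nonneg.2 (Real.sqrt_nonneg _)) 3) _

private theorem kc_int : Integrable kc := by
  have h := (integrable_fun_norm_addHaar (volume : Measure ℂ)
    (f := (Iic (1 : ℝ)).indicator (fun y => (√y)⁻¹ ^ 3))).2 ?_
  · exact h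
  rw [Complex.finrank_real_complex]
  have h1 : IntegrableOn (fun y : ℝ => y ^ (-(1 / 2) : ℝ)) (Ioc 0 1) := by
    have h2 := intervalIntegral.intervalIntegrable_rpow' (a := 0) (b := 1)
      (show (-1 : ℝ) < -(1 / 2) by norm_num)
    rwa [intervalIntegrable_iff_integrableOn_Ioc_of_le zero_le_one] at h2
  have h2 : IntegrableOn (fun y : ℝ => y ^ (2 - 1) • (Iic (1 : ℝ)).indicator
      (fun y => (√y)⁻¹ ^ 3) y) (Ioc 0 1) := by
    refine h1.congr_fun (fun y hy => ?_) measurableSet_Ioc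
    have hy0 : 0 < y := hy.1
    rw [indicator_of_mem (show y ∈ Iic (1 : ℝ) from hy.2), smul_eq_mul]
    have hs : 0 < √y := Real.sqrt_pos.2 hy0
    have e1 : y ^ (-(1 / 2) : ℝ) = (√y)⁻¹ := by
      rw [Real.rpow_neg hy0.le, ← Real.sqrt_eq_rpow]
    have e2 : y = √y * √y := (Real.mul_self_sqrt hy0.le).symm
    beta_reduce
    rw [e1]
    have e3 : y ^ (2 - 1) = √y * √y := by
      rw [← e2]
      simp
    rw [e3]
    field_simp
  have h3 : (Ioi (0 : ℝ)) = Ioc 0 1 ∪ Ioi 1 := (Ioc_union_Ioi_eq_Ioi zero_le_one).symm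
  rw [h3]
  refine h2.union ?_
  refine (integrableOn_zero).congr_fun (fun y hy => ?_) measurableSet_Ioi
  rw [indicator_of_notMem (show y ∉ Iic (1 : ℝ) from fun h => absurd (mem_Ioi.1 hy) (not_lt.2 (mem_Iic.1 h))), smul_zero]

/-- the cut off bound -/
private theorem k3_le (w : ℂ) : k3 w ≤ kc w + 1 := by
  unfold kc
  by_cases h : ‖w‖ ≤ 1
  · rw [indicator_of_mem (show ‖w‖ ∈ Iic (1 : ℝ) from h)]
    unfold k3
    linarith
  · rw [indicator_of_notMem (show ‖w‖ ∉ Iic (1 : ℝ) from h), zero_add]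
    unfold k3
    have h1 : 1 ≤ √‖w‖ := by
      rw [Real.one_le_sqrt]
      exact (not_le.1 h).le
    exact pow_le_one₀ (inv_nonneg.2 (Real.sqrt_nonneg _)) (inv_le_one_of_one_le₀ h1)

private noncomputable def cb (R : ℝ) (w : ℂ) : ℝ := (closedBall (0 : ℂ) R).indicator (fun _ => 1) w

private theorem cb_nn (R : ℝ) (w : ℂ) : 0 ≤ cb R w := indicator_nonneg (fun _ _ => zero_le_one) _

private theorem cb_le (R : ℝ) (w : ℂ) : cb R w ≤ 1 := by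
  unfold cb
  exact indicator_le_self' (fun _ _ => zero_le_one) w

private theorem cb_int (R : ℝ) : Integrable (cb R) := by
  unfold cb
  rw [integrable_indicator_iff isClosed_closedBall.measurableSet]
  exact continuous_const.locallyIntegrable.integrableOn_isCompact (isCompact_closedBall (0 : ℂ) R)

private theorem m_le {B R : ℝ} {m : ℂ → ℂ} (hm : Bm B R m) (w : ℂ) : ‖m w‖ ≤ B * cb R w := by
  unfold cb
  by_cases hw : ‖w‖ ≤ R
  · rw [indicator_of_mem (show w ∈ closedBall (0 : ℂ) R from mem_closedBall_zero_iff.2 hw), mul_one]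
    exact hm.bd w
  · rw [hm.supp _ (not_le.1 hw), norm_zero]
    exact mul_nonneg (bm_B hm) (indicator_nonneg (fun _ _ => zero_le_one) _)

/-- the uniform constant -/
private noncomputable def CR (R : ℝ) : ℝ := (∫ w, kc w) + ∫ w, cb R w

private theorem CR_nn (R : ℝ) : 0 ≤ CR R :=
  add_nonneg (integral_nonneg kc_nn) (integral_nonneg (cb_nn R))

private theorem dom_int (R : ℝ) (z : ℂ) : Integrable fun w => kc (z - w) + cb R w :=
  (kc_int.comp_sub_left z).add (cb_int R)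

private theorem dom_eq (R : ℝ) (z : ℂ) : ∫ w, (kc (z - w) + cb R w) = CR R := by
  rw [integral_add (kc_int.comp_sub_left z) (cb_int R), integral_sub_left_eq_self kc volume z]
  rfl

private theorem cb_k3 (R : ℝ) (z w : ℂ) : cb R w * k3 (z - w) ≤ kc (z - w) + cb R w := by
  have h1 := mul_le_mul_of_nonneg_left (k3_le (z - w)) (cb_nn R w)
  have h2 := mul_le_mul_of_nonneg_right (cb_le R w) (kc_nn (z - w))
  rw [mul_add, mul_one] at h1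
  linarith

/-- the algebraic inequality -/
private theorem alg (x y e : ℝ) (hx : 0 < x) (hy : 0 < y) (he : 0 ≤ e) (h : e ≤ x + y) :
    e ^ 2 / (x ^ 2 * y ^ 2) ≤ 2 * e * (x⁻¹ ^ 3 + y⁻¹ ^ 3) := by
  have h1 : 2 * e * (x⁻¹ ^ 3 + y⁻¹ ^ 3) = e * (2 * (x ^ 3 + y ^ 3)) / (x ^ 3 * y ^ 3) := by
    field_simp
    ring
  have h2 : e ^ 2 / (x ^ 2 * y ^ 2) = e * (e * (x * y)) / (x ^ 3 * y ^ 3) := by
    field_simp
  rw [h1, h2]
  refine div_le_div_of_nonneg_right (mul_le_mul_of_nonneg_left ?_ he) (by positivity)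
  have h3 : e * (x * y) ≤ (x + y) * (x * y) := mul_le_mul_of_nonneg_right h (by positivity)
  refine h3.trans ?_
  have h4 : 2 * (x ^ 3 + y ^ 3) - (x + y) * (x * y) = (x + y) * (2 * (x - y) ^ 2 + x * y) := by
    ring
  have h5 : 0 ≤ (x + y) * (2 * (x - y) ^ 2 + x * y) := by positivity
  linarith

private theorem ker_dif (u v : ℂ) : ‖u⁻¹ - v⁻¹‖ ≤ 2 * √‖u - v‖ * (k3 u + k3 v) := by
  have hR : 0 ≤ 2 * √‖u - v‖ * (k3 u + k3 v) := by
    have h1 := k3_nn u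
    have h2 := k3_nn v
    positivity
  have zz : ∀ v : ℂ, v ≠ 0 → ‖v⁻¹‖ ≤ 2 * √‖v‖ * k3 v := by
    intro v hv
    have hv0 : 0 < ‖v‖ := norm_pos_iff.2 hv
    have hs : 0 < √‖v‖ := Real.sqrt_pos.2 hv0
    have e : √‖v‖ * √‖v‖ = ‖v‖ := Real.mul_self_sqrt hv0.le
    unfold k3
    rw [norm_inv]
    have key : ∀ s n : ℝ, 0 < s → s * s = n → 2 * s * s⁻¹ ^ 3 = 2 * n⁻¹ := by
      intro s n hs hn
      rw [← hn]
      field_simp
    rw [key _ _ hs e]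
    have : 0 < ‖v‖⁻¹ := inv_pos.2 hv0
    linarith
  have k0 : k3 0 = 0 := by
    unfold k3
    simp
  by_cases hu : u = 0
  · subst hu
    by_cases hv : v = 0
    · subst hv
      simp only [sub_self, norm_zero]
      simp
    · rw [inv_zero, zero_sub, norm_neg, zero_sub, norm_neg, k0, zero_add]
      exact zz v hv
  by_cases hv : v = 0
  · subst hv
    rw [inv_zero, sub_zero, sub_zero, k0, add_zero]
    exact zz u hu
  have hu0 : 0 < ‖u‖ := norm_pos_iff.2 hu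
  have hv0 : 0 < ‖v‖ := norm_pos_iff.2 hv
  have e1 : u⁻¹ - v⁻¹ = (v - u) / (u * v) := by
    field_simp
  rw [e1, norm_div, norm_mul, norm_sub_rev v u]
  have h1 := alg (√‖u‖) (√‖v‖) (√‖u - v‖) (Real.sqrt_pos.2 hu0) (Real.sqrt_pos.2 hv0)
    (Real.sqrt_nonneg _) (by
      have h2 : √‖u - v‖ ≤ √(‖u‖ + ‖v‖) := Real.sqrt_le_sqrt (norm_sub_le u v)
      refine h2.trans (Real.sqrt_le_iff.2 ⟨by positivity, ?_⟩)
      have h3 := Real.sq_sqrt hu0.le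
      have h4 := Real.sq_sqrt hv0.le
      have h5 : 0 ≤ √‖u‖ * √‖v‖ := by positivity
      have h6 : (√‖u‖ + √‖v‖) ^ 2 = √‖u‖ ^ 2 + √‖v‖ ^ 2 + 2 * (√‖u‖ * √‖v‖) := by ring
      rw [h6, h3, h4]
      linarith)
  rw [Real.sq_sqrt hu0.le, Real.sq_sqrt hv0.le, Real.sq_sqrt (norm_nonneg _)] at h1
  exact h1

private theorem ker_bd (u : ℂ) : ‖u⁻¹‖ ≤ 1 + k3 u := by
  by_cases hu : u = 0
  · subst hu
    rw [inv_zero, norm_zero]
    have := k3_nn 0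
    linarith
  have hu0 : 0 < ‖u‖ := norm_pos_iff.2 hu
  have hs : 0 < √‖u‖ := Real.sqrt_pos.2 hu0
  have e : √‖u‖ * √‖u‖ = ‖u‖ := Real.mul_self_sqrt hu0.le
  rw [norm_inv]
  unfold k3
  rw [← e, Real.sqrt_mul_self hs.le]
  have hi : 0 < (√‖u‖)⁻¹ := inv_pos.2 hs
  rw [mul_inv]
  obtain ⟨x, hx⟩ : ∃ x, x = (√‖u‖)⁻¹ := ⟨_, rfl⟩
  rw [← hx] at hi ⊢
  rcases le_total x 1 with h | h
  · have h1 : x * x ≤ 1 := mul_le_one₀ h hi.le h
    have h2 : 0 ≤ x ^ 3 := by positivity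
    linarith
  · have h1 : x * x * 1 ≤ x * x * x := mul_le_mul_of_nonneg_left h (by positivity)
    have h2 : x ^ 3 = x * x * x := by ring
    rw [h2]
    linarith

private theorem pi_norm : ‖(1 / (Real.pi : ℂ))‖ ≤ 1 := by
  rw [norm_div, norm_one, Complex.norm_real, Real.norm_of_nonneg Real.pi_pos.le]
  rw [div_le_one Real.pi_pos]
  linarith [Real.pi_gt_three]

/-- uniform version of the bounds of `CTB` -/
theorem mod_ctb (Q : ℝ) : ∃ C : ℝ, 0 ≤ C ∧ ∀ (B : ℝ) (m : ℂ → ℂ), Bm B Q m → ∀ z z' : ℂ,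
    ‖Ct m z‖ ≤ C * B ∧ ‖Ct m z - Ct m z'‖ ≤ C * B * √‖z - z'‖ := by
  have hc0 : 0 ≤ ∫ w, cb Q w := integral_nonneg (cb_nn Q)
  have hCR := CR_nn Q
  refine ⟨2 * (CR Q + CR Q) + ((∫ w, cb Q w) + CR Q), by positivity, ?_⟩
  intro B m hm z z'
  have hB := bm_B hm
  constructor
  · rw [(ctb_eq hm z).2, norm_mul]
    have h1 : ‖∫ w : ℂ, m w / (z - w)‖ ≤
        ∫ w, B * (cb Q w + (kc (z - w) + cb Q w)) := by
      refine norm_integral_le_of_norm_le (((cb_int Q).add (dom_int Q z)).const_mul _)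
        (Filter.Eventually.of_forall fun w => ?_)
      rw [div_eq_mul_inv, norm_mul]
      have h3 := mul_le_mul (m_le hm w) (ker_bd (z - w)) (norm_nonneg _) (mul_nonneg hB (cb_nn Q w))
      refine h3.trans ?_
      have h4 := cb_k3 Q z w
      have h6 : B * cb Q w * (1 + k3 (z - w)) = B * (cb Q w + cb Q w * k3 (z - w)) := by ring
      rw [h6]
      exact mul_le_mul_of_nonneg_left (add_le_add le_rfl h4) hB
    rw [integral_const_mul, integral_add (cb_int Q) (dom_int Q z), dom_eq] at h1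
    have h2 : 0 ≤ B * (2 * (CR Q + CR Q)) := by positivity
    calc ‖(1 / (Real.pi : ℂ))‖ * ‖∫ w : ℂ, m w / (z - w)‖
        ≤ 1 * ‖∫ w : ℂ, m w / (z - w)‖ :=
          mul_le_mul_of_nonneg_right pi_norm (norm_nonneg _)
      _ ≤ B * ((∫ w, cb Q w) + CR Q) := by rw [one_mul]; exact h1
      _ ≤ (2 * (CR Q + CR Q) + ((∫ w, cb Q w) + CR Q)) * B := by
          rw [add_mul, mul_comm _ B, mul_comm _ B]
          linarith
  · obtain ⟨hi1, he1⟩ := ctb_eq hm z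
    obtain ⟨hi2, he2⟩ := ctb_eq hm z'
    rw [he1, he2, ← mul_sub, norm_mul, ← integral_sub hi1 hi2]
    have h1 : ‖∫ w : ℂ, (m w / (z - w) - m w / (z' - w))‖ ≤
        ∫ w, B * 2 * √‖z - z'‖ * ((kc (z - w) + cb Q w) + (kc (z' - w) + cb Q w)) := by
      refine norm_integral_le_of_norm_le (((dom_int Q z).add (dom_int Q z')).const_mul _)
        (Filter.Eventually.of_forall fun w => ?_)
      have e1 : m w / (z - w) - m w / (z' - w) = m w * ((z - w)⁻¹ - (z' - w)⁻¹) := by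
        rw [div_eq_mul_inv, div_eq_mul_inv, mul_sub]
      rw [e1, norm_mul]
      have h2 := ker_dif (z - w) (z' - w)
      rw [sub_sub_sub_cancel_right] at h2
      have h3 := mul_le_mul (m_le hm w) h2 (norm_nonneg _) (mul_nonneg hB (cb_nn Q w))
      refine h3.trans ?_
      have h4 := cb_k3 Q z w
      have h5 := cb_k3 Q z' w
      have h6 : B * cb Q w * (2 * √‖z - z'‖ * (k3 (z - w) + k3 (z' - w))) =
          B * 2 * √‖z - z'‖ * (cb Q w * k3 (z - w) + cb Q w * k3 (z' - w)) := by ring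
      rw [h6]
      exact mul_le_mul_of_nonneg_left (add_le_add h4 h5) (by positivity)
    rw [integral_const_mul, integral_add (dom_int Q z) (dom_int Q z'), dom_eq, dom_eq] at h1
    have h2 : 0 ≤ B * ((∫ w, cb Q w) + CR Q) * √‖z - z'‖ := by positivity
    calc ‖(1 / (Real.pi : ℂ))‖ * ‖∫ w : ℂ, (m w / (z - w) - m w / (z' - w))‖
        ≤ 1 * ‖∫ w : ℂ, (m w / (z - w) - m w / (z' - w))‖ :=
          mul_le_mul_of_nonneg_right pi_norm (norm_nonneg _)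
      _ ≤ B * 2 * √‖z - z'‖ * (CR Q + CR Q) := by rw [one_mul]; exact h1
      _ ≤ B * 2 * √‖z - z'‖ * (CR Q + CR Q) + B * ((∫ w, cb Q w) + CR Q) * √‖z - z'‖ := by linarith
      _ = (2 * (CR Q + CR Q) + ((∫ w, cb Q w) + CR Q)) * B * √‖z - z'‖ := by ring

/-- the normalised transform -/
private noncomputable def EE (s : ℂ) (m : ℂ → ℂ) (z : ℂ) : ℂ :=
  Ct m z - ((1 - z / s) * Ct m 0 + z / s * Ct m s)

/-- the normalised integrand -/
private noncomputable def FF (s : ℂ) (m : ℂ → ℂ) (z w : ℂ) : ℂ :=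
  m w / (z - w) - ((1 - z / s) * (m w / (0 - w)) + z / s * (m w / (s - w)))

private theorem ff_int {B R : ℝ} {m : ℂ → ℂ} (hm : Bm B R m) (s z : ℂ) : Integrable (FF s m z) :=
  (ctb_eq hm z).1.sub (((ctb_eq hm 0).1.const_mul _).add ((ctb_eq hm s).1.const_mul _))

private theorem ee_eq {B R : ℝ} {m : ℂ → ℂ} (hm : Bm B R m) (s z : ℂ) :
    EE s m z = (1 / (Real.pi : ℂ)) * ∫ w : ℂ, FF s m z w := by
  obtain ⟨h1, h2⟩ := ctb_eq hm z
  obtain ⟨h3, h4⟩ := ctb_eq hm 0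
  obtain ⟨h5, h6⟩ := ctb_eq hm s
  have h7 : Integrable (fun w => (1 - z / s) * (m w / (0 - w)) + z / s * (m w / (s - w))) :=
    (h3.const_mul _).add (h5.const_mul _)
  unfold EE FF
  rw [integral_sub h1 h7, integral_add (h3.const_mul _) (h5.const_mul _),
    integral_const_mul, integral_const_mul, h2, h4, h6]
  ring

private theorem ff_eq {s z w μ : ℂ} (hs : s ≠ 0) (h1 : w ≠ 0) (h2 : z - w ≠ 0) (h3 : s - w ≠ 0) :
    μ / (z - w) - ((1 - z / s) * (μ / (0 - w)) + z / s * (μ / (s - w))) =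
      μ * (z * (s - z) / (w * (z - w) * (s - w))) := by
  rw [zero_sub]
  field_simp
  ring

private theorem ff_far {ρ : ℝ} {s z z' w : ℂ} (hz : ‖z‖ ≤ ρ) (hz' : ‖z'‖ ≤ ρ)
    (hw : 2 * (ρ + ‖s‖ + 1) < ‖w‖) :
    ‖z * (s - z) / (w * (z - w) * (s - w))‖ ≤ 32 * (ρ * (ρ + ‖s‖)) * (1 + ‖w‖) ^ (-(3 : ℝ)) ∧
    ‖z * (s - z) / (w * (z - w) * (s - w)) - z' * (s - z') / (w * (z' - w) * (s - w))‖ ≤
      64 * (ρ ^ 2 + ‖s‖ + 2 * ρ) * ‖z - z'‖ * (1 + ‖w‖) ^ (-(3 : ℝ)) := by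
  have hρ : 0 ≤ ρ := (norm_nonneg z).trans hz
  have hs0 := norm_nonneg s
  have hw1 : 1 < ‖w‖ := by linarith
  have hw0 : 0 < ‖w‖ := by linarith
  have hzw : ‖w‖ / 2 ≤ ‖z - w‖ := by
    have h := norm_sub_norm_le w z
    rw [norm_sub_rev] at h
    linarith
  have hzw' : ‖w‖ / 2 ≤ ‖z' - w‖ := by
    have h := norm_sub_norm_le w z'
    rw [norm_sub_rev] at h
    linarith
  have hsw : ‖w‖ / 2 ≤ ‖s - w‖ := by
    have h := norm_sub_norm_le w s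
    rw [norm_sub_rev] at h
    linarith
  have hinv : (‖w‖ ^ 3)⁻¹ ≤ 8 * (1 + ‖w‖) ^ (-(3 : ℝ)) := by
    rw [Real.rpow_neg (by positivity), show (3 : ℝ) = ((3 : ℕ) : ℝ) by norm_num, Real.rpow_natCast]
    rw [← div_eq_mul_inv, le_div_iff₀ (by positivity), ← div_eq_inv_mul, div_le_iff₀ (by positivity)]
    have h : (1 + ‖w‖) ^ 3 ≤ (2 * ‖w‖) ^ 3 := pow_le_pow_left₀ (by positivity) (by linarith) 3
    rw [mul_pow] at h
    norm_num at h
    exact h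
  have hw3 : 0 < ‖w‖ ^ 3 := by positivity
  have hneg : 0 ≤ (1 + ‖w‖) ^ (-(3 : ℝ)) := by positivity
  constructor
  · rw [norm_div, norm_mul, norm_mul, norm_mul]
    have h1 : ‖z‖ * ‖s - z‖ ≤ ρ * (ρ + ‖s‖) := by
      have h2 : ‖s - z‖ ≤ ρ + ‖s‖ := (norm_sub_le s z).trans (by linarith)
      exact mul_le_mul hz h2 (norm_nonneg _) hρ
    have h2 : ‖w‖ ^ 3 / 4 ≤ ‖w‖ * ‖z - w‖ * ‖s - w‖ := by
      calc ‖w‖ ^ 3 / 4 = ‖w‖ * (‖w‖ / 2) * (‖w‖ / 2) := by ring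
        _ ≤ ‖w‖ * ‖z - w‖ * ‖s - w‖ := by gcongr
    calc ‖z‖ * ‖s - z‖ / (‖w‖ * ‖z - w‖ * ‖s - w‖) ≤ ρ * (ρ + ‖s‖) / (‖w‖ ^ 3 / 4) :=
          div_le_div₀ (by positivity) h1 (by positivity) h2
      _ = 4 * (ρ * (ρ + ‖s‖)) * (‖w‖ ^ 3)⁻¹ := by
          rw [div_div_eq_mul_div, div_eq_mul_inv]
          ring
      _ ≤ 4 * (ρ * (ρ + ‖s‖)) * (8 * (1 + ‖w‖) ^ (-(3 : ℝ))) := mul_le_mul_of_nonneg_left hinv (by positivity)
      _ = _ := by ring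
  · have hne : ∀ x : ℂ, ‖w‖ / 2 ≤ ‖x‖ → x ≠ 0 := by
      intro x hx h0
      rw [h0, norm_zero] at hx
      linarith
    have n1 : w ≠ 0 := norm_pos_iff.1 hw0
    have n2 := hne _ hzw
    have n3 := hne _ hzw'
    have n4 := hne _ hsw
    have e1 : z * (s - z) / (w * (z - w) * (s - w)) - z' * (s - z') / (w * (z' - w) * (s - w)) =
        (z - z') * (-(z * z') - s * w + w * (z + z')) / (w * (z - w) * (z' - w) * (s - w)) := by
      field_simp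
      ring
    rw [e1, norm_div, norm_mul, norm_mul, norm_mul, norm_mul]
    have h1 : ‖-(z * z') - s * w + w * (z + z')‖ ≤ (ρ ^ 2 + ‖s‖ + 2 * ρ) * ‖w‖ := by
      have h2 : ‖-(z * z') - s * w + w * (z + z')‖ ≤ ‖z‖ * ‖z'‖ + ‖s‖ * ‖w‖ + ‖w‖ * (‖z‖ + ‖z'‖) := by
        calc ‖-(z * z') - s * w + w * (z + z')‖ ≤ ‖-(z * z') - s * w‖ + ‖w * (z + z')‖ := norm_add_le _ _
          _ ≤ (‖-(z * z')‖ + ‖s * w‖) + ‖w * (z + z')‖ := add_le_add (norm_sub_le _ _) le_rfl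
          _ ≤ ‖z‖ * ‖z'‖ + ‖s‖ * ‖w‖ + ‖w‖ * (‖z‖ + ‖z'‖) := by
              rw [norm_neg, norm_mul, norm_mul, norm_mul]
              have := norm_add_le z z'
              gcongr
      have h3 : ‖z‖ * ‖z'‖ ≤ ρ ^ 2 * ‖w‖ := by
        calc ‖z‖ * ‖z'‖ ≤ ρ * ρ := mul_le_mul hz hz' (norm_nonneg _) hρ
          _ = ρ ^ 2 * 1 := by ring
          _ ≤ ρ ^ 2 * ‖w‖ := mul_le_mul_of_nonneg_left hw1.le (by positivity)
      have h4 : ‖w‖ * (‖z‖ + ‖z'‖) ≤ ‖w‖ * (2 * ρ) := mul_le_mul_of_nonneg_left (by linarith) hw0.le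
      have h5 : (ρ ^ 2 + ‖s‖ + 2 * ρ) * ‖w‖ = ρ ^ 2 * ‖w‖ + ‖s‖ * ‖w‖ + ‖w‖ * (2 * ρ) := by ring
      rw [h5]
      linarith
    have h2 : ‖w‖ ^ 4 / 8 ≤ ‖w‖ * ‖z - w‖ * ‖z' - w‖ * ‖s - w‖ := by
      calc ‖w‖ ^ 4 / 8 = ‖w‖ * (‖w‖ / 2) * (‖w‖ / 2) * (‖w‖ / 2) := by ring
        _ ≤ ‖w‖ * ‖z - w‖ * ‖z' - w‖ * ‖s - w‖ := by gcongr
    calc ‖z - z'‖ * ‖-(z * z') - s * w + w * (z + z')‖ / (‖w‖ * ‖z - w‖ * ‖z' - w‖ * ‖s - w‖)
        ≤ ‖z - z'‖ * ((ρ ^ 2 + ‖s‖ + 2 * ρ) * ‖w‖) / (‖w‖ ^ 4 / 8) :=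
          div_le_div₀ (by positivity) (mul_le_mul_of_nonneg_left h1 (norm_nonneg _)) (by positivity) h2
      _ = 8 * (ρ ^ 2 + ‖s‖ + 2 * ρ) * ‖z - z'‖ * (‖w‖ ^ 3)⁻¹ := by
          field_simp
      _ ≤ 8 * (ρ ^ 2 + ‖s‖ + 2 * ρ) * ‖z - z'‖ * (8 * (1 + ‖w‖) ^ (-(3 : ℝ))) :=
          mul_le_mul_of_nonneg_left hinv (by positivity)
      _ = _ := by ring

private theorem ee_far {s : ℂ} (hs : s ≠ 0) {ρ : ℝ} (hρ : 0 ≤ ρ) {B R : ℝ} {m : ℂ → ℂ} (hm : Bm B R m)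
    (h0 : ∀ w, ‖w‖ ≤ 2 * (ρ + ‖s‖ + 1) → m w = 0) {z z' : ℂ} (hz : ‖z‖ ≤ ρ) (hz' : ‖z'‖ ≤ ρ) :
    ‖EE s m z‖ ≤ 32 * (ρ * (ρ + ‖s‖)) * (∫ w : ℂ, (1 + ‖w‖) ^ (-(3 : ℝ))) * B ∧
    ‖EE s m z - EE s m z'‖ ≤
      64 * (ρ ^ 2 + ‖s‖ + 2 * ρ) * (∫ w : ℂ, (1 + ‖w‖) ^ (-(3 : ℝ))) * B * ‖z - z'‖ := by
  have hB := bm_B hm
  have hint : Integrable (fun w : ℂ => (1 + ‖w‖) ^ (-(3 : ℝ))) := by
    apply integrable_one_add_norm
    rw [Complex.finrank_real_complex]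
    norm_num
  have hneg : ∀ w : ℂ, 0 ≤ (1 + ‖w‖) ^ (-(3 : ℝ)) := fun w => by positivity
  have hs0 := norm_nonneg s
  have hpt : ∀ w : ℂ, ‖FF s m z w‖ ≤ 32 * (ρ * (ρ + ‖s‖)) * B * (1 + ‖w‖) ^ (-(3 : ℝ)) ∧
      ‖FF s m z w - FF s m z' w‖ ≤
        64 * (ρ ^ 2 + ‖s‖ + 2 * ρ) * ‖z - z'‖ * B * (1 + ‖w‖) ^ (-(3 : ℝ)) := by
    intro w
    have hn := hneg w
    rcases le_or_gt ‖w‖ (2 * (ρ + ‖s‖ + 1)) with hw | hw
    · have e1 : ∀ u, FF s m u w = 0 := by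
        intro u
        unfold FF
        rw [h0 w hw]
        simp
      rw [e1, e1, sub_zero, norm_zero]
      constructor <;> positivity
    · obtain ⟨b1, b2⟩ := ff_far hz hz' hw
      have hw0 : 0 < ‖w‖ := by linarith
      have hne : ∀ x : ℂ, ‖x‖ ≤ ρ + ‖s‖ → x - w ≠ 0 := by
        intro x hx hc
        rw [sub_eq_zero] at hc
        rw [hc] at hx
        linarith
      have n1 : w ≠ 0 := norm_pos_iff.1 hw0
      have n2 := hne z (by linarith)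
      have n3 := hne z' (by linarith)
      have n4 := hne s (by linarith)
      unfold FF
      rw [ff_eq hs n1 n2 n4, ff_eq hs n1 n3 n4, ← mul_sub, norm_mul, norm_mul]
      constructor
      · calc ‖m w‖ * ‖z * (s - z) / (w * (z - w) * (s - w))‖
            ≤ B * (32 * (ρ * (ρ + ‖s‖)) * (1 + ‖w‖) ^ (-(3 : ℝ))) :=
              mul_le_mul (hm.bd w) b1 (norm_nonneg _) hB
          _ = _ := by ring
      · calc ‖m w‖ * ‖z * (s - z) / (w * (z - w) * (s - w)) - z' * (s - z') / (w * (z' - w) * (s - w))‖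
            ≤ B * (64 * (ρ ^ 2 + ‖s‖ + 2 * ρ) * ‖z - z'‖ * (1 + ‖w‖) ^ (-(3 : ℝ))) :=
              mul_le_mul (hm.bd w) b2 (norm_nonneg _) hB
          _ = _ := by ring
  constructor
  · rw [ee_eq hm s z, norm_mul]
    have h1 : ‖∫ w : ℂ, FF s m z w‖ ≤ ∫ w : ℂ, 32 * (ρ * (ρ + ‖s‖)) * B * (1 + ‖w‖) ^ (-(3 : ℝ)) :=
      norm_integral_le_of_norm_le (hint.const_mul _) (Filter.Eventually.of_forall fun w => (hpt w).1)
    rw [integral_const_mul] at h1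
    calc ‖(1 / (Real.pi : ℂ))‖ * ‖∫ w : ℂ, FF s m z w‖ ≤ 1 * ‖∫ w : ℂ, FF s m z w‖ :=
          mul_le_mul_of_nonneg_right pi_norm (norm_nonneg _)
      _ ≤ _ := by
          rw [one_mul]
          refine h1.trans (le_of_eq ?_)
          ring
  · rw [ee_eq hm s z, ee_eq hm s z', ← mul_sub, norm_mul, ← integral_sub (ff_int hm s z) (ff_int hm s z')]
    have h1 : ‖∫ w : ℂ, (FF s m z w - FF s m z' w)‖ ≤
        ∫ w : ℂ, 64 * (ρ ^ 2 + ‖s‖ + 2 * ρ) * ‖z - z'‖ * B * (1 + ‖w‖) ^ (-(3 : ℝ)) :=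
      norm_integral_le_of_norm_le (hint.const_mul _) (Filter.Eventually.of_forall fun w => (hpt w).2)
    rw [integral_const_mul] at h1
    calc ‖(1 / (Real.pi : ℂ))‖ * ‖∫ w : ℂ, (FF s m z w - FF s m z' w)‖
        ≤ 1 * ‖∫ w : ℂ, (FF s m z w - FF s m z' w)‖ :=
          mul_le_mul_of_nonneg_right pi_norm (norm_nonneg _)
      _ ≤ _ := by
          rw [one_mul]
          refine h1.trans (le_of_eq ?_)
          ring

theorem mod_main {s : ℂ} (hs : s ≠ 0) (ρ : ℝ) : ∃ C : ℝ, 0 ≤ C ∧ ∀ (B R : ℝ) (m : ℂ → ℂ),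
    Bm B R m → ∀ z z' : ℂ, ‖z‖ ≤ ρ → ‖z'‖ ≤ ρ →
      ‖Ct m z - ((1 - z / s) * Ct m 0 + z / s * Ct m s)‖ ≤ C * B ∧
      ‖(Ct m z - ((1 - z / s) * Ct m 0 + z / s * Ct m s)) -
        (Ct m z' - ((1 - z' / s) * Ct m 0 + z' / s * Ct m s))‖ ≤ C * B * √‖z - z'‖ := by
  rcases lt_or_ge ρ 0 with hneg | hρ
  · refine ⟨0, le_rfl, fun B R m _ z z' hz _ => ?_⟩
    exact absurd (hneg.trans_le' ((norm_nonneg z).trans hz)) (lt_irrefl _)
  obtain ⟨Q, hQ⟩ : ∃ Q : ℝ, Q = 2 * (ρ + ‖s‖ + 1) := ⟨_, rfl⟩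
  obtain ⟨C1, hC1, hmod⟩ := mod_ctb Q
  have hs0 : 0 < ‖s‖ := norm_pos_iff.2 hs
  obtain ⟨I, hI⟩ : ∃ I : ℝ, I = ∫ w : ℂ, (1 + ‖w‖) ^ (-(3 : ℝ)) := ⟨_, rfl⟩
  have hI0 : 0 ≤ I := by
    rw [hI]
    exact integral_nonneg fun w => by positivity
  obtain ⟨K1, hK1⟩ : ∃ K1 : ℝ, K1 = C1 * (2 + 2 * (ρ / ‖s‖)) + 32 * (ρ * (ρ + ‖s‖)) * I := ⟨_, rfl⟩
  obtain ⟨K2, hK2⟩ : ∃ K2 : ℝ, K2 = C1 + (2 * C1 / ‖s‖) * √(2 * ρ) +
      64 * (ρ ^ 2 + ‖s‖ + 2 * ρ) * I * √(2 * ρ) := ⟨_, rfl⟩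
  have hK10 : 0 ≤ K1 := by
    rw [hK1]
    positivity
  have hK20 : 0 ≤ K2 := by
    rw [hK2]
    positivity
  refine ⟨K1 + K2, by positivity, ?_⟩
  intro B R m hm z z' hz hz'
  have hB := bm_B hm
  obtain ⟨m1, hm1d⟩ : ∃ m1 : ℂ → ℂ, m1 = (closedBall (0 : ℂ) Q).indicator m := ⟨_, rfl⟩
  obtain ⟨m2, hm2d⟩ : ∃ m2 : ℂ → ℂ, m2 = ((closedBall (0 : ℂ) Q)ᶜ).indicator m := ⟨_, rfl⟩
  have hm1 : Bm B Q m1 := by
    refine ⟨?_, ?_, ?_⟩
    · rw [hm1d]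
      exact hm.meas.indicator isClosed_closedBall.measurableSet
    · intro w
      rw [hm1d]
      exact (norm_indicator_le_norm_self m w).trans (hm.bd w)
    · intro w hw
      rw [hm1d]
      exact indicator_of_notMem (fun h => absurd (mem_closedBall_zero_iff.1 h) (not_le.2 hw)) _
  have hm2 : Bm B R m2 := by
    refine ⟨?_, ?_, ?_⟩
    · rw [hm2d]
      exact hm.meas.indicator isClosed_closedBall.measurableSet.compl
    · intro w
      rw [hm2d]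
      exact (norm_indicator_le_norm_self m w).trans (hm.bd w)
    · intro w hw
      rw [hm2d]
      have h1 := norm_indicator_le_norm_self (s := (closedBall (0 : ℂ) Q)ᶜ) m w
      rw [hm.supp w hw, norm_zero] at h1
      exact norm_eq_zero.1 (le_antisymm h1 (norm_nonneg _))
  have h20 : ∀ w, ‖w‖ ≤ 2 * (ρ + ‖s‖ + 1) → m2 w = 0 := by
    intro w hw
    rw [hm2d]
    have h1 : w ∉ (closedBall (0 : ℂ) Q)ᶜ := by
      rw [mem_compl_iff, not_not, mem_closedBall_zero_iff, hQ]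
      exact hw
    exact indicator_of_notMem h1 _
  have hadd : ∀ u, Ct m u = Ct m1 u + Ct m2 u := by
    intro u
    rw [(ctb_eq hm u).2, (ctb_eq hm1 u).2, (ctb_eq hm2 u).2, ← mul_add,
      ← integral_add (ctb_eq hm1 u).1 (ctb_eq hm2 u).1]
    congr 2
    funext w
    rw [← add_div]
    congr 1
    rw [hm1d, hm2d]
    exact (congrFun (indicator_self_add_compl (closedBall (0 : ℂ) Q) m) w).symm
  have hE : ∀ u, Ct m u - ((1 - u / s) * Ct m 0 + u / s * Ct m s) = EE s m1 u + EE s m2 u := by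
    intro u
    unfold EE
    rw [hadd u, hadd 0, hadd s]
    ring
  obtain ⟨f1, f2⟩ := ee_far hs hρ hm2 h20 hz hz'
  rw [← hI] at f1 f2
  have hzs : ∀ u : ℂ, ‖u‖ ≤ ρ → ‖u / s‖ ≤ ρ / ‖s‖ := fun u hu => by
    rw [norm_div]
    exact div_le_div_of_nonneg_right hu hs0.le
  have hd : ‖z - z'‖ ≤ √(2 * ρ) * √‖z - z'‖ := by
    have h1 : ‖z - z'‖ ≤ 2 * ρ := (norm_sub_le z z').trans (by linarith)
    have h2 : √‖z - z'‖ ≤ √(2 * ρ) := Real.sqrt_le_sqrt h1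
    calc ‖z - z'‖ = √‖z - z'‖ * √‖z - z'‖ := (Real.mul_self_sqrt (norm_nonneg _)).symm
      _ ≤ √(2 * ρ) * √‖z - z'‖ := mul_le_mul_of_nonneg_right h2 (Real.sqrt_nonneg _)
  have hr0 : 0 ≤ ρ / ‖s‖ := by positivity
  constructor
  · rw [hE z]
    have g1 : ‖EE s m1 z‖ ≤ C1 * (2 + 2 * (ρ / ‖s‖)) * B := by
      unfold EE
      have a1 := (hmod B m1 hm1 z z).1
      have a2 := (hmod B m1 hm1 0 0).1
      have a3 := (hmod B m1 hm1 s s).1
      have a4 : ‖1 - z / s‖ ≤ 1 + ρ / ‖s‖ := by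
        refine (norm_sub_le _ _).trans ?_
        rw [norm_one]
        linarith [hzs z hz]
      have a5 := hzs z hz
      calc ‖Ct m1 z - ((1 - z / s) * Ct m1 0 + z / s * Ct m1 s)‖
          ≤ ‖Ct m1 z‖ + (‖1 - z / s‖ * ‖Ct m1 0‖ + ‖z / s‖ * ‖Ct m1 s‖) := by
            refine (norm_sub_le _ _).trans (add_le_add le_rfl ((norm_add_le _ _).trans ?_))
            rw [norm_mul, norm_mul]
        _ ≤ C1 * B + ((1 + ρ / ‖s‖) * (C1 * B) + (ρ / ‖s‖) * (C1 * B)) := by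
            gcongr
        _ = _ := by ring
    have h1 := norm_add_le (EE s m1 z) (EE s m2 z)
    have h2 : 0 ≤ K2 * B := by positivity
    have h3 : (K1 + K2) * B = C1 * (2 + 2 * (ρ / ‖s‖)) * B + 32 * (ρ * (ρ + ‖s‖)) * I * B + K2 * B := by
      rw [hK1]
      ring
    rw [h3]
    linarith
  · rw [hE z, hE z']
    have g1 : ‖EE s m1 z - EE s m1 z'‖ ≤ (C1 + (2 * C1 / ‖s‖) * √(2 * ρ)) * B * √‖z - z'‖ := by
      have e1 : EE s m1 z - EE s m1 z' = (Ct m1 z - Ct m1 z') + (z - z') / s * (Ct m1 0 - Ct m1 s) := by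
        unfold EE
        ring
      rw [e1]
      have a1 := (hmod B m1 hm1 z z').2
      have a2 := (hmod B m1 hm1 0 0).1
      have a3 := (hmod B m1 hm1 s s).1
      have a4 : ‖Ct m1 0 - Ct m1 s‖ ≤ 2 * (C1 * B) := (norm_sub_le _ _).trans (by linarith)
      have a5 : ‖(z - z') / s‖ ≤ (√(2 * ρ) * √‖z - z'‖) / ‖s‖ := by
        rw [norm_div]
        exact div_le_div_of_nonneg_right hd hs0.le
      calc ‖(Ct m1 z - Ct m1 z') + (z - z') / s * (Ct m1 0 - Ct m1 s)‖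
          ≤ ‖Ct m1 z - Ct m1 z'‖ + ‖(z - z') / s‖ * ‖Ct m1 0 - Ct m1 s‖ := by
            refine (norm_add_le _ _).trans ?_
            rw [norm_mul]
        _ ≤ C1 * B * √‖z - z'‖ + (√(2 * ρ) * √‖z - z'‖) / ‖s‖ * (2 * (C1 * B)) := by
            gcongr
        _ = _ := by ring
    have f3 : ‖EE s m2 z - EE s m2 z'‖ ≤ 64 * (ρ ^ 2 + ‖s‖ + 2 * ρ) * I * B * (√(2 * ρ) * √‖z - z'‖) :=
      f2.trans (mul_le_mul_of_nonneg_left hd (by positivity))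
    have h1 := norm_add_le (EE s m1 z - EE s m1 z') (EE s m2 z - EE s m2 z')
    have e2 : EE s m1 z + EE s m2 z - (EE s m1 z' + EE s m2 z') =
        (EE s m1 z - EE s m1 z') + (EE s m2 z - EE s m2 z') := by ring
    have h2 : 0 ≤ K1 * B * √‖z - z'‖ := by positivity
    have h3 : (K1 + K2) * B * √‖z - z'‖ = K1 * B * √‖z - z'‖ + (C1 + (2 * C1 / ‖s‖) * √(2 * ρ)) * B * √‖z - z'‖ +
        64 * (ρ ^ 2 + ‖s‖ + 2 * ρ) * I * B * (√(2 * ρ) * √‖z - z'‖) := by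
      rw [hK2]
      ring
    rw [e2, h3]
    linarith

end Pool.Agent.H76.SU
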