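import Pool.Agent.H76.SU.CHN

/-!
# Module POL: for an invariant `m` the defect of the vector field `Ct m` is a polynomial

PROOFS. `pol_loc`: let `G z = b z ^ 2 * Ct m (gg z) - ww z * Ct m z`. On a ball on which `b ≠ 0`, `ww ≠ 0` and `gg` is injective (exists around each point of `{b ≠ 0, ww ≠ 0}`: `gg_der`, nonzero strict derivative) the function `W z = Ct m (gg z) - dg z * Ct m z` is continuous and for a test function `φ` supported in the ball:
`∫ Ct m (gg z) * db φ z = - ∫ m (gg z) * conj (dg z) * φ z` (`chn`, `deriv gg = dg`) and `∫ dg z * Ct m z * db φ z = ∫ Ct m z * db (dg * φ) z = - ∫ m z * dg z * φ z` (`ctw` for the test function `dg * φ`, smooth since `dg` is holomorphic on the ball and `φ` has support in it; `db (dg * φ) = dg * db φ`). The invariance `m (gg z) * ph (dg z) = m z` gives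
`m (gg z) * conj (dg z) = m z * dg z` (`dg z ≠ 0`). So `∫ W * db φ = 0` and `W` is holomorphic on the ball (`wey`); `G = b ^ 2 * W`.
`pol_ent`: `G` is continuous on the plane (off the zeros of `b`: `gg` is continuous, `ctb_cont`; at a zero of `b`: the first term tends to `0` by `ctb_bd`, and its value is `0`), holomorphic off the finite set of zeros of `b * ww`, so it is entire (removable singularities: `differentiableOn_compl_singleton_and_continuousAt_iff` for each point, or
`Complex.differentiableOn_update_limUnder...`; induct over the finite set or argue at each point, a neighbourhood of which contains no other bad point).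
`pol_eq`: `‖G z‖ ≤ C (1 + ‖z‖) ^ (2 d)`: `ctb_bd`, `b ^ 2` has degree `≤ 2 d`, `ww` has degree `≤ 2 d` (`natDegree_derivative_le`, ...); an entire function of this growth is a polynomial of degree `≤ 2 d` (Cauchy estimates for the Taylor coefficients, or: `(G z - Taylor polynomial) / z ^ (2 d)` is bounded..., or induction on the degree with
the difference quotient `dslope G 0` and Liouville's theorem). Search the library (`grep -rn entire`, H44, H91, H56) for this statement first.
-/

set_option autoImplicit false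

open Filter Topology Polynomial Metric Set MeasureTheory
open scoped ContDiff

namespace Pool.Agent.H76.SU

open Pool.Agent.H61.TT H73.BR

variable {a b : Polynomial ℂ} {U : ℕ → Set ℂ} {J : Set ℂ} {R : ℝ}

private theorem pol_strict {z : ℂ} (hb : b.eval z ≠ 0) :
    HasStrictDerivAt (gg a b) (dg a b z) z := by
  have h := (a.hasStrictDerivAt z).div (b.hasStrictDerivAt z) hb
  have e : (a.derivative.eval z * b.eval z - a.eval z * b.derivative.eval z) / b.eval z ^ 2 =
      dg a b z := by
    unfold dg ww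
    rw [eval_sub, eval_mul, eval_mul]
  rw [e] at h
  exact h

private theorem pol_inj {z : ℂ} (hb : b.eval z ≠ 0) (hw : (ww a b).eval z ≠ 0) :
    ∃ r : ℝ, 0 < r ∧ InjOn (gg a b) (ball z r) ∧
      ∀ y ∈ ball z r, b.eval y ≠ 0 ∧ (ww a b).eval y ≠ 0 := by
  have h := (pol_strict (a := a) hb).hasStrictFDerivAt_equiv (dg_ne hb hw)
  have h1 : (h.toOpenPartialHomeomorph (gg a b)).source ∈ 𝓝 z :=
    (h.toOpenPartialHomeomorph (gg a b)).open_source.mem_nhds
      h.mem_toOpenPartialHomeomorph_source
  have h2 : ∀ᶠ y in 𝓝 z, b.eval y ≠ 0 := b.continuous.continuousAt.eventually_ne hb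
  have h3 : ∀ᶠ y in 𝓝 z, (ww a b).eval y ≠ 0 := (ww a b).continuous.continuousAt.eventually_ne hw
  obtain ⟨r, hr, hs⟩ := Metric.mem_nhds_iff.1 (inter_mem h1 (h2.and h3))
  refine ⟨r, hr, ?_, fun y hy => (hs hy).2⟩
  exact (h.toOpenPartialHomeomorph (gg a b)).injOn.mono (fun y hy => (hs hy).1)

private theorem pol_dgdiff {z : ℂ} (hb : b.eval z ≠ 0) : DifferentiableAt ℂ (dg a b) z := by
  unfold dg
  exact (ww a b).differentiable.differentiableAt.div (b.differentiable.differentiableAt.pow 2)
    (pow_ne_zero 2 hb)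

private theorem pol_dgsm {z : ℂ} (hb : b.eval z ≠ 0) : ContDiffAt ℝ ∞ (dg a b) z := by
  have h1 : ContDiffAt ℂ ∞ (dg a b) z := by
    unfold dg
    exact ((ww a b).differentiable.contDiff).contDiffAt.div ((b.differentiable.contDiff).contDiffAt.pow 2)
      (pow_ne_zero 2 hb)
  exact h1.restrict_scalars ℝ

private theorem pol_db {f φ : ℂ → ℂ} {y : ℂ} (hf : DifferentiableAt ℂ f y)
    (hφ : DifferentiableAt ℝ φ y) : db (fun z => f z * φ z) y = f y * db φ y := by
  have h1 := hf.hasDerivAt.complexToReal_fderiv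
  have h2 : HasFDerivAt (fun z => f z * φ z) _ y := h1.mul hφ.hasFDerivAt
  unfold db
  rw [h2.fderiv]
  simp only [add_apply, smul_apply, smul_eq_mul,
    one_apply_eq_self]
  linear_combination (1 / 2 : ℂ) * φ y * deriv f y * Complex.I_mul_I

private theorem pol_db0 {φ : ℂ → ℂ} {y : ℂ} (hy : y ∉ tsupport φ) : db φ y = 0 := by
  have h1 : φ =ᶠ[𝓝 y] fun _ => 0 := notMem_tsupport_iff_eventuallyEq.1 hy
  unfold db
  rw [h1.fderiv_eq]
  simp

theorem pol_loc (hcop : IsCoprime a b) {B R : ℝ} {m : ℂ → ℂ} (hm : Bm B R m)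
    (hinv : ∀ x, m (gg a b x) * ph (dg a b x) = m x) {z : ℂ} (hb : b.eval z ≠ 0)
    (hw : (ww a b).eval z ≠ 0) :
    DifferentiableAt ℂ (fun z => b.eval z ^ 2 * Ct m (gg a b z) - (ww a b).eval z * Ct m z) z := by
  obtain ⟨r, hr, hinj, hne⟩ := pol_inj (a := a) hb hw
  have hcg : ContinuousOn (gg a b) (ball z r) := fun y hy =>
    (gg_der (hne y hy).1).continuousAt.continuousWithinAt
  have hcd : ContinuousOn (dg a b) (ball z r) := fun y hy =>
    (pol_dgdiff (hne y hy).1).continuousAt.continuousWithinAt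
  have hct := ctb_cont hm
  have hc1 : ContinuousOn (fun y => Ct m (gg a b y)) (ball z r) := hct.comp_continuousOn hcg
  have hc2 : ContinuousOn (fun y => dg a b y * Ct m y) (ball z r) := hcd.mul hct.continuousOn
  have hdF : DifferentiableOn ℂ (gg a b) (ball z r) := fun y hy =>
    (gg_der (hne y hy).1).differentiableAt.differentiableWithinAt
  have hW : DifferentiableOn ℂ (fun y => Ct m (gg a b y) - dg a b y * Ct m y) (ball z r) := by
    refine wey isOpen_ball (hc1.sub hc2) ?_
    intro φ hφ hc hs
    have hdb : Continuous (db φ) := by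
      unfold db
      have h1 : Continuous (fderiv ℝ φ) := hφ.continuous_fderiv (by norm_num)
      exact continuous_const.mul ((h1.clm_apply continuous_const).add
        (continuous_const.mul (h1.clm_apply continuous_const)))
    have hint : ∀ f : ℂ → ℂ, ContinuousOn f (ball z r) → Integrable (fun y => f y * db φ y) := by
      intro f hf
      have h1 : IntegrableOn (fun y => f y * db φ y) (tsupport φ) :=
        ((hf.mono hs).mul hdb.continuousOn).integrableOn_compact hc
      refine (integrableOn_iff_integrable_of_support_subset ?_).1 h1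
      intro y hy
      by_contra h2
      apply hy
      simp only
      rw [pol_db0 h2, mul_zero]
    have hψs : tsupport (fun y => dg a b y * φ y) ⊆ tsupport φ :=
      closure_mono (Function.support_mul_subset_right _ _)
    have hψ : ContDiff ℝ ∞ (fun y => dg a b y * φ y) := by
      rw [contDiff_iff_contDiffAt]
      intro y
      by_cases hy : y ∈ tsupport φ
      · exact (pol_dgsm (hne y (hs hy)).1).mul hφ.contDiffAt
      · have h1 : φ =ᶠ[𝓝 y] fun _ => 0 := notMem_tsupport_iff_eventuallyEq.1 hy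
        have h2 : (fun y => dg a b y * φ y) =ᶠ[𝓝 y] fun _ => 0 := by
          filter_upwards [h1] with t ht
          rw [ht, mul_zero]
        exact contDiffAt_const.congr_of_eventuallyEq h2
    have hψc : HasCompactSupport (fun y => dg a b y * φ y) := hc.mul_left
    have e1 := chn hm hr hdF hinj hφ hc hs
    have e2 := ctw hm hψ hψc
    have e3 : ∀ y, Ct m y * db (fun y => dg a b y * φ y) y = (dg a b y * Ct m y) * db φ y := by
      intro y
      by_cases hy : y ∈ tsupport φ
      · rw [pol_db (pol_dgdiff (hne y (hs hy)).1) (hφ.differentiable (by norm_num) y)]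
        ring
      · rw [pol_db0 hy, pol_db0 (fun h => hy (hψs h)), mul_zero, mul_zero]
    have e4 : ∀ y, m (gg a b y) * (starRingEnd ℂ) (deriv (gg a b) y) * φ y =
        m y * (dg a b y * φ y) := by
      intro y
      by_cases hy : y ∈ tsupport φ
      · have h1 := hne y (hs hy)
        have h2 := dg_ne h1.1 h1.2
        rw [(gg_der h1.1).deriv, ← hinv y]
        unfold ph
        field_simp
      · rw [image_eq_zero_of_notMem_tsupport hy, mul_zero, mul_zero, mul_zero]
    simp only [e3] at e2
    simp only [e4] at e1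
    have e5 : ∀ y, (Ct m (gg a b y) - dg a b y * Ct m y) * db φ y =
        Ct m (gg a b y) * db φ y - (dg a b y * Ct m y) * db φ y := fun y => by ring
    simp only [e5]
    rw [integral_sub (hint _ hc1) (hint _ hc2), e1, e2, sub_self]
  have h1 : DifferentiableAt ℂ (fun y => Ct m (gg a b y) - dg a b y * Ct m y) z :=
    hW.differentiableAt (ball_mem_nhds z hr)
  have h2 : DifferentiableAt ℂ (fun y => b.eval y ^ 2 * (Ct m (gg a b y) - dg a b y * Ct m y)) z :=
    (b.differentiable.differentiableAt.pow 2).mul h1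
  refine h2.congr_of_eventuallyEq ?_
  filter_upwards [ball_mem_nhds z hr] with y hy
  have h3 := (hne y hy).1
  unfold dg
  field_simp

theorem pol_ent (hcop : IsCoprime a b) (hw : ww a b ≠ 0) {B R : ℝ} {m : ℂ → ℂ} (hm : Bm B R m)
    (hinv : ∀ x, m (gg a b x) * ph (dg a b x) = m x) :
    Differentiable ℂ (fun z => b.eval z ^ 2 * Ct m (gg a b z) - (ww a b).eval z * Ct m z) := by
  have hct := ctb_cont hm
  have hb0 : b ≠ 0 := by
    intro h
    apply hw
    unfold ww
    rw [h]
    simp
  -- continuity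
  have hcont : Continuous (fun z => b.eval z ^ 2 * Ct m (gg a b z) - (ww a b).eval z * Ct m z) := by
    have h1 : Continuous (fun z => b.eval z ^ 2 * Ct m (gg a b z)) := by
      rw [continuous_iff_continuousAt]
      intro z
      by_cases hz : b.eval z = 0
      · obtain ⟨C, hC0, hC⟩ := ctb_bd hm
        unfold ContinuousAt
        have h2 : b.eval z ^ 2 * Ct m (gg a b z) = 0 := by rw [hz]; ring
        simp only
        rw [h2]
        rw [tendsto_zero_iff_norm_tendsto_zero]
        have h3 : Tendsto (fun y => ‖b.eval y‖ ^ 2 * C) (𝓝 z) (𝓝 0) := by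
          have h4 : Continuous (fun y => ‖b.eval y‖ ^ 2 * C) :=
            (b.continuous.norm.pow 2).mul continuous_const
          have h5 := h4.tendsto z
          rw [hz] at h5
          simpa using h5
        refine squeeze_zero (fun y => norm_nonneg _) (fun y => ?_) h3
        rw [norm_mul, norm_pow]
        exact mul_le_mul_of_nonneg_left (hC _) (by positivity)
      · exact (b.continuous.continuousAt.pow 2).mul
          (hct.continuousAt.comp (gg_der hz).continuousAt)
    exact h1.sub ((ww a b).continuous.mul hct)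
  intro z
  set S : Set ℂ := {y | (b * ww a b).eval y = 0} with hS
  have hfin : S.Finite := by
    have hne : b * ww a b ≠ 0 := mul_ne_zero hb0 hw
    refine ((b * ww a b).roots.toFinset.finite_toSet).subset ?_
    intro y hy
    simp only [Multiset.mem_toFinset, Finset.mem_coe]
    exact (mem_roots hne).2 hy
  have hopen : IsOpen (S \ {z})ᶜ := (hfin.subset sdiff_subset).isClosed.isOpen_compl
  have hnh : (S \ {z})ᶜ ∈ 𝓝 z := hopen.mem_nhds (by simp)
  have h6 := (Complex.differentiableOn_compl_singleton_and_continuousAt_iff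
    (f := fun z => b.eval z ^ 2 * Ct m (gg a b z) - (ww a b).eval z * Ct m z) hnh).1
    ⟨?_, hcont.continuousAt⟩
  · exact h6.differentiableAt hnh
  · intro y hy
    have hyS : y ∉ S := fun h => hy.1 ⟨h, hy.2⟩
    have h7 : b.eval y ≠ 0 ∧ (ww a b).eval y ≠ 0 := by
      refine ⟨fun h => hyS ?_, fun h => hyS ?_⟩
      · change (b * ww a b).eval y = 0
        rw [eval_mul, h, zero_mul]
      · change (b * ww a b).eval y = 0
        rw [eval_mul, h, mul_zero]
    exact (pol_loc hcop hm hinv h7.1 h7.2).differentiableWithinAt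

private theorem pol_liou : ∀ (n : ℕ) (G : ℂ → ℂ), Differentiable ℂ G →
    (∃ C : ℝ, ∀ z, ‖G z‖ ≤ C * (1 + ‖z‖) ^ n) →
    ∃ p : Polynomial ℂ, p.natDegree ≤ n ∧ ∀ z, G z = p.eval z := by
  intro n
  induction n with
  | zero =>
    rintro G hG ⟨C, hC⟩
    have hb : Bornology.IsBounded (range G) := by
      rw [isBounded_iff_forall_norm_le]
      refine ⟨C, ?_⟩
      rintro _ ⟨z, rfl⟩
      simpa using hC z
    obtain ⟨c, hc⟩ := hG.exists_const_forall_eq_of_bounded hb
    exact ⟨Polynomial.C c, by simp, fun z => by rw [eval_C, hc z]⟩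
  | succ n ih =>
    rintro G hG ⟨C, hC⟩
    have hC0 : 0 ≤ C := by
      have := hC 0
      simp only [norm_zero, add_zero, one_pow, mul_one] at this
      exact (norm_nonneg _).trans this
    set H : ℂ → ℂ := dslope G 0 with hH
    have hHd : Differentiable ℂ H := by
      rw [← differentiableOn_univ]
      exact (Complex.differentiableOn_dslope univ_mem).2 hG.differentiableOn
    have hbd : ∃ C' : ℝ, ∀ z, ‖H z‖ ≤ C' * (1 + ‖z‖) ^ n := by
      obtain ⟨M, hM⟩ := (isCompact_closedBall (0 : ℂ) 1).exists_bound_of_continuousOn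
        hHd.continuous.continuousOn
      refine ⟨max M (4 * C), fun z => ?_⟩
      have h1 : (1 : ℝ) ≤ (1 + ‖z‖) ^ n := one_le_pow₀ (by linarith [norm_nonneg z])
      have hmax0 : 0 ≤ max M (4 * C) := le_max_of_le_right (by linarith)
      rcases le_total ‖z‖ 1 with hz | hz
      · calc ‖H z‖ ≤ M := hM z (by rw [mem_closedBall_zero_iff]; exact hz)
          _ ≤ max M (4 * C) * 1 := by rw [mul_one]; exact le_max_left _ _
          _ ≤ max M (4 * C) * (1 + ‖z‖) ^ n := mul_le_mul_of_nonneg_left h1 hmax0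
      · have hz0 : z ≠ 0 := norm_pos_iff.1 (lt_of_lt_of_le one_pos hz)
        have hzp : 0 < ‖z‖ := lt_of_lt_of_le one_pos hz
        have h2 : H z = (z - 0)⁻¹ • (G z - G 0) := by
          rw [hH, dslope_of_ne _ hz0, slope_def_module]
        rw [h2, sub_zero, norm_smul, norm_inv]
        have h3 : ‖G z - G 0‖ ≤ 2 * (C * (1 + ‖z‖) ^ (n + 1)) := by
          have h4 := hC 0
          simp only [norm_zero, add_zero, one_pow, mul_one] at h4
          have h5 : (1 : ℝ) ≤ (1 + ‖z‖) ^ (n + 1) := one_le_pow₀ (by linarith [norm_nonneg z])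
          have h6 : C ≤ C * (1 + ‖z‖) ^ (n + 1) := le_mul_of_one_le_right hC0 h5
          have h7 := norm_sub_le (G z) (G 0)
          have h8 := hC z
          linarith
        have h9 : ‖z‖⁻¹ * (1 + ‖z‖) ≤ 2 := by
          rw [inv_mul_le_iff₀ hzp]
          linarith
        calc ‖z‖⁻¹ * ‖G z - G 0‖ ≤ ‖z‖⁻¹ * (2 * (C * (1 + ‖z‖) ^ (n + 1))) :=
              mul_le_mul_of_nonneg_left h3 (by positivity)
          _ = 2 * C * (1 + ‖z‖) ^ n * (‖z‖⁻¹ * (1 + ‖z‖)) := by ring
          _ ≤ 2 * C * (1 + ‖z‖) ^ n * 2 := mul_le_mul_of_nonneg_left h9 (by positivity)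
          _ = 4 * C * (1 + ‖z‖) ^ n := by ring
          _ ≤ max M (4 * C) * (1 + ‖z‖) ^ n :=
              mul_le_mul_of_nonneg_right (le_max_right _ _) (by positivity)
    obtain ⟨q, hq, hq2⟩ := ih H hHd hbd
    refine ⟨Polynomial.C (G 0) + X * q, ?_, fun z => ?_⟩
    · refine (natDegree_add_le _ _).trans (max_le (by simp) ?_)
      refine (natDegree_mul_le).trans ?_
      have := natDegree_X_le (R := ℂ)
      omega
    · have h1 := sub_smul_dslope G 0 z
      rw [eval_add, eval_C, eval_mul, eval_X, ← hq2 z]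
      rw [sub_zero, smul_eq_mul] at h1
      rw [hH, h1]
      ring

private theorem pol_growth (p : Polynomial ℂ) {n : ℕ} (hp : p.natDegree ≤ n) :
    ∃ C : ℝ, 0 ≤ C ∧ ∀ z : ℂ, ‖p.eval z‖ ≤ C * (1 + ‖z‖) ^ n := by
  refine ⟨∑ i ∈ Finset.range (n + 1), ‖p.coeff i‖, Finset.sum_nonneg (fun _ _ => norm_nonneg _),
    fun z => ?_⟩
  rw [eval_eq_sum_range' (Nat.lt_succ_of_le hp) z, Finset.sum_mul]
  refine (norm_sum_le _ _).trans (Finset.sum_le_sum (fun i hi => ?_))
  rw [norm_mul, norm_pow]
  refine mul_le_mul_of_nonneg_left ?_ (norm_nonneg _)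
  calc ‖z‖ ^ i ≤ (1 + ‖z‖) ^ i := pow_le_pow_left₀ (norm_nonneg _) (by linarith) _
    _ ≤ (1 + ‖z‖) ^ n := pow_le_pow_right₀ (by linarith [norm_nonneg z])
        (by have := Finset.mem_range.1 hi; omega)

theorem pol_eq (hcop : IsCoprime a b) (hw : ww a b ≠ 0) {B R : ℝ} {m : ℂ → ℂ} (hm : Bm B R m)
    (hinv : ∀ x, m (gg a b x) * ph (dg a b x) = m x) {d : ℕ} (ha : a.natDegree ≤ d)
    (hb : b.natDegree ≤ d) :
    ∃ p : Polynomial ℂ, p.natDegree ≤ 2 * d ∧
      ∀ z, b.eval z ^ 2 * Ct m (gg a b z) - (ww a b).eval z * Ct m z = p.eval z := by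
  refine pol_liou (2 * d) _ (pol_ent hcop hw hm hinv) ?_
  obtain ⟨C, hC0, hC⟩ := ctb_bd hm
  have hd1 : (b ^ 2).natDegree ≤ 2 * d := (natDegree_pow_le).trans (by omega)
  have hd2 : (ww a b).natDegree ≤ 2 * d := by
    unfold ww
    refine (natDegree_sub_le _ _).trans (max_le ?_ ?_)
    · refine natDegree_mul_le.trans ?_
      have := natDegree_derivative_le a
      omega
    · refine natDegree_mul_le.trans ?_
      have := natDegree_derivative_le b
      omega
  obtain ⟨C1, hC10, h1⟩ := pol_growth (b ^ 2) hd1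
  obtain ⟨C2, hC20, h2⟩ := pol_growth (ww a b) hd2
  refine ⟨C1 * C + C2 * C, fun z => ?_⟩
  have h3 := h1 z
  rw [eval_pow] at h3
  calc ‖b.eval z ^ 2 * Ct m (gg a b z) - (ww a b).eval z * Ct m z‖
      ≤ ‖b.eval z ^ 2 * Ct m (gg a b z)‖ + ‖(ww a b).eval z * Ct m z‖ := norm_sub_le _ _
    _ = ‖b.eval z ^ 2‖ * ‖Ct m (gg a b z)‖ + ‖(ww a b).eval z‖ * ‖Ct m z‖ := by
        rw [norm_mul, norm_mul]
    _ ≤ (C1 * (1 + ‖z‖) ^ (2 * d)) * C + (C2 * (1 + ‖z‖) ^ (2 * d)) * C :=
        add_le_add (mul_le_mul h3 (hC _) (norm_nonneg _) (by positivity))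
          (mul_le_mul (h2 z) (hC _) (norm_nonneg _) (by positivity))
    _ = (C1 * C + C2 * C) * (1 + ‖z‖) ^ (2 * d) := by ring

end Pool.Agent.H76.SU
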