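import Pool.Agent.H76.SU.LOG

/-!
# Module ROO: the root lemma (injectivity on small compact connected sets)

PROOFS. `roo_loc`: let `p` be a point with `b p ≠ 0`, `f = gg a b`. `f - f p` is analytic at `p`, not constant near `p` (`ww a b ≠ 0`): `f z - f p = (z - p) ^ k * g z` near `p`, `k ≥ 1`, `g` analytic, `g p ≠ 0` (`AnalyticAt.exists_eventuallyEq_pow_smul_nonzero_iff` or the order). Near `p`: `φ z = (z - p) * (g p) ^ (1/k) * exp (log (g z / g p) / k)` (`(g p) ^ (1/k)` any `k`-th root)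
is analytic, `φ z ^ k = f z - f p`, `φ p = 0`, `φ' p ≠ 0`: `φ` is injective near `p` (strict derivative). Choose `δ` with all this on `ball p δ`, and `dg z ≠ 0` for `z ∈ ball p δ`, `z ≠ p`. Let `K ⊆ ball p δ` be compact and preconnected. If `k = 1`: `f` is injective on `ball p δ`. If `k ≥ 2` then `dg p = 0`, so `ww a b` vanishes at `p` and `f p ∉ hull (f '' K)`
(hypothesis with `c = p`). `log_ex` (`f '' K` compact): `l` continuous on `f '' K`, `exp (l w) = w - f p`. For `z ∈ K` let `q z = φ z * exp (- l (f z) / k)`: continuous on `K`, `q z ^ k = (f z - f p) / (f z - f p) = 1` (`f z ≠ f p` as `f p ∉ f '' K`, `hul_sub`). So `q` takes values in the finite set of `k`-th roots of unity, `K` is preconnected: `q` is constant on `K`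
(`IsPreconnected.constant` or `IsPreconnected.image` and `Set.Finite`: a preconnected finite (discrete) set is subsingleton). If `f x = f y`, `x, y ∈ K`: `φ x = q * exp (l (f x) / k) = φ y`, so `x = y`.
`roo`: if `b p = 0` for some `p`: there is `δ` such that no `z ≠ p` with `‖z - p‖ < δ` has `‖gg z‖ ≤ R` (`hun_pole`-argument: `‖gg z‖ → ∞`): a set `K ⊆ ball p δ` as in the statement is empty. So each point `p ∈ closedBall 0 R` has a radius `δ p` such that the conclusion holds for every `K ⊆ ball p (δ p)`. Lebesgue number lemma (`lebesgue_number_lemma_of_metric`) for the compact set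
`closedBall 0 R`: there is `δ` such that every `K ⊆ closedBall 0 R` of diameter `≤ δ` is in one of the balls (`K` nonempty: take a point `x ∈ K`, `K ⊆ closedBall x δ ⊆ ball x (2 δ)`).
-/

set_option autoImplicit false

open Filter Topology Polynomial Metric Set MeasureTheory
open scoped ContDiff

namespace Pool.Agent.H76.SU

open Pool.Agent.H61.TT H73.BR

variable {a b : Polynomial ℂ} {U : ℕ → Set ℂ} {J : Set ℂ} {R : ℝ}

private theorem roo_inj {ψ : ℂ → ℂ} {z0 : ℂ} (h : AnalyticAt ℂ ψ z0) (hd : deriv ψ z0 ≠ 0) :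
    ∃ r : ℝ, 0 < r ∧ ∀ z ∈ ball z0 r, ∀ w ∈ ball z0 r, ψ z = ψ w → z = w := by
  have h1 : HasStrictDerivAt ψ (deriv ψ z0) z0 := h.hasStrictDerivAt
  have hpos : 0 < ‖deriv ψ z0‖ / 2 := by
    have := norm_pos_iff.2 hd
    positivity
  have h2 := (hasStrictDerivAt_iff_hasStrictFDerivAt.1 h1).isLittleO.def hpos
  rw [nhds_prod_eq] at h2
  obtain ⟨p, hp, q, hq, hpq⟩ := eventually_prod_iff.1 h2
  obtain ⟨r1, hr1, h3⟩ := Metric.eventually_nhds_iff_ball.1 hp
  obtain ⟨r2, hr2, h4⟩ := Metric.eventually_nhds_iff_ball.1 hq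
  refine ⟨min r1 r2, lt_min hr1 hr2, fun z hz w hw hzw => ?_⟩
  have h5 := hpq (h3 z (ball_subset_ball (min_le_left _ _) hz))
    (h4 w (ball_subset_ball (min_le_right _ _) hw))
  simp only [hzw, sub_self, zero_sub, norm_neg] at h5
  by_contra hne
  have h6 : 0 < ‖z - w‖ := norm_pos_iff.2 (sub_ne_zero.2 hne)
  have h7 : ‖(ContinuousLinearMap.toSpanSingleton ℂ (deriv ψ z0)) (z - w)‖ =
      ‖z - w‖ * ‖deriv ψ z0‖ := by
    rw [ContinuousLinearMap.toSpanSingleton_apply, norm_smul]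
  rw [h7] at h5
  nlinarith [norm_pos_iff.2 hd]

/-- an analytic function with a zero is a power of a local coordinate -/
private theorem roo_pow {G : ℂ → ℂ} {p : ℂ} (hG : AnalyticAt ℂ G p) (hG0 : G p = 0)
    (hne : ¬ ∀ᶠ z in 𝓝 p, G z = 0) :
    ∃ (k : ℕ) (φ : ℂ → ℂ), 0 < k ∧ AnalyticAt ℂ φ p ∧ φ p = 0 ∧ deriv φ p ≠ 0 ∧
      ∀ᶠ z in 𝓝 p, G z = φ z ^ k := by
  obtain ⟨k, g, hg, hg0, hev⟩ := hG.exists_eventuallyEq_pow_smul_nonzero_iff.2 hne
  have hk : 0 < k := by
    rcases Nat.eq_zero_or_pos k with h0 | h0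
    · exfalso
      have h1 := hev.self_of_nhds
      rw [h0, pow_zero, one_smul, hG0] at h1
      exact hg0 h1.symm
    · exact h0
  obtain ⟨c, hc⟩ := IsAlgClosed.exists_pow_nat_eq (g p) hk
  have hc0 : c ≠ 0 := by
    rintro rfl
    rw [zero_pow hk.ne'] at hc
    exact hg0 hc.symm
  have hk0 : (k : ℂ) ≠ 0 := by exact_mod_cast hk.ne'
  obtain ⟨h, hh⟩ : ∃ h : ℂ → ℂ, h = fun z => c * Complex.exp (Complex.log (g z / g p) / k) :=
    ⟨_, rfl⟩
  have hha : AnalyticAt ℂ h p := by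
    rw [hh]
    have h1 : AnalyticAt ℂ (fun z => g z / g p) p := hg.div analyticAt_const hg0
    have h2 : AnalyticAt ℂ (fun z => Complex.log (g z / g p)) p := by
      refine h1.clog ?_
      rw [div_self hg0]
      exact Complex.one_mem_slitPlane
    exact analyticAt_const.mul (h2.div analyticAt_const hk0).cexp
  have hhp : h p = c := by
    rw [hh]
    show c * Complex.exp (Complex.log (g p / g p) / k) = c
    rw [div_self hg0, Complex.log_one, zero_div, Complex.exp_zero, mul_one]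
  refine ⟨k, fun z => (z - p) * h z, hk, (analyticAt_id.sub analyticAt_const).mul hha, ?_, ?_, ?_⟩
  · show (p - p) * h p = 0
    rw [sub_self, zero_mul]
  · have h1 : HasDerivAt (fun z => (z - p) * h z) (1 * h p + (p - p) * deriv h p) p :=
      ((hasDerivAt_id p).sub_const p).mul hha.differentiableAt.hasDerivAt
    rw [h1.deriv, sub_self, zero_mul, add_zero, one_mul, hhp]
    exact hc0
  · have hgne : ∀ᶠ z in 𝓝 p, g z ≠ 0 := hg.continuousAt.eventually_ne hg0
    filter_upwards [hev, hgne] with z h1 h2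
    rw [h1, hh, smul_eq_mul]
    show _ = ((z - p) * (c * Complex.exp (Complex.log (g z / g p) / k))) ^ k
    rw [mul_pow, mul_pow, hc, ← Complex.exp_nat_mul, mul_div_cancel₀ _ hk0,
      Complex.exp_log (div_ne_zero h2 hg0), mul_div_cancel₀ _ hg0]

private theorem roo_root {A : Set ℂ} (hA : IsPreconnected A) {k : ℕ}
    (hk : 0 < k) {g u : ℂ → ℂ} (hg : ContinuousOn g A) (hu : ContinuousOn u A) {a : ℂ}
    (hgu : ∀ x ∈ A, u x - a = g x ^ k)
    (hl : ∃ L : ℂ → ℂ, ContinuousOn L (u '' A) ∧ ∀ w ∈ u '' A, Complex.exp (L w) = w - a) :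
    ∀ x ∈ A, ∀ y ∈ A, u x = u y → g x = g y := by
  obtain ⟨L, hL, hE⟩ := hl
  set h : ℂ → ℂ := fun x => g x / Complex.exp (L (u x) / k) with hh
  have hk0 : (k : ℂ) ≠ 0 := by exact_mod_cast hk.ne'
  have hLc : ContinuousOn (fun x => L (u x)) A :=
    hL.comp hu fun x hx => mem_image_of_mem u hx
  have hc : ContinuousOn h A := by
    refine hg.div ((hLc.div_const _).cexp) fun x _ => Complex.exp_ne_zero _
  have h1 : ∀ x ∈ A, h x ^ k = 1 := fun x hx => by
    rw [hh]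
    show (g x / Complex.exp (L (u x) / k)) ^ k = 1
    rw [div_pow, ← Complex.exp_nat_mul, mul_div_cancel₀ _ hk0, hE _ (mem_image_of_mem u hx),
      ← hgu x hx, div_self]
    rw [← hE _ (mem_image_of_mem u hx)]
    exact Complex.exp_ne_zero _
  have hfin : (h '' A).Finite := by
    have h2 : {z : ℂ | z ^ k = 1}.Finite := by
      have h3 := (Polynomial.nthRoots k (1 : ℂ)).toFinset.finite_toSet
      refine h3.subset fun z hz => ?_
      rw [Finset.mem_coe, Multiset.mem_toFinset, Polynomial.mem_nthRoots hk]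
      exact hz
    exact h2.subset (by rintro _ ⟨x, hx, rfl⟩; exact h1 x hx)
  have hsub : (h '' A).Subsingleton := by
    by_contra hn
    rw [not_subsingleton_iff] at hn
    exact ((hA.image h hc).infinite_of_nontrivial hn) hfin
  intro x hx y hy hxy
  have h4 : h x = h y := hsub (mem_image_of_mem h hx) (mem_image_of_mem h hy)
  rw [hh] at h4
  simp only [hxy] at h4
  exact (div_left_inj' (Complex.exp_ne_zero _)).1 h4

private theorem roo_nbd {p : ℂ} (hp : b.eval p ≠ 0) : ∀ᶠ z in 𝓝 p, b.eval z ≠ 0 :=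
  b.continuous.continuousAt.eventually_ne hp

private theorem roo_an {p : ℂ} (hp : b.eval p ≠ 0) : AnalyticAt ℂ (gg a b) p := by
  have h1 : DifferentiableOn ℂ (gg a b) {z | b.eval z ≠ 0} := fun z hz =>
    (gg_der hz).differentiableAt.differentiableWithinAt
  exact h1.analyticAt (roo_nbd hp)

private theorem roo_nc (hw : ww a b ≠ 0) {p : ℂ} (hp : b.eval p ≠ 0) :
    ¬ ∀ᶠ z in 𝓝 p, gg a b z - gg a b p = 0 := by
  intro hev
  have h1 : gg a b =ᶠ[𝓝 p] fun _ => gg a b p := hev.mono fun z hz => sub_eq_zero.1 hz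
  have h2 : ∀ᶠ z in 𝓝 p, (ww a b).eval z = 0 := by
    filter_upwards [h1.eventuallyEq_nhds, roo_nbd hp] with z hz hbz
    have h3 : HasDerivAt (gg a b) 0 z := (hasDerivAt_const z (gg a b p)).congr_of_eventuallyEq hz
    have h4 : dg a b z = 0 := (gg_der hbz).unique h3
    by_contra h5
    exact dg_ne hbz h5 h4
  have h3 : {z : ℂ | (ww a b).IsRoot z}.Infinite := infinite_of_mem_nhds p h2
  exact hw (Polynomial.eq_zero_of_infinite_isRoot _ h3)

theorem roo_loc (hw : ww a b ≠ 0) {p : ℂ} (hp : b.eval p ≠ 0) : ∃ δ : ℝ, 0 < δ ∧ ∀ K : Set ℂ,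
    IsCompact K → IsPreconnected K → K ⊆ ball p δ →
    ((ww a b).eval p = 0 → gg a b p ∉ hull (gg a b '' K)) → InjOn (gg a b) K := by
  obtain ⟨k, φ, hk, hφ, hφ0, hφd, hev⟩ := roo_pow (G := fun z => gg a b z - gg a b p)
    ((roo_an hp).sub analyticAt_const) (sub_self _) (roo_nc hw hp)
  obtain ⟨r1, hr1, hinj⟩ := roo_inj hφ hφd
  have h1 : ∀ᶠ z in 𝓝 p, gg a b z - gg a b p = φ z ^ k ∧ ContinuousAt φ z ∧ b.eval z ≠ 0 :=
    hev.and (hφ.eventually_continuousAt.and (roo_nbd hp))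
  obtain ⟨r2, hr2, hall⟩ := Metric.eventually_nhds_iff_ball.1 h1
  refine ⟨min r1 r2, lt_min hr1 hr2, fun K hK hKc hKb hH => ?_⟩
  have hK1 : K ⊆ ball p r1 := hKb.trans (ball_subset_ball (min_le_left _ _))
  have hK2 : K ⊆ ball p r2 := hKb.trans (ball_subset_ball (min_le_right _ _))
  rcases Nat.lt_or_ge k 2 with hk1 | hk2
  · have hk3 : k = 1 := by omega
    intro x hx y hy hxy
    have hxy' : gg a b x = gg a b y := hxy
    refine hinj x (hK1 hx) y (hK1 hy) ?_
    have h2 := (hall x (hK2 hx)).1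
    have h3 := (hall y (hK2 hy)).1
    rw [hk3, pow_one] at h2 h3
    rw [← h2, ← h3, hxy']
  · have hwp : (ww a b).eval p = 0 := by
      by_contra h5
      have h2 : HasDerivAt (fun z => φ z ^ k) ((k : ℂ) * φ p ^ (k - 1) * deriv φ p) p :=
        hφ.differentiableAt.hasDerivAt.fun_pow k
      rw [hφ0, zero_pow (by omega), mul_zero, zero_mul] at h2
      have h3 : HasDerivAt (fun z => gg a b z - gg a b p) 0 p := h2.congr_of_eventuallyEq hev
      have h4 : HasDerivAt (fun z => gg a b z - gg a b p) (dg a b p) p :=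
        (gg_der hp).sub_const _
      exact dg_ne hp h5 (h4.unique h3)
    have hgc : ContinuousOn (gg a b) K := fun z hz =>
      (gg_der (hall z (hK2 hz)).2.2).continuousAt.continuousWithinAt
    have hφc : ContinuousOn φ K := fun z hz => (hall z (hK2 hz)).2.1.continuousWithinAt
    have hl := log_ex (hK.image_of_continuousOn hgc) (hH hwp)
    intro x hx y hy hxy
    exact hinj x (hK1 hx) y (hK1 hy) (roo_root hKc hk hφc hgc
      (fun z hz => (hall z (hK2 hz)).1) hl x hx y hy hxy)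

private theorem roo_pole (hcop : IsCoprime a b) {p : ℂ} (hp : b.eval p = 0) (R : ℝ) :
    ∃ δ : ℝ, 0 < δ ∧ ∀ z ∈ ball p δ, b.eval z ≠ 0 → R < ‖gg a b z‖ := by
  have ha : a.eval p ≠ 0 := by
    intro h0
    obtain ⟨u, v, huv⟩ := hcop
    have h1 := congrArg (Polynomial.eval p) huv
    rw [eval_add, eval_mul, eval_mul, h0, hp, eval_one, mul_zero, mul_zero, add_zero] at h1
    exact zero_ne_one h1
  have hap : 0 < ‖a.eval p‖ := norm_pos_iff.2 ha
  have h1 : ∀ᶠ z in 𝓝 p, ‖a.eval p‖ / 2 < ‖a.eval z‖ :=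
    (a.continuous.norm.tendsto p).eventually (lt_mem_nhds (by linarith))
  have hpos : 0 < ‖a.eval p‖ / (2 * (|R| + 1)) := by positivity
  have h2 : ∀ᶠ z in 𝓝 p, ‖b.eval z‖ < ‖a.eval p‖ / (2 * (|R| + 1)) := by
    have h3 : Tendsto (fun z => ‖b.eval z‖) (𝓝 p) (𝓝 ‖b.eval p‖) := b.continuous.norm.tendsto p
    rw [hp, norm_zero] at h3
    exact h3.eventually (gt_mem_nhds hpos)
  obtain ⟨δ, hδ, hall⟩ := Metric.eventually_nhds_iff_ball.1 (h1.and h2)
  refine ⟨δ, hδ, fun z hz hbz => ?_⟩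
  obtain ⟨h3, h4⟩ := hall z hz
  have hbz' : 0 < ‖b.eval z‖ := norm_pos_iff.2 hbz
  have hR : 0 ≤ |R| := abs_nonneg R
  unfold gg
  rw [norm_div, lt_div_iff₀ hbz']
  calc R * ‖b.eval z‖ ≤ (|R| + 1) * ‖b.eval z‖ := by
        refine mul_le_mul_of_nonneg_right ?_ hbz'.le
        linarith [le_abs_self R]
    _ ≤ (|R| + 1) * (‖a.eval p‖ / (2 * (|R| + 1))) :=
        mul_le_mul_of_nonneg_left h4.le (by linarith)
    _ = ‖a.eval p‖ / 2 := by field_simp
    _ < ‖a.eval z‖ := h3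

theorem roo (hcop : IsCoprime a b) (hw : ww a b ≠ 0) (R : ℝ) : ∃ δ : ℝ, 0 < δ ∧ ∀ K : Set ℂ,
    IsCompact K → IsPreconnected K → (∀ z ∈ K, ‖z‖ ≤ R ∧ b.eval z ≠ 0 ∧ ‖gg a b z‖ ≤ R) →
    (∀ x ∈ K, ∀ y ∈ K, ‖x - y‖ ≤ δ) →
    (∀ c, b.eval c ≠ 0 → (ww a b).eval c = 0 → gg a b c ∉ hull (gg a b '' K)) →
    InjOn (gg a b) K := by
  have h1 : ∀ p : ℂ, ∃ δ : ℝ, 0 < δ ∧ ∀ K : Set ℂ, IsCompact K → IsPreconnected K →
      K ⊆ ball p δ → (∀ z ∈ K, ‖z‖ ≤ R ∧ b.eval z ≠ 0 ∧ ‖gg a b z‖ ≤ R) →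
      (∀ c, b.eval c ≠ 0 → (ww a b).eval c = 0 → gg a b c ∉ hull (gg a b '' K)) →
      InjOn (gg a b) K := by
    intro p
    by_cases hp : b.eval p = 0
    · obtain ⟨δ, hδ, h2⟩ := roo_pole hcop hp R
      refine ⟨δ, hδ, fun K _ _ hKb hKr _ x hx => ?_⟩
      exact absurd (hKr x hx).2.2 (not_le.2 (h2 x (hKb hx) (hKr x hx).2.1))
    · obtain ⟨δ, hδ, h2⟩ := roo_loc hw hp
      exact ⟨δ, hδ, fun K hK hKc hKb _ hH => h2 K hK hKc hKb (hH p hp)⟩
  choose r hr hloc using h1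
  obtain ⟨ε, hε, hL⟩ := lebesgue_number_lemma_of_metric (s := closedBall (0 : ℂ) R)
    (c := fun p : ℂ => ball p (r p)) (isCompact_closedBall 0 R) (fun _ => isOpen_ball)
    (fun x _ => mem_iUnion.2 ⟨x, mem_ball_self (hr x)⟩)
  refine ⟨ε / 2, half_pos hε, fun K hK hKc hKr hKd hH => ?_⟩
  rcases K.eq_empty_or_nonempty with hKe | ⟨x, hx⟩
  · rw [hKe]
    exact injOn_empty _
  obtain ⟨p, hp⟩ := hL x (mem_closedBall_zero_iff.2 (hKr x hx).1)
  refine hloc p K hK hKc (fun y hy => hp ?_) hKr hH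
  rw [mem_ball, dist_eq_norm]
  have := hKd y hy x hx
  linarith

end Pool.Agent.H76.SU
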