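import Pool.Agent.H76.SU.CTB

/-!
# Module RSC: rescaling of Cauchy transforms

PROOF. `m1 ξ = m (c + l * ξ) * ph l` is measurable, `‖ph l‖ = 1` (`norm_div`, `Complex.norm_conj`; `ph 0 = 0`), and zero if `‖c + l ξ‖ > R`, in particular if `‖ξ‖ > (R + ‖c‖) / ‖l‖`. Formula: by `ctb_eq` `Ct m (c + l w) = (1/π) ∫ x, m x / (c + l w - x)`; substitution `x = c + l ξ` (`integral_comp_...`: translation by `c` and multiplication by `l`:
`MeasureTheory.Measure.integral_comp_mul...`; for the complex multiplication use `integral_image_eq_integral_abs_det_fderiv_smul` or `Real`-linear equivalence with determinant `‖l‖ ^ 2`; the library may have it: search `‖l‖ ^ 2 *` or `integral_comp` in H44, H71, H73): `= (1/π) ∫ ξ, ‖l‖ ^ 2 * m (c + l ξ) / (l (w - ξ))`. Divide by `l`: `‖l‖ ^ 2 / l ^ 2 = conj l / l = ph l`.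
-/

set_option autoImplicit false

open Filter Topology Polynomial Metric Set MeasureTheory
open scoped ContDiff

namespace Pool.Agent.H76.SU

open Pool.Agent.H61.TT H73.BR

private theorem rsc_det (c : ℂ) :
    |((ContinuousLinearMap.smulRight (1 : ℂ →L[ℂ] ℂ) c).restrictScalars ℝ).det| = ‖c‖ ^ 2 := by
  have h1 : ((ContinuousLinearMap.smulRight (1 : ℂ →L[ℂ] ℂ) c).restrictScalars ℝ).det =
      LinearMap.det (((ContinuousLinearMap.smulRight (1 : ℂ →L[ℂ] ℂ) c : ℂ →L[ℂ] ℂ) :
        ℂ →ₗ[ℂ] ℂ).restrictScalars ℝ) := rfl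
  rw [h1, LinearMap.det_restrictScalars, Algebra.norm_complex_eq]
  show |Complex.normSq _| = _
  rw [Complex.normSq_eq_norm_sq, abs_of_nonneg (by positivity)]
  congr 2
  simp

private theorem rsc_int (F : ℂ → ℂ) {l : ℂ} (hl : l ≠ 0) :
    ∫ x : ℂ, F x = (‖l‖ : ℂ) ^ 2 * ∫ x : ℂ, F (l * x) := by
  have himg : (fun x : ℂ => l * x) '' univ = univ := by
    rw [image_univ, range_eq_univ]
    intro x
    exact ⟨l⁻¹ * x, by field_simp⟩
  have hder : ∀ x ∈ (univ : Set ℂ), HasFDerivWithinAt (fun x : ℂ => l * x)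
      ((ContinuousLinearMap.smulRight (1 : ℂ →L[ℂ] ℂ) l).restrictScalars ℝ) univ x := by
    intro x _
    have h1 : HasDerivAt (fun x : ℂ => l * x) l x := by
      simpa using (hasDerivAt_id x).const_mul l
    exact (h1.hasFDerivAt.restrictScalars ℝ).hasFDerivWithinAt
  have hinj : InjOn (fun x : ℂ => l * x) univ := fun x _ y _ h => mul_left_cancel₀ hl h
  have h := integral_image_eq_integral_abs_det_fderiv_smul volume MeasurableSet.univ hder hinj F
  rw [himg, Measure.restrict_univ] at h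
  rw [h, rsc_det, integral_smul, Complex.real_smul]
  push_cast
  rfl

private theorem ph_norm {l : ℂ} (hl : l ≠ 0) : ‖ph l‖ = 1 := by
  unfold ph
  rw [norm_div, Complex.norm_conj, div_self (norm_ne_zero_iff.2 hl)]

theorem rsc {B R : ℝ} {m : ℂ → ℂ} (hm : Bm B R m) {c l : ℂ} (hl : l ≠ 0) :
    (∃ R' : ℝ, Bm B R' (fun ξ => m (c + l * ξ) * ph l)) ∧
      ∀ w, Ct m (c + l * w) / l = Ct (fun ξ => m (c + l * ξ) * ph l) w := by
  constructor
  · refine ⟨(R + ‖c‖) / ‖l‖, ⟨?_, ?_, ?_⟩⟩
    · exact (hm.meas.comp ((measurable_id.const_mul l).const_add c)).mul_const _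
    · intro z
      rw [norm_mul, ph_norm hl, mul_one]
      exact hm.bd _
    · intro z hz
      have hl0 : 0 < ‖l‖ := norm_pos_iff.2 hl
      rw [div_lt_iff₀ hl0, mul_comm, ← norm_mul] at hz
      have h1 : ‖l * z‖ ≤ ‖c + l * z‖ + ‖c‖ := by
        have h2 : l * z = (c + l * z) - c := by ring
        calc ‖l * z‖ = ‖(c + l * z) - c‖ := by rw [← h2]
          _ ≤ _ := norm_sub_le _ _
      rw [hm.supp _ (by linarith), zero_mul]
  · intro w
    unfold Ct
    rw [rsc_int (fun x => x⁻¹ * m (c + l * w - x)) hl]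
    have h1 : (fun x : ℂ => (l * x)⁻¹ * m (c + l * w - l * x)) = fun x => l⁻¹ * (x⁻¹ * m (c + l * (w - x))) := by
      funext x
      rw [mul_inv, mul_assoc]
      congr 3
      ring
    have h2 : (fun x : ℂ => x⁻¹ * (m (c + l * (w - x)) * ph l)) = fun x => (x⁻¹ * m (c + l * (w - x))) * ph l := by
      funext x
      ring
    rw [h1, h2, integral_const_mul, integral_mul_const]
    have h3 : (‖l‖ : ℂ) ^ 2 = l * (starRingEnd ℂ) l := by
      rw [Complex.mul_conj, Complex.normSq_eq_norm_sq]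
      push_cast
      rfl
    rw [h3]
    unfold ph
    field_simp

end Pool.Agent.H76.SU
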