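import Pool.Agent.H76.SU.HAR
import Pool.Agent.H80.AJ.Cover

/-!
# Module SHB: the limit of the rescaled Julia sets, basic facts

PROOFS. `jh_closed`: if every ball `ball w (ρ/2)` contains a point `w' ∈ Jh` then `ball w' (ρ/2) ⊆ ball w ρ` meets `Jn n` for `UU`-almost all `n`. `jh_not`: negation of the definition and `uu_not` (`¬ Nonempty` is disjointness). `jh_cpt`: `L` compact, each point has a ball from `jh_not`, finite subcover, finite intersection of events.
`sh_open`: `IsOpen.connectedComponentIn`. `jn_univ`: if all `f^n` are injective on `ball y ρ ⊆ U 0` then `gn n` is injective and holomorphic there with derivative `Dn n x / Dn n y` (`gn_der`), `deriv (gn n) y = 1`; `univ_cover` (H80/AJ/Cover): for `x ∈ ball y ρ`, `s = ρ - ‖x - y‖`: `ball (gn n x) (s * ‖Dn n x / Dn n y‖ / 16) ⊆ gn n '' ball x s ⊆ gn n '' ball y ρ`, and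
`gn n '' (U 0)` is disjoint from `Jn n`, since `An (gn n x') = f^n x' ∈ U n`. `zero_jh`: take `x = y`: `ball 0 (ρ / 16)` is disjoint from all `Jn n` (`ρ` from `inj_disc`; `gn n y = 0`), so `0 ∉ Jh`; `zero_sh`: `mem_connectedComponentIn`.
`sh_seg`: `w ∈ Sh`, `q ∉ Sh`: the segment `[w, q]` is preconnected, meets `Sh` and its complement; if it did not meet `Jh` then it would be in `Jhᶜ` and so in the component `Sh` (`IsPreconnected.subset_connectedComponentIn`, `connectedComponentIn_eq`): contradiction. So there is `q' ∈ Jh` on the segment: `‖w - q'‖ ≤ ‖w - q‖` (`segment` lemmas; `w - q' = t (w - q)`).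
`sh_add`: a preconnected set without points of `Jh` which meets `Sh` is in `Sh`.
-/

set_option autoImplicit false

open Filter Topology Polynomial Metric Set MeasureTheory
open scoped ContDiff

namespace Pool.Agent.H76.SU

open Pool.Agent.H61.TT H73.BR

variable {a b : Polynomial ℂ} {U : ℕ → Set ℂ} {J : Set ℂ} {R : ℝ}

theorem jh_closed (a b : Polynomial ℂ) (J : Set ℂ) (y : ℂ) : IsClosed (Jh a b J y) := by
  refine isClosed_of_closure_subset fun w hw ρ hρ => ?_
  obtain ⟨w', hw', hd⟩ := Metric.mem_closure_iff.1 hw (ρ / 2) (half_pos hρ)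
  filter_upwards [hw' (ρ / 2) (half_pos hρ)] with n hn
  refine hn.mono (Set.inter_subset_inter_left _ (ball_subset_ball' ?_))
  rw [dist_comm] at hd
  linarith

theorem jh_not {y w : ℂ} (hw : w ∉ Jh a b J y) :
    ∃ ρ : ℝ, 0 < ρ ∧ ∀ᶠ n in UU, Disjoint (ball w ρ) (Jn a b J y n) := by
  by_contra hcon
  apply hw
  intro ρ hρ
  by_contra h
  apply hcon
  refine ⟨ρ, hρ, ?_⟩
  filter_upwards [uu_not.2 h] with n hn
  rw [Set.disjoint_iff_inter_eq_empty]
  exact Set.not_nonempty_iff_eq_empty.1 hn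

theorem jh_cpt {y : ℂ} {L : Set ℂ} (hL : IsCompact L) (hd : Disjoint L (Jh a b J y)) :
    ∀ᶠ n in UU, Disjoint L (Jn a b J y n) := by
  have h1 : ∀ w : ℂ, ∃ ρ : ℝ, w ∈ L → 0 < ρ ∧ ∀ᶠ n in UU, Disjoint (ball w ρ) (Jn a b J y n) := by
    intro w
    by_cases hw : w ∈ L
    · obtain ⟨ρ, h⟩ := jh_not (Set.disjoint_left.1 hd hw)
      exact ⟨ρ, fun _ => h⟩
    · exact ⟨0, fun h => absurd h hw⟩
  choose ρ hρ using h1
  obtain ⟨t, htL, ht⟩ := hL.elim_nhds_subcover (fun w => ball w (ρ w))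
    (fun w hw => ball_mem_nhds w (hρ w hw).1)
  have h2 : ∀ᶠ n in UU, ∀ w ∈ t, Disjoint (ball w (ρ w)) (Jn a b J y n) :=
    (Filter.eventually_all_finset t).2 fun w hw => (hρ w (htL w hw)).2
  filter_upwards [h2] with n hn
  rw [Set.disjoint_left]
  intro z hz
  obtain ⟨w, hw, hzw⟩ := Set.mem_iUnion₂.1 (ht hz)
  exact Set.disjoint_left.1 (hn w hw) hzw

theorem sh_open (a b : Polynomial ℂ) (J : Set ℂ) (y : ℂ) : IsOpen (Sh a b J y) :=
  (jh_closed a b J y).isOpen_compl.connectedComponentIn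

theorem sh_sub (a b : Polynomial ℂ) (J : Set ℂ) (y : ℂ) : Disjoint (Sh a b J y) (Jh a b J y) :=
  Set.disjoint_left.2 fun _ hz => connectedComponentIn_subset _ _ hz

theorem jn_gn (h : Wan a b U J R) {y : ℂ} (hy : y ∈ U 0) (n : ℕ) :
    Disjoint (gn a b y n '' U 0) (Jn a b J y n) := by
  rw [Set.disjoint_left]
  rintro _ ⟨x, hx, rfl⟩ hJ
  have h1 : An a b y n (gn a b y n x) ∈ J := hJ
  rw [an_gn y n x (h.ne0 n hy)] at h1
  exact Set.disjoint_left.1 (h.Jd n) h1 (h.map0 n hx)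

theorem jn_univ (h : Wan a b U J R) {y : ℂ} {ρ : ℝ} (hρ : 0 < ρ) (hU : ball y ρ ⊆ U 0)
    (hinj : ∀ n : ℕ, InjOn (gg a b)^[n] (ball y ρ)) {x : ℂ} (hx : x ∈ ball y ρ) (n : ℕ) :
    ball (gn a b y n x) ((ρ - ‖x - y‖) * ‖Dn a b n x / Dn a b n y‖ / 16) ⊆
      gn a b y n '' ball y ρ := by
  have hy : y ∈ U 0 := hU (mem_ball_self hρ)
  have hy0 := h.ne0 n hy
  have hx1 : ‖x - y‖ < ρ := by rwa [mem_ball, dist_eq_norm] at hx
  have hsub : ball x (ρ - ‖x - y‖) ⊆ ball y ρ := by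
    apply ball_subset_ball'
    rw [dist_eq_norm]
    linarith
  have hdif : DifferentiableOn ℂ (gn a b y n) (ball x (ρ - ‖x - y‖)) := fun z hz =>
    (gn_der h n (hU (hsub hz))).differentiableAt.differentiableWithinAt
  have hi : InjOn (gn a b y n) (ball x (ρ - ‖x - y‖)) := by
    intro z hz w hw hzw
    apply hinj n (hsub hz) (hsub hw)
    rw [← an_gn y n z hy0, ← an_gn y n w hy0, hzw]
  have h1 := Pool.Agent.H80.AJ.univ_cover (by linarith) hdif hi
  rw [(gn_der h n (hU hx)).deriv] at h1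
  exact h1.trans (Set.image_mono hsub)

theorem zero_sh (h : Wan a b U J R) {y : ℂ} (hy : y ∈ U 0) : (0 : ℂ) ∈ Sh a b J y := by
  obtain ⟨ρ, hρ, hU, hinj⟩ := inj_disc h hy
  refine mem_connectedComponentIn fun h0 => ?_
  obtain ⟨n, w, hw, hwJ⟩ := (h0 (ρ / 16) (by positivity)).exists
  have h1 := jn_univ h hρ hU hinj (mem_ball_self hρ) n
  have e0 : gn a b y n y = 0 := by
    unfold gn
    rw [sub_self, zero_div]
  rw [e0, sub_self, norm_zero, sub_zero, div_self (h.ne0 n hy), norm_one, mul_one] at h1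
  exact Set.disjoint_left.1 (jn_gn h hy n) (Set.image_mono hU (h1 hw)) hwJ

theorem sh_add {y : ℂ} {S : Set ℂ} (hS : IsPreconnected S) (hd : Disjoint S (Jh a b J y))
    (hn : (S ∩ Sh a b J y).Nonempty) : S ⊆ Sh a b J y := by
  obtain ⟨z, hz, hz1⟩ := hn
  have h1 := hS.subset_connectedComponentIn hz (Set.subset_compl_iff_disjoint_right.2 hd)
  unfold Sh at hz1 ⊢
  rw [connectedComponentIn_eq hz1]
  exact h1

theorem sh_seg {y w q : ℂ} (hw : w ∈ Sh a b J y) (hq : q ∉ Sh a b J y) :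
    ∃ q' ∈ Jh a b J y, ‖w - q'‖ ≤ ‖w - q‖ := by
  by_contra hcon
  push Not at hcon
  apply hq
  have h1 : segment ℝ w q ⊆ closedBall w ‖w - q‖ := by
    refine (convex_closedBall w ‖w - q‖).segment_subset (mem_closedBall_self (norm_nonneg _)) ?_
    rw [mem_closedBall, dist_eq_norm, norm_sub_rev]
  have h2 : Disjoint (segment ℝ w q) (Jh a b J y) := by
    rw [Set.disjoint_left]
    intro z hz hzJ
    have h3 := h1 hz
    rw [mem_closedBall, dist_eq_norm, norm_sub_rev] at h3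
    exact absurd h3 (not_le.2 (hcon z hzJ))
  exact sh_add (convex_segment w q).isPreconnected h2 ⟨w, left_mem_segment ℝ w q, hw⟩
    (right_mem_segment ℝ w q)

end Pool.Agent.H76.SU
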