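import Pool.Agent.H76.SU.SPW

/-!
# Module SPD: a disc with bounded grand orbit

PROOF. `f = Rf v0`, continuous and open. The open set `K ∋ ∞` has another point `p ≠ ∞` (`OnePoint.denseRange_coe`, or: `K` contains all `z` of large norm). Choose disjoint open sets `B1 ∋ ∞`, `B2 ∋ p` (Hausdorff), both inside `K` (intersect with `K`). `B1` contains all finite points of norm `> R1` for some `R1` (`OnePoint.isOpen_iff_of_mem`: the complement is compact in `ℂ`).
`t = s - k`, `V = f^t '' B2`: open, nonempty, in `Om s` (`om_it`, `k + t = s`), `∞ ∉ Om s` (`om_disj`, `∞ ∈ K ⊆ Om k`, `k ≠ s`). Choose a finite point `y0` of `V` and `r0 > 0` with `ball y0 r0 ⊆ coe⁻¹ V`. Then `ball y0 r0 ⊆ U 0`. Let `z ∈ ball y0 r0`, `gg^n x' = gg^m z`, `Dn n x' ≠ 0`, and suppose `‖x'‖ > R1`, so `x' ∈ B1`. No poles along the orbit of `x'` up to `n` (`dn_pole`): `f^n x' = gg^n x'`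
(`rf_it`). `z ∈ Om s`: `f^j z ∈ Om (s + j)` is not `∞` for all `j` (`om_it`), so no poles along the orbit of `z` (`rf_inf`; induction) and `f^m z = gg^m z`. `z = f^t k'`, `k' ∈ B2`. So `f^n x' = f^(m + t) k'` with `x', k' ∈ K ⊆ Om k`: the point is in `Om (k + n)` and in `Om (k + m + t)`: `n = m + t` (`om_disj`), and `hinj` gives `x' = k'`, but `B1`, `B2` are disjoint.
-/

set_option autoImplicit false

open Filter Topology Polynomial Metric Set MeasureTheory

namespace Pool.Agent.H76.SU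

open Pool.Agent.H44.Fatou Pool.Agent.H32.BT Pool.Agent.H79.Eul Pool.Agent.H79.Par
open Pool.Agent.H35.EX Pool.Agent.H44.RR Pool.Agent.H56.HR

theorem dom_chart {d : ℕ} (hd : 2 ≤ d) {v0 : E d} (hcop : IsCoprime (pol v0.1) (pol v0.2))
    (hdeg : max (pol v0.1).natDegree (pol v0.2).natDegree = d) {x : OnePoint ℂ}
    (hw : Wd (Rf v0) x) {k s : ℕ} (hks : k < s) {K : Set (OnePoint ℂ)} (hK : IsOpen K)
    (hKO : K ⊆ Om (Rf v0) x k) (hinj : ∀ n : ℕ, InjOn (Rf v0)^[n] K) (hinf : OnePoint.infty ∈ K) :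
    Dom (pol v0.1) (pol v0.2) (fun n => ((↑) : ℂ → OnePoint ℂ) ⁻¹' Om (Rf v0) x (n + s)) := by
  have hc : Continuous (Rf v0) := rat_continuous hcop
  have ho : IsOpenMap (Rf v0) := rat_open hcop (by rw [hdeg]; omega)
  have hcpt : IsCompact ((((↑) : ℂ → OnePoint ℂ) ⁻¹' K)ᶜ) :=
    ((OnePoint.isOpen_iff_of_mem hinf).1 hK).2
  obtain ⟨R0, hR0⟩ := hcpt.isBounded.exists_norm_le
  have hKR : ∀ z : ℂ, max R0 0 < ‖z‖ → (z : OnePoint ℂ) ∈ K := by
    intro z hz
    by_contra hzK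
    have h1 := hR0 z hzK
    have h2 := le_max_left R0 0
    linarith
  obtain ⟨r1, hr1⟩ : ∃ r1, r1 = max R0 0 := ⟨_, rfl⟩
  have hr10 : 0 ≤ r1 := by rw [hr1]; exact le_max_right _ _
  rw [← hr1] at hKR
  have hnoinf : ∀ j : ℕ, k ≠ j → OnePoint.infty ∉ Om (Rf v0) x j := by
    intro j hj h1
    exact Set.disjoint_left.1 (om_disj hw hj) (hKO hinf) h1
  obtain ⟨B2, hB2⟩ : ∃ B2 : Set (OnePoint ℂ), B2 = (fun w : ℂ => (w : OnePoint ℂ)) ''
      {z : ℂ | r1 < ‖z‖ ∧ ‖z‖ < r1 + 1} := ⟨_, rfl⟩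
  have hB2o : IsOpen B2 := by
    rw [hB2]
    apply OnePoint.isOpenEmbedding_coe.isOpenMap
    exact (isOpen_lt continuous_const continuous_norm).inter (isOpen_lt continuous_norm continuous_const)
  have hB2n : B2.Nonempty := by
    rw [hB2]
    refine ⟨_, ((r1 + 1 / 2 : ℝ) : ℂ), ⟨?_, ?_⟩, rfl⟩
    · rw [Complex.norm_real, Real.norm_eq_abs, abs_of_nonneg (by linarith)]
      linarith
    · rw [Complex.norm_real, Real.norm_eq_abs, abs_of_nonneg (by linarith)]
      linarith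
  have hB2K : B2 ⊆ K := by
    rw [hB2]
    rintro _ ⟨z, hz, rfl⟩
    exact hKR z hz.1
  have hks' : k + (s - k) = s := by omega
  obtain ⟨V, hV⟩ : ∃ V, V = (Rf v0)^[s - k] '' B2 := ⟨_, rfl⟩
  have hVo : IsOpen V := by
    have hit : ∀ j : ℕ, IsOpenMap (Rf v0)^[j] := by
      intro j
      induction j with
      | zero => exact IsOpenMap.id
      | succ j ih => rw [Function.iterate_succ']; exact ho.comp ih
    rw [hV]
    exact hit (s - k) _ hB2o
  have hVs : V ⊆ Om (Rf v0) x s := by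
    rw [hV]
    rintro _ ⟨y, hy, rfl⟩
    have := om_it hc ho hw.1 k (s - k) (hKO (hB2K hy))
    rwa [hks'] at this
  obtain ⟨y0, hy0⟩ : ∃ y0 : ℂ, (y0 : OnePoint ℂ) ∈ V := by
    obtain ⟨v, hv⟩ : V.Nonempty := by
      rw [hV]
      exact hB2n.image _
    induction v using OnePoint.rec with
    | infty => exact absurd (hVs hv) (hnoinf s (by omega))
    | coe y => exact ⟨y, hv⟩
  have hVc : IsOpen (((↑) : ℂ → OnePoint ℂ) ⁻¹' V) := hVo.preimage OnePoint.continuous_coe
  obtain ⟨r0, hr0, hb⟩ := Metric.isOpen_iff.1 hVc y0 hy0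
  refine ⟨y0, r0, r1 + 1, hr0, ?_, ?_⟩
  · intro z hz
    show (z : OnePoint ℂ) ∈ Om (Rf v0) x (0 + s)
    rw [zero_add]
    exact hVs (hb hz)
  · intro x' z hz n m he hD
    by_contra hlt
    push Not at hlt
    have hx'K : (x' : OnePoint ℂ) ∈ K := hKR x' (by linarith)
    have e1 := rf_it (v0 := v0) (dn_pole hD)
    have hzV : (z : OnePoint ℂ) ∈ V := hb hz
    have hzO : ∀ j : ℕ, (Rf v0)^[j] (z : OnePoint ℂ) ≠ OnePoint.infty := by
      intro j h1
      have h2 := om_it hc ho hw.1 s j (hVs hzV)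
      rw [h1] at h2
      exact hnoinf (s + j) (by omega) h2
    have hzp : ∀ j : ℕ, (pol v0.2).eval ((Pool.Agent.H61.TT.gg (pol v0.1) (pol v0.2))^[j] z) ≠ 0 := by
      intro j
      induction j using Nat.strong_induction_on with
      | _ j ih =>
        intro h0
        apply hzO (j + 1)
        rw [Function.iterate_succ_apply', rf_it ih, rf_inf h0]
    have e2 := rf_it (v0 := v0) (z := z) (n := m) fun j _ => hzp j
    rw [hV] at hzV
    obtain ⟨k', hk', hk'z⟩ := hzV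
    have e3 : (Rf v0)^[n] (x' : OnePoint ℂ) = (Rf v0)^[m + (s - k)] k' := by
      rw [e1, he, ← e2, ← hk'z, Function.iterate_add_apply]
    have m1 := om_it hc ho hw.1 k n (hKO hx'K)
    have m2 := om_it hc ho hw.1 k (m + (s - k)) (hKO (hB2K hk'))
    have hnm : n = m + (s - k) := by
      by_contra hne
      have hne' : k + n ≠ k + (m + (s - k)) := by omega
      rw [← e3] at m2
      exact Set.disjoint_left.1 (om_disj hw hne') m1 m2
    rw [← hnm] at e3
    have e4 := hinj n hx'K (hB2K hk') e3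
    rw [hB2] at hk'
    obtain ⟨w, hw1, hw2⟩ := hk'
    rw [← hw2] at e4
    have e5 : x' = w := OnePoint.coe_injective e4
    rw [e5] at hlt
    exact absurd hw1.2 (not_lt.2 hlt.le)

end Pool.Agent.H76.SU
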