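import Pool.Agent.H56.HR.EMN
import Pool.Agent.H76.SU.HUL

/-!
# Module SPO: components of open sets of the sphere are open; wandering components

`Om f x n`: the Fatou component of `f^n x`. `Wd f x`: `x` is in the Fatou set and its component is wandering.
PROOFS. `spo`: the sphere is locally connected: at a finite point the images of small balls under the open embedding `OnePoint.isOpenEmbedding_coe` are connected neighbourhoods; at `∞` take a homeomorphism `φ` of `exists_mob 0` (H32/BT/Mob: `φ 0 = ∞`) and the images under `φ` of connected neighbourhoods of `0`. Direct proof: let `y ∈ connectedComponentIn F x` (so `x ∈ F`, `y ∈ F`);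
choose a preconnected neighbourhood `N ⊆ F` of `y`; `N ⊆ connectedComponentIn F y = connectedComponentIn F x` (`IsPreconnected.subset_connectedComponentIn`, `connectedComponentIn_eq`).
`om_disj`: two components with a common point are equal (`connectedComponentIn_eq`; a component is empty only if the point is not in the set: `f^n x ∈ FS f` by `fs_map_it`). `om_map`: `f '' Om n` is preconnected, in `FS f` (`fs_map`), contains `f^(n+1) x`. `om_it` by induction.
-/

set_option autoImplicit false

open Filter Topology Polynomial Metric Set MeasureTheory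

namespace Pool.Agent.H76.SU

open Pool.Agent.H44.Fatou Pool.Agent.H32.BT Pool.Agent.H79.Eul Pool.Agent.H79.Par
open Pool.Agent.H35.EX Pool.Agent.H44.RR Pool.Agent.H56.HR

/-- the Fatou component of `f^n x` -/
def Om (f : OnePoint ℂ → OnePoint ℂ) (x : OnePoint ℂ) (n : ℕ) : Set (OnePoint ℂ) :=
  connectedComponentIn (FS f) (f^[n] x)

/-- the component of `x` is wandering -/
def Wd (f : OnePoint ℂ → OnePoint ℂ) (x : OnePoint ℂ) : Prop :=
  x ∈ FS f ∧ ∀ m n : ℕ, m ≠ n → Om f x m ≠ Om f x n

/-- the sphere has small preconnected neighbourhoods -/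
theorem pre_nhds {F : Set (OnePoint ℂ)} {y : OnePoint ℂ} (hF : F ∈ 𝓝 y) :
    ∃ N : Set (OnePoint ℂ), N ∈ 𝓝 y ∧ IsPreconnected N ∧ N ⊆ F := by
  induction y using OnePoint.rec with
  | infty =>
    obtain ⟨s, ⟨hs1, hs2⟩, hs3⟩ := (OnePoint.hasBasis_nhds_infty (X := ℂ)).mem_iff.1 hF
    obtain ⟨r, hr⟩ := hs2.isBounded.subset_closedBall 0
    refine ⟨(fun w : ℂ => (w : OnePoint ℂ)) '' (closedBall 0 r)ᶜ ∪ {OnePoint.infty},
      (OnePoint.hasBasis_nhds_infty (X := ℂ)).mem_of_mem
        ⟨isClosed_closedBall, isCompact_closedBall 0 r⟩, ?_, ?_⟩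
    · have h1 : IsPreconnected ((fun w : ℂ => (w : OnePoint ℂ)) '' (closedBall 0 r)ᶜ) :=
        (ext_pc 0 r).image _ OnePoint.continuous_coe.continuousOn
      refine h1.subset_closure Set.subset_union_left ?_
      rintro z (hz | hz)
      · exact subset_closure hz
      · rw [Set.mem_singleton_iff] at hz
        rw [hz, mem_closure_iff_nhds]
        intro T hT
        obtain ⟨t, ⟨ht1, ht2⟩, ht3⟩ := (OnePoint.hasBasis_nhds_infty (X := ℂ)).mem_iff.1 hT
        obtain ⟨r', hr'⟩ := ht2.isBounded.subset_closedBall 0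
        have h2 : ((closedBall (0 : ℂ) (max r r'))ᶜ).Nonempty := by
          rw [Set.nonempty_iff_ne_empty]
          intro h0
          apply ext_nb 0 (max r r')
          rw [h0]
          exact Bornology.isBounded_empty
        obtain ⟨w, hw⟩ := h2
        refine ⟨(w : OnePoint ℂ), ht3 (Or.inl ⟨w, fun h => hw ?_, rfl⟩), ⟨w, fun h => hw ?_, rfl⟩⟩
        · exact closedBall_subset_closedBall (le_max_right r r') (hr' h)
        · exact closedBall_subset_closedBall (le_max_left r r') h
    · refine Set.union_subset ?_ (fun z hz => hs3 (Or.inr hz))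
      rintro _ ⟨w, hw, rfl⟩
      exact hs3 (Or.inl ⟨w, fun h => hw (hr h), rfl⟩)
  | coe w =>
    have h1 : (fun w : ℂ => (w : OnePoint ℂ)) ⁻¹' F ∈ 𝓝 w :=
      OnePoint.continuous_coe.continuousAt.preimage_mem_nhds hF
    obtain ⟨r, hr, h2⟩ := Metric.mem_nhds_iff.1 h1
    refine ⟨(fun w : ℂ => (w : OnePoint ℂ)) '' ball w r, ?_, ?_, ?_⟩
    · exact OnePoint.isOpenEmbedding_coe.isOpenMap.image_mem_nhds (ball_mem_nhds w hr)
    · exact (convex_ball w r).isPreconnected.image _ OnePoint.continuous_coe.continuousOn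
    · rintro _ ⟨z, hz, rfl⟩
      exact h2 hz

theorem spo {F : Set (OnePoint ℂ)} (hF : IsOpen F) (x : OnePoint ℂ) :
    IsOpen (connectedComponentIn F x) := by
  rw [isOpen_iff_mem_nhds]
  intro y hy
  obtain ⟨N, hN1, hN2, hN3⟩ := pre_nhds (hF.mem_nhds (connectedComponentIn_subset _ _ hy))
  refine Filter.mem_of_superset hN1 ?_
  rw [connectedComponentIn_eq hy]
  exact hN2.subset_connectedComponentIn (mem_of_mem_nhds hN1) hN3

theorem om_open (f : OnePoint ℂ → OnePoint ℂ) (x : OnePoint ℂ) (n : ℕ) : IsOpen (Om f x n) :=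
  spo (fs_open f) _

theorem om_sub (f : OnePoint ℂ → OnePoint ℂ) (x : OnePoint ℂ) (n : ℕ) : Om f x n ⊆ FS f :=
  connectedComponentIn_subset _ _

theorem om_mem {f : OnePoint ℂ → OnePoint ℂ} (ho : IsOpenMap f) {x : OnePoint ℂ} (hx : x ∈ FS f)
    (n : ℕ) : f^[n] x ∈ Om f x n :=
  mem_connectedComponentIn (fs_map_it ho n hx)

theorem om_disj {f : OnePoint ℂ → OnePoint ℂ} {x : OnePoint ℂ} (h : Wd f x) {m n : ℕ}
    (hmn : m ≠ n) : Disjoint (Om f x m) (Om f x n) := by
  rw [Set.disjoint_left]
  intro z hz1 hz2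
  apply h.2 m n hmn
  unfold Om at hz1 hz2 ⊢
  rw [connectedComponentIn_eq hz1, connectedComponentIn_eq hz2]

theorem om_map {f : OnePoint ℂ → OnePoint ℂ} (hc : Continuous f) (ho : IsOpenMap f)
    {x : OnePoint ℂ} (hx : x ∈ FS f) (n : ℕ) : MapsTo f (Om f x n) (Om f x (n + 1)) := by
  intro z hz
  have h1 : IsPreconnected (f '' Om f x n) :=
    (isPreconnected_connectedComponentIn (F := FS f) (x := f^[n] x)).image f hc.continuousOn
  have h2 : f '' Om f x n ⊆ FS f := by
    rintro _ ⟨w, hw, rfl⟩
    exact fs_map ho (om_sub f x n hw)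
  have h3 : f^[n + 1] x ∈ f '' Om f x n := by
    rw [Function.iterate_succ_apply']
    exact ⟨_, om_mem ho hx n, rfl⟩
  exact h1.subset_connectedComponentIn h3 h2 ⟨z, hz, rfl⟩

theorem om_it {f : OnePoint ℂ → OnePoint ℂ} (hc : Continuous f) (ho : IsOpenMap f)
    {x : OnePoint ℂ} (hx : x ∈ FS f) (n j : ℕ) : MapsTo f^[j] (Om f x n) (Om f x (n + j)) := by
  induction j with
  | zero => exact fun z hz => hz
  | succ j ih =>
    intro z hz
    rw [Function.iterate_succ_apply']
    exact om_map hc ho hx (n + j) (ih hz)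

end Pool.Agent.H76.SU
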