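import Pool.Agent.H76.SU.SPF
import Pool.Agent.H76.SU.Defs
import Pool.Agent.H91.Fatou.Mob

/-!
# Module SPW: the wandering sequence in a chart with infinity in one of the components

PROOFS. `f = Rf v0`, `a = pol v0.1`, `b = pol v0.2`; `f` is continuous (`rat_continuous`) and open (`rat_open`, H32/BT/Crit). `rf_gg`: if `b z ≠ 0` then `f z = gg a b z` (`rat_coe_of_ne`); `rf_inf`: if `b z = 0` then `f z = ∞` (`rat_coe`, `pt`). `rf_it`: if `Dn a b n z ≠ 0` or the orbit has no poles then `f^n z = (gg a b)^[n] z` (induction).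
`wan_chart`: let `U n = coe⁻¹ (Om f x (n + s))`, `J = coe⁻¹ (FS f)ᶜ`. `∞ ∈ Om k`, so `∞ ∉ Om m` for `m ≠ k` (`om_disj`). `R`: the complement of the open set `Om k ∋ ∞` is compact in `ℂ` (`OnePoint.isOpen_iff_of_mem`), so `(z : OnePoint ℂ) ∉ Om k` implies `‖z‖ < R`. `s0`: the finitely many zeros `c` of `ww a b` (`ww a b = Wr a b ≠ 0`: `wr_ne_zero`, H44/Fatou/Coset)
and the finitely many points `f c` are each in at most one `Om n`: choose `s0 > k` beyond all of them. Fields: `op`: `om_open`, `continuous_coe`. `pc`: `IsPreconnected.preimage_of_isOpenMap` (`OnePoint.isOpenEmbedding_coe`; `Om ⊆ range coe` as `∞ ∉`; `isPreconnected_connectedComponentIn`). `ne`: `om_mem`, the point `f^s x ≠ ∞`. `dj`: `om_disj`. `np`: `f z ∈ Om (n + s + 1)` (`om_map`)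
is not `∞`, `rf_inf`. `mp`: `rf_gg`. `nc`, `nv`: choice of `s0`. `Jc`: `fs_open`. `Jb`: `Om k ⊆ FS f`. `Jd`: `om_sub`. `Jf`: `z` in the frontier of `U n`: `z ∈ closure (U n)`, so `(z : OnePoint ℂ) ∈ closure (Om (n + s))`; if `z ∈ FS f` then `z ∈ Om (n + s)` by `comp_cl` (H56/HR/FBS), so `z ∈ U n`, which is open: contradiction. `Jp`: if `b z = 0` then `f z = ∞ ∈ FS f` and
`z ∈ FS f` by `fs_back`. `Ji`: `fs_back` and `rf_gg`. `esc`: if there are `z ∈ J`, `ρ`, `M` without such `y, n` then all orbits of points of `ball z ρ` are finite and bounded by `M`: `emn_ch` (H56/HR/EMN; `it v0 n`/`rf_it`) at every point of `ball z (ρ/2)` (with radius `ρ/2`): `EqAt` on a neighbourhood of `z`, so `z ∈ FS f` (interior; `coe` is an open map).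
-/

set_option autoImplicit false

open Filter Topology Polynomial Metric Set MeasureTheory

namespace Pool.Agent.H76.SU

open Pool.Agent.H44.Fatou Pool.Agent.H32.BT Pool.Agent.H79.Eul Pool.Agent.H79.Par
open Pool.Agent.H35.EX Pool.Agent.H44.RR Pool.Agent.H56.HR

theorem rf_gg {d : ℕ} {v0 : E d} {z : ℂ} (hz : (pol v0.2).eval z ≠ 0) :
    Rf v0 (z : OnePoint ℂ) = ((Pool.Agent.H61.TT.gg (pol v0.1) (pol v0.2) z : ℂ) : OnePoint ℂ) :=
  rat_coe_of_ne hz

theorem rf_inf {d : ℕ} {v0 : E d} {z : ℂ} (hz : (pol v0.2).eval z = 0) :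
    Rf v0 (z : OnePoint ℂ) = OnePoint.infty := by
  unfold Rf
  rw [rat_coe]
  unfold pt
  rw [if_pos hz]

theorem rf_it {d : ℕ} {v0 : E d} {z : ℂ} {n : ℕ}
    (hz : ∀ k < n, (pol v0.2).eval ((Pool.Agent.H61.TT.gg (pol v0.1) (pol v0.2))^[k] z) ≠ 0) :
    (Rf v0)^[n] (z : OnePoint ℂ) =
      (((Pool.Agent.H61.TT.gg (pol v0.1) (pol v0.2))^[n] z : ℂ) : OnePoint ℂ) := by
  induction n with
  | zero => rfl
  | succ n ih =>
    rw [Function.iterate_succ_apply', ih fun k hk => hz k (by omega),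
      rf_gg (hz n (Nat.lt_succ_self n)), Function.iterate_succ_apply']

private theorem spw_fin {f : OnePoint ℂ → OnePoint ℂ} {x : OnePoint ℂ} (hw : Wd f x)
    {S : Set (OnePoint ℂ)} (hS : S.Finite) (k : ℕ) :
    ∃ s0 : ℕ, k < s0 ∧ ∀ n ≥ s0, ∀ p ∈ S, p ∉ Om f x n := by
  have h1 : (⋃ p ∈ S, {n : ℕ | p ∈ Om f x n}).Finite := by
    refine hS.biUnion fun p _ => Set.Subsingleton.finite ?_
    intro m hm n hn
    by_contra hne
    exact Set.disjoint_left.1 (om_disj hw hne) hm hn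
  obtain ⟨N, hN⟩ := h1.bddAbove
  refine ⟨max N k + 1, by omega, fun n hn p hp hpn => ?_⟩
  have h2 : n ≤ N := hN (mem_iUnion₂.2 ⟨p, hp, hpn⟩)
  omega

theorem wan_chart {d : ℕ} (hd : 2 ≤ d) {v0 : E d} (hcop : IsCoprime (pol v0.1) (pol v0.2))
    (hdeg : max (pol v0.1).natDegree (pol v0.2).natDegree = d) {x : OnePoint ℂ}
    (hw : Wd (Rf v0) x) {k : ℕ} (hk : OnePoint.infty ∈ Om (Rf v0) x k) :
    ∃ (R : ℝ) (s0 : ℕ), k < s0 ∧ ∀ s ≥ s0, Wan (pol v0.1) (pol v0.2)
      (fun n => ((↑) : ℂ → OnePoint ℂ) ⁻¹' Om (Rf v0) x (n + s))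
      (((↑) : ℂ → OnePoint ℂ) ⁻¹' (FS (Rf v0))ᶜ) R := by
  have hcont : Continuous (Rf v0) := rat_continuous hcop
  have hopen : IsOpenMap (Rf v0) := rat_open hcop (by rw [hdeg]; omega)
  have hww : Pool.Agent.H61.TT.ww (pol v0.1) (pol v0.2) ≠ 0 := wr_ne_zero hcop (by rw [hdeg]; omega)
  have hO := om_open (Rf v0) x
  obtain ⟨R, hR⟩ : ∃ R : ℝ, ∀ z : ℂ, (z : OnePoint ℂ) ∉ Om (Rf v0) x k → ‖z‖ < R := by
    have h1 := ((OnePoint.isOpen_iff_of_mem hk).1 (hO k)).2
    obtain ⟨M, hM⟩ := h1.isBounded.exists_norm_le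
    exact ⟨M + 1, fun z hz => lt_of_le_of_lt (hM z hz) (by linarith)⟩
  have hroots : {c : ℂ | (Pool.Agent.H61.TT.ww (pol v0.1) (pol v0.2)).IsRoot c}.Finite :=
    Polynomial.finite_setOfPred_isRoot hww
  obtain ⟨s0, hks0, hs0⟩ := spw_fin hw (S :=
    ((↑) : ℂ → OnePoint ℂ) '' {c : ℂ | (Pool.Agent.H61.TT.ww (pol v0.1) (pol v0.2)).IsRoot c} ∪
    (fun c : ℂ => Rf v0 (c : OnePoint ℂ)) ''
      {c : ℂ | (Pool.Agent.H61.TT.ww (pol v0.1) (pol v0.2)).IsRoot c})
    ((hroots.image _).union (hroots.image _)) k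
  refine ⟨R, s0, hks0, fun s hs => ?_⟩
  have hinf : ∀ n, OnePoint.infty ∉ Om (Rf v0) x (n + s) := by
    intro n hn
    exact Set.disjoint_left.1 (om_disj hw (show k ≠ n + s by omega)) hk hn
  have hmap : ∀ n, ∀ z : ℂ, (z : OnePoint ℂ) ∈ Om (Rf v0) x (n + s) →
      Rf v0 (z : OnePoint ℂ) ∈ Om (Rf v0) x (n + 1 + s) := by
    intro n z hz
    have h1 := om_map hcont hopen hw.1 (n + s) hz
    rwa [show n + s + 1 = n + 1 + s by omega] at h1
  have hnp : ∀ n, ∀ z : ℂ, (z : OnePoint ℂ) ∈ Om (Rf v0) x (n + s) → (pol v0.2).eval z ≠ 0 := by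
    intro n z hz h0
    have h1 := hmap n z hz
    rw [rf_inf h0] at h1
    exact hinf (n + 1) h1
  have hJp : ∀ z : ℂ, (z : OnePoint ℂ) ∉ FS (Rf v0) → (pol v0.2).eval z ≠ 0 := by
    intro z hz h0
    apply hz
    apply fs_back hcont
    rw [rf_inf h0]
    exact om_sub _ _ _ hk
  refine ⟨hcop, hww, fun n => (hO _).preimage OnePoint.continuous_coe, ?_, ?_, ?_, ?_,
    fun n z hz => hnp n z hz, ?_, ?_, ?_, ?_, ?_, ?_, ?_, fun z hz => hJp z hz, ?_, ?_⟩
  · -- preconnected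
    intro n
    refine isPreconnected_connectedComponentIn.preimage_of_isOpenMap OnePoint.coe_injective
      OnePoint.isOpenEmbedding_coe.isOpenMap ?_
    intro w hw'
    induction w using OnePoint.rec with
    | infty => exact absurd hw' (hinf n)
    | coe w => exact ⟨w, rfl⟩
  · -- nonempty
    have h1 := om_mem hopen hw.1 (0 + s)
    induction hx : (Rf v0)^[0 + s] x using OnePoint.rec with
    | infty =>
      rw [hx] at h1
      exact absurd h1 (hinf 0)
    | coe w =>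
      rw [hx] at h1
      exact ⟨w, h1⟩
  · intro m n hmn
    exact (om_disj hw (show m + s ≠ n + s by omega)).preimage _
  · intro n z hz
    rw [mem_ball_zero_iff]
    apply hR
    intro h1
    exact Set.disjoint_left.1 (om_disj hw (show k ≠ n + s by omega)) h1 hz
  · intro n z hz
    have h1 := hmap n z hz
    rw [rf_gg (hnp n z hz)] at h1
    exact h1
  · intro n z hz h0
    exact hs0 (n + s) (by omega) _ (Or.inl ⟨z, h0, rfl⟩) hz
  · intro n c hb h0 hc
    refine hs0 (n + s) (by omega) _ (Or.inr ⟨c, h0, rfl⟩) ?_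
    show Rf v0 (c : OnePoint ℂ) ∈ _
    rw [rf_gg hb]
    exact hc
  · exact (fs_open _).isClosed_compl.preimage OnePoint.continuous_coe
  · intro z hz
    rw [mem_ball_zero_iff]
    exact hR z fun h1 => hz (om_sub _ _ _ h1)
  · intro n
    rw [Set.disjoint_left]
    intro z hz hzU
    exact hz (om_sub _ _ _ hzU)
  · intro n z hz
    show (z : OnePoint ℂ) ∉ FS (Rf v0)
    intro hzF
    have hop : IsOpen (((↑) : ℂ → OnePoint ℂ) ⁻¹' Om (Rf v0) x (n + s)) :=
      (hO _).preimage OnePoint.continuous_coe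
    rw [hop.frontier_eq] at hz
    apply hz.2
    have h1 : (z : OnePoint ℂ) ∈ closure (Om (Rf v0) x (n + s)) :=
      OnePoint.continuous_coe.closure_preimage_subset _ hz.1
    exact comp_cl (fs_map_it hopen _ hw.1) h1 hzF
  · intro z hz
    show ((Pool.Agent.H61.TT.gg (pol v0.1) (pol v0.2) z : ℂ) : OnePoint ℂ) ∉ FS (Rf v0)
    rw [← rf_gg (hJp z hz)]
    exact fun h1 => hz (fs_back hcont h1)
  · intro z hz ρ hρ M
    by_contra hcon
    push Not at hcon
    apply hz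
    have hE : ∀ z' ∈ ball z ρ, EqAt (Rf v0) (z' : OnePoint ℂ) := by
      intro z' hz'
      obtain ⟨r, hr, hrs⟩ := Metric.isOpen_iff.1 isOpen_ball z' hz'
      refine emn_ch (M := M) hr fun n w hw' => ?_
      refine ⟨_, (hcon w (hrs hw') n).2, rf_it fun j _ => (hcon w (hrs hw') j).1⟩
    refine mem_interior.2 ⟨((↑) : ℂ → OnePoint ℂ) '' ball z ρ, ?_,
      OnePoint.isOpenEmbedding_coe.isOpenMap _ isOpen_ball, mem_image_of_mem _ (mem_ball_self hρ)⟩
    rintro _ ⟨z', hz', rfl⟩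
    exact hE z' hz'

end Pool.Agent.H76.SU
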