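import Pool.Agent.H76.SU.BIG
import Pool.Agent.H76.SU.MOD
import Pool.Agent.H76.SU.RSC
import Pool.Agent.H76.SU.SHB

/-!
# Module VEQ: the rescaled vector fields are locally bounded and equicontinuous

PROOF. Put `l = Dn n y`, `c = f^n y`: `vn n w = Ct m (c + l w) / l = Ct m_n w` with `m_n ξ = m (c + l ξ) * ph l` (`rsc`), `Bm B R'_n m_n`. Let `s = r' / 64` (a positive real number as a complex number). `jn_univ` on `ball y (r' / 2)` with `x = y`: `ball 0 (r' / 32) ⊆ gn n '' ball y (r' / 2)`, so `s = gn n x_n`, `x_n ∈ ball y (r' / 2)`. `vn n (gn n x) = v (f^n x) / Dn n y = Dn n x * v x / Dn n y`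
(`an_gn`, `vf_it`; no poles: `Wan.it`). So `‖vn n 0‖ = ‖v y‖`, `‖vn n s‖ = ‖Dn n x_n / Dn n y‖ ‖v x_n‖ ≤ KK * C0` (`distort` for `f^n` on `ball y r'`, `C0` the bound of `v`, `ctb_bd`). `mod_main` with this `s` and `ρ`: `‖vn n w‖ ≤ C B + (1 + ρ / s) ‖v y‖ + (ρ / s) KK C0`, and the difference: `C B √‖w - w'‖ + (‖w - w'‖ / s) (‖vn n 0‖ + ‖vn n s‖)`, `‖w - w'‖ ≤ √(2 ρ) √‖w - w'‖`.
-/

set_option autoImplicit false

open Filter Topology Polynomial Metric Set MeasureTheory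
open scoped ContDiff

namespace Pool.Agent.H76.SU

open Pool.Agent.H61.TT H73.BR

variable {a b : Polynomial ℂ} {U : ℕ → Set ℂ} {J : Set ℂ} {R : ℝ}

theorem vn_gn (h : Wan a b U J R) {v : ℂ → ℂ}
    (heq : ∀ z, b.eval z ≠ 0 → v (gg a b z) = dg a b z * v z) {y x : ℂ} (hy : y ∈ U 0) (hx : x ∈ U 0)
    (n : ℕ) : vn a b y v n (gn a b y n x) = Dn a b n x / Dn a b n y * v x := by
  unfold vn
  rw [an_gn y n x (h.ne0 n hy), vf_it heq n fun k _ => h.it k hx]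
  ring

theorem veq (h : Wan a b U J R) {y : ℂ} {r' : ℝ} (hr : 0 < r') (hU : ball y r' ⊆ U 0)
    (hinj : ∀ n : ℕ, InjOn (gg a b)^[n] (ball y r')) {B R0 : ℝ} {m : ℂ → ℂ} (hm : Bm B R0 m)
    (heq : ∀ z, b.eval z ≠ 0 → Ct m (gg a b z) = dg a b z * Ct m z) (ρ : ℝ) :
    ∃ C : ℝ, 0 ≤ C ∧ ∀ (n : ℕ) (w w' : ℂ), ‖w‖ ≤ ρ → ‖w'‖ ≤ ρ →
      ‖vn a b y (Ct m) n w‖ ≤ C ∧
      ‖vn a b y (Ct m) n w - vn a b y (Ct m) n w'‖ ≤ C * √‖w - w'‖ := by
  have hy : y ∈ U 0 := hU (mem_ball_self hr)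
  have hB : 0 ≤ B := (norm_nonneg _).trans (hm.bd 0)
  obtain ⟨C0, hC0, hC0b⟩ := ctb_bd hm
  have hK := Pool.Agent.H80.AJ.KK_pos
  obtain ⟨ρ1, hρ1⟩ : ∃ ρ1 : ℝ, ρ1 = max ρ 1 := ⟨_, rfl⟩
  have hρ1a : ρ ≤ ρ1 := by
    rw [hρ1]
    exact le_max_left _ _
  have hρ1b : 1 ≤ ρ1 := by
    rw [hρ1]
    exact le_max_right _ _
  have hρ0 : 0 < ρ1 := lt_of_lt_of_le one_pos hρ1b
  obtain ⟨s, hs⟩ : ∃ s : ℂ, s = ((r' / 64 : ℝ) : ℂ) := ⟨_, rfl⟩
  have hsn : ‖s‖ = r' / 64 := by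
    rw [hs, Complex.norm_real, Real.norm_eq_abs, abs_of_pos (by positivity)]
  have hs0 : s ≠ 0 := by
    rw [← norm_pos_iff, hsn]
    positivity
  have hsp : 0 < ‖s‖ := norm_pos_iff.2 hs0
  obtain ⟨C, hC, hmod⟩ := mod_main hs0 ρ1
  -- the values at `0` and `s`
  have e0 : ∀ n, gn a b y n y = 0 := by
    intro n
    unfold gn
    rw [sub_self, zero_div]
  have hF0 : ∀ n, vn a b y (Ct m) n 0 = Ct m y := by
    intro n
    have h1 := vn_gn h heq hy hy n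
    rw [e0, div_self (h.ne0 n hy), one_mul] at h1
    exact h1
  have hsub : ball y (r' / 2) ⊆ ball y r' := ball_subset_ball (half_le_self hr.le)
  have hF1 : ∀ n, ‖vn a b y (Ct m) n s‖ ≤ Pool.Agent.H80.AJ.KK * C0 := by
    intro n
    have h1 := jn_univ h (half_pos hr) (hsub.trans hU) (fun n => (hinj n).mono hsub)
      (mem_ball_self (half_pos hr)) n
    rw [e0, sub_self, norm_zero, sub_zero, div_self (h.ne0 n hy), norm_one, mul_one] at h1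
    obtain ⟨x, hx, hxs⟩ := h1 (show s ∈ ball (0 : ℂ) (r' / 2 / 16) by
      rw [mem_ball_zero_iff, hsn]
      linarith)
    have hxU : x ∈ U 0 := hU (hsub hx)
    rw [← hxs, vn_gn h heq hy hxU n, norm_mul, norm_div]
    have h2 := Pool.Agent.H80.AJ.distort hr ((h.diff 0 n).mono hU) (hinj n)
      (ball_subset_closedBall hx) (mem_closedBall_self (half_pos hr).le : y ∈ closedBall y (r' / 2))
    rw [(h.der n hxU).deriv, (h.der n hy).deriv] at h2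
    have h3 : ‖Dn a b n x‖ / ‖Dn a b n y‖ ≤ Pool.Agent.H80.AJ.KK := by
      rw [div_le_iff₀ (norm_pos_iff.2 (h.ne0 n hy))]
      exact h2
    exact mul_le_mul h3 (hC0b x) (norm_nonneg _) hK.le
  obtain ⟨F, hF⟩ : ∃ F : ℝ, F = C0 + Pool.Agent.H80.AJ.KK * C0 := ⟨_, rfl⟩
  have hF00 : 0 ≤ F := by
    rw [hF]
    positivity
  refine ⟨C * B + (1 + ρ1 / ‖s‖) * F + √(2 * ρ1) / ‖s‖ * F, by positivity,
    fun n w w' hw hw' => ?_⟩
  obtain ⟨⟨R', hR'⟩, hrs⟩ := rsc hm (c := (gg a b)^[n] y) (h.ne0 n hy)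
  have hvn : ∀ w, vn a b y (Ct m) n w =
      Ct (fun ξ => m ((gg a b)^[n] y + Dn a b n y * ξ) * ph (Dn a b n y)) w := by
    intro w
    rw [← hrs]
    rfl
  obtain ⟨hm1, hm2⟩ := hmod B R' _ hR' w w' (hw.trans hρ1a) (hw'.trans hρ1a)
  rw [← hvn, ← hvn, ← hvn] at hm1
  rw [← hvn, ← hvn, ← hvn, ← hvn] at hm2
  have hF0n : ‖vn a b y (Ct m) n 0‖ ≤ C0 := by
    rw [hF0]
    exact hC0b y
  have hF1n := hF1 n
  obtain ⟨A0, hA0⟩ : ∃ A0, A0 = vn a b y (Ct m) n 0 := ⟨_, rfl⟩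
  obtain ⟨A1, hA1⟩ : ∃ A1, A1 = vn a b y (Ct m) n s := ⟨_, rfl⟩
  rw [← hA0] at hm1 hm2 hF0n
  rw [← hA1] at hm1 hm2 hF1n
  have hKC : 0 ≤ Pool.Agent.H80.AJ.KK * C0 := mul_nonneg hK.le hC0
  constructor
  · have h1 : vn a b y (Ct m) n w = (vn a b y (Ct m) n w - ((1 - w / s) * A0 + w / s * A1)) +
        ((1 - w / s) * A0 + w / s * A1) := by ring
    have h2 : ‖w / s‖ ≤ ρ1 / ‖s‖ := by
      rw [norm_div]
      exact div_le_div_of_nonneg_right (hw.trans hρ1a) hsp.le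
    have h3 : ‖1 - w / s‖ ≤ 1 + ρ1 / ‖s‖ := by
      refine (norm_sub_le _ _).trans ?_
      rw [norm_one]
      linarith
    have hq : 0 ≤ ρ1 / ‖s‖ := by positivity
    calc ‖vn a b y (Ct m) n w‖ ≤ C * B + ‖(1 - w / s) * A0 + w / s * A1‖ := by
          rw [h1]
          exact (norm_add_le _ _).trans (add_le_add hm1 le_rfl)
      _ ≤ C * B + (‖(1 - w / s) * A0‖ + ‖w / s * A1‖) := by
          linarith [norm_add_le ((1 - w / s) * A0) (w / s * A1)]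
      _ ≤ C * B + ((1 + ρ1 / ‖s‖) * C0 + (1 + ρ1 / ‖s‖) * (Pool.Agent.H80.AJ.KK * C0)) := by
          rw [norm_mul, norm_mul]
          have k1 := mul_le_mul h3 hF0n (norm_nonneg _) (by positivity)
          have k2 := mul_le_mul (h2.trans (by linarith : ρ1 / ‖s‖ ≤ 1 + ρ1 / ‖s‖)) hF1n
            (norm_nonneg _) (by positivity)
          linarith
      _ ≤ C * B + (1 + ρ1 / ‖s‖) * F + √(2 * ρ1) / ‖s‖ * F := by
          rw [hF]
          have k3 : 0 ≤ √(2 * ρ1) / ‖s‖ * (C0 + Pool.Agent.H80.AJ.KK * C0) := by positivity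
          linarith
  · have h1 : vn a b y (Ct m) n w - vn a b y (Ct m) n w' =
        ((vn a b y (Ct m) n w - ((1 - w / s) * A0 + w / s * A1)) -
          (vn a b y (Ct m) n w' - ((1 - w' / s) * A0 + w' / s * A1))) +
        ((w - w') / s) * (A1 - A0) := by
      field_simp
      ring
    have h2 : ‖w - w'‖ ≤ √(2 * ρ1) * √‖w - w'‖ := by
      have k1 : ‖w - w'‖ ≤ 2 * ρ1 := by
        refine (norm_sub_le _ _).trans ?_
        linarith
      calc ‖w - w'‖ = √‖w - w'‖ * √‖w - w'‖ := (Real.mul_self_sqrt (norm_nonneg _)).symm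
        _ ≤ √(2 * ρ1) * √‖w - w'‖ :=
          mul_le_mul_of_nonneg_right (Real.sqrt_le_sqrt k1) (Real.sqrt_nonneg _)
    have h3 : ‖(w - w') / s * (A1 - A0)‖ ≤ √(2 * ρ1) / ‖s‖ * F * √‖w - w'‖ := by
      rw [norm_mul, norm_div]
      have k1 : ‖A1 - A0‖ ≤ F := by
        refine (norm_sub_le _ _).trans ?_
        rw [hF]
        linarith
      calc ‖w - w'‖ / ‖s‖ * ‖A1 - A0‖ ≤ (√(2 * ρ1) * √‖w - w'‖) / ‖s‖ * F :=
            mul_le_mul (div_le_div_of_nonneg_right h2 hsp.le) k1 (norm_nonneg _) (by positivity)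
        _ = √(2 * ρ1) / ‖s‖ * F * √‖w - w'‖ := by ring
    rw [h1]
    refine (norm_add_le _ _).trans ((add_le_add hm2 h3).trans ?_)
    have k4 : 0 ≤ (1 + ρ1 / ‖s‖) * F * √‖w - w'‖ := by positivity
    linarith

end Pool.Agent.H76.SU
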